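import Pool.Agent.Mg.F560646.Gf05943

section

namespace Pool.Agent.MP_560646_mp

open Real Set

lemma hb_zero : hb 0 = log 2 := by
  rw [hb, sub_zero, one_div, binEntropy_two_inv]

lemma hb_one : hb 1 = 0 := by simp [hb]

lemma dc_step {f f' : ℝ → ℝ} (h0 : 0 ≤ f 0) (hd : ∀ t ∈ Ioo (0 : ℝ) 1, HasDerivAt f (f' t) t)
    (dc : ∀ z y, 0 < z → z ≤ y → y < 1 → f' z < 0 → f' y < 0) {z y : ℝ} (hz : 0 < z) (h : z ≤ y)
    (hy : y ≤ 1) (hc : ContinuousOn f (Icc 0 y)) (k : f z < 0) : f y ≤ f z := by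
  obtain ⟨u, hu, e⟩ := exists_hasDerivAt_eq_slope f f' hz (hc.mono (Icc_subset_Icc_right h))
    fun t ht => hd t ⟨ht.1, ht.2.trans_le (h.trans hy)⟩
  have neg : f' u < 0 := e ▸ div_neg_of_neg_of_pos (by linarith) (by linarith)
  have sub : ∀ t ∈ interior (Icc z y), z < t ∧ t < 1 := fun t ht => by
    rw [interior_Icc] at ht
    exact ⟨ht.1, ht.2.trans_le hy⟩
  exact antitoneOn_of_hasDerivWithinAt_nonpos (convex_Icc z y) (hc.mono (Icc_subset_Icc_left hz.le))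
    (fun t ht => (hd t ⟨hz.trans (sub t ht).1, (sub t ht).2⟩).hasDerivWithinAt)
    (fun t ht => (dc u t hu.1 (hu.2.trans (sub t ht).1).le (sub t ht).2 neg).le)
    (left_mem_Icc.2 h) (right_mem_Icc.2 h) h

lemma LL_wt {x : ℝ} (h₁ : -1 < x) (h₂ : x < 1) :
    HasDerivAt (fun x => (1 - x ^ 2) * LL x) (2 - 2 * (x * LL x)) x := by
  have a : 1 - x ^ 2 ≠ 0 := by nlinarith
  refine (((hasDerivAt_pow 2 x).const_sub 1).mul (LL_deriv h₁ h₂)).congr_deriv ?_
  field_simp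
  norm_num
  ring

lemma hb_le_LL {x : ℝ} (h₀ : 0 ≤ x) (h₁ : x < 1) :
    4 * x * hb x ≤ 2 * log 2 * ((1 - x ^ 2) * LL x) := by
  have l₁ := log_two_gt_d9
  have l₂ := log_two_lt_d9
  set L := log 2 with hL
  have con : ∀ {f f' : ℝ → ℝ}, (∀ t, -1 < t → t < 1 → HasDerivAt f (f' t) t) → ∀ y, y < 1 →
      ContinuousOn f (Icc 0 y) := fun h y hy t ht =>
    (h t (by linarith [ht.1]) (ht.2.trans_lt hy)).continuousAt.continuousWithinAt
  have d₁ : ∀ t, -1 < t → t < 1 → HasDerivAt (fun x => (4 - 4 * L) * ((1 - x ^ 2) * LL x) -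
      (8 * L - 4) * x) ((4 - 4 * L) * (2 - 2 * (t * LL t)) - (8 * L - 4) * 1) t := fun t a b =>
    ((LL_wt a b).const_mul _).sub ((hasDerivAt_id t).const_mul _)
  have d₂ : ∀ t, -1 < t → t < 1 → HasDerivAt (fun x => 4 * (L - hb x) - (4 * L - 2) * (x * LL x))
      (((4 - 4 * L) * ((1 - t ^ 2) * LL t) - (8 * L - 4) * t) / (1 - t ^ 2)) t := fun t a b => by
    have c : 1 - t ^ 2 ≠ 0 := by nlinarith
    refine ((((hb_deriv a b).const_sub L).const_mul 4).sub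
      (((hasDerivAt_id t).mul (LL_deriv a b)).const_mul _)).congr_deriv ?_
    simp only [id]
    field_simp
    ring
  have s₁ : ∀ z y, 0 < z → z ≤ y → y < 1 → (4 - 4 * L) * ((1 - z ^ 2) * LL z) - (8 * L - 4) * z < 0 →
      (4 - 4 * L) * ((1 - y ^ 2) * LL y) - (8 * L - 4) * y < 0 := fun z y a b c k =>
    (dc_step (by simp [LL_zero]) (fun t ht => d₁ t (by linarith [ht.1]) ht.2)
      (fun z y a b c k => by
        have := mul_le_mul b (LL_mono a.le b c) (LL_nonneg a.le (b.trans_lt c)) (a.le.trans b)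
        nlinarith) a b c.le (con d₁ y c) k).trans_lt k
  have s₂ : ∀ z y, 0 < z → z ≤ y → y < 1 → 4 * (L - hb z) - (4 * L - 2) * (z * LL z) < 0 →
      4 * (L - hb y) - (4 * L - 2) * (y * LL y) < 0 := fun z y a b c k =>
    (dc_step (by simp [hb_zero, hL]) (fun t ht => d₂ t (by linarith [ht.1]) ht.2)
      (fun z y a b c k => div_neg_of_neg_of_pos (s₁ z y a b c
        ((div_neg_iff.1 k).elim (fun h => by nlinarith [h.2]) fun h => h.1)) (by nlinarith))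
      a b c.le (con d₂ y c) k).trans_lt k
  set f : ℝ → ℝ := fun x => 2 * L * ((1 - x) * -negMulLog (1 + x) + (1 + x) * negMulLog (1 - x)) -
    4 * x * hb x with hf
  have e : f = fun x => 2 * L * ((1 - x ^ 2) * LL x) - 4 * x * hb x := by
    ext x
    simp only [hf, negMulLog, LL]
    ring
  have c : Continuous f := by
    have := hb_cont
    have := continuous_negMulLog
    fun_prop
  rcases h₀.eq_or_lt with rfl | h₀
  · simp [LL_zero]
  by_contra k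
  have := dc_step (f := f) (f' := fun x => 4 * (L - hb x) - (4 * L - 2) * (x * LL x))
    (by simp [e, LL_zero]) (fun t ht => by
      rw [e]
      refine (((LL_wt (by linarith [ht.1]) ht.2).const_mul _).sub (((hasDerivAt_id t).const_mul
        4).mul (hb_deriv (by linarith [ht.1]) ht.2))).congr_deriv ?_
      simp only [id]
      ring) s₂ h₀ h₁.le le_rfl c.continuousOn (by rw [e]; linarith)
  rw [e] at this
  simp only [one_pow, sub_self, zero_mul, mul_zero, hb_one] at this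
  linarith

lemma ent_le_cc {p : ℝ} (hp : p ∈ Icc (0 : ℝ) 1) : binEntropy p ≤ 2 * log 2 * cc p := by
  refine cc_wlog (P := fun h c => h ≤ 2 * log 2 * c) (fun q h₀ h₁ => ?_) hp
  rcases h₀.eq_or_lt with rfl | h₀
  · simp [cc]
  rcases h₁.eq_or_lt with rfl | h₁
  · rw [one_div, binEntropy_two_inv]
    unfold cc lg
    norm_num
    linarith
  have e : log (1 - q) - log q = LL (1 - 2 * q) := by
    rw [LL, show 1 + (1 - 2 * q) = 2 * (1 - q) by ring, show 1 - (1 - 2 * q) = 2 * q by ring,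
      log_mul (by norm_num) (by linarith), log_mul (by norm_num) h₀.ne']
    ring
  have k := hb_le_LL (x := 1 - 2 * q) (by linarith) (by linarith)
  have d : 0 < 1 - q - q := by linarith
  rw [hb, show (1 - (1 - 2 * q)) / 2 = q by ring] at k
  unfold cc lg
  rw [if_neg (by linarith), e, ← mul_div_assoc, ← mul_div_assoc, le_div_iff₀ d]
  linarith

lemma mono_from {f f' : ℝ → ℝ} {x : ℝ} (hx : 0 ≤ x) (hd : ∀ t ∈ Icc 0 x, HasDerivAt f (f' t) t)
    (h : ∀ t ∈ Icc 0 x, 0 ≤ f' t) : f 0 ≤ f x :=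
  monotoneOn_of_hasDerivWithinAt_nonneg (convex_Icc 0 x)
    (fun t ht => (hd t ht).continuousAt.continuousWithinAt)
    (fun t ht => (hd t (interior_subset ht)).hasDerivWithinAt)
    (fun t ht => h t (interior_subset ht)) (left_mem_Icc.2 hx) (right_mem_Icc.2 hx) hx

lemma LL_pade {x : ℝ} (h₀ : 0 ≤ x) (h₁ : x < 1) : 6 * x ≤ (3 - x ^ 2) * LL x := by
  have := mono_from (f := fun t => LL t - 6 * t / (3 - t ^ 2))
    (f' := fun t => 8 * t ^ 4 / ((1 - t ^ 2) * (3 - t ^ 2) ^ 2)) h₀ (fun t ht => by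
      have a : 1 - t ^ 2 ≠ 0 := by nlinarith [ht.1, ht.2]
      have b : 3 - t ^ 2 ≠ 0 := by nlinarith [ht.1, ht.2]
      refine ((LL_deriv (by linarith [ht.1]) (ht.2.trans_lt h₁)).sub (((hasDerivAt_id t).const_mul
        6).div ((hasDerivAt_pow 2 t).const_sub 3) b)).congr_deriv ?_
      simp only [id]
      field_simp
      norm_num
      ring) fun t ht => div_nonneg (by positivity)
        (mul_nonneg (by nlinarith [ht.1, ht.2]) (sq_nonneg _))
  simp only [LL_zero, mul_zero, zero_div, sub_zero] at this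
  rw [sub_nonneg, div_le_iff₀ (by nlinarith)] at this
  linarith

/-- An auxiliary function for the curvature in Mrs. Gerber's lemma. -/
noncomputable def nn (u v : ℝ) : ℝ := LL (u * v) - u * ((1 - v ^ 2) * LL v) / (1 - u ^ 2 * v ^ 2)

lemma uv_lt {u v : ℝ} (hu : u ∈ Icc (0 : ℝ) 1) (h₀ : 0 ≤ v) (h₁ : v < 1) :
    0 ≤ u * v ∧ u * v < 1 ∧ 0 < 1 - u ^ 2 * v ^ 2 := by
  have a := mul_nonneg hu.1 h₀
  have b : u * v < 1 := (mul_le_of_le_one_left h₀ hu.2).trans_lt h₁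
  exact ⟨a, b, by nlinarith⟩

lemma nn_deriv {u v : ℝ} (hu : u ∈ Icc (0 : ℝ) 1) (h₀ : 0 ≤ v) (h₁ : v < 1) :
    HasDerivAt (nn u) (u * (1 - u ^ 2) / (1 - u ^ 2 * v ^ 2) ^ 2 * (2 * (v * LL v))) v := by
  obtain ⟨a, b, c⟩ := uv_lt hu h₀ h₁
  have d := ((LL_deriv (by linarith) b).comp v ((hasDerivAt_id v).const_mul u)).sub
    (((LL_wt (by linarith) h₁).const_mul u).div
      (((hasDerivAt_pow 2 v).const_mul (u ^ 2)).const_sub 1) c.ne')
  refine d.congr_deriv ?_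
  rw [mul_pow]
  generalize hA : 1 - u ^ 2 * v ^ 2 = A at *
  field_simp
  rw [← hA]
  norm_num
  ring

lemma nn_bd {u v : ℝ} (hu : u ∈ Icc (0 : ℝ) 1) (h₀ : 0 ≤ v) (h₁ : v < 1) : 0 ≤ nn u v ∧
    nn u v ≤ u * (1 - u ^ 2) / (1 - u ^ 2 * v ^ 2) ^ 2 * (2 * v - (1 - v ^ 2) * LL v) := by
  have p : 0 ≤ u * (1 - u ^ 2) := mul_nonneg hu.1 (by nlinarith [hu.1, hu.2])
  have q : ∀ t ∈ Icc 0 v, 0 ≤ 2 * (t * LL t) := fun t ht =>
    mul_nonneg zero_le_two (mul_nonneg ht.1 (LL_nonneg ht.1 (ht.2.trans_lt h₁)))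
  constructor
  · simpa [nn, LL_zero] using mono_from h₀ (fun t ht => nn_deriv hu ht.1 (ht.2.trans_lt h₁))
      fun t ht => mul_nonneg (by positivity) (q t ht)
  · have := mono_from h₀ (fun t ht => ((((hasDerivAt_id t).const_mul 2).sub
      (LL_wt (by linarith [ht.1]) (ht.2.trans_lt h₁))).const_mul
        (u * (1 - u ^ 2) / (1 - u ^ 2 * v ^ 2) ^ 2)).sub (nn_deriv hu ht.1 (ht.2.trans_lt h₁)))
      fun t ht => by
        rw [show 2 * 1 - (2 - 2 * (t * LL t)) = 2 * (t * LL t) by ring, ← sub_mul]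
        refine mul_nonneg (sub_nonneg.2 ?_) (q t ht)
        have c := (uv_lt hu h₀ h₁).2.2
        have : t ^ 2 ≤ v ^ 2 := pow_le_pow_left₀ ht.1 ht.2 2
        exact div_le_div_of_nonneg_left p (by positivity)
          (pow_le_pow_left₀ c.le (by nlinarith [sq_nonneg u]) 2)
    simpa [nn, LL_zero] using this

lemma xi_mono {u : ℝ} (hu : u ∈ Icc (0 : ℝ) 1) :
    MonotoneOn (fun v => nn u v / ((1 - v ^ 2) * LL v * LL v ^ 2)) (Ioo 0 1) := by
  have hd := fun v (hv : v ∈ Ioo (0 : ℝ) 1) => (nn_deriv hu hv.1.le hv.2).div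
    ((LL_wt (by linarith [hv.1]) hv.2).mul ((LL_deriv (by linarith [hv.1]) hv.2).pow 2))
    (mul_pos (mul_pos (by nlinarith [hv.1, hv.2]) (LL_pos hv.1 hv.2))
      (pow_pos (LL_pos hv.1 hv.2) 2)).ne'
  refine monotoneOn_of_hasDerivWithinAt_nonneg (convex_Ioo 0 1)
    (fun t ht => (hd t ht).continuousAt.continuousWithinAt)
    (fun t ht => (hd t (interior_subset ht)).hasDerivWithinAt) fun v hv => ?_
  replace hv := interior_subset hv
  refine div_nonneg ?_ (sq_nonneg _)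
  obtain ⟨a, b⟩ := nn_bd hu hv.1.le hv.2
  have c := LL_pade hv.1.le hv.2
  have l0 := LL_pos hv.1 hv.2
  have w : 0 < 1 - v ^ 2 := by nlinarith [hv.1, hv.2]
  have k : 0 ≤ u * (1 - u ^ 2) / (1 - u ^ 2 * v ^ 2) ^ 2 :=
    div_nonneg (mul_nonneg hu.1 (by nlinarith [hu.1, hu.2])) (sq_nonneg _)
  simp only [Pi.mul_apply, Pi.pow_apply]
  generalize u * (1 - u ^ 2) / (1 - u ^ 2 * v ^ 2) ^ 2 = K at *
  generalize nn u v = N at *
  have e : (1 - v ^ 2) * LL v * ((2 : ℕ) * LL v ^ (2 - 1) * (2 / (1 - v ^ 2))) = 4 * LL v ^ 2 := by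
    field_simp
    norm_num
    ring
  rw [e]
  have v0 := hv.1
  generalize LL v = l at *
  have f : K * (2 * (v * l)) * ((1 - v ^ 2) * l * l ^ 2) - N * ((2 - 2 * (v * l)) * l ^ 2 + 4 * l ^ 2) =
      l ^ 2 * (K * (2 * (v * l)) * ((1 - v ^ 2) * l) - N * (6 - 2 * (v * l))) := by ring
  rw [f]
  refine mul_nonneg (sq_nonneg l) ?_
  rcases le_total 0 (6 - 2 * (v * l)) with h | h
  · nlinarith [mul_le_mul_of_nonneg_right b h, mul_le_mul_of_nonneg_left c k]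
  · have : 0 ≤ K * (2 * (v * l)) * ((1 - v ^ 2) * l) := by positivity
    nlinarith [mul_nonneg a (neg_nonneg.2 h)]

lemma three_sign {u w b c : ℝ} (hu : u ∈ Icc (0 : ℝ) 1) (hw : w ∈ Ioo (0 : ℝ) 1) {F : ℝ → ℝ}
    (hF : F = fun v => log 2 - hb (u * v) - b * (log 2 - hb v) - c * (log 2 - hb v) ^ 2)
    (h₁ : F w = 0) (h₂ : F 1 = 0) {z : ℝ} (hz : z ∈ Icc (0 : ℝ) 1) :
    (z ≤ w → F z ≤ 0) ∧ (w ≤ z → 0 ≤ F z) := by
  set R : ℝ → ℝ := fun v => u * LL (u * v) / LL v - b - 2 * c * (log 2 - hb v) with hR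
  have h₀ : F 0 = 0 := by simp [hF, hb_zero]
  have cont : Continuous F := by
    have := hb_cont
    rw [hF]
    fun_prop
  have dF : ∀ v ∈ Ioo (0 : ℝ) 1, HasDerivAt F (LL v / 2 * R v) v := fun v hv => by
    obtain ⟨a₁, a₂, -⟩ := uv_lt hu hv.1.le hv.2
    have d := (hb_deriv (by linarith [hv.1]) hv.2).const_sub (log 2)
    rw [hF]
    refine (((((hb_deriv (by linarith) a₂).comp v ((hasDerivAt_id v).const_mul u)).const_sub
      (log 2)).sub (d.const_mul b)).sub ((d.pow 2).const_mul c)).congr_deriv ?_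
    have := (LL_pos hv.1 hv.2).ne'
    simp only [hR, Nat.cast_ofNat, Nat.add_one_sub_one, pow_one]
    field_simp
  have dR : ∀ v ∈ Ioo (0 : ℝ) 1, HasDerivAt R
      (LL v * (-(2 * u * (nn u v / ((1 - v ^ 2) * LL v * LL v ^ 2))) - c)) v := fun v hv => by
    obtain ⟨a₁, a₂, a₃⟩ := uv_lt hu hv.1.le hv.2
    have l := (LL_pos hv.1 hv.2).ne'
    have k : 1 - v ^ 2 ≠ 0 := by nlinarith [hv.1, hv.2]
    refine ((((((LL_deriv (by linarith) a₂).comp v ((hasDerivAt_id v).const_mul u)).const_mul u).div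
      (LL_deriv (by linarith [hv.1]) hv.2) l).sub_const b).sub
      (((hb_deriv (by linarith [hv.1]) hv.2).const_sub (log 2)).const_mul (2 * c))).congr_deriv ?_
    simp only [nn, mul_pow, Function.comp]
    generalize 1 - u ^ 2 * v ^ 2 = A at *
    generalize 1 - v ^ 2 = B at *
    field_simp
    ring
  have dip : ∀ p q r : ℝ, 0 < p → p < q → q < r → r < 1 → R q < R p → R q < R r → False := by
    intro p q r a₁ a₂ a₃ a₄ k₁ k₂
    have mv : ∀ p q : ℝ, 0 < p → p < q → q < 1 → ∃ t ∈ Ioo p q, LL t * (-(2 * u * (nn u t /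
        ((1 - t ^ 2) * LL t * LL t ^ 2))) - c) = (R q - R p) / (q - p) := fun p q a₁ a₂ a₃ =>
      exists_hasDerivAt_eq_slope R _ a₂ (fun t ht => (dR t ⟨a₁.trans_le ht.1,
        ht.2.trans_lt a₃⟩).continuousAt.continuousWithinAt) fun t ht =>
          dR t ⟨a₁.trans ht.1, ht.2.trans a₃⟩
    obtain ⟨s, hs, e⟩ := mv p q a₁ a₂ (a₃.trans a₄)
    obtain ⟨t, ht, e'⟩ := mv q r (a₁.trans a₂) a₃ a₄
    have ms : s ∈ Ioo (0 : ℝ) 1 := ⟨a₁.trans hs.1, by linarith [hs.2]⟩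
    have mt : t ∈ Ioo (0 : ℝ) 1 := ⟨by linarith [ht.1], ht.2.trans a₄⟩
    have x := neg_of_mul_neg_right (e ▸ div_neg_of_neg_of_pos (by linarith) (by linarith))
      (LL_pos ms.1 ms.2).le
    have y := pos_of_mul_pos_right (e' ▸ div_pos (by linarith) (by linarith)) (LL_pos mt.1 mt.2).le
    have := mul_le_mul_of_nonneg_left (xi_mono hu ms mt (hs.2.trans ht.1).le) hu.1
    linarith
  have mv : ∀ p q : ℝ, 0 ≤ p → p < q → q ≤ 1 → ∃ t ∈ Ioo p q, (F p < F q → 0 < R t) ∧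
      (F q < F p → R t < 0) ∧ (F p = F q → R t = 0) := fun p q a₁ a₂ a₃ => by
    obtain ⟨t, ht, e⟩ := exists_hasDerivAt_eq_slope F _ a₂ cont.continuousOn fun t ht =>
      dF t ⟨a₁.trans_lt ht.1, ht.2.trans_le a₃⟩
    have l := half_pos (LL_pos (a₁.trans_lt ht.1) (ht.2.trans_le a₃))
    refine ⟨t, ht, fun k => pos_of_mul_pos_right (e ▸ div_pos (by linarith) (by linarith)) l.le,
      fun k => neg_of_mul_neg_right (e ▸ div_neg_of_neg_of_pos (by linarith) (by linarith)) l.le,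
      fun k => ?_⟩
    rw [k, sub_self, zero_div] at e
    exact (mul_eq_zero.1 e).resolve_left l.ne'
  constructor
  · intro k
    by_contra x
    have z₀ : 0 < z := hz.1.lt_of_ne (by rintro rfl; linarith)
    have z₁ : z < w := k.lt_of_ne (by rintro rfl; linarith)
    obtain ⟨p, hp, a, -, -⟩ := mv 0 z le_rfl z₀ hz.2
    obtain ⟨q, hq, -, b, -⟩ := mv z w hz.1 z₁ hw.2.le
    obtain ⟨r, hr, -, -, c⟩ := mv w 1 hw.1.le hw.2 le_rfl
    have a := a (by linarith)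
    have b := b (by linarith)
    have c := c (by linarith)
    exact dip p q r hp.1 (hp.2.trans hq.1) (hq.2.trans hr.1) hr.2 (by linarith) (by linarith)
  · intro k
    by_contra x
    have z₀ : w < z := k.lt_of_ne (by rintro rfl; linarith)
    have z₁ : z < 1 := hz.2.lt_of_ne (by rintro rfl; linarith)
    obtain ⟨p, hp, -, -, a⟩ := mv 0 w le_rfl hw.1 hw.2.le
    obtain ⟨q, hq, -, b, -⟩ := mv w z hw.1.le z₀ hz.2
    obtain ⟨r, hr, c, -, -⟩ := mv z 1 hz.1 z₁ le_rfl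
    have a := a (by linarith)
    have b := b (by linarith)
    have c := c (by linarith)
    exact dip p q r hp.1 (hp.2.trans hq.1) (hq.2.trans hr.1) hr.2 (by linarith) (by linarith)

lemma le_of_hb {x y : ℝ} (hx : x ∈ Icc (0 : ℝ) 1) (hy : y ∈ Icc (0 : ℝ) 1) (h : hb x ≤ hb y) :
    y ≤ x := by
  have := (binEntropy_strictMonoOn.le_iff_le (a := (1 - x) / 2) (b := (1 - y) / 2)
    ⟨by linarith [hx.2], by rw [← one_div]; linarith [hx.1]⟩
    ⟨by linarith [hy.2], by rw [← one_div]; linarith [hy.1]⟩).1 h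
  linarith

/-- Comparison of the two branches of the conjectured bound. -/
lemma hb_cmp {x y x' y' : ℝ} (hx : x ∈ Icc (0 : ℝ) 1) (hy : y ∈ Icc (0 : ℝ) 1)
    (hx' : x' ∈ Icc (0 : ℝ) 1) (hy' : y' ∈ Icc (0 : ℝ) 1) (e : hb x + hb x' = log 2)
    (e' : hb y + hb y' = log 2) (h : hb x + hb y ≤ log 2) :
    hb (x * y) ≤ hb x + hb y - log 2 + hb (x' * y') := by
  have o : (1 : ℝ) ∈ Icc (0 : ℝ) 1 := right_mem_Icc.2 zero_le_one
  have z : (0 : ℝ) ∈ Icc (0 : ℝ) 1 := left_mem_Icc.2 zero_le_one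
  have a := le_of_hb hx hy' (by linarith)
  have a' := le_of_hb hy hx' (by linarith)
  rcases hx.1.eq_or_lt with rfl | x₀
  · rw [le_antisymm a hy'.1] at e' ⊢
    simp only [zero_mul, mul_zero] at *
    linarith [hb_zero]
  rcases hx'.1.eq_or_lt with rfl | x₀'
  · have := le_of_hb hx o (by linarith [hb_zero, hb_one])
    rw [le_antisymm hx.2 this, one_mul, zero_mul]
    linarith [hb_zero, hb_one]
  have m₀ : hb x < log 2 := lt_of_not_ge fun k =>
    x₀.not_ge (le_of_hb z hx (by linarith [hb_zero]))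
  have m₁ : hb x' < log 2 := lt_of_not_ge fun k =>
    x₀'.not_ge (le_of_hb z hx' (by linarith [hb_zero]))
  have x₁ : x < 1 := hx.2.lt_of_ne (by rintro rfl; linarith [hb_one])
  have x₁' : x' < 1 := hx'.2.lt_of_ne (by rintro rfl; linarith [hb_one])
  obtain ⟨b, c, k₁, k₂⟩ : ∃ b c : ℝ, log 2 - hb (x' * x) - b * hb x' - c * hb x' ^ 2 = 0 ∧
      hb x - b * log 2 - c * log 2 ^ 2 = 0 := by
    have p : hb x' ≠ 0 := by linarith
    have q : hb x ≠ 0 := by linarith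
    have r : hb x + hb x' ≠ 0 := by linarith [log_two_gt_d9]
    rw [← e]
    generalize hb x + hb x' - hb (x' * x) = g
    refine ⟨g / hb x' - (hb x / (hb x + hb x') - g / hb x') / hb x * hb x',
      (hb x / (hb x + hb x') - g / hb x') / hb x, ?_, ?_⟩ <;> field_simp <;> ring
  have s := (three_sign (b := b) (c := c) hx' ⟨x₀, x₁⟩ rfl
    (by simp only [show log 2 - hb x = hb x' by linarith]; exact k₁)
    (by simp only [mul_one, hb_one, sub_zero]; linarith) hy').1 a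
  have s' := (three_sign (b := 1 - b - 2 * c * log 2) (c := c) hx ⟨x₀', x₁'⟩ rfl
    (by
      simp only [show hb x' = log 2 - hb x by linarith, mul_comm x] at k₁ ⊢
      linear_combination k₁ - k₂)
    (by simp only [mul_one, hb_one, sub_zero]; linear_combination -k₂) hy).2 a'
  simp only [show hb y' = log 2 - hb y by linarith] at s s'
  linear_combination s + s' - k₂

lemma mgl_half {ι : Type} [Fintype ι] {m p : ι → ℝ} {q r l : ℝ} (hm : ∀ i, 0 ≤ m i)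
    (hp : ∀ i, p i ∈ Icc (0 : ℝ) 1) (h1 : ∑ i, m i ≤ 1) (hq : q ∈ Icc (0 : ℝ) 1)
    (hr : r ∈ Icc (0 : ℝ) (1 / 2)) (hl : 1 ≤ l)
    (hh : ∑ i, m i * binEntropy (p i) ≤ l * binEntropy r) :
    ∑ i, m i * Psi (p i) q ≤ l * Psi r q := by
  rcases hr.2.eq_or_lt with rfl | r₁
  · have z : Psi (1 / 2) q = binEntropy q := by
      rw [Psi, show bconv (1 / 2) q = 1 / 2 by unfold bconv; ring]
      ring
    rw [z]
    refine le_trans ?_ (mul_le_mul_of_nonneg_right (h1.trans hl) (binEntropy_nonneg hq.1 hq.2))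
    rw [Finset.sum_mul]
    refine Finset.sum_le_sum fun i _ => mul_le_mul_of_nonneg_left ?_ (hm i)
    rw [Psi_comm]
    exact Psi_le hq (hp i)
  · exact mgl_sum _ _ _ ⟨hr.1, r₁⟩ hq hm hp h1 hl hh

lemma Psi_prod {a q r : ℝ} (a₀ : 0 < a) (a₁ : a ≤ 1 / 2) (hq : q ∈ Icc (0 : ℝ) (1 / 2))
    (hr : r ∈ Icc (0 : ℝ) (1 / 2)) (kq : binEntropy q ≤ binEntropy a)
    (kr : binEntropy r ≤ binEntropy a) :
    binEntropy q * binEntropy r * (a / 2) ≤ binEntropy a ^ 2 * Psi q r := by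
  have w : 0 < binEntropy a := binEntropy_pos a₀ (by linarith)
  have ma : a ∈ Icc (0 : ℝ) 1 := ⟨a₀.le, by linarith⟩
  have one : ∀ q ∈ Icc (0 : ℝ) (1 / 2), binEntropy q ≤ binEntropy a → ∀ r ∈ Icc (0 : ℝ) 1,
      binEntropy q / binEntropy a * Psi a r ≤ Psi q r := by
    intro q hq kq r hr
    simpa using mgl_half (ι := Unit) (m := fun _ => binEntropy q / binEntropy a) (p := fun _ => a)
      (l := 1) (fun _ => div_nonneg (binEntropy_nonneg hq.1 (by linarith [hq.2])) w.le)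
      (fun _ => ma) (by simpa using (div_le_one w).2 kq) hr hq le_rfl
      (by simp [div_mul_cancel₀ _ w.ne'])
  have s₁ := one q hq kq r ⟨hr.1, by linarith [hr.2]⟩
  have s₂ := one r hr kr a ma
  have v := Psi_diag a₀.le a₁
  rw [Psi_comm r] at s₂
  have nq := div_nonneg (binEntropy_nonneg hq.1 (by linarith [hq.2])) w.le
  have nr := div_nonneg (binEntropy_nonneg hr.1 (by linarith [hr.2])) w.le
  calc _ = binEntropy a ^ 2 * (binEntropy q / binEntropy a * (binEntropy r / binEntropy a *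
        (a / 2))) := by field_simp
    _ ≤ binEntropy a ^ 2 * (binEntropy q / binEntropy a * Psi a r) := by
        gcongr
        exact le_trans (by gcongr) s₂
    _ ≤ _ := by gcongr

lemma cc_explicit {l p : ℝ} (hl : 1 < l) (hp : p ∈ Icc (0 : ℝ) 1)
    (h : cc p < exp (-(2 / (l - 1))) / 2) : binEntropy p ≤ l * cc p := by
  revert h
  refine cc_wlog (P := fun h c => c < exp (-(2 / (l - 1))) / 2 → h ≤ l * c) (fun q h₀ h₁ h => ?_) hp
  obtain ⟨a, b⟩ := cc_half h₀ h₁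
  have c := ent_le h₀ h₁
  rcases h₀.eq_or_lt with rfl | h₀
  · simp [cc]
  have d : log (2 * q) ≤ -(2 / (l - 1)) := by
    rw [log_le_iff_le_exp (by linarith)]
    linarith
  have e : log 2⁻¹ ≤ log (1 - q) := log_le_log (by norm_num) (by linarith)
  rw [log_mul (by norm_num) h₀.ne'] at d
  rw [log_inv] at e
  have f : 2 / (l - 1) ≤ log (1 - q) - log q := by linarith
  rw [div_le_iff₀ (by linarith)] at f
  nlinarith [mul_le_mul_of_nonneg_left f h₀.le,
    mul_le_mul_of_nonneg_left b (show 0 ≤ l - 1 by linarith)]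

lemma Psi_small {q r u : ℝ} (hu : 20 ≤ u) (hq : q ∈ Icc (0 : ℝ) (1 / 2))
    (hr : r ∈ Icc (0 : ℝ) (1 / 2)) (kq : binEntropy q ≤ exp (-u)) (kr : binEntropy r ≤ exp (-u)) :
    binEntropy q * binEntropy r ≤ 8 * u * exp (-u) * Psi q r := by
  have t₀ := exp_pos (-u)
  have t₁ : exp (-u) ≤ 1 := exp_le_one_iff.2 (by linarith)
  have u₀ : 0 < u := by linarith
  have a₀ : 0 < exp (-u) / u := by positivity
  have a₁ : exp (-u) / u ≤ 1 / 2 := by
    rw [div_le_iff₀ u₀]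
    linarith
  have la : log (exp (-u) / u) = -u - log u := by rw [log_div t₀.ne' u₀.ne', log_exp]
  have l₀ : 0 ≤ log u := log_nonneg (by linarith)
  have l₁ : log u ≤ u / 2 := by
    have := log_le_sub_one_of_pos (half_pos u₀)
    rw [log_div u₀.ne' two_ne_zero] at this
    linarith [log_two_lt_d9]
  have e : exp (-u) / u * u = exp (-u) := div_mul_cancel₀ _ u₀.ne'
  have n₁ : log (1 - exp (-u) / u) ≤ 0 := log_nonpos (by linarith) (by linarith)
  have lo : exp (-u) ≤ binEntropy (exp (-u) / u) := by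
    rw [binEntropy, log_inv, log_inv, la]
    nlinarith [mul_nonneg a₀.le l₀, mul_nonneg (show 0 ≤ 1 - exp (-u) / u by linarith)
      (neg_nonneg.2 n₁)]
  have hi : binEntropy (exp (-u) / u) ≤ 2 * exp (-u) := by
    have := ent_le a₀.le a₁
    rw [la] at this
    nlinarith [mul_nonneg a₀.le (neg_nonneg.2 n₁), mul_le_mul_of_nonneg_left l₁ a₀.le,
      mul_le_mul_of_nonneg_left hu a₀.le]
  have k := Psi_prod a₀ a₁ hq hr (kq.trans lo) (kr.trans lo)
  have z := Psi_nonneg (p := q) (q := r) ⟨hq.1, by linarith [hq.2]⟩ ⟨hr.1, by linarith [hr.2]⟩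
  have y := mul_le_mul_of_nonneg_right (pow_le_pow_left₀ (t₀.le.trans lo) hi 2) z
  refine le_of_mul_le_mul_right ((k.trans y).trans_eq ?_) (half_pos a₀)
  field_simp
  ring

lemma avg_psi_le {ι : Type} [Fintype ι] {m p : ι → ℝ} {q r : ℝ} (hm : ∀ i, 0 ≤ m i)
    (hp : ∀ i, p i ∈ Icc (0 : ℝ) 1) (h1 : ∑ i, m i ≤ 1) (hq : q ∈ Icc (0 : ℝ) (1 / 2))
    (hr : r ∈ Icc (0 : ℝ) (1 / 2)) (hc : ∑ i, m i * cc (p i) ≤ binEntropy r) :
    ∑ i, m i * Psi (p i) q ≤
      min (log 4) (1 + 8 / log (max (binEntropy q) (binEntropy r))⁻¹) * Psi r q := by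
  have mq : q ∈ Icc (0 : ℝ) 1 := ⟨hq.1, by linarith [hq.2]⟩
  have mr : r ∈ Icc (0 : ℝ) 1 := ⟨hr.1, by linarith [hr.2]⟩
  have l₁ := log_two_gt_d9
  have l₂ := log_two_lt_d9
  have l₄ : log 4 = 2 * log 2 := by rw [show (4 : ℝ) = 2 ^ 2 by norm_num, log_pow]; norm_num
  have z := Psi_nonneg mr mq
  have nq := binEntropy_nonneg mq.1 mq.2
  have nr := binEntropy_nonneg mr.1 mr.2
  have A : ∑ i, m i * Psi (p i) q ≤ log 4 * Psi r q := by
    rw [l₄]
    refine mgl_half hm hp h1 mq hr (by linarith)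
      (le_trans ?_ (mul_le_mul_of_nonneg_left hc (by linarith)))
    rw [Finset.mul_sum]
    refine Finset.sum_le_sum fun i _ => ?_
    rw [mul_left_comm]
    exact mul_le_mul_of_nonneg_left (ent_le_cc (hp i)) (hm i)
  rw [min_mul_of_nonneg _ _ z]
  refine le_min A ?_
  have tq := le_max_left (binEntropy q) (binEntropy r)
  have tr := le_max_right (binEntropy q) (binEntropy r)
  have t₁ : max (binEntropy q) (binEntropy r) ≤ log 2 :=
    max_le binEntropy_le_log_two binEntropy_le_log_two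
  generalize max (binEntropy q) (binEntropy r) = t at *
  rcases (nq.trans tq).eq_or_lt with rfl | t₀
  · have y := Psi_le mr mq
    rw [le_antisymm (y.trans tr) z] at A ⊢
    simpa using A
  obtain ⟨u, rfl⟩ : ∃ u, t = exp (-u) := ⟨-log t, by rw [neg_neg, exp_log t₀]⟩
  rw [← exp_neg, neg_neg, log_exp]
  have u₀ : 0 < u := by
    have := exp_lt_one_iff.1 (show exp (-u) < 1 by linarith)
    linarith
  rcases le_total u 20 with hu | hu
  · refine A.trans (mul_le_mul_of_nonneg_right ?_ z)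
    have : 2 / 5 ≤ 8 / u := by
      rw [div_le_div_iff₀ (by norm_num) u₀]
      linarith
    linarith
  have hl : 1 < 1 + 4 / u := by have : 0 < 4 / u := by positivity
                                linarith
  have e : -(2 / (1 + 4 / u - 1)) = -(u / 2) := by
    rw [add_sub_cancel_left]
    field_simp
    norm_num
  obtain ⟨a₁, a₂, -⟩ := high_mass (c₀ := exp (-(u / 2)) / 2) (by positivity)
    (fun p hp h => cc_explicit hl hp (e ▸ h)) hl.le hm hp hc
  have r₁ : r < 1 / 2 := hr.2.lt_of_ne (by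
    rintro rfl
    rw [one_div, binEntropy_two_inv] at tr
    have := exp_le_exp.2 (show -u ≤ -1 by linarith)
    linarith [exp_neg_one_lt_d9])
  have low := mgl_sum (Finset.univ.filter fun i => cc (p i) < exp (-(u / 2)) / 2) m p ⟨hr.1, r₁⟩ mq
    hm hp ((Finset.sum_le_sum_of_subset_of_nonneg (Finset.subset_univ _) fun i _ _ => hm i).trans
      h1) hl.le a₁
  have high : ∑ i with ¬ cc (p i) < exp (-(u / 2)) / 2, m i * Psi (p i) q ≤
      binEntropy r / (exp (-(u / 2)) / 2) * binEntropy q := by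
    refine le_trans ?_ (mul_le_mul_of_nonneg_right a₂ nq)
    rw [Finset.sum_mul]
    refine Finset.sum_le_sum fun i _ => mul_le_mul_of_nonneg_left ?_ (hm i)
    rw [Psi_comm]
    exact Psi_le mq (hp i)
  have k := Psi_small hu hr hq tr tq
  have g : 4 * u ^ 2 ≤ exp (u / 2) := by
    have a := pow_div_factorial_le_exp (u / 2) (by positivity) 8
    have b : 10 ^ 6 ≤ (u / 2) ^ 6 := pow_le_pow_left₀ (by norm_num) (by linarith) 6
    have c : (u / 2) ^ 8 = (u / 2) ^ 6 * (u ^ 2 / 4) := by ring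
    norm_num [Nat.factorial] at a b
    nlinarith [mul_le_mul_of_nonneg_right b (show 0 ≤ u ^ 2 / 4 by positivity)]
  have x : exp (-u) = exp (-(u / 2)) * (exp (u / 2))⁻¹ := by
    rw [← exp_neg, ← exp_add]
    congr 1
    ring
  have y : binEntropy r / (exp (-(u / 2)) / 2) * binEntropy q ≤ 4 / u * Psi r q := by
    rw [div_mul_eq_mul_div, div_le_iff₀ (by positivity)]
    refine k.trans ?_
    rw [x, mul_right_comm (4 / u)]
    refine mul_le_mul_of_nonneg_right ?_ z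
    have w : (exp (u / 2))⁻¹ ≤ (4 * u ^ 2)⁻¹ := inv_anti₀ (by positivity) g
    calc _ ≤ 8 * u * (exp (-(u / 2)) * (4 * u ^ 2)⁻¹) := by gcongr
      _ = _ := by field_simp; ring
  rw [← Finset.sum_filter_add_sum_filter_not Finset.univ fun i => cc (p i) < exp (-(u / 2)) / 2]
  have : (1 + 8 / u) * Psi r q = (1 + 4 / u) * Psi r q + 4 / u * Psi r q := by ring
  linarith

end Pool.Agent.MP_560646_mp

end

section

namespace Pool.Agent.MP_560646_mp

open Matrix Real Kronecker Set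
open scoped ComplexOrder MatrixOrder

variable {n m : Type} [Fintype n] [DecidableEq n] [Fintype m] [DecidableEq m]

lemma be_eq {x y : ℝ} (hx : 0 ≤ x) (hy : 0 ≤ y) : be x y = (x + y) * binEntropy (y / (x + y)) := by
  rcases (add_nonneg hx hy).eq_or_lt with h | h
  · obtain rfl : x = 0 := by linarith
    obtain rfl : y = 0 := by linarith
    simp [be]
  obtain ⟨p, hp⟩ : ∃ p, p = y / (x + y) := ⟨_, rfl⟩
  obtain ⟨s, hs⟩ : ∃ s, s = x + y := ⟨_, rfl⟩
  have ey : y = s * p := by rw [hp, hs]; field_simp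
  have ex : x = s * (1 - p) := by linarith
  rw [be, ← hp, ← hs, ex, ey, binEntropy_eq_negMulLog_add_negMulLog_one_sub, negMulLog_mul,
    negMulLog_mul]
  ring

lemma ce_chain {P Q : Matrix n n ℂ} {P' Q' : Matrix m m ℂ} (hP : P.PosSemidef) (hQ : Q.PosSemidef)
    (hP' : P'.PosSemidef) (hQ' : Q'.PosSemidef) (ht : rt (P + Q) = 1) (ht' : rt (P' + Q') = 1) :
    ce P Q + ce P' Q' - ce (P ⊗ₖ P' + Q ⊗ₖ Q') (P ⊗ₖ Q' + Q ⊗ₖ P') =
      ce (P ⊗ₖ P') (Q ⊗ₖ Q') + ce (P ⊗ₖ Q') (Q ⊗ₖ P') := by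
  simp only [ce]
  rw [kron_total, vn_kron (hP.add hQ) (hP'.add hQ'), ht, ht', vn_kron hP hP', vn_kron hP hQ',
    vn_kron hQ hP', vn_kron hQ hQ']
  rw [rt_add] at ht ht'
  linear_combination -(vn P + vn Q) * ht' - (vn P' + vn Q') * ht

lemma plus_raw {P Q : Matrix n n ℂ} (hP : P.PosSemidef) (hQ : Q.PosSemidef) (ht : rt (P + Q) = 1)
    (U V : unitary (Matrix m m ℂ)) {a b : m → ℝ} (ha : ∀ i, 0 ≤ a i) (hb' : ∀ i, 0 ≤ b i)
    (ht' : rt (ud U a + ud V b) = 1) {q : ℝ} (hq : q ∈ Icc (0 : ℝ) 1) (e : binEntropy q = ce P Q) :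
    ∑ i : m × m, ov U V 1 i.1 i.2 * (a i.1 + b i.2) = 1 ∧ ce P Q + ce (ud U a) (ud V b) -
      ce (P ⊗ₖ ud U a + Q ⊗ₖ ud V b) (P ⊗ₖ ud V b + Q ⊗ₖ ud U a) ≤
        ∑ i : m × m, ov U V 1 i.1 i.2 * (a i.1 + b i.2) * Psi (b i.2 / (a i.1 + b i.2)) q := by
  have x := ce_kron_le hP hQ U V ha hb'
  have y := ce_kron_le hP hQ V U hb' ha
  rw [Finset.sum_comm] at y
  simp only [ov_symm V U isHermitian_one] at y
  constructor
  · rw [← ht', rt_add, rt_ud, rt_ud, Fintype.sum_prod_type]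
    simp only [mul_add, Finset.sum_add_distrib, ← Finset.sum_mul, ov_one_row, one_mul]
    rw [Finset.sum_comm]
    simp only [← Finset.sum_mul, ov_one_col, one_mul]
  rw [ce_chain hP hQ (ud_psd U ha) (ud_psd V hb') ht ht']
  refine (add_le_add x y).trans ?_
  rw [← Finset.sum_add_distrib, Fintype.sum_prod_type]
  refine Finset.sum_le_sum fun k _ => ?_
  rw [← Finset.sum_add_distrib]
  refine Finset.sum_le_sum fun j _ => ?_
  rw [← mul_add, mul_assoc]
  exact mul_le_mul_of_nonneg_left (ce_prior hP hQ ht hq e (ha k) (hb' j)) (ov_nonneg _ _ _ _ _)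

lemma plus_factor {P Q : Matrix n n ℂ} {P' Q' : Matrix m m ℂ} (hP : P.PosSemidef)
    (hQ : Q.PosSemidef) (hP' : P'.PosSemidef) (hQ' : Q'.PosSemidef) (ht : rt (P + Q) = 1)
    (ht' : rt (P' + Q') = 1) {q r : ℝ} (hq : q ∈ Icc (0 : ℝ) (1 / 2))
    (hr : r ∈ Icc (0 : ℝ) (1 / 2)) (e : binEntropy q = ce P Q) (e' : binEntropy r = ce P' Q') :
    ce P Q + ce P' Q' - ce (P ⊗ₖ P' + Q ⊗ₖ Q') (P ⊗ₖ Q' + Q ⊗ₖ P') ≤
      min (log 4) (1 + 8 / log (max (ce P Q) (ce P' Q'))⁻¹) * Psi q r := by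
  obtain ⟨U, a, ha, rfl⟩ := exists_ud hP'
  obtain ⟨V, b, hb', rfl⟩ := exists_ud hQ'
  obtain ⟨s, k⟩ := plus_raw hP hQ ht U V ha hb' ht' ⟨hq.1, by linarith [hq.2]⟩ e
  refine k.trans ?_
  rw [← e, ← e', Psi_comm q]
  refine avg_psi_le (fun i => mul_nonneg (ov_nonneg _ _ _ _ _) (add_nonneg (ha _) (hb' _)))
    (fun i => ratio_mem (ha _) (hb' _)) s.le hq hr (e' ▸ le_of_eq_of_le ?_ (ce_lower U V ha hb'))
  simp only [Fintype.sum_prod_type, lg_pair (ha _) (hb' _), mul_assoc]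

lemma intertwine (U V : unitary (Matrix n n ℂ)) {a b : n → ℝ} {X : Matrix n n ℂ}
    (h : ud U a * X = X * ud V b) (f : ℝ → ℝ) :
    ud U (fun i => f (a i)) * X = X * ud V fun i => f (b i) := by
  have inj : ∀ {Y Z : Matrix n n ℂ}, tw U V Y = tw U V Z → Y = Z := fun {Y Z} k => by
    have := congrArg (fun W => (U : Matrix n n ℂ) * W * star (V : Matrix n n ℂ)) k
    simpa only [tw, ← mul_assoc, Unitary.mul_star_self_of_mem U.2, one_mul, mul_assoc _ (V : Matrix n n ℂ),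
      Unitary.mul_star_self_of_mem V.2, mul_one] using this
  have k := congrArg (tw U V) h
  apply inj
  rw [← tw_mul U U V, ← tw_mul U V V, tw_ud, tw_ud] at k ⊢
  ext i j
  have := congrFun (congrFun k i) j
  rw [diagonal_mul, mul_diagonal, mul_comm, mul_eq_mul_left_iff] at this ⊢
  exact this.imp_left fun h => by rw [Complex.ofReal_injective h]

lemma comm_vn (U V : unitary (Matrix n n ℂ)) {a b : n → ℝ} (ha : ∀ i, 0 ≤ a i) (hb' : ∀ i, 0 ≤ b i)
    (h : Commute (ud U a) (ud V b)) :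
    vn (ud U a + ud V b) = ∑ k, ∑ j, ov U V 1 k j * negMulLog (a k + b j) := by
  obtain ⟨W, c, -, e⟩ := exists_ud ((ud_psd U ha).add (ud_psd V hb'))
  have one : ∀ y : ℝ, rt (ud W (fun i => negMulLog (c i)) * ud V fun j => if b j = y then 1 else 0) =
      ∑ k, ∑ j, if b j = y then ov U V 1 k j * negMulLog (a k + b j) else 0 := by
    intro y
    have c₁ := intertwine V V h.symm.eq fun x => if x = y then 1 else 0
    have c₂ : ud W c * ud V (fun j => if b j = y then 1 else 0) =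
        ud V (fun j => if b j = y then 1 else 0) * ud U fun k => a k + y := by
      rw [← e, ← ud_shift, add_mul, mul_add, c₁, ud_mul, mul_smul_comm, mul_one, ud_smul]
      congr 2
      ext j
      split_ifs with k <;> simp [k]
    rw [intertwine W U c₂ negMulLog, rt_comm, rt_ud_mul]
    refine Finset.sum_congr rfl fun k _ => ?_
    rw [dg_ud, Finset.mul_sum]
    refine Finset.sum_congr rfl fun j _ => ?_
    split_ifs with k <;> simp [k, ov, tw, mul_comm]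
  have s : ∑ y ∈ Finset.univ.image b, ud V (fun j => if b j = y then 1 else 0) = 1 := by
    rw [← ud_one V]
    simp only [ud, ← Finset.sum_mul, ← Finset.mul_sum]
    congr 2
    ext i j
    by_cases k : i = j <;> simp [Matrix.sum_apply, k, apply_ite]
  have t := congrArg (fun X => rt (ud W (fun i => negMulLog (c i)) * X)) s
  simp only [Finset.mul_sum, mul_one, rt, trace_sum, Complex.re_sum] at t
  simp only [← rt.eq_1, one, rt_ud] at t
  rw [e, vn_ud, ← t, Finset.sum_comm]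
  refine Finset.sum_congr rfl fun k _ => ?_
  rw [Finset.sum_comm]
  simp

lemma plus_comm {P Q : Matrix n n ℂ} {P' Q' : Matrix m m ℂ} (hP : P.PosSemidef)
    (hQ : Q.PosSemidef) (hP' : P'.PosSemidef) (hQ' : Q'.PosSemidef) (ht : rt (P + Q) = 1)
    (ht' : rt (P' + Q') = 1) (hc : Commute P' Q') {q r : ℝ} (hq : q ∈ Icc (0 : ℝ) (1 / 2))
    (hr : r ∈ Icc (0 : ℝ) (1 / 2)) (e : binEntropy q = ce P Q) (e' : binEntropy r = ce P' Q') :
    ce P Q + ce P' Q' - ce (P ⊗ₖ P' + Q ⊗ₖ Q') (P ⊗ₖ Q' + Q ⊗ₖ P') ≤ Psi q r := by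
  obtain ⟨U, a, ha, rfl⟩ := exists_ud hP'
  obtain ⟨V, b, hb', rfl⟩ := exists_ud hQ'
  have mq : q ∈ Icc (0 : ℝ) 1 := ⟨hq.1, by linarith [hq.2]⟩
  obtain ⟨s, k⟩ := plus_raw hP hQ ht U V ha hb' ht' mq e
  refine k.trans ?_
  rw [← one_mul (Psi q r), Psi_comm q]
  refine mgl_half (fun i => mul_nonneg (ov_nonneg _ _ _ _ _) (add_nonneg (ha _) (hb' _)))
    (fun i => ratio_mem (ha _) (hb' _)) s.le mq hr le_rfl (le_of_eq ?_)
  simp only [Fintype.sum_prod_type, mul_assoc, ← be_eq (ha _) (hb' _)]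
  rw [one_mul, e', ce, comm_vn U V ha hb' hc, vn_ud, vn_ud]
  simp only [be, mul_sub, mul_add, Finset.sum_sub_distrib, Finset.sum_add_distrib,
    ← Finset.sum_mul, ov_one_row, one_mul]
  rw [Finset.sum_comm]
  simp only [← Finset.sum_mul, ov_one_col, one_mul]

omit [DecidableEq n] [DecidableEq m] in
lemma dual_comm {N N' : Matrix m n ℂ} {P Q : Matrix n n ℂ} (hP : P.IsHermitian) (hQ : Q.IsHermitian)
    (h₁ : Nᴴ * N = P + Q) (h₂ : N'ᴴ * N' = P + Q) (h₃ : Nᴴ * N' = P - Q) (h₄ : N'ᴴ * N = P - Q)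
    {c : ℝ} (x : P * P = c • P) (y : Q * Q = c • Q) : Commute (N * Nᴴ) (N' * N'ᴴ) := by
  have one : ∀ {X : Matrix m n ℂ} {P : Matrix n n ℂ}, P.IsHermitian → P * P = c • P →
      Xᴴ * X = (4 : ℝ) • P → X * P = c • X := fun {X P} hP x k => by
    rw [← sub_eq_zero, ← conjTranspose_mul_self_eq_zero]
    simp only [conjTranspose_sub, conjTranspose_mul, conjTranspose_smul, star_trivial, hP.eq,
      Matrix.sub_mul, Matrix.mul_sub, Matrix.smul_mul, Matrix.mul_smul, Matrix.mul_assoc,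
      ← Matrix.mul_assoc Xᴴ, k, x]
    module
  have a := one (X := N + N') hP x (by
    simp only [conjTranspose_add, Matrix.add_mul, Matrix.mul_add, h₁, h₂, h₃, h₄]
    module)
  have b := one (X := N - N') hQ y (by
    simp only [conjTranspose_sub, Matrix.sub_mul, Matrix.mul_sub, h₁, h₂, h₃, h₄]
    module)
  have b' := congrArg conjTranspose b
  rw [conjTranspose_mul, hQ.eq, conjTranspose_smul, star_trivial] at b'
  have z : (N + N') * (P - Q) * (N - N')ᴴ = 0 := by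
    rw [Matrix.mul_sub, Matrix.sub_mul, a, Matrix.mul_assoc, b', Matrix.smul_mul, Matrix.mul_smul,
      sub_self]
  have z' := congrArg conjTranspose z
  rw [conjTranspose_mul, conjTranspose_mul, conjTranspose_conjTranspose, (hP.sub hQ).eq,
    conjTranspose_zero, ← Matrix.mul_assoc] at z'
  change N * Nᴴ * (N' * N'ᴴ) = N' * N'ᴴ * (N * Nᴴ)
  rw [Matrix.mul_assoc, ← Matrix.mul_assoc Nᴴ, h₃, Matrix.mul_assoc N', ← Matrix.mul_assoc N'ᴴ, h₄]
  generalize P - Q = D at z z' ⊢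
  simp only [conjTranspose_add, conjTranspose_sub, Matrix.add_mul, Matrix.sub_mul, Matrix.mul_add,
    Matrix.mul_sub, Matrix.mul_assoc] at z z'
  have two : (2 : ℝ) • (N * (D * N'ᴴ)) = (2 : ℝ) • (N' * (D * Nᴴ)) := by
    rw [← sub_eq_zero, ← sub_self (0 : Matrix m m ℂ)]
    nth_rewrite 1 [← z']
    rw [← z]
    module
  exact smul_right_injective _ two_ne_zero two

lemma exists_dual_comm {P Q : Matrix n n ℂ} {P' Q' : Matrix m m ℂ} (hP : P.PosSemidef)
    (hQ : Q.PosSemidef) (hP' : P'.PosSemidef) (hQ' : Q'.PosSemidef) (ht : rt (P + Q) = 1)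
    (ht' : rt (P' + Q') = 1) :
    ∃ (A B : Matrix (n ⊕ n) (n ⊕ n) ℂ) (A' B' : Matrix (m ⊕ m) (m ⊕ m) ℂ), A.PosSemidef ∧
      B.PosSemidef ∧ A'.PosSemidef ∧ B'.PosSemidef ∧ rt (A + B) = 1 ∧ rt (A' + B') = 1 ∧
      ce A B = log 2 - ce P Q ∧ ce A' B' = log 2 - ce P' Q' ∧
      (∀ c : ℝ, P' * P' = c • P' → Q' * Q' = c • Q' → Commute A' B') ∧
      log 2 - ce (A ⊗ₖ A' + B ⊗ₖ B') (A ⊗ₖ B' + B ⊗ₖ A') =
        ce P Q + ce P' Q' - ce (P ⊗ₖ P' + Q ⊗ₖ Q') (P ⊗ₖ Q' + Q ⊗ₖ P') := by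
  obtain ⟨M, M', h₁, h₂, h₃, h₄⟩ := exists_dual hP hQ
  obtain ⟨N, N', k₁, k₂, k₃, k₄⟩ := exists_dual hP' hQ'
  have half : (0 : ℝ) ≤ 1 / 2 := by norm_num
  have ps : ∀ {k l : Type} [Fintype k] [Fintype l] (M : Matrix k l ℂ),
      ((1 / 2 : ℝ) • (M * Mᴴ)).PosSemidef := fun M =>
    (posSemidef_self_mul_conjTranspose M).smul half
  obtain ⟨a₁, a₂⟩ := dual_one hP hQ ht h₁ h₂ h₃ h₄
  obtain ⟨b₁, b₂⟩ := dual_one hP' hQ' ht' k₁ k₂ k₃ k₄
  refine ⟨_, _, _, _, ps M, ps M', ps N, ps N', a₁, b₁, a₂, b₂, fun c x y =>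
    ((dual_comm hP'.1 hQ'.1 k₁ k₂ k₃ k₄ x y).smul_left _).smul_right _, ?_⟩
  have hX := (hP.kronecker hP').add (hQ.kronecker hQ')
  have hY := (hP.kronecker hQ').add (hQ.kronecker hP')
  have t : rt (P ⊗ₖ P' + Q ⊗ₖ Q' + (P ⊗ₖ Q' + Q ⊗ₖ P')) = 1 := by
    have := rt_kron_mul (X' := P' + Q') (Y' := 1) (hP.add hQ).1 isHermitian_one
    rw [one_kronecker_one, mul_one, mul_one, mul_one, ht, ht', mul_one] at this
    rw [kron_total, this]
  have blk : ∀ {N N' : Matrix (m ⊕ m) m ℂ}, Nᴴ * N = P' + Q' → N'ᴴ * N' = P' + Q' →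
      Nᴴ * N' = P' - Q' → N'ᴴ * N = P' - Q' →
      vn (((1 / 2 : ℝ) • (M * Mᴴ)) ⊗ₖ ((1 / 2 : ℝ) • (N * Nᴴ)) +
        ((1 / 2 : ℝ) • (M' * M'ᴴ)) ⊗ₖ ((1 / 2 : ℝ) • (N' * N'ᴴ))) =
      1 / 2 * (vn (P ⊗ₖ P' + Q ⊗ₖ Q') + vn (P ⊗ₖ Q' + Q ⊗ₖ P')) + log 2 / 2 := by
    intro N N' k₁ k₂ k₃ k₄
    have c₁ : (M ⊗ₖ N)ᴴ * (M ⊗ₖ N) =
        P ⊗ₖ P' + Q ⊗ₖ Q' + (P ⊗ₖ Q' + Q ⊗ₖ P') := by
      rw [conjTranspose_kronecker, ← mul_kronecker_mul, h₁, k₁, ← kron_total]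
    have c₂ : (M' ⊗ₖ N')ᴴ * (M' ⊗ₖ N') =
        P ⊗ₖ P' + Q ⊗ₖ Q' + (P ⊗ₖ Q' + Q ⊗ₖ P') := by
      rw [conjTranspose_kronecker, ← mul_kronecker_mul, h₂, k₂, ← kron_total]
    have c₃ : (M ⊗ₖ N)ᴴ * (M' ⊗ₖ N') =
        P ⊗ₖ P' + Q ⊗ₖ Q' - (P ⊗ₖ Q' + Q ⊗ₖ P') := by
      rw [conjTranspose_kronecker, ← mul_kronecker_mul, h₃, k₃, kron_minus]
    have c₄ : (M' ⊗ₖ N')ᴴ * (M ⊗ₖ N) =
        P ⊗ₖ P' + Q ⊗ₖ Q' - (P ⊗ₖ Q' + Q ⊗ₖ P') := by
      rw [conjTranspose_kronecker, ← mul_kronecker_mul, h₄, k₄, kron_minus]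
    have v := vn_smul ((ps (M ⊗ₖ N)).add (ps (M' ⊗ₖ N'))) (1 / 2)
    rw [(dual_one hX hY t c₁ c₂ c₃ c₄).1, vn_pair hX hY c₁ c₂ c₃ c₄, nml_half, mul_one] at v
    rw [← v]
    congr 1
    simp only [conjTranspose_kronecker, ← mul_kronecker_mul, smul_kronecker, kronecker_smul,
      smul_add]
  rw [ce, blk k₁ k₂ k₃ k₄, blk k₂ k₁ k₄ k₃, kron_total, vn_kron ((ps _).add (ps _)) ((ps _).add (ps _)),
    a₁, b₁, vn_pair hP hQ h₁ h₂ h₃ h₄, vn_pair hP' hQ' k₁ k₂ k₃ k₄, ce, ce, ce, kron_total,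
    vn_kron (hP.add hQ) (hP'.add hQ'), ht, ht']
  ring

omit [DecidableEq n] in
lemma state_data {σ : ZMod 2 → Matrix n n ℂ} (hσ : ∀ x, (σ x).PosSemidef ∧ trace (σ x) = 1) :
    ((1 / 2 : ℂ) • σ 0).PosSemidef ∧ ((1 / 2 : ℂ) • σ 1).PosSemidef ∧
      rt ((1 / 2 : ℂ) • σ 0 + (1 / 2 : ℂ) • σ 1) = 1 := by
  have hh : (0 : ℂ) ≤ 1 / 2 := by
    rw [show (1 / 2 : ℂ) = ((1 / 2 : ℝ) : ℂ) by push_cast; ring]
    exact Complex.zero_le_real.2 (by norm_num)
  refine ⟨(hσ 0).1.smul hh, (hσ 1).1.smul hh, ?_⟩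
  rw [rt, trace_add, trace_smul, trace_smul, (hσ 0).2, (hσ 1).2]
  norm_num

theorem vn_factor (σ : ZMod 2 → Matrix n n ℂ) (η : ZMod 2 → Matrix m m ℂ)
    (hσ : ∀ x, (σ x).PosSemidef ∧ trace (σ x) = 1) (hη : ∀ x, (η x).PosSemidef ∧ trace (η x) = 1) :
    min (log 2) (Hvn (cq σ) + Hvn (cq η)) - Hvn (combine σ η) ≤
      min (log 4) (1 + 8 / log (min (max (Hvn (cq σ)) (Hvn (cq η)))
        (log 2 - min (Hvn (cq σ)) (Hvn (cq η))))⁻¹) *
      (min (log 2) (Hvn (cq σ) + Hvn (cq η)) - bound1 (Hvn (cq σ)) (Hvn (cq η))) := by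
  obtain ⟨hX, hY, t1⟩ := state_data hσ
  obtain ⟨hZ, hW, t2⟩ := state_data hη
  rw [cq_eq, cq_eq, combine_eq, Hvn_blk hX hY, Hvn_blk hZ hW,
    Hvn_blk ((hX.kronecker hZ).add (hY.kronecker hW)) ((hX.kronecker hW).add (hY.kronecker hZ))]
  obtain ⟨A, B, A', B', hA, hB, hA', hB', u, u', e, e', f⟩ := exists_dual_pair hX hY hZ hW t1 t2
  have c := ce_le hA hB u
  have c' := ce_le hA' hB' u'
  have d := ce_le hX hY t1
  have d' := ce_le hZ hW t2
  have mm := min_add_max (ce ((1 / 2 : ℂ) • σ 0) ((1 / 2 : ℂ) • σ 1))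
    (ce ((1 / 2 : ℂ) • η 0) ((1 / 2 : ℂ) • η 1))
  unfold bound1
  split_ifs with h
  · obtain ⟨mq, eq⟩ := binG1_spec (sub_le_self_iff _ |>.1 (e ▸ c)) d
    obtain ⟨mr, er⟩ := binG1_spec (sub_le_self_iff _ |>.1 (e' ▸ c')) d'
    have := plus_factor hX hY hZ hW t1 t2 mq mr eq er
    rw [Psi, eq, er] at this
    rwa [min_eq_right h, min_eq_left (a := max _ _) (by linarith)]
  · obtain ⟨mq, eq⟩ := binG1_spec (sub_nonneg.2 d) (e ▸ c)
    obtain ⟨mr, er⟩ := binG1_spec (sub_nonneg.2 d') (e' ▸ c')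
    have := plus_factor hA hB hA' hB' u u' mq mr (eq.trans e.symm) (er.trans e'.symm)
    rw [Psi, eq, er, e, e', max_sub_sub_left] at this
    rw [min_eq_left (not_le.1 h).le, min_eq_right (a := max _ _) (by linarith)]
    refine le_trans (by linarith) (this.trans_eq ?_)
    ring

lemma branch_cmp {p q p' q' : ℝ} (hp : p ∈ Icc (0 : ℝ) (1 / 2)) (hq : q ∈ Icc (0 : ℝ) (1 / 2))
    (hp' : p' ∈ Icc (0 : ℝ) (1 / 2)) (hq' : q' ∈ Icc (0 : ℝ) (1 / 2))
    (e : binEntropy p + binEntropy p' = log 2) (e' : binEntropy q + binEntropy q' = log 2)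
    (h : binEntropy p + binEntropy q ≤ log 2) : binEntropy (bconv p q) ≤
      binEntropy p + binEntropy q - log 2 + binEntropy (bconv p' q') := by
  have mem : ∀ {p : ℝ}, p ∈ Icc (0 : ℝ) (1 / 2) → |1 - 2 * p| ∈ Icc (0 : ℝ) 1 := fun h =>
    bias_mem ⟨h.1, by linarith [h.2]⟩
  have a := Psi_hb p q
  have b := Psi_hb p' q'
  have := hb_cmp (mem hp) (mem hq) (mem hp') (mem hq') (by rwa [← ent_hb, ← ent_hb])
    (by rwa [← ent_hb, ← ent_hb]) (by rwa [← ent_hb, ← ent_hb])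
  rw [Psi, ← ent_hb, ← ent_hb] at a b
  rw [← ent_hb, ← ent_hb] at this
  linarith

theorem vn_one_sided (σ : ZMod 2 → Matrix n n ℂ) (η : ZMod 2 → Matrix m m ℂ)
    (hσ : ∀ x, (σ x).PosSemidef ∧ trace (σ x) = 1) (hη : ∀ x, (η x).PosSemidef ∧ trace (η x) = 1)
    (h : Commute (η 0) (η 1) ∨ ∃ c : ℝ, ∀ x, η x * η x = c • η x) :
    bound1 (Hvn (cq σ)) (Hvn (cq η)) ≤ Hvn (combine σ η) := by
  obtain ⟨hX, hY, t1⟩ := state_data hσ
  obtain ⟨hZ, hW, t2⟩ := state_data hη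
  rw [cq_eq, cq_eq, combine_eq, Hvn_blk hX hY, Hvn_blk hZ hW,
    Hvn_blk ((hX.kronecker hZ).add (hY.kronecker hW)) ((hX.kronecker hW).add (hY.kronecker hZ))]
  obtain ⟨A, B, A', B', hA, hB, hA', hB', u, u', e, e', g, f⟩ := exists_dual_comm hX hY hZ hW t1 t2
  have c := ce_le hA hB u
  have c' := ce_le hA' hB' u'
  have d := ce_le hX hY t1
  have d' := ce_le hZ hW t2
  obtain ⟨mp, ep⟩ := binG1_spec (sub_le_self_iff _ |>.1 (e ▸ c)) d
  obtain ⟨mq, eq⟩ := binG1_spec (sub_le_self_iff _ |>.1 (e' ▸ c')) d'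
  obtain ⟨mp', ep'⟩ := binG1_spec (sub_nonneg.2 d) (e ▸ c)
  obtain ⟨mq', eq'⟩ := binG1_spec (sub_nonneg.2 d') (e' ▸ c')
  have x := branch_cmp mp mq mp' mq' (by linarith) (by linarith)
  have y := branch_cmp mp' mq' mp mq (by linarith) (by linarith)
  rw [ep, eq] at x
  rw [ep', eq'] at y
  unfold bound1
  rcases h with h | h
  · have := plus_comm hX hY hZ hW t1 t2 ((h.smul_left _).smul_right _) mp mq ep eq
    rw [Psi, ep, eq] at this
    split_ifs with k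
    · linarith
    · linarith [y (by linarith)]
  · obtain ⟨c, h⟩ := h
    have s : ∀ x, (1 / 2 : ℂ) • η x * (1 / 2 : ℂ) • η x = (c / 2) • (1 / 2 : ℂ) • η x := fun x => by
      rw [smul_mul_assoc, mul_smul_comm, h, ← Complex.coe_smul, ← Complex.coe_smul]
      push_cast
      module
    have := plus_comm hA hB hA' hB' u u' (g _ (s 0) (s 1)) mp' mq' (ep'.trans e.symm)
      (eq'.trans e'.symm)
    rw [Psi, ep', eq'] at this
    split_ifs with k
    · linarith [x k]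
    · linarith

end Pool.Agent.MP_560646_mp

end
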