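import Pool.Agent.MP_560646_mp.Defs

section

namespace Pool.Agent.MP_560646_mp

open Matrix Kronecker Polynomial
open scoped ComplexOrder

variable {n m : Type} [Fintype n] [DecidableEq n] [Fintype m] [DecidableEq m]

lemma aeval_diag (d : n → ℝ) (p : ℝ[X]) :
    aeval (diagonal (fun i => (d i : ℂ)) : Matrix n n ℂ) p =
      diagonal (fun i => ((p.eval (d i) : ℝ) : ℂ)) := by
  induction p using Polynomial.induction_on' with
  | add p q hp hq =>
    rw [map_add, hp, hq, diagonal_add]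
    simp
  | monomial k a =>
    rw [aeval_monomial, diagonal_pow, Algebra.algebraMap_eq_smul_one, smul_mul_assoc, one_mul,
      ← diagonal_smul]
    congr 1
    ext i
    simp

lemma cfc_unitary_diag (U : unitary (Matrix n n ℂ)) (d : n → ℝ) (f : ℝ → ℝ) :
    cfc f ((U : Matrix n n ℂ) * diagonal (fun i => (d i : ℂ)) * star (U : Matrix n n ℂ)) =
      (U : Matrix n n ℂ) * diagonal (fun i => (f (d i) : ℂ)) * star (U : Matrix n n ℂ) := by
  set M : Matrix n n ℂ := (U : Matrix n n ℂ) * diagonal (fun i => (d i : ℂ)) *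
    star (U : Matrix n n ℂ) with hM
  have hsa : IsSelfAdjoint M := by
    have hd : IsSelfAdjoint (diagonal (fun i => (d i : ℂ)) : Matrix n n ℂ) := by
      rw [IsSelfAdjoint, star_eq_conjTranspose, diagonal_conjTranspose]
      congr 1
      ext i
      simp
    exact hd.conjugate (U : Matrix n n ℂ)
  classical
  set s : Finset ℝ := (M.finite_real_spectrum).toFinset ∪ Finset.univ.image d with hs
  set p : ℝ[X] := Lagrange.interpolate s id f with hp
  have hpe : ∀ x ∈ s, p.eval x = f x := fun x hx =>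
    Lagrange.eval_interpolate_at_node (v := id) f (Function.injective_id.injOn) hx
  have h1 : cfc f M = cfc p.eval M := by
    apply cfc_congr
    intro x hx
    exact (hpe x (by simp [hs, hx])).symm
  rw [h1, cfc_polynomial p M hsa]
  have h2 : M = Unitary.conjStarAlgAut ℝ _ U (diagonal (fun i => (d i : ℂ))) := rfl
  rw [h2, aeval_algHom_apply, aeval_diag, Unitary.conjStarAlgAut_apply]
  congr 3
  ext i
  rw [hpe (d i) (by simp [hs])]

lemma psd_decomp {A : Matrix n n ℂ} (hA : A.PosSemidef) :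
    ∃ (U : unitary (Matrix n n ℂ)) (d : n → ℝ), (∀ i, 0 ≤ d i) ∧
      A = (U : Matrix n n ℂ) * diagonal (fun i => (d i : ℂ)) * star (U : Matrix n n ℂ) :=
  ⟨hA.1.eigenvectorUnitary, hA.1.eigenvalues, hA.eigenvalues_nonneg, hA.1.spectral_theorem⟩

lemma mpow_decomp (U : unitary (Matrix n n ℂ)) (d : n → ℝ) (t : ℝ) :
    mpow ((U : Matrix n n ℂ) * diagonal (fun i => (d i : ℂ)) * star (U : Matrix n n ℂ)) t =
      (U : Matrix n n ℂ) * diagonal (fun i => ((d i ^ t : ℝ) : ℂ)) * star (U : Matrix n n ℂ) :=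
  cfc_unitary_diag U d _

lemma mpow_kron {A : Matrix n n ℂ} {B : Matrix m m ℂ} (hA : A.PosSemidef) (hB : B.PosSemidef)
    (t : ℝ) : mpow (A ⊗ₖ B) t = mpow A t ⊗ₖ mpow B t := by
  obtain ⟨U, d, hd, rfl⟩ := psd_decomp hA
  obtain ⟨V, e, he, rfl⟩ := psd_decomp hB
  let W : unitary (Matrix (n × m) (n × m) ℂ) :=
    ⟨(U : Matrix n n ℂ) ⊗ₖ (V : Matrix m m ℂ), kronecker_mem_unitary U.2 V.2⟩
  have key : ∀ (a : n → ℝ) (b : m → ℝ),
      ((U : Matrix n n ℂ) * diagonal (fun i => (a i : ℂ)) * star (U : Matrix n n ℂ)) ⊗ₖ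
        ((V : Matrix m m ℂ) * diagonal (fun i => (b i : ℂ)) * star (V : Matrix m m ℂ)) =
      (W : Matrix (n × m) (n × m) ℂ) * diagonal (fun i : n × m => ((a i.1 * b i.2 : ℝ) : ℂ)) *
        star (W : Matrix (n × m) (n × m) ℂ) := by
    intro a b
    rw [mul_kronecker_mul, mul_kronecker_mul, diagonal_kronecker_diagonal]
    simp only [W, star_eq_conjTranspose, conjTranspose_kronecker, Complex.ofReal_mul]
  rw [key, mpow_decomp, mpow_decomp, mpow_decomp, key]
  congr 3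
  ext i
  rw [Real.mul_rpow (hd _) (he _)]

lemma mpow_isHermitian (A : Matrix n n ℂ) (t : ℝ) : (mpow A t).IsHermitian := by
  have : IsSelfAdjoint (mpow A t) := cfc_predicate _ _
  exact this

lemma mpow_three {A : Matrix n n ℂ} (hA : A.IsHermitian) : mpow A 3 = A ^ 3 := by
  have hA' : IsSelfAdjoint A := hA
  unfold mpow
  have : (fun x : ℝ => x ^ (3 : ℝ)) = fun x : ℝ => x ^ (3 : ℕ) := by
    ext x
    exact_mod_cast Real.rpow_natCast x 3
  rw [this, cfc_pow_id A 3]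

lemma sandwich_cube {A : Matrix n n ℂ} (hA : A.PosSemidef) :
    (mpow A (-1 / 3) * A * mpow A (-1 / 3)) ^ 3 = A := by
  obtain ⟨U, d, hd, rfl⟩ := psd_decomp hA
  rw [mpow_decomp]
  have h2 : ∀ X : Matrix n n ℂ, (U : Matrix n n ℂ) * X * star (U : Matrix n n ℂ) =
    Unitary.conjStarAlgAut ℝ _ U X := fun X => rfl
  simp only [h2]
  rw [← map_mul, ← map_mul, ← map_pow, diagonal_mul_diagonal, diagonal_mul_diagonal, diagonal_pow]
  congr 2
  ext i
  simp only [Pi.pow_apply]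
  rw [← Complex.ofReal_mul, ← Complex.ofReal_mul, ← Complex.ofReal_pow]
  congr 1
  rcases (hd i).eq_or_lt with h | h
  · rw [← h]; simp
  · have e1 : d i ^ (-1 / 3 : ℝ) * d i * d i ^ (-1 / 3 : ℝ) = d i ^ (1 / 3 : ℝ) := by
      nth_rewrite 2 [← Real.rpow_one (d i)]
      rw [← Real.rpow_add h, ← Real.rpow_add h]
      norm_num
    rw [e1, ← Real.rpow_natCast, ← Real.rpow_mul h.le]
    norm_num

end Pool.Agent.MP_560646_mp

end

section

namespace Pool.Agent.MP_560646_mp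

open Matrix Kronecker
open scoped ComplexOrder

variable {n m : Type} [Fintype n] [DecidableEq n] [Fintype m] [DecidableEq m]

/-- Block diagonal matrix with two blocks. -/
noncomputable def blk (X Y : Matrix n n ℂ) : Matrix (ZMod 2 × n) (ZMod 2 × n) ℂ :=
  Matrix.single (0 : ZMod 2) 0 (1 : ℂ) ⊗ₖ X + Matrix.single (1 : ZMod 2) 1 (1 : ℂ) ⊗ₖ Y

lemma sum_zmod2 {M : Type} [AddCommMonoid M] (f : ZMod 2 → M) : ∑ x, f x = f 0 + f 1 :=
  Fin.sum_univ_two f

omit [Fintype n] [DecidableEq n] in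
lemma margB_blk (X Y : Matrix n n ℂ) : margB (blk X Y) = X + Y := by
  ext i j
  simp [margB, blk, sum_zmod2]

omit [DecidableEq n] in
lemma blk_mul (X Y X' Y' : Matrix n n ℂ) : blk X Y * blk X' Y' = blk (X * X') (Y * Y') := by
  have h01 : (0 : ZMod 2) ≠ 1 := by decide
  simp only [blk, add_mul, mul_add, ← mul_kronecker_mul, Matrix.single_mul_single_same,
    Matrix.single_mul_single_of_ne _ _ _ _ h01, Matrix.single_mul_single_of_ne _ _ _ _ h01.symm,
    zero_kronecker, mul_one, add_zero, zero_add]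

omit [Fintype n] [DecidableEq n] in
lemma one_kron (R : Matrix n n ℂ) : (1 : Matrix (ZMod 2) (ZMod 2) ℂ) ⊗ₖ R = blk R R := by
  rw [blk, ← add_kronecker, ← Matrix.sum_single_one, sum_zmod2]

omit [DecidableEq n] in
lemma trace_blk (X Y : Matrix n n ℂ) : trace (blk X Y) = trace X + trace Y := by
  simp [blk, trace_kronecker]

omit [Fintype n] [DecidableEq n] in
lemma blk_isHermitian {X Y : Matrix n n ℂ} (hX : X.IsHermitian) (hY : Y.IsHermitian) :
    (blk X Y).IsHermitian := by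
  unfold blk Matrix.IsHermitian
  rw [conjTranspose_add, conjTranspose_kronecker, conjTranspose_kronecker, hX.eq, hY.eq]
  simp [conjTranspose_single]

lemma Hdown_blk {X Y : Matrix n n ℂ} (hX : X.IsHermitian) (hY : Y.IsHermitian) :
    Hdown 3 (blk X Y) = Real.log
      (trace ((mpow (X + Y) (-1 / 3) * X * mpow (X + Y) (-1 / 3)) ^ 3) +
        trace ((mpow (X + Y) (-1 / 3) * Y * mpow (X + Y) (-1 / 3)) ^ 3)).re / (-2) := by
  unfold Hdown
  have e : ((1 : ℝ) - 3) / (2 * 3) = -1 / 3 := by norm_num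
  have e' : ((1 : ℝ) - 3) = -2 := by norm_num
  rw [e, e', margB_blk, one_kron, blk_mul, blk_mul]
  set R := mpow (X + Y) (-1 / 3) with hR
  have hRh : R.IsHermitian := mpow_isHermitian _ _
  have h1 : ∀ Z : Matrix n n ℂ, Z.IsHermitian → (R * Z * R).IsHermitian := by
    intro Z hZ
    have := Matrix.isHermitian_mul_mul_conjTranspose R hZ
    rwa [hRh.eq] at this
  rw [mpow_three (blk_isHermitian (h1 X hX) (h1 Y hY)), pow_three, blk_mul, blk_mul, trace_blk,
    pow_three, pow_three]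

/-- The correlation parameter. -/
noncomputable def tpar (X Y : Matrix n n ℂ) : ℂ :=
  trace ((mpow (X + Y) (-1 / 3) * (X + Y) * mpow (X + Y) (-1 / 3)) *
    (mpow (X + Y) (-1 / 3) * (X - Y) * mpow (X + Y) (-1 / 3)) ^ 2)

lemma cube_identity (P Q : Matrix n n ℂ) :
    4 * (trace (P ^ 3) + trace (Q ^ 3)) =
      trace ((P + Q) ^ 3) + 3 * trace ((P + Q) * (P - Q) ^ 2) := by
  have h1 : trace (P * (Q * P)) = trace (P * (P * Q)) := by
    rw [← mul_assoc, trace_mul_comm]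
  have h2 : trace (Q * (P * P)) = trace (P * (P * Q)) := by
    rw [trace_mul_comm, mul_assoc]
  have h3 : trace (Q * (P * Q)) = trace (P * (Q * Q)) := by
    rw [trace_mul_comm, mul_assoc]
  have h4 : trace (Q * (Q * P)) = trace (P * (Q * Q)) := by
    rw [← mul_assoc, trace_mul_comm]
  simp only [pow_three, pow_two, add_mul, mul_add, sub_mul, mul_sub, trace_add, trace_sub, h1, h2,
    h3, h4]
  ring

lemma cube_identity' (P Q : Matrix n n ℂ) :
    trace ((P + Q) ^ 3) = trace ((P + Q) * (P - Q) ^ 2) +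
      4 * (trace (P * Q * P) + trace (Q * P * Q)) := by
  have h1 : trace (P * (Q * P)) = trace (P * (P * Q)) := by
    rw [← mul_assoc, trace_mul_comm]
  have h2 : trace (Q * (P * P)) = trace (P * (P * Q)) := by
    rw [trace_mul_comm, mul_assoc]
  have h3 : trace (Q * (P * Q)) = trace (P * (Q * Q)) := by
    rw [trace_mul_comm, mul_assoc]
  have h4 : trace (Q * (Q * P)) = trace (P * (Q * Q)) := by
    rw [← mul_assoc, trace_mul_comm]
  simp only [pow_three, pow_two, add_mul, mul_add, sub_mul, mul_sub, trace_add, trace_sub, h1, h2,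
    h3, h4, mul_assoc]
  ring

omit [DecidableEq n] in
lemma psd_sandwich {R Z : Matrix n n ℂ} (hR : R.IsHermitian) (hZ : Z.PosSemidef) :
    (R * Z * R).PosSemidef := by
  have := hZ.mul_mul_conjTranspose_same R
  rwa [hR.eq] at this

lemma tpar_spec {X Y : Matrix n n ℂ} (hX : X.PosSemidef) (hY : Y.PosSemidef)
    (htr : trace (X + Y) = 1) :
    ∃ T : ℝ, 0 ≤ T ∧ T ≤ 1 ∧ tpar X Y = T ∧
      Hdown 3 (blk X Y) = Real.log ((1 + 3 * T) / 4) / (-2) := by
  rw [Hdown_blk hX.1 hY.1]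
  unfold tpar
  have hc := sandwich_cube (hX.add hY)
  set R := mpow (X + Y) (-1 / 3) with hR
  have hRh : R.IsHermitian := mpow_isHermitian _ _
  set P := R * X * R with hP
  set Q := R * Y * R with hQ
  have hPp : P.PosSemidef := psd_sandwich hRh hX
  have hQp : Q.PosSemidef := psd_sandwich hRh hY
  have e1 : R * (X + Y) * R = P + Q := by rw [mul_add, add_mul]
  have e2 : R * (X - Y) * R = P - Q := by rw [mul_sub, sub_mul]
  rw [e1] at hc
  rw [e1, e2]
  have h1 := cube_identity P Q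
  have h2 := cube_identity' P Q
  rw [hc, htr] at h1 h2
  have h3 : 0 ≤ trace ((P + Q) * (P - Q) ^ 2) := by
    have := (psd_sandwich (hPp.1.sub hQp.1) (hPp.add hQp)).trace_nonneg
    rwa [trace_mul_comm, ← mul_assoc, trace_mul_comm, ← pow_two] at this
  have h4 : 0 ≤ trace (P * Q * P) + trace (Q * P * Q) :=
    add_nonneg (psd_sandwich hPp.1 hQp).trace_nonneg (psd_sandwich hQp.1 hPp).trace_nonneg
  have hex : ∀ z : ℂ, 0 ≤ z → ∃ T : ℝ, 0 ≤ T ∧ (T : ℂ) = z := by
    intro z hz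
    obtain ⟨a, b⟩ := Complex.nonneg_iff.1 hz
    exact ⟨z.re, a, Complex.ext (by simp) (by simpa using b)⟩
  obtain ⟨T, hT0, hT⟩ := hex _ h3
  obtain ⟨S, hS0, hS⟩ := hex _ h4
  rw [← hT] at h1 h2
  rw [← hS] at h2
  refine ⟨T, hT0, ?_, hT.symm, ?_⟩
  · have : (1 : ℝ) = T + 4 * S := by exact_mod_cast h2
    linarith
  · have : trace (P ^ 3) + trace (Q ^ 3) = (((1 + 3 * T) / 4 : ℝ) : ℂ) := by
      push_cast
      linear_combination h1 / 4
    rw [this, Complex.ofReal_re]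

lemma tpar_kron {X Y : Matrix n n ℂ} {Z W : Matrix m m ℂ} (hX : X.PosSemidef) (hY : Y.PosSemidef)
    (hZ : Z.PosSemidef) (hW : W.PosSemidef) :
    tpar (X ⊗ₖ Z + Y ⊗ₖ W) (X ⊗ₖ W + Y ⊗ₖ Z) = tpar X Y * tpar Z W := by
  have e1 : X ⊗ₖ Z + Y ⊗ₖ W + (X ⊗ₖ W + Y ⊗ₖ Z) = (X + Y) ⊗ₖ (Z + W) := by
    simp only [add_kronecker, kronecker_add]
    abel
  have e2 : X ⊗ₖ Z + Y ⊗ₖ W - (X ⊗ₖ W + Y ⊗ₖ Z) = (X - Y) ⊗ₖ (Z - W) := by
    ext ⟨i, j⟩ ⟨k, l⟩
    simp only [Matrix.add_apply, Matrix.sub_apply, kroneckerMap_apply]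
    ring
  unfold tpar
  rw [e1, e2, mpow_kron (hX.add hY) (hZ.add hW), pow_two, pow_two, pow_two]
  simp only [← mul_kronecker_mul, trace_kronecker]

omit [Fintype n] [DecidableEq n] in
lemma cq_eq (σ : ZMod 2 → Matrix n n ℂ) :
    cq σ = blk ((1 / 2 : ℂ) • σ 0) ((1 / 2 : ℂ) • σ 1) := by
  simp only [cq, sum_zmod2, blk, kronecker_smul]

omit [Fintype n] [DecidableEq n] [Fintype m] [DecidableEq m] in
lemma combine_eq (σ : ZMod 2 → Matrix n n ℂ) (η : ZMod 2 → Matrix m m ℂ) :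
    combine σ η = blk
      (((1 / 2 : ℂ) • σ 0) ⊗ₖ ((1 / 2 : ℂ) • η 0) + ((1 / 2 : ℂ) • σ 1) ⊗ₖ ((1 / 2 : ℂ) • η 1))
      (((1 / 2 : ℂ) • σ 0) ⊗ₖ ((1 / 2 : ℂ) • η 1) + ((1 / 2 : ℂ) • σ 1) ⊗ₖ ((1 / 2 : ℂ) • η 0)) := by
  have h11 : (1 : ZMod 2) + 1 = 0 := by decide
  have h4 : (1 / 2 : ℂ) * (1 / 2) = 1 / 4 := by norm_num
  simp only [combine, sum_zmod2, blk, kronecker_smul, smul_kronecker, kronecker_add, add_zero,
    zero_add, h11, smul_smul, h4]
  abel

lemma binH_three (p : ℝ) : binH 3 p = Real.log ((1 + 3 * (1 - 2 * p) ^ 2) / 4) / (-2) := by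
  unfold binH
  have h : ∀ x : ℝ, x ^ (3 : ℝ) = x ^ (3 : ℕ) := fun x => by
    exact_mod_cast Real.rpow_natCast x 3
  rw [h, h]
  congr 1
  · congr 1
    ring
  · norm_num

lemma binG_three {T : ℝ} (h0 : 0 ≤ T) (h1 : T ≤ 1) :
    (1 - 2 * binG 3 (Real.log ((1 + 3 * T) / 4) / (-2))) = Real.sqrt T := by
  have hs1 : Real.sqrt T ≤ 1 := Real.sqrt_le_one.2 h1
  have hs0 := Real.sqrt_nonneg T
  have hex : ∃ p ∈ Set.Icc (0 : ℝ) (1 / 2), binH 3 p = Real.log ((1 + 3 * T) / 4) / (-2) := by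
    refine ⟨(1 - Real.sqrt T) / 2, ⟨by linarith, by linarith⟩, ?_⟩
    rw [binH_three]
    congr 4
    have : 1 - 2 * ((1 - Real.sqrt T) / 2) = Real.sqrt T := by ring
    rw [this, Real.sq_sqrt h0]
  have hm := Function.invFunOn_mem hex
  have he := Function.invFunOn_eq hex
  change binG 3 _ ∈ _ at hm
  change binH 3 (binG 3 _) = _ at he
  set q := binG 3 (Real.log ((1 + 3 * T) / 4) / (-2))
  rw [binH_three] at he
  have he' : Real.log ((1 + 3 * (1 - 2 * q) ^ 2) / 4) = Real.log ((1 + 3 * T) / 4) := by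
    linarith
  have h2 := Real.log_injOn_pos (Set.mem_Ioi.2 (by positivity)) (Set.mem_Ioi.2 (by positivity)) he'
  have h3 : T = (1 - 2 * q) ^ 2 := by linarith
  rw [h3, Real.sqrt_sq (by linarith [hm.2])]

lemma binH_bconv {T S : ℝ} (h0 : 0 ≤ T) (h1 : T ≤ 1) (k0 : 0 ≤ S) (k1 : S ≤ 1) :
    binH 3 (bconv (binG 3 (Real.log ((1 + 3 * T) / 4) / (-2)))
      (binG 3 (Real.log ((1 + 3 * S) / 4) / (-2)))) = Real.log ((1 + 3 * (T * S)) / 4) / (-2) := by
  rw [binH_three]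
  have e : ∀ p q : ℝ, 1 - 2 * bconv p q = (1 - 2 * p) * (1 - 2 * q) := by
    intro p q
    unfold bconv
    ring
  rw [e, binG_three h0 h1, binG_three k0 k1, mul_pow, Real.sq_sqrt h0, Real.sq_sqrt k0]

lemma log_dual {T : ℝ} (h0 : 0 ≤ T) :
    Real.log 2 - Real.log ((1 + 3 * T) / 4) / (-2) =
      Real.log ((1 + 3 * ((1 - T) / (1 + 3 * T))) / 4) / (-2) := by
  have hp : 0 < 1 + 3 * T := by positivity
  have e : (1 + 3 * ((1 - T) / (1 + 3 * T))) / 4 = (1 + 3 * T)⁻¹ := by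
    field_simp
    ring
  have h4 : Real.log 4 = 2 * Real.log 2 := by
    rw [show (4 : ℝ) = 2 ^ 2 by norm_num, Real.log_pow]
    norm_num
  rw [e, Real.log_inv, Real.log_div hp.ne' (by norm_num), h4]
  ring

lemma bound_three {T S : ℝ} (h0 : 0 ≤ T) (h1 : T ≤ 1) (k0 : 0 ≤ S) (k1 : S ≤ 1) :
    bound 3 (Real.log ((1 + 3 * T) / 4) / (-2)) (Real.log ((1 + 3 * S) / 4) / (-2)) =
      Real.log ((1 + 3 * (T * S)) / 4) / (-2) := by
  unfold bound
  split_ifs with h
  · exact binH_bconv h0 h1 k0 k1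
  · have hp : 0 < 1 + 3 * T := by positivity
    have hq : 0 < 1 + 3 * S := by positivity
    have a0 : 0 ≤ (1 - T) / (1 + 3 * T) := div_nonneg (by linarith) hp.le
    have a1 : (1 - T) / (1 + 3 * T) ≤ 1 := by rw [div_le_one hp]; linarith
    have b0 : 0 ≤ (1 - S) / (1 + 3 * S) := div_nonneg (by linarith) hq.le
    have b1 : (1 - S) / (1 + 3 * S) ≤ 1 := by rw [div_le_one hq]; linarith
    rw [log_dual h0, log_dual k0, binH_bconv a0 a1 b0 b1]
    have hTS : 0 < 1 + 3 * (T * S) := by positivity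
    have e : (1 + 3 * ((1 - T) / (1 + 3 * T) * ((1 - S) / (1 + 3 * S)))) / 4 =
        (1 + 3 * (T * S)) / ((1 + 3 * T) * (1 + 3 * S)) := by
      field_simp
      ring
    have h4 : Real.log 4 = 2 * Real.log 2 := by
      rw [show (4 : ℝ) = 2 ^ 2 by norm_num, Real.log_pow]
      norm_num
    rw [e, Real.log_div hTS.ne' (by positivity), Real.log_mul hp.ne' hq.ne',
      Real.log_div hp.ne' (by norm_num), Real.log_div hq.ne' (by norm_num),
      Real.log_div hTS.ne' (by norm_num), h4]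
    ring

lemma range_three {T : ℝ} (h0 : 0 ≤ T) (h1 : T ≤ 1) :
    Real.log ((1 + 3 * T) / 4) / (-2) ∈ Set.Icc 0 (Real.log 2) := by
  have h4 : Real.log (1 / 4) = -2 * Real.log 2 := by
    rw [show (1 / 4 : ℝ) = (2 ^ 2)⁻¹ by norm_num, Real.log_inv, Real.log_pow]
    norm_num
  constructor
  · have : Real.log ((1 + 3 * T) / 4) ≤ 0 := Real.log_nonpos (by positivity) (by linarith)
    linarith
  · have : Real.log (1 / 4) ≤ Real.log ((1 + 3 * T) / 4) :=
      Real.log_le_log (by norm_num) (by linarith)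
    linarith

lemma exp_three {T : ℝ} (h0 : 0 ≤ T) :
    Real.exp (-2 * (Real.log ((1 + 3 * T) / 4) / (-2))) = (1 + 3 * T) / 4 := by
  have : -2 * (Real.log ((1 + 3 * T) / 4) / (-2)) = Real.log ((1 + 3 * T) / 4) := by ring
  rw [this, Real.exp_log (by positivity)]

theorem alpha_three (σ : ZMod 2 → Matrix n n ℂ) (η : ZMod 2 → Matrix m m ℂ)
    (hσ : ∀ x, (σ x).PosSemidef ∧ trace (σ x) = 1)
    (hη : ∀ x, (η x).PosSemidef ∧ trace (η x) = 1) :
    Hdown 3 (cq σ) ∈ Set.Icc 0 (Real.log 2) ∧ Hdown 3 (cq η) ∈ Set.Icc 0 (Real.log 2) ∧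
    Hdown 3 (combine σ η) = bound 3 (Hdown 3 (cq σ)) (Hdown 3 (cq η)) ∧
    Hdown 3 (combine σ η) = -(1 / 2) * Real.log (1 / 4 + 4 / 3 *
      (Real.exp (-2 * Hdown 3 (cq σ)) - 1 / 4) * (Real.exp (-2 * Hdown 3 (cq η)) - 1 / 4)) := by
  have hh : (0 : ℂ) ≤ 1 / 2 := by
    rw [show (1 / 2 : ℂ) = ((1 / 2 : ℝ) : ℂ) by push_cast; ring]
    exact Complex.zero_le_real.2 (by norm_num)
  have hX := (hσ 0).1.smul hh
  have hY := (hσ 1).1.smul hh
  have hZ := (hη 0).1.smul hh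
  have hW := (hη 1).1.smul hh
  have t1 : trace ((1 / 2 : ℂ) • σ 0 + (1 / 2 : ℂ) • σ 1) = 1 := by
    rw [trace_add, trace_smul, trace_smul, (hσ 0).2, (hσ 1).2]
    norm_num
  have t2 : trace ((1 / 2 : ℂ) • η 0 + (1 / 2 : ℂ) • η 1) = 1 := by
    rw [trace_add, trace_smul, trace_smul, (hη 0).2, (hη 1).2]
    norm_num
  rw [cq_eq, cq_eq, combine_eq]
  set X := (1 / 2 : ℂ) • σ 0
  set Y := (1 / 2 : ℂ) • σ 1
  set Z := (1 / 2 : ℂ) • η 0
  set W := (1 / 2 : ℂ) • η 1
  have t3 : trace (X ⊗ₖ Z + Y ⊗ₖ W + (X ⊗ₖ W + Y ⊗ₖ Z)) = 1 := by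
    rw [trace_add] at t1 t2
    simp only [trace_add, trace_kronecker]
    linear_combination (trace Z + trace W) * t1 + t2
  obtain ⟨T, h0, h1, hT, hH⟩ := tpar_spec hX hY t1
  obtain ⟨S, k0, k1, hS, hK⟩ := tpar_spec hZ hW t2
  obtain ⟨V, -, -, hV, hL⟩ := tpar_spec ((hX.kronecker hZ).add (hY.kronecker hW))
    ((hX.kronecker hW).add (hY.kronecker hZ)) t3
  rw [tpar_kron hX hY hZ hW, hT, hS] at hV
  have hV' : V = T * S := by exact_mod_cast hV.symm
  rw [hH, hK, hL, hV', bound_three h0 h1 k0 k1, exp_three h0, exp_three k0]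
  refine ⟨range_three h0 h1, range_three k0 k1, rfl, ?_⟩
  have : 1 / 4 + 4 / 3 * ((1 + 3 * T) / 4 - 1 / 4) * ((1 + 3 * S) / 4 - 1 / 4) =
      (1 + 3 * (T * S)) / 4 := by ring
  rw [this]
  ring

end Pool.Agent.MP_560646_mp

end

section

namespace Pool.Agent.MP_560646_mp

open Matrix Kronecker
open scoped ComplexOrder MatrixOrder

variable {n m : Type} [Fintype n] [DecidableEq n] [Fintype m] [DecidableEq m]

/-- Real part of the trace. -/
noncomputable def rt (M : Matrix n n ℂ) : ℝ := (trace M).re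

omit [DecidableEq n] in
lemma rt_add (M N : Matrix n n ℂ) : rt (M + N) = rt M + rt N := by
  simp [rt, trace_add]

omit [DecidableEq n] in
lemma rt_sub (M N : Matrix n n ℂ) : rt (M - N) = rt M - rt N := by
  simp [rt, trace_sub]

omit [DecidableEq n] in
lemma rt_smul (r : ℝ) (M : Matrix n n ℂ) : rt (r • M) = r * rt M := by
  simp [rt, trace_smul]

omit [DecidableEq n] in
lemma rt_comm (M N : Matrix n n ℂ) : rt (M * N) = rt (N * M) := by
  rw [rt, trace_mul_comm, rt]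

omit [DecidableEq n] in
lemma rot4 (x y z w : Matrix n n ℂ) : rt (x * (y * (z * w))) = rt (y * (z * (w * x))) := by
  rw [rt_comm]; simp only [mul_assoc]

omit [DecidableEq n] in
lemma rot5 (x y z w v : Matrix n n ℂ) :
    rt (x * (y * (z * (w * v)))) = rt (y * (z * (w * (v * x)))) := by
  rw [rt_comm]; simp only [mul_assoc]

omit [DecidableEq n] in
lemma rt_nonneg {M : Matrix n n ℂ} (h : M.PosSemidef) : 0 ≤ rt M :=
  (Complex.nonneg_iff.1 h.trace_nonneg).1

lemma exists_root {P : Matrix n n ℂ} (hP : P.PosSemidef) :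
    ∃ A : Matrix n n ℂ, A.IsHermitian ∧ A * A = P :=
  ⟨CFC.sqrt P, (CFC.sqrt_nonneg P).posSemidef.1, CFC.sqrt_mul_sqrt_self P hP.nonneg⟩

lemma exists_abs {D : Matrix n n ℂ} (hD : D.IsHermitian) :
    ∃ T : Matrix n n ℂ, T.PosSemidef ∧ T * T = D * D ∧ T * D = D * T := by
  have hD' : IsSelfAdjoint D := hD
  refine ⟨CFC.abs D, (CFC.abs_nonneg D).posSemidef, ?_, ?_⟩
  · rw [CFC.abs_mul_abs, hD'.star_eq]
  · exact (CFC.commute_abs_self D hD'.isStarNormal).eq

lemma rt_mul_nonneg {P Q : Matrix n n ℂ} (hP : P.PosSemidef) (hQ : Q.PosSemidef) :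
    0 ≤ rt (P * Q) := by
  obtain ⟨A, hA, rfl⟩ := exists_root hP
  rw [mul_assoc, rt_comm]
  exact rt_nonneg (psd_sandwich hA hQ)

omit [DecidableEq n] in
lemma words4 (P Q : Matrix n n ℂ) :
    rt ((P + Q) * ((P + Q) * ((P + Q) * (P + Q)))) =
      (1) * rt (P * (P * (P * P))) + (4) * rt (P * (P * (P * Q))) + (4) * rt (P * (P * (Q * Q))) + (2) * rt (P * (Q * (P * Q))) + (4) * rt (Q * (Q * (Q * P))) + (1) * rt (Q * (Q * (Q * Q))) ∧
    rt ((P + Q) * ((P + Q) * ((P - Q) * (P - Q)))) =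
      (1) * rt (P * (P * (P * P))) + (-2) * rt (P * (Q * (P * Q))) + (1) * rt (Q * (Q * (Q * Q))) ∧
    rt ((P + Q) * ((P - Q) * ((P + Q) * (P - Q)))) =
      (1) * rt (P * (P * (P * P))) + (-4) * rt (P * (P * (Q * Q))) + (2) * rt (P * (Q * (P * Q))) + (1) * rt (Q * (Q * (Q * Q))) ∧
    rt ((P - Q) * ((P - Q) * ((P - Q) * (P - Q)))) =
      (1) * rt (P * (P * (P * P))) + (-4) * rt (P * (P * (P * Q))) + (4) * rt (P * (P * (Q * Q))) + (2) * rt (P * (Q * (P * Q))) + (-4) * rt (Q * (Q * (Q * P))) + (1) * rt (Q * (Q * (Q * Q))) := by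
  have hPPQP : rt (P * (P * (Q * P))) = rt (P * (P * (P * Q))) :=
    (rot4 P P Q P).trans ((rot4 P Q P P).trans (rot4 Q P P P))
  have hPQPP : rt (P * (Q * (P * P))) = rt (P * (P * (P * Q))) :=
    (rot4 P Q P P).trans (rot4 Q P P P)
  have hPQQP : rt (P * (Q * (Q * P))) = rt (P * (P * (Q * Q))) :=
    (rot4 P Q Q P).trans ((rot4 Q Q P P).trans (rot4 Q P P Q))
  have hPQQQ : rt (P * (Q * (Q * Q))) = rt (Q * (Q * (Q * P))) :=
    rot4 P Q Q Q
  have hQPPP : rt (Q * (P * (P * P))) = rt (P * (P * (P * Q))) :=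
    rot4 Q P P P
  have hQPPQ : rt (Q * (P * (P * Q))) = rt (P * (P * (Q * Q))) :=
    rot4 Q P P Q
  have hQPQP : rt (Q * (P * (Q * P))) = rt (P * (Q * (P * Q))) :=
    rot4 Q P Q P
  have hQPQQ : rt (Q * (P * (Q * Q))) = rt (Q * (Q * (Q * P))) :=
    (rot4 Q P Q Q).trans (rot4 P Q Q Q)
  have hQQPP : rt (Q * (Q * (P * P))) = rt (P * (P * (Q * Q))) :=
    (rot4 Q Q P P).trans (rot4 Q P P Q)
  have hQQPQ : rt (Q * (Q * (P * Q))) = rt (Q * (Q * (Q * P))) :=
    (rot4 Q Q P Q).trans ((rot4 Q P Q Q).trans (rot4 P Q Q Q))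
  refine ⟨?_, ?_, ?_, ?_⟩ <;>
  · simp only [mul_add, add_mul, mul_sub, sub_mul, rt_add, rt_sub, hPPQP, hPQPP, hPQQP, hPQQQ, hQPPP, hQPPQ, hQPQP, hQPQQ, hQQPP, hQQPQ]
    ring

omit [DecidableEq n] in
lemma words5 (P Q : Matrix n n ℂ) :
    rt ((P + Q) * ((P + Q) * ((P + Q) * ((P + Q) * (P + Q))))) =
      (1) * rt (P * (P * (P * (P * P)))) + (5) * rt (P * (P * (P * (P * Q)))) + (5) * rt (P * (P * (P * (Q * Q)))) + (5) * rt (P * (P * (Q * (P * Q)))) + (1) * rt (Q * (Q * (Q * (Q * Q)))) + (5) * rt (Q * (Q * (Q * (Q * P)))) + (5) * rt (Q * (Q * (Q * (P * P)))) + (5) * rt (Q * (Q * (P * (Q * P)))) ∧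
    rt ((P + Q) * ((P + Q) * ((P + Q) * ((P - Q) * (P - Q))))) =
      (1) * rt (P * (P * (P * (P * P)))) + (1) * rt (P * (P * (P * (P * Q)))) + (1) * rt (P * (P * (P * (Q * Q)))) + (-3) * rt (P * (P * (Q * (P * Q)))) + (1) * rt (Q * (Q * (Q * (Q * Q)))) + (1) * rt (Q * (Q * (Q * (Q * P)))) + (1) * rt (Q * (Q * (Q * (P * P)))) + (-3) * rt (Q * (Q * (P * (Q * P)))) ∧
    rt ((P + Q) * ((P + Q) * ((P - Q) * ((P + Q) * (P - Q))))) =
      (1) * rt (P * (P * (P * (P * P)))) + (1) * rt (P * (P * (P * (P * Q)))) + (-3) * rt (P * (P * (P * (Q * Q)))) + (1) * rt (P * (P * (Q * (P * Q)))) + (1) * rt (Q * (Q * (Q * (Q * Q)))) + (1) * rt (Q * (Q * (Q * (Q * P)))) + (-3) * rt (Q * (Q * (Q * (P * P)))) + (1) * rt (Q * (Q * (P * (Q * P)))) ∧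
    rt ((P + Q) * ((P - Q) * ((P - Q) * ((P - Q) * (P - Q))))) =
      (1) * rt (P * (P * (P * (P * P)))) + (-3) * rt (P * (P * (P * (P * Q)))) + (1) * rt (P * (P * (P * (Q * Q)))) + (1) * rt (P * (P * (Q * (P * Q)))) + (1) * rt (Q * (Q * (Q * (Q * Q)))) + (-3) * rt (Q * (Q * (Q * (Q * P)))) + (1) * rt (Q * (Q * (Q * (P * P)))) + (1) * rt (Q * (Q * (P * (Q * P)))) := by
  have hPPPQP : rt (P * (P * (P * (Q * P)))) = rt (P * (P * (P * (P * Q)))) :=
    (rot5 P P P Q P).trans ((rot5 P P Q P P).trans ((rot5 P Q P P P).trans (rot5 Q P P P P)))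
  have hPPQPP : rt (P * (P * (Q * (P * P)))) = rt (P * (P * (P * (P * Q)))) :=
    (rot5 P P Q P P).trans ((rot5 P Q P P P).trans (rot5 Q P P P P))
  have hPPQQP : rt (P * (P * (Q * (Q * P)))) = rt (P * (P * (P * (Q * Q)))) :=
    (rot5 P P Q Q P).trans ((rot5 P Q Q P P).trans ((rot5 Q Q P P P).trans (rot5 Q P P P Q)))
  have hPPQQQ : rt (P * (P * (Q * (Q * Q)))) = rt (Q * (Q * (Q * (P * P)))) :=
    (rot5 P P Q Q Q).trans (rot5 P Q Q Q P)
  have hPQPPP : rt (P * (Q * (P * (P * P)))) = rt (P * (P * (P * (P * Q)))) :=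
    (rot5 P Q P P P).trans (rot5 Q P P P P)
  have hPQPPQ : rt (P * (Q * (P * (P * Q)))) = rt (P * (P * (Q * (P * Q)))) :=
    (rot5 P Q P P Q).trans (rot5 Q P P Q P)
  have hPQPQP : rt (P * (Q * (P * (Q * P)))) = rt (P * (P * (Q * (P * Q)))) :=
    (rot5 P Q P Q P).trans ((rot5 Q P Q P P).trans ((rot5 P Q P P Q).trans (rot5 Q P P Q P)))
  have hPQPQQ : rt (P * (Q * (P * (Q * Q)))) = rt (Q * (Q * (P * (Q * P)))) :=
    (rot5 P Q P Q Q).trans ((rot5 Q P Q Q P).trans (rot5 P Q Q P Q))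
  have hPQQPP : rt (P * (Q * (Q * (P * P)))) = rt (P * (P * (P * (Q * Q)))) :=
    (rot5 P Q Q P P).trans ((rot5 Q Q P P P).trans (rot5 Q P P P Q))
  have hPQQPQ : rt (P * (Q * (Q * (P * Q)))) = rt (Q * (Q * (P * (Q * P)))) :=
    rot5 P Q Q P Q
  have hPQQQP : rt (P * (Q * (Q * (Q * P)))) = rt (Q * (Q * (Q * (P * P)))) :=
    rot5 P Q Q Q P
  have hPQQQQ : rt (P * (Q * (Q * (Q * Q)))) = rt (Q * (Q * (Q * (Q * P)))) :=
    rot5 P Q Q Q Q
  have hQPPPP : rt (Q * (P * (P * (P * P)))) = rt (P * (P * (P * (P * Q)))) :=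
    rot5 Q P P P P
  have hQPPPQ : rt (Q * (P * (P * (P * Q)))) = rt (P * (P * (P * (Q * Q)))) :=
    rot5 Q P P P Q
  have hQPPQP : rt (Q * (P * (P * (Q * P)))) = rt (P * (P * (Q * (P * Q)))) :=
    rot5 Q P P Q P
  have hQPPQQ : rt (Q * (P * (P * (Q * Q)))) = rt (Q * (Q * (Q * (P * P)))) :=
    (rot5 Q P P Q Q).trans ((rot5 P P Q Q Q).trans (rot5 P Q Q Q P))
  have hQPQPP : rt (Q * (P * (Q * (P * P)))) = rt (P * (P * (Q * (P * Q)))) :=
    (rot5 Q P Q P P).trans ((rot5 P Q P P Q).trans (rot5 Q P P Q P))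
  have hQPQPQ : rt (Q * (P * (Q * (P * Q)))) = rt (Q * (Q * (P * (Q * P)))) :=
    (rot5 Q P Q P Q).trans ((rot5 P Q P Q Q).trans ((rot5 Q P Q Q P).trans (rot5 P Q Q P Q)))
  have hQPQQP : rt (Q * (P * (Q * (Q * P)))) = rt (Q * (Q * (P * (Q * P)))) :=
    (rot5 Q P Q Q P).trans (rot5 P Q Q P Q)
  have hQPQQQ : rt (Q * (P * (Q * (Q * Q)))) = rt (Q * (Q * (Q * (Q * P)))) :=
    (rot5 Q P Q Q Q).trans (rot5 P Q Q Q Q)
  have hQQPPP : rt (Q * (Q * (P * (P * P)))) = rt (P * (P * (P * (Q * Q)))) :=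
    (rot5 Q Q P P P).trans (rot5 Q P P P Q)
  have hQQPPQ : rt (Q * (Q * (P * (P * Q)))) = rt (Q * (Q * (Q * (P * P)))) :=
    (rot5 Q Q P P Q).trans ((rot5 Q P P Q Q).trans ((rot5 P P Q Q Q).trans (rot5 P Q Q Q P)))
  have hQQPQQ : rt (Q * (Q * (P * (Q * Q)))) = rt (Q * (Q * (Q * (Q * P)))) :=
    (rot5 Q Q P Q Q).trans ((rot5 Q P Q Q Q).trans (rot5 P Q Q Q Q))
  have hQQQPQ : rt (Q * (Q * (Q * (P * Q)))) = rt (Q * (Q * (Q * (Q * P)))) :=
    (rot5 Q Q Q P Q).trans ((rot5 Q Q P Q Q).trans ((rot5 Q P Q Q Q).trans (rot5 P Q Q Q Q)))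
  refine ⟨?_, ?_, ?_, ?_⟩ <;>
  · simp only [mul_add, add_mul, mul_sub, sub_mul, rt_add, rt_sub, hPPPQP, hPPQPP, hPPQQP, hPPQQQ, hPQPPP, hPQPPQ, hPQPQP, hPQPQQ, hPQQPP, hPQQPQ, hPQQQP, hPQQQQ, hQPPPP, hQPPPQ, hQPPQP, hQPPQQ, hQPQPP, hQPQPQ, hQPQQP, hQPQQQ, hQQPPP, hQQPPQ, hQQPQQ, hQQQPQ]
    ring

/-- The constraints on the word traces of length four. -/
structure Core4 (N a b c : ℝ) : Prop where
  hab : b ≤ a
  hL : ∀ t : ℝ, 0 ≤ t → t * (a - b) / 2 ≤ t ^ 2 * N - 2 * t * a + c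

/-- The constraints on the word traces of length five. -/
structure Core5 (N a b c : ℝ) : Prop where
  hab : b ≤ a
  hL : ∀ t : ℝ, 0 ≤ t ^ 2 * N - 2 * t * a + c

omit [DecidableEq n] in
lemma comm_sq (S D : Matrix n n ℂ) :
    rt ((S * D - D * S) * (D * S - S * D)) =
      2 * (rt (S * (S * (D * D))) - rt (S * (D * (S * D)))) := by
  have h1 : rt (S * (D * (D * S))) = rt (S * (S * (D * D))) := (rot4 S S D D).symm
  have h2 : rt (D * (S * (D * S))) = rt (S * (D * (S * D))) := rot4 D S D S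
  have h3 : rt (D * (S * (S * D))) = rt (S * (S * (D * D))) := rot4 D S S D
  simp only [mul_sub, sub_mul, rt_sub, mul_assoc, h1, h2, h3]
  ring

lemma key_L {S D : Matrix n n ℂ} (hS : S.PosSemidef) (hD : D.IsHermitian) :
    (rt (S * (S * (D * D))) - rt (S * (D * (S * D)))) / 2 ≤
      rt (S * (S * (S * S))) - 2 * rt (S * (S * (D * D))) + rt (D * (D * (D * D))) := by
  obtain ⟨T, hT, hTT, hTD⟩ := exists_abs hD
  obtain ⟨W, hW⟩ : ∃ W, W = S - T := ⟨_, rfl⟩
  have hWh : W.IsHermitian := by rw [hW]; exact hS.1.sub hT.1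
  have e1 : S * S - D * D = S * W + W * T := by rw [← hTT, hW]; noncomm_ring
  have e2 : S * S - D * D = W * S + T * W := by rw [← hTT, hW]; noncomm_ring
  have e3 : S * D - D * S = W * D - D * W := by
    rw [hW, sub_mul, mul_sub, hTD]; abel
  have e4 : D * S - S * D = D * W - W * D := by
    rw [hW, sub_mul, mul_sub, hTD]; abel
  have c1 := comm_sq S D
  have c2 := comm_sq W D
  rw [e3, e4, c2] at c1
  have E1 : rt ((S * S - D * D) * (S * S - D * D)) =
      rt (S * (S * (S * S))) - 2 * rt (S * (S * (D * D))) + rt (D * (D * (D * D))) := by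
    have h1 : rt (D * (D * (S * S))) = rt (S * (S * (D * D))) :=
      (rot4 D D S S).trans (rot4 D S S D)
    simp only [mul_sub, sub_mul, rt_sub, mul_assoc, h1]
    ring
  have E2 : rt ((S * S - D * D) * (S * S - D * D)) =
      rt (W * (S * (S * W))) + 2 * rt (T * (W * (S * W))) + rt (W * (W * (D * D))) := by
    nth_rewrite 1 [e2]
    rw [e1]
    have h1 : rt (W * (S * (W * T))) = rt (T * (W * (S * W))) := (rot4 T W S W).symm
    have h2 : rt (T * (W * (W * T))) = rt (W * (W * (D * D))) := by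
      rw [← hTT]; exact rot4 T W W T
    simp only [mul_add, add_mul, rt_add, mul_assoc, h1, h2]
    ring
  have p1 : 0 ≤ rt (W * (S * (S * W))) := by
    have := rt_nonneg (posSemidef_conjTranspose_mul_self (S * W))
    rwa [conjTranspose_mul, hWh.eq, hS.1.eq, mul_assoc] at this
  have p2 : 0 ≤ rt (T * (W * (S * W))) := by
    have := rt_mul_nonneg hT (psd_sandwich hWh hS)
    rwa [mul_assoc] at this
  have p3 : 0 ≤ rt (W * (W * (D * D))) + rt (W * (D * (W * D))) := by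
    have := rt_nonneg (posSemidef_conjTranspose_mul_self (W * D + D * W))
    rw [conjTranspose_add, conjTranspose_mul, conjTranspose_mul, hWh.eq, hD.eq] at this
    have h1 : rt (W * (D * (D * W))) = rt (W * (W * (D * D))) := (rot4 W W D D).symm
    have h2 : rt (D * (W * (D * W))) = rt (W * (D * (W * D))) := rot4 D W D W
    have h3 : rt (D * (W * (W * D))) = rt (W * (W * (D * D))) := rot4 D W W D
    simp only [mul_add, add_mul, rt_add, mul_assoc, h1, h2, h3] at this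
    linarith
  linarith

lemma core4 {S D : Matrix n n ℂ} (hS : S.PosSemidef) (hD : D.IsHermitian) :
    Core4 (rt (S * (S * (S * S)))) (rt (S * (S * (D * D)))) (rt (S * (D * (S * D))))
      (rt (D * (D * (D * D)))) := by
  constructor
  · have := rt_nonneg (posSemidef_self_mul_conjTranspose (S * D - D * S))
    rw [conjTranspose_sub, conjTranspose_mul, conjTranspose_mul, hS.1.eq, hD.eq, comm_sq] at this
    linarith
  · intro t ht
    obtain ⟨r, hr, rfl⟩ : ∃ r : ℝ, 0 ≤ r ∧ t = r ^ 2 :=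
      ⟨Real.sqrt t, Real.sqrt_nonneg t, (Real.sq_sqrt ht).symm⟩
    have := key_L (hS.smul hr) hD
    simp only [smul_mul_assoc, mul_smul_comm, rt_smul] at this
    nlinarith

lemma core5 {S D : Matrix n n ℂ} (hS : S.PosSemidef) (hD : D.IsHermitian) :
    Core5 (rt (S * (S * (S * (S * S))))) (rt (S * (S * (S * (D * D)))))
      (rt (S * (S * (D * (S * D))))) (rt (S * (D * (D * (D * D))))) := by
  constructor
  · have := rt_mul_nonneg hS (posSemidef_self_mul_conjTranspose (S * D - D * S))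
    rw [conjTranspose_sub, conjTranspose_mul, conjTranspose_mul, hS.1.eq, hD.eq] at this
    have h1 : rt (S * (S * (D * (D * S)))) = rt (S * (S * (S * (D * D)))) :=
      (rot5 S S S D D).symm
    have h2 : rt (S * (D * (S * (D * S)))) = rt (S * (S * (D * (S * D)))) :=
      (rot5 S S D S D).symm
    have h3 : rt (S * (D * (S * (S * D)))) = rt (S * (S * (D * (S * D)))) :=
      (rot5 S D S S D).trans (rot5 D S S D S)
    simp only [mul_sub, sub_mul, rt_sub, mul_assoc, h1, h2, h3] at this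
    linarith
  · intro t
    have hM : (t • (S * S) - D * D).IsHermitian := by
      unfold Matrix.IsHermitian
      rw [conjTranspose_sub, conjTranspose_smul, conjTranspose_mul, conjTranspose_mul, hS.1.eq,
        hD.eq, star_trivial]
    have := rt_mul_nonneg hS (posSemidef_self_mul_conjTranspose (t • (S * S) - D * D))
    rw [hM.eq] at this
    have h1 : rt (S * (D * (D * (S * S)))) = rt (S * (S * (S * (D * D)))) :=
      ((rot5 S S S D D).trans (rot5 S S D D S)).symm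
    simp only [mul_sub, sub_mul, rt_sub, smul_mul_assoc, mul_smul_comm, rt_smul, mul_assoc,
      h1] at this
    nlinarith

omit [DecidableEq n] in
lemma rt_fromBlocks (A B C D : Matrix n n ℂ) : rt (fromBlocks A B C D) = rt A + rt D := by
  simp [rt, trace, Fintype.sum_sum_type]

omit [DecidableEq n] in
lemma dual_psd {A B : Matrix n n ℂ} (hA : A.IsHermitian) (hB : B.IsHermitian) :
    (fromBlocks (A * A) 0 0 (B * B)).PosSemidef := by
  have := posSemidef_conjTranspose_mul_self (fromBlocks A 0 0 B)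
  rwa [fromBlocks_conjTranspose, fromBlocks_multiply, hA.eq, hB.eq, conjTranspose_zero,
    Matrix.mul_zero, Matrix.mul_zero, Matrix.mul_zero, Matrix.zero_mul, Matrix.zero_mul,
    add_zero, add_zero, zero_add] at this

omit [DecidableEq n] in
lemma dual_herm {A B : Matrix n n ℂ} (hA : A.IsHermitian) (hB : B.IsHermitian) :
    (fromBlocks 0 (A * B) (B * A) 0).IsHermitian := by
  unfold Matrix.IsHermitian
  rw [fromBlocks_conjTranspose, conjTranspose_mul, conjTranspose_mul, hA.eq, hB.eq,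
    conjTranspose_zero]

lemma dual4 {P Q : Matrix n n ℂ} (hP : P.PosSemidef) (hQ : Q.PosSemidef) :
    Core4 (rt (P * (P * (P * P))) + rt (Q * (Q * (Q * Q))))
      (rt (P * (P * (P * Q))) + rt (Q * (Q * (Q * P)))) (2 * rt (P * (P * (Q * Q))))
      (2 * rt (P * (Q * (P * Q)))) := by
  obtain ⟨A, hA, rfl⟩ := exists_root hP
  obtain ⟨B, hB, rfl⟩ := exists_root hQ
  have key := core4 (dual_psd hA hB) (dual_herm hA hB)
  simp only [fromBlocks_multiply, Matrix.mul_zero, Matrix.zero_mul, add_zero, zero_add,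
    rt_fromBlocks] at key
  have r : ∀ X Y : Matrix n n ℂ, rt (X * X * (X * X * (X * Y * (Y * X)))) =
      rt (X * X * (X * X * (X * X * (Y * Y)))) := by
    intro X Y
    simp only [← mul_assoc]
    rw [rt_comm]
    simp only [mul_assoc]
  have r2 : ∀ X Y : Matrix n n ℂ, rt (X * X * (X * Y * (Y * Y * (Y * X)))) =
      rt (X * X * (X * X * (Y * Y * (Y * Y)))) := by
    intro X Y
    simp only [← mul_assoc]
    rw [rt_comm]
    simp only [mul_assoc]
  have r3 : ∀ X Y : Matrix n n ℂ, rt (X * Y * (Y * X * (X * Y * (Y * X)))) =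
      rt (X * X * (Y * Y * (X * X * (Y * Y)))) := by
    intro X Y
    simp only [← mul_assoc]
    rw [rt_comm]
    simp only [mul_assoc]
  rw [r A B, r B A, r2 A B, r2 B A, r3 A B, r3 B A, rot4 (B * B) (B * B) (A * A) (A * A),
    rot4 (B * B) (A * A) (A * A) (B * B), rot4 (B * B) (A * A) (B * B) (A * A), ← two_mul,
    ← two_mul] at key
  exact key

lemma dual5 {P Q : Matrix n n ℂ} (hP : P.PosSemidef) (hQ : Q.PosSemidef) :
    Core5 (rt (P * (P * (P * (P * P)))) + rt (Q * (Q * (Q * (Q * Q)))))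
      (rt (P * (P * (P * (P * Q)))) + rt (Q * (Q * (Q * (Q * P)))))
      (rt (P * (P * (P * (Q * Q)))) + rt (Q * (Q * (Q * (P * P)))))
      (rt (P * (P * (Q * (P * Q)))) + rt (Q * (Q * (P * (Q * P))))) := by
  obtain ⟨A, hA, rfl⟩ := exists_root hP
  obtain ⟨B, hB, rfl⟩ := exists_root hQ
  have key := core5 (dual_psd hA hB) (dual_herm hA hB)
  simp only [fromBlocks_multiply, Matrix.mul_zero, Matrix.zero_mul, add_zero, zero_add,
    rt_fromBlocks] at key
  have r : ∀ X Y : Matrix n n ℂ, rt (X * X * (X * X * (X * X * (X * Y * (Y * X))))) =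
      rt (X * X * (X * X * (X * X * (X * X * (Y * Y))))) := by
    intro X Y
    simp only [← mul_assoc]
    rw [rt_comm]
    simp only [mul_assoc]
  have r2 : ∀ X Y : Matrix n n ℂ, rt (X * X * (X * X * (X * Y * (Y * Y * (Y * X))))) =
      rt (X * X * (X * X * (X * X * (Y * Y * (Y * Y))))) := by
    intro X Y
    simp only [← mul_assoc]
    rw [rt_comm]
    simp only [mul_assoc]
  have r3 : ∀ X Y : Matrix n n ℂ, rt (X * X * (X * Y * (Y * X * (X * Y * (Y * X))))) =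
      rt (X * X * (X * X * (Y * Y * (X * X * (Y * Y))))) := by
    intro X Y
    simp only [← mul_assoc]
    rw [rt_comm]
    simp only [mul_assoc]
  rw [r A B, r B A, r2 A B, r2 B A, r3 A B, r3 B A] at key
  exact key

end Pool.Agent.MP_560646_mp

end
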