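import Mathlib
import Pool.Agent.Mg.F560646.Gb33330

section

namespace Pool.Agent.MP_560646_mp

/-- The bilinear form used in the polygon argument. -/
def bform (A B C u v u' v' : ℝ) : ℝ := A * u * u' + B * (u * v' + v * u') + C * v * v'

lemma bform_comm (A B C u v u' v' : ℝ) : bform A B C u v u' v' = bform A B C u' v' u v := by
  unfold bform; ring

/-- Both points lie in the lower piece of their polygons. -/
lemma poly_low {A B C U₁ U₂ e₁ e₂ w₁ w₂ u₁ v₁ u₂ v₂ : ℝ} (hA : 0 < A) (hB : 0 ≤ B)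
    (hC : B ^ 2 ≤ A * C) (he₁ : 0 ≤ e₁) (he₂ : 0 ≤ e₂) (hU₁ : 0 ≤ U₁) (hU₂ : 0 ≤ U₂)
    (hw₁ : 0 ≤ w₁) (hw₂ : 0 ≤ w₂)
    (hm : (A ^ 2 * (e₁ * e₂) + (A * C - B ^ 2)) * (w₁ * w₂) ≤ A ^ 2 * (e₁ * w₁ + e₂ * w₂))
    (hu₁ : 0 ≤ u₁) (hv₁ : 0 ≤ v₁) (hu₂ : 0 ≤ u₂) (hv₂ : 0 ≤ v₂)
    (hp₁ : A * u₁ + B * v₁ ≤ A * (U₁ - e₁ * v₁)) (hp₂ : A * u₂ + B * v₂ ≤ A * (U₂ - e₂ * v₂))
    (hl₁ : v₁ ≤ w₁ * U₁) (hl₂ : v₂ ≤ w₂ * U₂) :
    bform A B C u₁ v₁ u₂ v₂ ≤ A * U₁ * U₂ := by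
  have hz₁ : 0 ≤ A * u₁ + B * v₁ := by positivity
  have hz₂ : 0 ≤ A * u₂ + B * v₂ := by positivity
  have h1 : (A * u₁ + B * v₁) * (A * u₂ + B * v₂) ≤
      (A * (U₁ - e₁ * v₁)) * (A * (U₂ - e₂ * v₂)) :=
    mul_le_mul hp₁ hp₂ hz₂ (hz₁.trans hp₁)
  have key : (A ^ 2 * (e₁ * e₂) + (A * C - B ^ 2)) * (v₁ * v₂) ≤
      A ^ 2 * (e₁ * v₁ * U₂ + e₂ * v₂ * U₁) := by
    rcases hw₁.eq_or_lt with h | hw₁'
    · have : v₁ = 0 := le_antisymm (by rw [← h] at hl₁; simpa using hl₁) hv₁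
      rw [this]
      have : 0 ≤ A ^ 2 * (e₂ * v₂ * U₁) := by positivity
      simpa using this
    rcases hw₂.eq_or_lt with h | hw₂'
    · have : v₂ = 0 := le_antisymm (by rw [← h] at hl₂; simpa using hl₂) hv₂
      rw [this]
      have : 0 ≤ A ^ 2 * (e₁ * v₁ * U₂) := by positivity
      simpa using this
    have hww : 0 < w₁ * w₂ := mul_pos hw₁' hw₂'
    apply le_of_mul_le_mul_left _ hww
    have a1 : (A ^ 2 * (e₁ * e₂) + (A * C - B ^ 2)) * (w₁ * w₂) * (v₁ * v₂) ≤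
        A ^ 2 * (e₁ * w₁ + e₂ * w₂) * (v₁ * v₂) :=
      mul_le_mul_of_nonneg_right hm (by positivity)
    have a2 : A ^ 2 * e₁ * w₁ * v₁ * v₂ ≤ A ^ 2 * e₁ * w₁ * v₁ * (w₂ * U₂) :=
      mul_le_mul_of_nonneg_left hl₂ (by positivity)
    have a3 : A ^ 2 * e₂ * w₂ * v₂ * v₁ ≤ A ^ 2 * e₂ * w₂ * v₂ * (w₁ * U₁) :=
      mul_le_mul_of_nonneg_left hl₁ (by positivity)
    nlinarith [a1, a2, a3]
  apply le_of_mul_le_mul_left _ hA
  unfold bform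
  nlinarith [h1, key]

/-- A point of the upper piece is dominated by the top vertex or by a point on the cut. -/
lemma poly_cut {α β κ V c u v : ℝ} (hα : 0 ≤ α) (hκ : 0 < κ) (hu : 0 ≤ u)
    (hd : v + κ * u ≤ V) (hc : c ≤ v) :
    α * u + β * v ≤ β * V ∨ α * u + β * v ≤ α * ((V - c) / κ) + β * c := by
  have hu' : u ≤ (V - v) / κ := by
    rw [le_div_iff₀ hκ]; linarith
  have h1 : α * u ≤ α * ((V - v) / κ) := mul_le_mul_of_nonneg_left hu' hα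
  have hvV : v ≤ V := by nlinarith
  rcases le_total (α / κ) β with h | h
  · left
    have : α * ((V - v) / κ) = α / κ * (V - v) := by ring
    nlinarith
  · right
    have e1 : α * ((V - v) / κ) = α / κ * (V - v) := by ring
    have e2 : α * ((V - c) / κ) = α / κ * (V - c) := by ring
    nlinarith

/-- The data of one polygon. -/
structure PolyData (A B C : ℝ) where
  U : ℝ
  e : ℝ
  κ : ℝ
  ρ : ℝ
  w : ℝ
  hU : 0 ≤ U
  he : 0 ≤ e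
  hκ : B ≤ C * κ
  hκ0 : 0 < κ
  hρ : 0 ≤ ρ
  hw : 0 ≤ w
  hcut : A * (ρ - w) ≤ κ * (A - (A * e + B) * w)

/-- Membership in the polygon. -/
def PolyData.Mem {A B C : ℝ} (p : PolyData A B C) (u v : ℝ) : Prop :=
  0 ≤ u ∧ 0 ≤ v ∧ A * u + B * v ≤ A * (p.U - p.e * v) ∧ v + p.κ * u ≤ p.ρ * p.U

lemma poly_reduce {A B C : ℝ} (hA : 0 < A) (hB : 0 ≤ B) (hC0 : 0 ≤ C) (p q : PolyData A B C)
    (hπ : C * (p.ρ * q.ρ) ≤ A) {u v : ℝ} (hx : p.Mem u v)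
    (H : ∀ u' v', q.Mem u' v' → v' ≤ q.w * q.U → bform A B C u v u' v' ≤ A * p.U * q.U)
    {u' v' : ℝ} (hy : q.Mem u' v') : bform A B C u v u' v' ≤ A * p.U * q.U := by
  rcases le_total v' (q.w * q.U) with h | h
  · exact H u' v' hy h
  obtain ⟨hu, hv, hp, hd⟩ := hx
  obtain ⟨hu', hv', hp', hd'⟩ := hy
  have hα : 0 ≤ A * u + B * v := by positivity
  have e : ∀ a b, bform A B C u v a b = (A * u + B * v) * a + (B * u + C * v) * b := by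
    intro a b; unfold bform; ring
  have hqU := q.hU
  have hqρ := q.hρ
  have hpU := p.hU
  rcases poly_cut (β := B * u + C * v) hα q.hκ0 hu' hd' h with h1 | h1
  · rw [e]
    refine h1.trans ?_
    have b1 : B * u + C * v ≤ C * (p.ρ * p.U) := by
      have := mul_le_mul_of_nonneg_right p.hκ hu
      have := mul_le_mul_of_nonneg_left hd hC0
      nlinarith
    have b2 : (B * u + C * v) * (q.ρ * q.U) ≤ C * (p.ρ * p.U) * (q.ρ * q.U) :=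
      mul_le_mul_of_nonneg_right b1 (by positivity)
    have b3 : C * (p.ρ * q.ρ) * (p.U * q.U) ≤ A * (p.U * q.U) :=
      mul_le_mul_of_nonneg_right hπ (by positivity)
    nlinarith
  · rw [e]
    refine h1.trans ?_
    rw [← e]
    have hk := q.hκ0
    have hw := q.hw
    have hvV : v' ≤ q.ρ * q.U := by nlinarith
    refine H _ _ ⟨div_nonneg (by linarith) hk.le, by positivity, ?_, ?_⟩ le_rfl
    · have c1 : A * (q.ρ - q.w) * q.U ≤ q.κ * (A - (A * q.e + B) * q.w) * q.U :=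
        mul_le_mul_of_nonneg_right q.hcut hqU
      have c2 : A * ((q.ρ * q.U - q.w * q.U) / q.κ) ≤ (A - (A * q.e + B) * q.w) * q.U := by
        rw [← mul_div_assoc, div_le_iff₀ hk]
        nlinarith
      nlinarith
    · have : q.κ * ((q.ρ * q.U - q.w * q.U) / q.κ) = q.ρ * q.U - q.w * q.U := by
        field_simp
      rw [this]
      linarith

theorem polygon {A B C : ℝ} (hA : 0 < A) (hB : 0 ≤ B) (hC0 : 0 ≤ C) (hC : B ^ 2 ≤ A * C)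
    (p q : PolyData A B C) (hπ : C * (p.ρ * q.ρ) ≤ A)
    (hm : (A ^ 2 * (p.e * q.e) + (A * C - B ^ 2)) * (p.w * q.w) ≤
      A ^ 2 * (p.e * p.w + q.e * q.w))
    {u v u' v' : ℝ} (hx : p.Mem u v) (hy : q.Mem u' v') :
    bform A B C u v u' v' ≤ A * p.U * q.U := by
  refine poly_reduce hA hB hC0 p q hπ hx ?_ hy
  intro a b hab hb
  rw [bform_comm, mul_right_comm]
  refine poly_reduce hA hB hC0 q p (by rw [mul_comm q.ρ]; exact hπ) hab ?_ hx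
  intro c d hcd hd
  rw [bform_comm, mul_right_comm]
  exact poly_low hA hB hC p.he q.he p.hU q.hU p.hw q.hw hm hcd.1 hcd.2.1 hab.1 hab.2.1
    hcd.2.2.1 hab.2.2.1 hd hb

/-- Reduction of the main two-system inequality to the curve. -/
lemma main_reduce {μ e₁ e₂ w₁ w₂ e' w' : ℝ} (he₁ : 0 ≤ e₁) (hw₁ : 0 ≤ w₁) (hw₂ : 0 ≤ w₂)
    (he : e' ≤ e₂) (hw : w₂ ≤ w') (h3 : e₁ * w₁ ≤ 1)
    (h : (e₁ * e' + μ) * (w₁ * w') ≤ e₁ * w₁ + e' * w') :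
    (e₁ * e₂ + μ) * (w₁ * w₂) ≤ e₁ * w₁ + e₂ * w₂ := by
  have a1 : w₂ * (e' * (1 - e₁ * w₁)) ≤ w₂ * (e₂ * (1 - e₁ * w₁)) :=
    mul_le_mul_of_nonneg_left (mul_le_mul_of_nonneg_right he (by linarith)) hw₂
  have a0 : 0 ≤ e₁ * w₁ := mul_nonneg he₁ hw₁
  rcases le_total 0 (e' * (1 - e₁ * w₁) - μ * w₁) with hb | hb
  · have := mul_nonneg hw₂ hb
    nlinarith
  · have := mul_le_mul_of_nonpos_right hw hb
    nlinarith

end Pool.Agent.MP_560646_mp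

end

section

namespace Pool.Agent.MP_560646_mp

lemma strip_lo {b g L D E t p : ℝ} (hb : 0 < b) (hg : 0 ≤ g) (hD : 0 < D) (ht : 0 ≤ t)
    (hp : 0 < p) (h : (1 + b * t + g * t ^ 2) * p = L)
    (c : (D ^ 2 + b * E * D + g * E ^ 2) * p ≤ L * D ^ 2) : E ≤ t * D := by
  by_contra hc
  push Not at hc
  have h1 : 0 ≤ t * D := by positivity
  have h2 : (t * D) ^ 2 ≤ E ^ 2 := pow_le_pow_left₀ h1 hc.le 2
  have h3 : b * (t * D) * D < b * E * D :=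
    mul_lt_mul_of_pos_right (mul_lt_mul_of_pos_left hc hb) hD
  have h4 : g * (t * D) ^ 2 ≤ g * E ^ 2 := mul_le_mul_of_nonneg_left h2 hg
  have h5 : (D ^ 2 + b * (t * D) * D + g * (t * D) ^ 2) * p <
      (D ^ 2 + b * E * D + g * E ^ 2) * p := mul_lt_mul_of_pos_right (by linarith) hp
  have h6 : (D ^ 2 + b * (t * D) * D + g * (t * D) ^ 2) * p = L * D ^ 2 := by
    rw [← h]; ring
  linarith

lemma strip_hi {b g L D E t p : ℝ} (hb : 0 < b) (hg : 0 ≤ g) (hD : 0 < D) (hE : 0 ≤ E)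
    (hp : 0 < p) (h : (1 + b * t + g * t ^ 2) * p = L)
    (c : L * D ^ 2 ≤ (D ^ 2 + b * E * D + g * E ^ 2) * p) : t * D ≤ E := by
  by_contra hc
  push Not at hc
  have h2 : E ^ 2 ≤ (t * D) ^ 2 := pow_le_pow_left₀ hE hc.le 2
  have h3 : b * E * D < b * (t * D) * D :=
    mul_lt_mul_of_pos_right (mul_lt_mul_of_pos_left hc hb) hD
  have h4 : g * E ^ 2 ≤ g * (t * D) ^ 2 := mul_le_mul_of_nonneg_left h2 hg
  have h5 : (D ^ 2 + b * E * D + g * E ^ 2) * p <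
      (D ^ 2 + b * (t * D) * D + g * (t * D) ^ 2) * p := mul_lt_mul_of_pos_right (by linarith) hp
  have h6 : (D ^ 2 + b * (t * D) * D + g * (t * D) ^ 2) * p = L * D ^ 2 := by
    rw [← h]; ring
  linarith

lemma lin_pos {A B t D₁ D₂ E : ℝ} (hD₁ : 0 < D₁) (hD₂ : 0 < D₂) (lo : E ≤ t * D₁)
    (hi : t * D₂ ≤ E) (c₁ : 0 ≤ D₁ * A + B * E) (c₂ : 0 ≤ D₂ * A + B * E) : 0 ≤ A + B * t := by
  rcases le_total 0 B with h | h
  · have := mul_le_mul_of_nonneg_left lo h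
    have h2 : 0 ≤ D₁ * (A + B * t) := by nlinarith
    exact (mul_nonneg_iff_of_pos_left hD₁).1 h2
  · have := mul_le_mul_of_nonpos_left hi h
    have h2 : 0 ≤ D₂ * (A + B * t) := by nlinarith
    exact (mul_nonneg_iff_of_pos_left hD₂).1 h2

lemma cert_lo4 {s : ℝ} (h0 : 0 ≤ s) (h1 : s ≤ 1) :
    0 ≤ 4 * s ^ 2 + (-8) * s ^ 3 + 4 * s ^ 4 := by
  have h2 : 0 ≤ 1 - s := sub_nonneg.2 h1
  have e : 4 * s ^ 2 + (-8) * s ^ 3 + 4 * s ^ 4 =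
      4 * (s ^ 2 * (1 - s) ^ 2) := by ring
  rw [e]
  positivity

lemma curve_lo4 {t s : ℝ} (t0 : 0 ≤ t) (s0 : 0 ≤ s) (s1 : s ≤ 1)
    (h : (1 + 6 * t + 1 * t ^ 2) * (1 + 6 * s + 1 * s ^ 2) = 8) :
    1 - s ≤ t * (1 + 5 * s) :=
  strip_lo (by norm_num) (by norm_num) (by positivity) t0 (by positivity) h
    (by have := cert_lo4 s0 s1; linarith)

lemma cert_hi4 {s : ℝ} (h0 : 0 ≤ s) (h1 : s ≤ 1) :
    0 ≤ (4 / 5) * s + (-127 / 100) * s ^ 2 + (243 / 50) * s ^ 3 + (-439 / 100) * s ^ 4 := by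
  have h2 : 0 ≤ 1 - s := sub_nonneg.2 h1
  have e : (4 / 5) * s + (-127 / 100) * s ^ 2 + (243 / 50) * s ^ 3 + (-439 / 100) * s ^ 4 =
      4 / 5 * (s ^ 1 * (1 - s) ^ 3) + 113 / 100 * (s ^ 2 * (1 - s) ^ 2) + 118 / 25 * (s ^ 3 * (1 - s) ^ 1) := by ring
  rw [e]
  positivity

lemma curve_hi4 {t s : ℝ} (s0 : 0 ≤ s) (s1 : s ≤ 1)
    (h : (1 + 6 * t + 1 * t ^ 2) * (1 + 6 * s + 1 * s ^ 2) = 8) :
    t * (1 + 49 / 10 * s) ≤ 1 - s :=
  strip_hi (by norm_num) (by norm_num) (by positivity) (sub_nonneg.2 s1) (by positivity) h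
    (by have := cert_hi4 s0 s1; linarith)

lemma cert_cutlo4 {s : ℝ} (h0 : 0 ≤ s) (h1 : s ≤ 1) :
    0 ≤ 2772000 * s ^ 2 + (-7700672) * s ^ 3 + 6503000 * s ^ 4 + (-479416) * s ^ 5 + (-949508) * s ^ 6 + (-140112) * s ^ 7 + (-5292) * s ^ 8 := by
  have h2 : 0 ≤ 1 - s := sub_nonneg.2 h1
  have e : 2772000 * s ^ 2 + (-7700672) * s ^ 3 + 6503000 * s ^ 4 + (-479416) * s ^ 5 + (-949508) * s ^ 6 + (-140112) * s ^ 7 + (-5292) * s ^ 8 =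
      2772000 * (s ^ 2 * (1 - s) ^ 6) + 8931328 * (s ^ 3 * (1 - s) ^ 5) + 9579640 * (s ^ 4 * (1 - s) ^ 4) + 3965864 * (s ^ 5 * (1 - s) ^ 3) + 1203524 * (s ^ 6 * (1 - s) ^ 2) + 663264 * (s ^ 7 * (1 - s) ^ 1) := by ring
  rw [e]
  positivity

lemma cert_cuthi4 {s : ℝ} (h0 : 0 ≤ s) (h1 : s ≤ 1) :
    0 ≤ 24192 * s + 2513280 * s ^ 2 + (-7353360) * s ^ 3 + (31483368 / 5) * s ^ 4 + (-2004408 / 5) * s ^ 5 + (-4650324 / 5) * s ^ 6 + (-719712 / 5) * s ^ 7 + (-29484 / 5) * s ^ 8 := by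
  have h2 : 0 ≤ 1 - s := sub_nonneg.2 h1
  have e : 24192 * s + 2513280 * s ^ 2 + (-7353360) * s ^ 3 + (31483368 / 5) * s ^ 4 + (-2004408 / 5) * s ^ 5 + (-4650324 / 5) * s ^ 6 + (-719712 / 5) * s ^ 7 + (-29484 / 5) * s ^ 8 =
      24192 * (s ^ 1 * (1 - s) ^ 7) + 2682624 * (s ^ 2 * (1 - s) ^ 6) + 8234352 * (s ^ 3 * (1 - s) ^ 5) + 40378968 / 5 * (s ^ 4 * (1 - s) ^ 4) + 11822664 / 5 * (s ^ 5 * (1 - s) ^ 3) + 320964 * (s ^ 6 * (1 - s) ^ 2) + 2311008 / 5 * (s ^ 7 * (1 - s) ^ 1) := by ring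
  rw [e]
  positivity

lemma curve_cut4 {t s : ℝ} (t0 : 0 ≤ t) (s0 : 0 ≤ s) (s1 : s ≤ 1)
    (h : (1 + 6 * t + 1 * t ^ 2) * (1 + 6 * s + 1 * s ^ 2) = 8) :
    0 ≤ 4 * (s + 6) * (s + 7) * ((24 + 8 * s) * (12 + 4 * t) * (s * (140 - 50 * s + 72 * s ^ 2 - 27 * s ^ 3)) +
      (8 + 19 * s) * (90 * (12 + 4 * t) - (8 + 19 * t) * (s * (140 - 50 * s + 72 * s ^ 2 - 27 * s ^ 3)))) -
      90 * (24 + 8 * s) * (12 + 4 * t) * (t + 6) * (t + 7) * (1 + 6 * s + 1 * s ^ 2) := by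
  have key : 0 ≤ ((-241920) + 2587200 * s + (-3473120) * s ^ 2 + 2063264 * s ^ 3 + (-785344) * s ^ 4 + (-194432) * s ^ 5 + 38304 * s ^ 6 + 6048 * s ^ 7) + (241920 + (-1135680) * s + (-7826560) * s ^ 2 + (-224896) * s ^ 3 + (-3252872) * s ^ 4 + 388864 * s ^ 5 + 373212 * s ^ 6 + 35532 * s ^ 7) * t :=
    lin_pos (by positivity) (by positivity) (curve_lo4 t0 s0 s1 h) (curve_hi4 s0 s1 h)
      (by have := cert_cutlo4 s0 s1; linarith) (by have := cert_cuthi4 s0 s1; linarith)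
  have e : 4 * (s + 6) * (s + 7) * ((24 + 8 * s) * (12 + 4 * t) * (s * (140 - 50 * s + 72 * s ^ 2 - 27 * s ^ 3)) +
      (8 + 19 * s) * (90 * (12 + 4 * t) - (8 + 19 * t) * (s * (140 - 50 * s + 72 * s ^ 2 - 27 * s ^ 3)))) -
      90 * (24 + 8 * s) * (12 + 4 * t) * (t + 6) * (t + 7) * (1 + 6 * s + 1 * s ^ 2) =
      ((-241920) + 2587200 * s + (-3473120) * s ^ 2 + 2063264 * s ^ 3 + (-785344) * s ^ 4 + (-194432) * s ^ 5 + 38304 * s ^ 6 + 6048 * s ^ 7) + (241920 + (-1135680) * s + (-7826560) * s ^ 2 + (-224896) * s ^ 3 + (-3252872) * s ^ 4 + 388864 * s ^ 5 + 373212 * s ^ 6 + 35532 * s ^ 7) * t := by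
    linear_combination ((-86400) + (-28800) * s + (-8640) * t + (-2880) * t * s) * h
  rw [e]
  exact key

lemma cert_main4_0 {s : ℝ} (h0 : 0 ≤ s) (h1 : s ≤ 1) :
    0 ≤ 44452800 + 874979280 * s + 6414983568 * s ^ 2 + (101255180544 / 5) * s ^ 3 + (464652264132 / 25) * s ^ 4 + (-130632693219 / 5) * s ^ 5 + (-4054961846943 / 125) * s ^ 6 + (1657201578669 / 250) * s ^ 7 + (1441471195647 / 250) * s ^ 8 := by
  have h2 : 0 ≤ 1 - s := sub_nonneg.2 h1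
  have e : 44452800 + 874979280 * s + 6414983568 * s ^ 2 + (101255180544 / 5) * s ^ 3 + (464652264132 / 25) * s ^ 4 + (-130632693219 / 5) * s ^ 5 + (-4054961846943 / 125) * s ^ 6 + (1657201578669 / 250) * s ^ 7 + (1441471195647 / 250) * s ^ 8 =
      44452800 * (s ^ 0 * (1 - s) ^ 8) + 1230601680 * (s ^ 1 * (1 - s) ^ 7) + 13784516928 * (s ^ 2 * (1 - s) ^ 6) + 398024295984 / 5 * (s ^ 3 * (1 - s) ^ 5) + 6245049885732 / 25 * (s ^ 4 * (1 - s) ^ 4) + 10303537191633 / 25 * (s ^ 5 * (1 - s) ^ 3) + 39881448821592 / 125 * (s ^ 6 * (1 - s) ^ 2) + 20984930601327 / 250 * (s ^ 7 * (1 - s) ^ 1) := by ring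
  rw [e]
  positivity

lemma cert_main4_1 {s : ℝ} (h0 : 0 ≤ s) (h1 : s ≤ 1) :
    0 ≤ 181515600 + 3126929400 * s + 20221706484 * s ^ 2 + (293901933654 / 5) * s ^ 3 + (1513408526658 / 25) * s ^ 4 + (-1474675794459 / 25) * s ^ 5 + (-19155220523082 / 125) * s ^ 6 + (13966036704711 / 250) * s ^ 7 + (3379442465763 / 250) * s ^ 8 := by
  have h2 : 0 ≤ 1 - s := sub_nonneg.2 h1
  have e : 181515600 + 3126929400 * s + 20221706484 * s ^ 2 + (293901933654 / 5) * s ^ 3 + (1513408526658 / 25) * s ^ 4 + (-1474675794459 / 25) * s ^ 5 + (-19155220523082 / 125) * s ^ 6 + (13966036704711 / 250) * s ^ 7 + (3379442465763 / 250) * s ^ 8 =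
      181515600 * (s ^ 0 * (1 - s) ^ 8) + 4579054200 * (s ^ 1 * (1 - s) ^ 7) + 47192649084 * (s ^ 2 * (1 - s) ^ 6) + 1279705083174 / 5 * (s ^ 3 * (1 - s) ^ 5) + 19497812324508 / 25 * (s ^ 4 * (1 - s) ^ 4) + 32375093301873 / 25 * (s ^ 5 * (1 - s) ^ 3) + 124361575705773 / 125 * (s ^ 6 * (1 - s) ^ 2) + 63284422634433 / 250 * (s ^ 7 * (1 - s) ^ 1) := by ring
  rw [e]
  positivity

lemma cert_main4_2 {s : ℝ} (h0 : 0 ≤ s) (h1 : s ≤ 1) :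
    0 ≤ 216336960 + 3805876368 * s + (114694599348 / 5) * s ^ 2 + (286238807316 / 5) * s ^ 3 + (1568104719363 / 25) * s ^ 4 + (-300540730833 / 25) * s ^ 5 + (-67728826946781 / 250) * s ^ 6 + (32632332141969 / 250) * s ^ 7 + (684315627156 / 125) * s ^ 8 := by
  have h2 : 0 ≤ 1 - s := sub_nonneg.2 h1
  have e : 216336960 + 3805876368 * s + (114694599348 / 5) * s ^ 2 + (286238807316 / 5) * s ^ 3 + (1568104719363 / 25) * s ^ 4 + (-300540730833 / 25) * s ^ 5 + (-67728826946781 / 250) * s ^ 6 + (32632332141969 / 250) * s ^ 7 + (684315627156 / 125) * s ^ 8 =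
      216336960 * (s ^ 0 * (1 - s) ^ 8) + 5536572048 * (s ^ 1 * (1 - s) ^ 7) + 278187446628 / 5 * (s ^ 2 * (1 - s) ^ 6) + 1434597770844 / 5 * (s ^ 3 * (1 - s) ^ 5) + 21034901355363 / 25 * (s ^ 4 * (1 - s) ^ 4) + 35386292013219 / 25 * (s ^ 5 * (1 - s) ^ 3) + 267976797111009 / 250 * (s ^ 6 * (1 - s) ^ 2) + 63943684295337 / 250 * (s ^ 7 * (1 - s) ^ 1) := by ring
  rw [e]
  positivity

lemma cert_main4_3 {s : ℝ} (h0 : 0 ≤ s) (h1 : s ≤ 1) :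
    0 ≤ 69272280 + 1519216020 * s + (52501256136 / 5) * s ^ 2 + (108980640594 / 5) * s ^ 3 + (70318676988 / 5) * s ^ 4 + (1299458579391 / 25) * s ^ 5 + (-26785341191007 / 125) * s ^ 6 + (30274985493081 / 250) * s ^ 7 + (-1686039665877 / 250) * s ^ 8 := by
  have h2 : 0 ≤ 1 - s := sub_nonneg.2 h1
  have e : 69272280 + 1519216020 * s + (52501256136 / 5) * s ^ 2 + (108980640594 / 5) * s ^ 3 + (70318676988 / 5) * s ^ 4 + (1299458579391 / 25) * s ^ 5 + (-26785341191007 / 125) * s ^ 6 + (30274985493081 / 250) * s ^ 7 + (-1686039665877 / 250) * s ^ 8 =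
      69272280 * (s ^ 0 * (1 - s) ^ 8) + 2073394260 * (s ^ 1 * (1 - s) ^ 7) + 115371936036 / 5 * (s ^ 2 * (1 - s) ^ 6) + 120580419582 * (s ^ 3 * (1 - s) ^ 5) + 1692848823498 / 5 * (s ^ 4 * (1 - s) ^ 4) + 14831284971951 / 25 * (s ^ 5 * (1 - s) ^ 3) + 54417865280058 / 125 * (s ^ 6 * (1 - s) ^ 2) + 21973823092683 / 250 * (s ^ 7 * (1 - s) ^ 1) := by ring
  rw [e]
  positivity

lemma cert_main4_4 {s : ℝ} (h0 : 0 ≤ s) (h1 : s ≤ 1) :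
    0 ≤ 6419952 * s + (5416891578 / 5) * s ^ 2 + (18232998588 / 5) * s ^ 3 + (-183221627022 / 25) * s ^ 4 + (158095806372 / 5) * s ^ 5 + (-16114758842511 / 250) * s ^ 6 + (4989545302077 / 125) * s ^ 7 + (-1121005306323 / 250) * s ^ 8 := by
  have h2 : 0 ≤ 1 - s := sub_nonneg.2 h1
  have e : 6419952 * s + (5416891578 / 5) * s ^ 2 + (18232998588 / 5) * s ^ 3 + (-183221627022 / 25) * s ^ 4 + (158095806372 / 5) * s ^ 5 + (-16114758842511 / 250) * s ^ 6 + (4989545302077 / 125) * s ^ 7 + (-1121005306323 / 250) * s ^ 8 =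
      6419952 * (s ^ 1 * (1 - s) ^ 7) + 5641589898 / 5 * (s ^ 2 * (1 - s) ^ 6) + 51408443016 / 5 * (s ^ 3 * (1 - s) ^ 5) + 684487664028 / 25 * (s ^ 4 * (1 - s) ^ 4) + 1516549068972 / 25 * (s ^ 5 * (1 - s) ^ 3) + 9819187217469 / 250 * (s ^ 6 * (1 - s) ^ 2) + 164815415226 / 125 * (s ^ 7 * (1 - s) ^ 1) := by ring
  rw [e]
  positivity

lemma curve_main4 {t s : ℝ} (t0 : 0 ≤ t) (s0 : 0 ≤ s) (s1 : s ≤ 1)
    (hi : t * (1 + 49 / 10 * s) ≤ 1 - s) :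
    0 ≤ 12 * 49 * 90 * 9 * ((3 + s) * (140 - 50 * s + 72 * s ^ 2 - 27 * s ^ 3) + (3 + t) * (140 - 50 * t + 72 * t ^ 2 - 27 * t ^ 3)) -
      (9 * 49 * 49 * s * t + 14 * 144 * (3 + t) * (3 + s)) * (140 - 50 * s + 72 * s ^ 2 - 27 * s ^ 3) * (140 - 50 * t + 72 * t ^ 2 - 27 * t ^ 3) := by
  obtain ⟨r, r0, r1, hr⟩ : ∃ r : ℝ, 0 ≤ r ∧ r ≤ 1 ∧ t * (1 + 49 / 10 * s) = r * (1 - s) := by
    rcases s1.eq_or_lt with h | h
    · refine ⟨0, le_rfl, zero_le_one, ?_⟩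
      have : 0 ≤ t * (1 + 49 / 10 * s) := by positivity
      rw [h] at hi this ⊢
      linarith
    · have h' : 0 < 1 - s := sub_pos.2 h
      refine ⟨t * (1 + 49 / 10 * s) / (1 - s), by positivity, (div_le_one h').2 hi, ?_⟩
      field_simp
  have hD : 0 < (1 + 49 / 10 * s) ^ 4 := by positivity
  refine (mul_nonneg_iff_of_pos_left hD).1 ?_
  have e1 : (1 + 49 / 10 * s) ^ 4 * (12 * 49 * 90 * 9 * ((3 + s) * (140 - 50 * s + 72 * s ^ 2 - 27 * s ^ 3) + (3 + t) * (140 - 50 * t + 72 * t ^ 2 - 27 * t ^ 3)) -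
      (9 * 49 * 49 * s * t + 14 * 144 * (3 + t) * (3 + s)) * (140 - 50 * s + 72 * s ^ 2 - 27 * s ^ 3) * (140 - 50 * t + 72 * t ^ 2 - 27 * t ^ 3)) =
      (44452800 + 3704400 * s + (-61493040) * s ^ 2 + 3333960 * s ^ 3 + 10001880 * s ^ 4) * (1 + 49 / 10 * s) ^ 4 * (t * (1 + 49 / 10 * s)) ^ 0 +
      (3704400 + (-423738000) * s + 154609560 * s ^ 2 + (-218000160) * s ^ 3 + 81137700 * s ^ 4) * (1 + 49 / 10 * s) ^ 3 * (t * (1 + 49 / 10 * s)) ^ 1 +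
      ((-61493040) + 154609560 * s + (-109575396) * s ^ 2 + 80804304 * s ^ 3 + (-20136438) * s ^ 4) * (1 + 49 / 10 * s) ^ 2 * (t * (1 + 49 / 10 * s)) ^ 2 +
      (3333960 + (-218000160) * s + 80804304 * s ^ 2 + (-112184352) * s ^ 3 + 41518008 * s ^ 4) * (1 + 49 / 10 * s) ^ 1 * (t * (1 + 49 / 10 * s)) ^ 3 +
      (10001880 + 81137700 * s + (-20136438) * s ^ 2 + 41518008 * s ^ 3 + (-17222625) * s ^ 4) * (1 + 49 / 10 * s) ^ 0 * (t * (1 + 49 / 10 * s)) ^ 4 := by ring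
  have r2 : 0 ≤ 1 - r := sub_nonneg.2 r1
  have e2 : (1 + 49 / 10 * s) ^ 4 * (12 * 49 * 90 * 9 * ((3 + s) * (140 - 50 * s + 72 * s ^ 2 - 27 * s ^ 3) + (3 + t) * (140 - 50 * t + 72 * t ^ 2 - 27 * t ^ 3)) -
      (9 * 49 * 49 * s * t + 14 * 144 * (3 + t) * (3 + s)) * (140 - 50 * s + 72 * s ^ 2 - 27 * s ^ 3) * (140 - 50 * t + 72 * t ^ 2 - 27 * t ^ 3)) =
      (44452800 + 874979280 * s + 6414983568 * s ^ 2 + (101255180544 / 5) * s ^ 3 + (464652264132 / 25) * s ^ 4 + (-130632693219 / 5) * s ^ 5 + (-4054961846943 / 125) * s ^ 6 + (1657201578669 / 250) * s ^ 7 + (1441471195647 / 250) * s ^ 8) * (r ^ 0 * (1 - r) ^ 4) +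
      (181515600 + 3126929400 * s + 20221706484 * s ^ 2 + (293901933654 / 5) * s ^ 3 + (1513408526658 / 25) * s ^ 4 + (-1474675794459 / 25) * s ^ 5 + (-19155220523082 / 125) * s ^ 6 + (13966036704711 / 250) * s ^ 7 + (3379442465763 / 250) * s ^ 8) * (r ^ 1 * (1 - r) ^ 3) +
      (216336960 + 3805876368 * s + (114694599348 / 5) * s ^ 2 + (286238807316 / 5) * s ^ 3 + (1568104719363 / 25) * s ^ 4 + (-300540730833 / 25) * s ^ 5 + (-67728826946781 / 250) * s ^ 6 + (32632332141969 / 250) * s ^ 7 + (684315627156 / 125) * s ^ 8) * (r ^ 2 * (1 - r) ^ 2) +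
      (69272280 + 1519216020 * s + (52501256136 / 5) * s ^ 2 + (108980640594 / 5) * s ^ 3 + (70318676988 / 5) * s ^ 4 + (1299458579391 / 25) * s ^ 5 + (-26785341191007 / 125) * s ^ 6 + (30274985493081 / 250) * s ^ 7 + (-1686039665877 / 250) * s ^ 8) * (r ^ 3 * (1 - r) ^ 1) +
      (6419952 * s + (5416891578 / 5) * s ^ 2 + (18232998588 / 5) * s ^ 3 + (-183221627022 / 25) * s ^ 4 + (158095806372 / 5) * s ^ 5 + (-16114758842511 / 250) * s ^ 6 + (4989545302077 / 125) * s ^ 7 + (-1121005306323 / 250) * s ^ 8) * (r ^ 4 * (1 - r) ^ 0) := by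
    rw [e1, hr]
    ring
  rw [e2]
  have c0 := cert_main4_0 s0 s1
  have c1 := cert_main4_1 s0 s1
  have c2 := cert_main4_2 s0 s1
  have c3 := cert_main4_3 s0 s1
  have c4 := cert_main4_4 s0 s1
  positivity

lemma cert_lo5 {s : ℝ} (h0 : 0 ≤ s) (h1 : s ≤ 1) :
    0 ≤ 80 * s ^ 2 + (-160) * s ^ 3 + 80 * s ^ 4 := by
  have h2 : 0 ≤ 1 - s := sub_nonneg.2 h1
  have e : 80 * s ^ 2 + (-160) * s ^ 3 + 80 * s ^ 4 =
      80 * (s ^ 2 * (1 - s) ^ 2) := by ring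
  rw [e]
  positivity

lemma curve_lo5 {t s : ℝ} (t0 : 0 ≤ t) (s0 : 0 ≤ s) (s1 : s ≤ 1)
    (h : (1 + 10 * t + 5 * t ^ 2) * (1 + 10 * s + 5 * s ^ 2) = 16) :
    1 - s ≤ t * (1 + 7 * s) :=
  strip_lo (by norm_num) (by norm_num) (by positivity) t0 (by positivity) h
    (by have := cert_lo5 s0 s1; linarith)

lemma cert_hi5 {s : ℝ} (h0 : 0 ≤ s) (h1 : s ≤ 1) :
    0 ≤ 20 * s + 5 * s ^ 2 + 70 * s ^ 3 + (-95) * s ^ 4 := by
  have h2 : 0 ≤ 1 - s := sub_nonneg.2 h1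
  have e : 20 * s + 5 * s ^ 2 + 70 * s ^ 3 + (-95) * s ^ 4 =
      20 * (s ^ 1 * (1 - s) ^ 3) + 65 * (s ^ 2 * (1 - s) ^ 2) + 140 * (s ^ 3 * (1 - s) ^ 1) := by ring
  rw [e]
  positivity

lemma curve_hi5 {t s : ℝ} (s0 : 0 ≤ s) (s1 : s ≤ 1)
    (h : (1 + 10 * t + 5 * t ^ 2) * (1 + 10 * s + 5 * s ^ 2) = 16) :
    t * (1 + 6 * s) ≤ 1 - s :=
  strip_hi (by norm_num) (by norm_num) (by positivity) (sub_nonneg.2 s1) (by positivity) h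
    (by have := cert_hi5 s0 s1; linarith)

lemma cert_cutlo5 {s : ℝ} (h0 : 0 ≤ s) (h1 : s ≤ 1) :
    0 ≤ 72 * s + 228 * s ^ 2 + 192 * s ^ 3 + 420 * s ^ 4 + 240 * s ^ 5 := by
  have h2 : 0 ≤ 1 - s := sub_nonneg.2 h1
  have e : 72 * s + 228 * s ^ 2 + 192 * s ^ 3 + 420 * s ^ 4 + 240 * s ^ 5 =
      72 * (s ^ 1 * (1 - s) ^ 4) + 516 * (s ^ 2 * (1 - s) ^ 3) + 1308 * (s ^ 3 * (1 - s) ^ 2) + 1776 * (s ^ 4 * (1 - s) ^ 1) + 1152 * (s ^ 5 * (1 - s) ^ 0) := by ring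
  rw [e]
  positivity

lemma cert_cuthi5 {s : ℝ} (h0 : 0 ≤ s) (h1 : s ≤ 1) :
    0 ≤ 120 * s + (-36) * s ^ 2 + 180 * s ^ 3 + 504 * s ^ 4 + 240 * s ^ 5 := by
  have h2 : 0 ≤ 1 - s := sub_nonneg.2 h1
  have e : 120 * s + (-36) * s ^ 2 + 180 * s ^ 3 + 504 * s ^ 4 + 240 * s ^ 5 =
      120 * (s ^ 1 * (1 - s) ^ 4) + 444 * (s ^ 2 * (1 - s) ^ 3) + 792 * (s ^ 3 * (1 - s) ^ 2) + 1236 * (s ^ 4 * (1 - s) ^ 1) + 1008 * (s ^ 5 * (1 - s) ^ 0) := by ring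
  rw [e]
  positivity

lemma curve_cut5 {t s : ℝ} (t0 : 0 ≤ t) (s0 : 0 ≤ s) (s1 : s ≤ 1)
    (h : (1 + 10 * t + 5 * t ^ 2) * (1 + 10 * s + 5 * s ^ 2) = 16) :
    0 ≤ 4 * (s + 2) * (s + 3) * ((2 + 2 * s) * (2 + 2 * t) * (5 * s) +
      (1 + 4 * s) * (2 * (2 + 2 * t) - (1 + 4 * t) * (5 * s))) -
      2 * (2 + 2 * s) * (2 + 2 * t) * (t + 2) * (t + 3) * (1 + 10 * s + 5 * s ^ 2) := by
  have key : 0 ≤ ((-48) + 264 * s + 12 * s ^ 2 + (-84) * s ^ 3) + (48 + 192 * s + (-1440) * s ^ 2 + (-1248) * s ^ 3 + (-240) * s ^ 4) * t :=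
    lin_pos (by positivity) (by positivity) (curve_lo5 t0 s0 s1 h) (curve_hi5 s0 s1 h)
      (by have := cert_cutlo5 s0 s1; linarith) (by have := cert_cuthi5 s0 s1; linarith)
  have e : 4 * (s + 2) * (s + 3) * ((2 + 2 * s) * (2 + 2 * t) * (5 * s) +
      (1 + 4 * s) * (2 * (2 + 2 * t) - (1 + 4 * t) * (5 * s))) -
      2 * (2 + 2 * s) * (2 + 2 * t) * (t + 2) * (t + 3) * (1 + 10 * s + 5 * s ^ 2) =
      ((-48) + 264 * s + 12 * s ^ 2 + (-84) * s ^ 3) + (48 + 192 * s + (-1440) * s ^ 2 + (-1248) * s ^ 3 + (-240) * s ^ 4) * t := by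
    linear_combination ((-32 / 5) + (-32 / 5) * s + (-8 / 5) * t + (-8 / 5) * t * s) * h
  rw [e]
  exact key

end Pool.Agent.MP_560646_mp

end

section

namespace Pool.Agent.MP_560646_mp

def psi4 (t : ℝ) : ℝ := 1 + 6 * t + 1 * t ^ 2

lemma psi4_pos {t : ℝ} (h : 0 ≤ t) : 0 < psi4 t := by
  unfold psi4; positivity

structure Half4 (a b c t : ℝ) : Prop where
  h0 : 0 ≤ t
  h1 : t ≤ 1
  hab : b ≤ a
  hL : t * (a - b) / 2 ≤ t ^ 2 - 2 * t * a + c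
  hs : 1 + 4 * a + 2 * b + c = psi4 t

structure Link4 (a b c t a' b' c' : ℝ) : Prop where
  ha : psi4 t * a' = 1 - c
  hb : psi4 t * b' = 1 - 2 * b + c
  hc : psi4 t * c' = 1 - 4 * a + 2 * b + c

lemma curve4 {a b c t a' b' c' s : ℝ} (h : Half4 a b c t) (h' : Half4 a' b' c' s)
    (l : Link4 a b c t a' b' c') : psi4 t * psi4 s = 8 := by
  linear_combination -(psi4 t) * h'.hs + 4 * l.ha + 2 * l.hb + l.hc - h.hs

lemma Link4.symm {a b c t a' b' c' s : ℝ} (h : Half4 a b c t) (h' : Half4 a' b' c' s)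
    (l : Link4 a b c t a' b' c') : Link4 a' b' c' s a b c := by
  have hc := curve4 h h' l
  have hp := (psi4_pos h.h0).ne'
  refine ⟨mul_left_cancel₀ hp ?_, mul_left_cancel₀ hp ?_, mul_left_cancel₀ hp ?_⟩
  · linear_combination a * hc + l.hc + h.hs
  · linear_combination b * hc + 2 * l.hb - l.hc + h.hs
  · linear_combination c * hc + 4 * l.ha - 2 * l.hb - l.hc + h.hs

noncomputable def e4 (t : ℝ) : ℝ := 49 * t / (36 + 12 * t)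
noncomputable def w4 (s : ℝ) : ℝ := s * (140 - 50 * s + 72 * s ^ 2 - 27 * s ^ 3) / 90
noncomputable def rho4 (t s : ℝ) : ℝ := (t + 6) * (t + 7) * psi4 s / (4 * ((s + 6) * (s + 7)))

lemma om4_pos {s : ℝ} (s0 : 0 ≤ s) (s1 : s ≤ 1) : 0 < 140 - 50 * s + 72 * s ^ 2 - 27 * s ^ 3 := by
  nlinarith [mul_nonneg s0 (sub_nonneg.2 s1), mul_nonneg (mul_nonneg s0 s0) (sub_nonneg.2 s1)]

lemma w4_nonneg {s : ℝ} (s0 : 0 ≤ s) (s1 : s ≤ 1) : 0 ≤ w4 s := by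
  have := om4_pos s0 s1
  unfold w4; positivity

lemma w4_mono {x y : ℝ} (x0 : 0 ≤ x) (hxy : x ≤ y) (y1 : y ≤ 1) : w4 x ≤ w4 y := by
  unfold w4
  have y0 : 0 ≤ y := x0.trans hxy
  have x1 : x ≤ 1 := hxy.trans y1
  have e : y * (140 - 50 * y + 72 * y ^ 2 - 27 * y ^ 3) -
      x * (140 - 50 * x + 72 * x ^ 2 - 27 * x ^ 3) = (y - x) * (140 - 50 * (x + y) +
        72 * (x ^ 2 + x * y + y ^ 2) - 27 * ((x + y) * (x ^ 2 + y ^ 2))) := by ring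
  have h1 : (x + y) * (x ^ 2 + y ^ 2) ≤ 2 * (x ^ 2 + y ^ 2) :=
    mul_le_mul_of_nonneg_right (by linarith) (by positivity)
  have h2 : 0 ≤ 140 - 50 * (x + y) +
        72 * (x ^ 2 + x * y + y ^ 2) - 27 * ((x + y) * (x ^ 2 + y ^ 2)) := by
    nlinarith [mul_nonneg x0 y0, sq_nonneg x, sq_nonneg y]
  have := mul_nonneg (sub_nonneg.2 hxy) h2
  linarith

lemma e4_nonneg {t : ℝ} (t0 : 0 ≤ t) : 0 ≤ e4 t := by
  unfold e4; positivity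

lemma e4_mono {x y : ℝ} (x0 : 0 ≤ x) (hxy : x ≤ y) : e4 x ≤ e4 y := by
  unfold e4
  have y0 : 0 ≤ y := x0.trans hxy
  rw [div_le_div_iff₀ (by positivity) (by positivity)]
  nlinarith

noncomputable def pd4 {t s : ℝ} (t0 : 0 ≤ t) (t1 : t ≤ 1) (s0 : 0 ≤ s) (s1 : s ≤ 1)
    (h : psi4 t * psi4 s = 8) : PolyData 6 4 12 where
  U := t - t ^ 2
  e := e4 t
  κ := (8 + 19 * s) / (24 + 8 * s)
  ρ := rho4 t s
  w := w4 s
  hU := by nlinarith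
  he := e4_nonneg t0
  hκ := by
    rw [← mul_div_assoc, le_div_iff₀ (by positivity)]
    nlinarith
  hκ0 := by positivity
  hρ := by
    have := psi4_pos s0
    unfold rho4; positivity
  hw := w4_nonneg s0 s1
  hcut := by
    have key := curve_cut4 t0 s0 s1 h
    rw [← sub_nonneg]
    have e : (8 + 19 * s) / (24 + 8 * s) * (6 - (6 * e4 t + 4) * w4 s) - 6 * (rho4 t s - w4 s) =
        6 * (4 * (s + 6) * (s + 7) * ((24 + 8 * s) * (12 + 4 * t) *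
          (s * (140 - 50 * s + 72 * s ^ 2 - 27 * s ^ 3)) +
      (8 + 19 * s) * (90 * (12 + 4 * t) - (8 + 19 * t) *
        (s * (140 - 50 * s + 72 * s ^ 2 - 27 * s ^ 3)))) -
      90 * (24 + 8 * s) * (12 + 4 * t) * (t + 6) * (t + 7) * (1 + 6 * s + 1 * s ^ 2)) /
        (4 * (s + 6) * (s + 7) * (24 + 8 * s) * (12 + 4 * t) * 90) := by
      unfold e4 w4 rho4 psi4
      field_simp
      ring
    rw [e]
    positivity

lemma primal4 {a b c t : ℝ} (h : Half4 a b c t) :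
    (a - b) * (8 + 19 * t) ≤ (t - t ^ 2 - (b - c)) * (12 + 4 * t) := by
  have h1 := h.hL
  have h2 := h.hs
  unfold psi4 at h2
  have h3 : c = 6 * t + t ^ 2 - 4 * a - 2 * b := by linarith
  subst h3
  nlinarith

lemma mem4 {a b c t a' b' c' s : ℝ} (h : Half4 a b c t) (h' : Half4 a' b' c' s)
    (l : Link4 a b c t a' b' c') :
    (pd4 h.h0 h.h1 h'.h0 h'.h1 (curve4 h h' l)).Mem (b - c) (a - b) := by
  have hp := psi4_pos h.h0
  have hc := curve4 h h' l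
  have t0 := h.h0
  have s0 := h'.h0
  have ev : psi4 t * (a' - b') = 2 * (b - c) := by linear_combination l.ha - l.hb
  have eu : psi4 t * (b' - c') = 4 * (a - b) := by linear_combination l.hb - l.hc
  refine ⟨?_, sub_nonneg.2 h.hab, ?_, ?_⟩
  · have := mul_nonneg hp.le (sub_nonneg.2 h'.hab)
    linarith
  · have := primal4 h
    change 6 * (b - c) + 4 * (a - b) ≤ 6 * (t - t ^ 2 - e4 t * (a - b))
    rw [← sub_nonneg]
    have e : 6 * (t - t ^ 2 - e4 t * (a - b)) - (6 * (b - c) + 4 * (a - b)) =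
        6 * ((t - t ^ 2 - (b - c)) * (12 + 4 * t) - (a - b) * (8 + 19 * t)) / (12 + 4 * t) := by
      unfold e4
      field_simp
      ring
    rw [e]
    exact div_nonneg (by linarith) (by positivity)
  · have h1 := mul_le_mul_of_nonneg_left (primal4 h') hp.le
    change (a - b) + (8 + 19 * s) / (24 + 8 * s) * (b - c) ≤ rho4 t s * (t - t ^ 2)
    have e1 : rho4 t s * (t - t ^ 2) = psi4 t * (s - s ^ 2) / 4 := by
      unfold rho4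
      field_simp
      unfold psi4 at hc ⊢
      linear_combination ((1 + 6 * s + 1 * s ^ 2) - (1 + 6 * t + 1 * t ^ 2)) * hc
    rw [e1, ← sub_nonneg]
    have e2 : psi4 t * (s - s ^ 2) / 4 - ((a - b) + (8 + 19 * s) / (24 + 8 * s) * (b - c)) =
        (psi4 t * ((s - s ^ 2 - (b' - c')) * (12 + 4 * s)) - psi4 t * ((a' - b') * (8 + 19 * s))) /
          (4 * (12 + 4 * s)) := by
      have f1 : a - b = psi4 t * (b' - c') / 4 := by linarith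
      have f2 : b - c = psi4 t * (a' - b') / 2 := by linarith
      rw [f1, f2]
      field_simp
      ring
    rw [e2]
    exact div_nonneg (by linarith) (by positivity)

lemma r4_mono {x y : ℝ} (x0 : 0 ≤ x) (hxy : x ≤ y) (y1 : y ≤ 1) :
    ((y + 6) * (y + 7)) ^ 2 * psi4 x ≤ ((x + 6) * (x + 7)) ^ 2 * psi4 y := by
  unfold psi4
  obtain ⟨d, d0, rfl⟩ : ∃ d, 0 ≤ d ∧ y = x + d := ⟨y - x, by linarith, by ring⟩
  have x1 : x ≤ 1 := by linarith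
  have d1 : d ≤ 1 - x := by linarith
  rw [← sub_nonneg]
  have e : ((x + 6) * (x + 7)) ^ 2 * (1 + 6 * (x + d) + 1 * (x + d) ^ 2) -
      ((x + d + 6) * (x + d + 7)) ^ 2 * (1 + 6 * x + 1 * x ^ 2) =
      d * (((x + 6) * (x + 7)) ^ 2 * (6 + 2 * x + d) - (1 + 6 * x + x ^ 2) *
        ((2 * x + 13 + d) * ((x + 6) * (x + 7) + (x + d + 6) * (x + d + 7)))) := by ring
  rw [e]
  refine mul_nonneg d0 ?_
  have a1 : (x + d + 6) * (x + d + 7) ≤ 56 := by nlinarith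
  have a2 : 42 ≤ (x + 6) * (x + 7) := by nlinarith
  have a3 : (x + 6) * (x + 7) + (x + d + 6) * (x + d + 7) ≤ 7 / 3 * ((x + 6) * (x + 7)) := by
    linarith
  have a4 : (2 * x + 13 + d) * ((x + 6) * (x + 7) + (x + d + 6) * (x + d + 7)) ≤
      (14 + x) * (7 / 3 * ((x + 6) * (x + 7))) :=
    mul_le_mul (by linarith) a3 (by positivity) (by positivity)
  have a5 : (1 + 6 * x + x ^ 2) *
      ((2 * x + 13 + d) * ((x + 6) * (x + 7) + (x + d + 6) * (x + d + 7))) ≤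
      (1 + 6 * x + x ^ 2) * ((14 + x) * (7 / 3 * ((x + 6) * (x + 7)))) :=
    mul_le_mul_of_nonneg_left a4 (by positivity)
  have a6 : (1 + 6 * x + x ^ 2) * ((14 + x) * (7 / 3)) ≤ (x + 6) * (x + 7) * (6 + 2 * x) := by
    nlinarith [mul_nonneg x0 (sub_nonneg.2 x1), mul_nonneg (mul_nonneg x0 x0) (sub_nonneg.2 x1)]
  have a7 := mul_le_mul_of_nonneg_right a6 (show 0 ≤ (x + 6) * (x + 7) by positivity)
  have a8 : 0 ≤ ((x + 6) * (x + 7)) ^ 2 * d := by positivity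
  nlinarith

/-- Comparison of the two extremal values. -/
lemma pi_aux {L r₁ r₂ q₁ q₂ p₁ p₂ p₁' p₂' : ℝ} (hr₁ : 0 < r₁) (hr₂ : 0 < r₂) (hq₁ : 0 < q₁)
    (hq₂ : 0 < q₂) (hp₁ : 0 < p₁) (hp₂ : 0 < p₂) (hp₁' : 0 < p₁') (hp₂' : 0 < p₂')
    (c₁ : p₁ * p₁' = L) (c₂ : p₂ * p₂' = L) (m₁ : r₂ ^ 2 * p₁' ≤ q₁ ^ 2 * p₂)
    (m₂ : r₁ ^ 2 * p₂' ≤ q₂ ^ 2 * p₁) :
    r₁ * p₁' / (4 * q₁) * (r₂ * p₂' / (4 * q₂)) ≤ L / 16 := by
  have hL : 0 < L := by rw [← c₁]; positivity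
  have a1 : r₂ ^ 2 * p₁' * (r₁ ^ 2 * p₂') ≤ q₁ ^ 2 * p₂ * (q₂ ^ 2 * p₁) :=
    mul_le_mul m₁ m₂ (by positivity) (by positivity)
  have a2 := mul_le_mul_of_nonneg_right a1 (show 0 ≤ p₁' * p₂' by positivity)
  have a3 : (r₁ * p₁' * (r₂ * p₂')) ^ 2 ≤ (L * (q₁ * q₂)) ^ 2 := by
    have : (L * (q₁ * q₂)) ^ 2 = q₁ ^ 2 * p₂ * (q₂ ^ 2 * p₁) * (p₁' * p₂') := by
      have : L ^ 2 = (p₁ * p₁') * (p₂ * p₂') := by rw [c₁, c₂]; ring
      rw [mul_pow, this]; ring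
    rw [this]
    nlinarith
  have a4 : r₁ * p₁' * (r₂ * p₂') ≤ L * (q₁ * q₂) :=
    (pow_le_pow_iff_left₀ (by positivity) (by positivity) two_ne_zero).1 a3
  rw [div_mul_div_comm, div_le_div_iff₀ (by positivity) (by positivity)]
  nlinarith

lemma main4 {t s : ℝ} (t0 : 0 ≤ t) (t1 : t ≤ 1) (s0 : 0 ≤ s) (s1 : s ≤ 1)
    (h : psi4 t * psi4 s = 8) :
    (e4 t * e4 s + 14 / 9) * (w4 s * w4 t) ≤ e4 t * w4 s + e4 s * w4 t := by
  have key := curve_main4 t0 s0 s1 (curve_hi4 s0 s1 h)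
  rw [← sub_nonneg]
  have e : e4 t * w4 s + e4 s * w4 t - (e4 t * e4 s + 14 / 9) * (w4 s * w4 t) =
      s * t * (12 * 49 * 90 * 9 * ((3 + s) * (140 - 50 * s + 72 * s ^ 2 - 27 * s ^ 3) +
        (3 + t) * (140 - 50 * t + 72 * t ^ 2 - 27 * t ^ 3)) -
      (9 * 49 * 49 * s * t + 14 * 144 * (3 + t) * (3 + s)) *
        (140 - 50 * s + 72 * s ^ 2 - 27 * s ^ 3) * (140 - 50 * t + 72 * t ^ 2 - 27 * t ^ 3)) /
      (144 * 8100 * 9 * (3 + t) * (3 + s)) := by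
    unfold e4 w4
    field_simp
    ring
  rw [e]
  positivity

lemma ew4 {t s : ℝ} (t0 : 0 ≤ t) (s0 : 0 ≤ s) (s1 : s ≤ 1)
    (h : psi4 t * psi4 s = 8) : e4 t * w4 s ≤ 1 := by
  have hi := curve_hi4 s0 s1 h
  have h1 : e4 t ≤ 49 * t / 36 := by
    unfold e4
    exact div_le_div_of_nonneg_left (by positivity) (by norm_num) (by linarith)
  have h2 : w4 s ≤ 212 * s / 90 := by
    unfold w4
    have : 140 - 50 * s + 72 * s ^ 2 - 27 * s ^ 3 ≤ 212 := by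
      nlinarith [mul_nonneg s0 (sub_nonneg.2 s1), pow_nonneg s0 3]
    have := mul_le_mul_of_nonneg_left this s0
    linarith
  have h3 := mul_le_mul h1 h2 (w4_nonneg s0 s1) (by positivity)
  have h4 : t * s ≤ 1 / 4 := by nlinarith [mul_nonneg t0 s0, sq_nonneg (t - s)]
  nlinarith

theorem scalar4 {a₁ b₁ c₁ t₁ a₁' b₁' c₁' s₁ a₂ b₂ c₂ t₂ a₂' b₂' c₂' s₂ : ℝ}
    (h₁ : Half4 a₁ b₁ c₁ t₁) (h₁' : Half4 a₁' b₁' c₁' s₁) (l₁ : Link4 a₁ b₁ c₁ t₁ a₁' b₁' c₁')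
    (h₂ : Half4 a₂ b₂ c₂ t₂) (h₂' : Half4 a₂' b₂' c₂' s₂) (l₂ : Link4 a₂ b₂ c₂ t₂ a₂' b₂' c₂')
    (r₁ : s₁ ≤ t₂) (r₂ : s₂ ≤ t₁) :
    1 + 4 * (a₁ * a₂) + 2 * (b₁ * b₂) + c₁ * c₂ ≤ psi4 (t₁ * t₂) := by
  have k₁ := curve4 h₁ h₁' l₁
  have k₂ := curve4 h₂ h₂' l₂
  have t10 := h₁.h0
  have t20 := h₂.h0
  have s10 := h₁'.h0
  have s20 := h₂'.h0
  have key := polygon (A := 6) (B := 4) (C := 12) (by norm_num) (by norm_num) (by norm_num)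
    (by norm_num) (pd4 h₁.h0 h₁.h1 h₁'.h0 h₁'.h1 k₁) (pd4 h₂.h0 h₂.h1 h₂'.h0 h₂'.h1 k₂)
    (by
      change 12 * (rho4 t₁ s₁ * rho4 t₂ s₂) ≤ 6
      have := pi_aux (L := 8) (r₁ := (t₁ + 6) * (t₁ + 7)) (r₂ := (t₂ + 6) * (t₂ + 7))
        (q₁ := (s₁ + 6) * (s₁ + 7)) (q₂ := (s₂ + 6) * (s₂ + 7)) (by positivity) (by positivity)
        (by positivity) (by positivity) (psi4_pos t10) (psi4_pos t20) (psi4_pos s10)
        (psi4_pos s20) k₁ k₂ (r4_mono s10 r₁ h₂.h1) (r4_mono s20 r₂ h₁.h1)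
      unfold rho4
      linarith)
    (by
      change (6 ^ 2 * (e4 t₁ * e4 t₂) + (6 * 12 - 4 ^ 2)) * (w4 s₁ * w4 s₂) ≤
        6 ^ 2 * (e4 t₁ * w4 s₁ + e4 t₂ * w4 s₂)
      have := main_reduce (μ := 14 / 9) (e4_nonneg t10) (w4_nonneg s10 h₁'.h1)
        (w4_nonneg s20 h₂'.h1) (e4_mono s10 r₁) (w4_mono s20 r₂ h₁.h1)
        (ew4 t10 s10 h₁'.h1 k₁) (main4 t10 h₁.h1 s10 h₁'.h1 k₁)
      linarith)
    (mem4 h₁ h₁' l₁) (mem4 h₂ h₂' l₂)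
  change bform 6 4 12 (b₁ - c₁) (a₁ - b₁) (b₂ - c₂) (a₂ - b₂) ≤
    6 * (t₁ - t₁ ^ 2) * (t₂ - t₂ ^ 2) at key
  have e₁ := h₁.hs
  have e₂ := h₂.hs
  unfold psi4 at e₁ e₂ ⊢
  unfold bform at key
  have f₁ : c₁ = 6 * t₁ + t₁ ^ 2 - 4 * a₁ - 2 * b₁ := by linarith
  have f₂ : c₂ = 6 * t₂ + t₂ ^ 2 - 4 * a₂ - 2 * b₂ := by linarith
  subst f₁ f₂
  nlinarith

/-- The second regime, by passing to the dual coordinates. -/
theorem scalar4' {a₁ b₁ c₁ t₁ a₁' b₁' c₁' s₁ a₂ b₂ c₂ t₂ a₂' b₂' c₂' s₂ : ℝ}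
    (h₁ : Half4 a₁ b₁ c₁ t₁) (h₁' : Half4 a₁' b₁' c₁' s₁) (l₁ : Link4 a₁ b₁ c₁ t₁ a₁' b₁' c₁')
    (h₂ : Half4 a₂ b₂ c₂ t₂) (h₂' : Half4 a₂' b₂' c₂' s₂) (l₂ : Link4 a₂ b₂ c₂ t₂ a₂' b₂' c₂')
    (r₁ : t₁ ≤ s₂) (r₂ : t₂ ≤ s₁) :
    8 * (1 + 4 * (a₁ * a₂) + 2 * (b₁ * b₂) + c₁ * c₂) ≤ psi4 t₁ * psi4 t₂ * psi4 (s₁ * s₂) := by
  have key := scalar4 h₁' h₁ (l₁.symm h₁ h₁') h₂' h₂ (l₂.symm h₂ h₂') r₁ r₂
  have p := mul_pos (psi4_pos h₁.h0) (psi4_pos h₂.h0)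
  have key2 := mul_le_mul_of_nonneg_left key p.le
  have e : psi4 t₁ * psi4 t₂ * (1 + 4 * (a₁' * a₂') + 2 * (b₁' * b₂') + c₁' * c₂') =
      psi4 t₁ * psi4 t₂ + 4 * ((psi4 t₁ * a₁') * (psi4 t₂ * a₂')) +
        2 * ((psi4 t₁ * b₁') * (psi4 t₂ * b₂')) + (psi4 t₁ * c₁') * (psi4 t₂ * c₂') := by ring
  rw [e, l₁.ha, l₁.hb, l₁.hc, l₂.ha, l₂.hb, l₂.hc] at key2
  have e' : psi4 t₁ * psi4 t₂ = (1 + 4 * a₁ + 2 * b₁ + c₁) * (1 + 4 * a₂ + 2 * b₂ + c₂) := by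
    rw [h₁.hs, h₂.hs]
  nth_rewrite 1 [e'] at key2
  linarith

end Pool.Agent.MP_560646_mp

end

section

namespace Pool.Agent.MP_560646_mp

def psi5 (t : ℝ) : ℝ := 1 + 10 * t + 5 * t ^ 2

lemma psi5_pos {t : ℝ} (h : 0 ≤ t) : 0 < psi5 t := by
  unfold psi5; positivity

structure Half5 (a b c t : ℝ) : Prop where
  h0 : 0 ≤ t
  h1 : t ≤ 1
  hab : b ≤ a
  hL : 0 ≤ t ^ 2 - 2 * t * a + c
  hs : 1 + 5 * a + 5 * b + 5 * c = psi5 t

structure Link5 (a b c t a' b' c' : ℝ) : Prop where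
  ha : psi5 t * a' = 1 + a + b - 3 * c
  hb : psi5 t * b' = 1 + a - 3 * b + c
  hc : psi5 t * c' = 1 - 3 * a + b + c

lemma curve5 {a b c t a' b' c' s : ℝ} (h : Half5 a b c t) (h' : Half5 a' b' c' s)
    (l : Link5 a b c t a' b' c') : psi5 t * psi5 s = 16 := by
  linear_combination -(psi5 t) * h'.hs + 5 * l.ha + 5 * l.hb + 5 * l.hc - h.hs

lemma Link5.symm {a b c t a' b' c' s : ℝ} (h : Half5 a b c t) (h' : Half5 a' b' c' s)
    (l : Link5 a b c t a' b' c') : Link5 a' b' c' s a b c := by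
  have hc := curve5 h h' l
  have hp := (psi5_pos h.h0).ne'
  refine ⟨mul_left_cancel₀ hp ?_, mul_left_cancel₀ hp ?_, mul_left_cancel₀ hp ?_⟩
  · linear_combination a * hc - l.ha - l.hb + 3 * l.hc + h.hs
  · linear_combination b * hc - l.ha + 3 * l.hb - l.hc + h.hs
  · linear_combination c * hc + 3 * l.ha - l.hb - l.hc + h.hs

noncomputable def e5 (t : ℝ) : ℝ := 3 * t / (2 + 2 * t)
noncomputable def w5 (s : ℝ) : ℝ := 5 * s / 2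
noncomputable def rho5 (t s : ℝ) : ℝ := (t + 2) * (t + 3) * psi5 s / (4 * ((s + 2) * (s + 3)))

lemma w5_nonneg {s : ℝ} (s0 : 0 ≤ s) : 0 ≤ w5 s := by
  unfold w5; positivity

lemma w5_mono {x y : ℝ} (hxy : x ≤ y) : w5 x ≤ w5 y := by
  unfold w5; linarith

lemma e5_nonneg {t : ℝ} (t0 : 0 ≤ t) : 0 ≤ e5 t := by
  unfold e5; positivity

lemma e5_mono {x y : ℝ} (x0 : 0 ≤ x) (hxy : x ≤ y) : e5 x ≤ e5 y := by
  unfold e5
  have y0 : 0 ≤ y := x0.trans hxy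
  rw [div_le_div_iff₀ (by positivity) (by positivity)]
  nlinarith

noncomputable def pd5 {t s : ℝ} (t0 : 0 ≤ t) (t1 : t ≤ 1) (s0 : 0 ≤ s) (s1 : s ≤ 1)
    (h : psi5 t * psi5 s = 16) : PolyData 2 1 2 where
  U := t - t ^ 2
  e := e5 t
  κ := (1 + 4 * s) / (2 + 2 * s)
  ρ := rho5 t s
  w := w5 s
  hU := by nlinarith
  he := e5_nonneg t0
  hκ := by
    rw [← mul_div_assoc, le_div_iff₀ (by positivity)]
    nlinarith
  hκ0 := by positivity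
  hρ := by
    have := psi5_pos s0
    unfold rho5; positivity
  hw := w5_nonneg s0
  hcut := by
    have key := curve_cut5 t0 s0 s1 h
    rw [← sub_nonneg]
    have e : (1 + 4 * s) / (2 + 2 * s) * (2 - (2 * e5 t + 1) * w5 s) - 2 * (rho5 t s - w5 s) =
        2 * (4 * (s + 2) * (s + 3) * ((2 + 2 * s) * (2 + 2 * t) * (5 * s) +
      (1 + 4 * s) * (2 * (2 + 2 * t) - (1 + 4 * t) * (5 * s))) -
      2 * (2 + 2 * s) * (2 + 2 * t) * (t + 2) * (t + 3) * (1 + 10 * s + 5 * s ^ 2)) /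
        (4 * (s + 2) * (s + 3) * (2 + 2 * s) * (2 + 2 * t) * 2) := by
      unfold e5 w5 rho5 psi5
      field_simp
      ring
    rw [e]
    positivity

lemma primal5 {a b c t : ℝ} (h : Half5 a b c t) :
    (a - b) * (1 + 4 * t) ≤ (t - t ^ 2 - (b - c)) * (2 + 2 * t) := by
  have h1 := h.hL
  have h2 := h.hs
  unfold psi5 at h2
  have h3 : c = 2 * t + t ^ 2 - a - b := by linarith
  subst h3
  nlinarith

lemma mem5 {a b c t a' b' c' s : ℝ} (h : Half5 a b c t) (h' : Half5 a' b' c' s)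
    (l : Link5 a b c t a' b' c') :
    (pd5 h.h0 h.h1 h'.h0 h'.h1 (curve5 h h' l)).Mem (b - c) (a - b) := by
  have hp := psi5_pos h.h0
  have hc := curve5 h h' l
  have t0 := h.h0
  have s0 := h'.h0
  have ev : psi5 t * (a' - b') = 4 * (b - c) := by linear_combination l.ha - l.hb
  have eu : psi5 t * (b' - c') = 4 * (a - b) := by linear_combination l.hb - l.hc
  refine ⟨?_, sub_nonneg.2 h.hab, ?_, ?_⟩
  · have := mul_nonneg hp.le (sub_nonneg.2 h'.hab)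
    linarith
  · have := primal5 h
    change 2 * (b - c) + 1 * (a - b) ≤ 2 * (t - t ^ 2 - e5 t * (a - b))
    rw [← sub_nonneg]
    have e : 2 * (t - t ^ 2 - e5 t * (a - b)) - (2 * (b - c) + 1 * (a - b)) =
        2 * ((t - t ^ 2 - (b - c)) * (2 + 2 * t) - (a - b) * (1 + 4 * t)) / (2 + 2 * t) := by
      unfold e5
      field_simp
      ring
    rw [e]
    exact div_nonneg (by linarith) (by positivity)
  · have h1 := mul_le_mul_of_nonneg_left (primal5 h') hp.le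
    change (a - b) + (1 + 4 * s) / (2 + 2 * s) * (b - c) ≤ rho5 t s * (t - t ^ 2)
    have e1 : rho5 t s * (t - t ^ 2) = psi5 t * (s - s ^ 2) / 4 := by
      unfold rho5
      field_simp
      unfold psi5 at hc ⊢
      linear_combination ((1 + 10 * s + 5 * s ^ 2) - (1 + 10 * t + 5 * t ^ 2)) / 25 * hc
    rw [e1, ← sub_nonneg]
    have e2 : psi5 t * (s - s ^ 2) / 4 - ((a - b) + (1 + 4 * s) / (2 + 2 * s) * (b - c)) =
        (psi5 t * ((s - s ^ 2 - (b' - c')) * (2 + 2 * s)) - psi5 t * ((a' - b') * (1 + 4 * s))) /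
          (4 * (2 + 2 * s)) := by
      have f1 : a - b = psi5 t * (b' - c') / 4 := by linarith
      have f2 : b - c = psi5 t * (a' - b') / 4 := by linarith
      rw [f1, f2]
      field_simp
      ring
    rw [e2]
    exact div_nonneg (by linarith) (by positivity)

lemma r5_mono {x y : ℝ} (x0 : 0 ≤ x) (hxy : x ≤ y) (y1 : y ≤ 1) :
    ((y + 2) * (y + 3)) ^ 2 * psi5 x ≤ ((x + 2) * (x + 3)) ^ 2 * psi5 y := by
  unfold psi5
  have y0 : 0 ≤ y := x0.trans hxy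
  have x1 : x ≤ 1 := hxy.trans y1
  have hx : 0 ≤ 1 - x := sub_nonneg.2 x1
  have hy : 0 ≤ 1 - y := sub_nonneg.2 y1
  have hd : 0 ≤ y - x := sub_nonneg.2 hxy
  rw [← sub_nonneg]
  have e : ((x + 2) * (x + 3)) ^ 2 * (1 + 10 * y + 5 * y ^ 2) -
      ((y + 2) * (y + 3)) ^ 2 * (1 + 10 * x + 5 * x ^ 2) = (y - x) *
      (300 * (x ^ 0 * (1 - x) ^ 3 * (y ^ 0 * (1 - y) ^ 3)) +
        1043 * (x ^ 0 * (1 - x) ^ 3 * (y ^ 1 * (1 - y) ^ 2)) +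
        1176 * (x ^ 0 * (1 - x) ^ 3 * (y ^ 2 * (1 - y) ^ 1)) +
        432 * (x ^ 0 * (1 - x) ^ 3 * (y ^ 3 * (1 - y) ^ 0)) +
        1043 * (x ^ 1 * (1 - x) ^ 2 * (y ^ 0 * (1 - y) ^ 3)) +
        3478 * (x ^ 1 * (1 - x) ^ 2 * (y ^ 1 * (1 - y) ^ 2)) +
        3696 * (x ^ 1 * (1 - x) ^ 2 * (y ^ 2 * (1 - y) ^ 1)) +
        1248 * (x ^ 1 * (1 - x) ^ 2 * (y ^ 3 * (1 - y) ^ 0)) +
        1176 * (x ^ 2 * (1 - x) ^ 1 * (y ^ 0 * (1 - y) ^ 3)) +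
        3696 * (x ^ 2 * (1 - x) ^ 1 * (y ^ 1 * (1 - y) ^ 2)) +
        3572 * (x ^ 2 * (1 - x) ^ 1 * (y ^ 2 * (1 - y) ^ 1)) +
        1024 * (x ^ 2 * (1 - x) ^ 1 * (y ^ 3 * (1 - y) ^ 0)) +
        432 * (x ^ 3 * (1 - x) ^ 0 * (y ^ 0 * (1 - y) ^ 3)) +
        1248 * (x ^ 3 * (1 - x) ^ 0 * (y ^ 1 * (1 - y) ^ 2)) +
        1024 * (x ^ 3 * (1 - x) ^ 0 * (y ^ 2 * (1 - y) ^ 1)) +
        192 * (x ^ 3 * (1 - x) ^ 0 * (y ^ 3 * (1 - y) ^ 0))) := by ring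
  rw [e]
  positivity

lemma main5 {t s : ℝ} (t0 : 0 ≤ t) (s0 : 0 ≤ s) (s1 : s ≤ 1)
    (h : psi5 t * psi5 s = 16) :
    (e5 t * e5 s + 3 / 4) * (w5 s * w5 t) ≤ e5 t * w5 s + e5 s * w5 t := by
  have hi := curve_hi5 s0 s1 h
  have hst : 0 ≤ s * t := by positivity
  have key : 0 ≤ 3 - (s + t) - 20 * (s * t) := by
    by_contra hc
    push Not at hc
    have h1 : 1 / 7 < s * t := by nlinarith
    have h2 : s + t < 1 / 7 := by nlinarith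
    nlinarith [sq_nonneg (s - t)]
  rw [← sub_nonneg]
  have e : e5 t * w5 s + e5 s * w5 t - (e5 t * e5 s + 3 / 4) * (w5 s * w5 t) =
      15 * (s * t) * (3 - (s + t) - 20 * (s * t)) / (16 * ((1 + t) * (1 + s))) := by
    unfold e5 w5
    field_simp
    ring
  rw [e]
  positivity

lemma ew5 {t s : ℝ} (t0 : 0 ≤ t) (s0 : 0 ≤ s) (s1 : s ≤ 1)
    (h : psi5 t * psi5 s = 16) : e5 t * w5 s ≤ 1 := by
  have hi := curve_hi5 s0 s1 h
  have h1 : e5 t ≤ 3 * t / 2 := by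
    unfold e5
    exact div_le_div_of_nonneg_left (by positivity) (by norm_num) (by linarith)
  have h3 := mul_le_mul_of_nonneg_right h1 (w5_nonneg s0)
  have h4 : t * s ≤ 1 / 4 := by nlinarith [mul_nonneg t0 s0, sq_nonneg (t - s)]
  unfold w5 at h3 ⊢
  nlinarith

theorem scalar5 {a₁ b₁ c₁ t₁ a₁' b₁' c₁' s₁ a₂ b₂ c₂ t₂ a₂' b₂' c₂' s₂ : ℝ}
    (h₁ : Half5 a₁ b₁ c₁ t₁) (h₁' : Half5 a₁' b₁' c₁' s₁) (l₁ : Link5 a₁ b₁ c₁ t₁ a₁' b₁' c₁')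
    (h₂ : Half5 a₂ b₂ c₂ t₂) (h₂' : Half5 a₂' b₂' c₂' s₂) (l₂ : Link5 a₂ b₂ c₂ t₂ a₂' b₂' c₂')
    (r₁ : s₁ ≤ t₂) (r₂ : s₂ ≤ t₁) :
    1 + 5 * (a₁ * a₂) + 5 * (b₁ * b₂) + 5 * (c₁ * c₂) ≤ psi5 (t₁ * t₂) := by
  have k₁ := curve5 h₁ h₁' l₁
  have k₂ := curve5 h₂ h₂' l₂
  have t10 := h₁.h0
  have t20 := h₂.h0
  have s10 := h₁'.h0
  have s20 := h₂'.h0
  have key := polygon (A := 2) (B := 1) (C := 2) (by norm_num) (by norm_num) (by norm_num)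
    (by norm_num) (pd5 h₁.h0 h₁.h1 h₁'.h0 h₁'.h1 k₁) (pd5 h₂.h0 h₂.h1 h₂'.h0 h₂'.h1 k₂)
    (by
      change 2 * (rho5 t₁ s₁ * rho5 t₂ s₂) ≤ 2
      have := pi_aux (L := 16) (r₁ := (t₁ + 2) * (t₁ + 3)) (r₂ := (t₂ + 2) * (t₂ + 3))
        (q₁ := (s₁ + 2) * (s₁ + 3)) (q₂ := (s₂ + 2) * (s₂ + 3)) (by positivity) (by positivity)
        (by positivity) (by positivity) (psi5_pos t10) (psi5_pos t20) (psi5_pos s10)
        (psi5_pos s20) k₁ k₂ (r5_mono s10 r₁ h₂.h1) (r5_mono s20 r₂ h₁.h1)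
      unfold rho5
      linarith)
    (by
      change (2 ^ 2 * (e5 t₁ * e5 t₂) + (2 * 2 - 1 ^ 2)) * (w5 s₁ * w5 s₂) ≤
        2 ^ 2 * (e5 t₁ * w5 s₁ + e5 t₂ * w5 s₂)
      have := main_reduce (μ := 3 / 4) (e5_nonneg t10) (w5_nonneg s10)
        (w5_nonneg s20) (e5_mono s10 r₁) (w5_mono r₂)
        (ew5 t10 s10 h₁'.h1 k₁) (main5 t10 s10 h₁'.h1 k₁)
      linarith)
    (mem5 h₁ h₁' l₁) (mem5 h₂ h₂' l₂)
  change bform 2 1 2 (b₁ - c₁) (a₁ - b₁) (b₂ - c₂) (a₂ - b₂) ≤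
    2 * (t₁ - t₁ ^ 2) * (t₂ - t₂ ^ 2) at key
  have e₁ := h₁.hs
  have e₂ := h₂.hs
  unfold psi5 at e₁ e₂ ⊢
  unfold bform at key
  have f₁ : c₁ = 2 * t₁ + t₁ ^ 2 - a₁ - b₁ := by linarith
  have f₂ : c₂ = 2 * t₂ + t₂ ^ 2 - a₂ - b₂ := by linarith
  subst f₁ f₂
  nlinarith

/-- The second regime, by passing to the dual coordinates. -/
theorem scalar5' {a₁ b₁ c₁ t₁ a₁' b₁' c₁' s₁ a₂ b₂ c₂ t₂ a₂' b₂' c₂' s₂ : ℝ}
    (h₁ : Half5 a₁ b₁ c₁ t₁) (h₁' : Half5 a₁' b₁' c₁' s₁) (l₁ : Link5 a₁ b₁ c₁ t₁ a₁' b₁' c₁')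
    (h₂ : Half5 a₂ b₂ c₂ t₂) (h₂' : Half5 a₂' b₂' c₂' s₂) (l₂ : Link5 a₂ b₂ c₂ t₂ a₂' b₂' c₂')
    (r₁ : t₁ ≤ s₂) (r₂ : t₂ ≤ s₁) :
    16 * (1 + 5 * (a₁ * a₂) + 5 * (b₁ * b₂) + 5 * (c₁ * c₂)) ≤
      psi5 t₁ * psi5 t₂ * psi5 (s₁ * s₂) := by
  have key := scalar5 h₁' h₁ (l₁.symm h₁ h₁') h₂' h₂ (l₂.symm h₂ h₂') r₁ r₂
  have p := mul_pos (psi5_pos h₁.h0) (psi5_pos h₂.h0)
  have key2 := mul_le_mul_of_nonneg_left key p.le
  have e : psi5 t₁ * psi5 t₂ * (1 + 5 * (a₁' * a₂') + 5 * (b₁' * b₂') + 5 * (c₁' * c₂')) =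
      psi5 t₁ * psi5 t₂ + 5 * ((psi5 t₁ * a₁') * (psi5 t₂ * a₂')) +
        5 * ((psi5 t₁ * b₁') * (psi5 t₂ * b₂')) +
        5 * ((psi5 t₁ * c₁') * (psi5 t₂ * c₂')) := by ring
  rw [e, l₁.ha, l₁.hb, l₁.hc, l₂.ha, l₂.hb, l₂.hc] at key2
  have e' : psi5 t₁ * psi5 t₂ =
      (1 + 5 * a₁ + 5 * b₁ + 5 * c₁) * (1 + 5 * a₂ + 5 * b₂ + 5 * c₂) := by
    rw [h₁.hs, h₂.hs]
  nth_rewrite 1 [e'] at key2
  linarith

end Pool.Agent.MP_560646_mp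

end

section

namespace Pool.Agent.MP_560646_mp

open Matrix Kronecker
open scoped ComplexOrder

variable {n m : Type} [Fintype n] [DecidableEq n] [Fintype m] [DecidableEq m]

lemma mpow_nat {A : Matrix n n ℂ} (hA : A.IsHermitian) (N : ℕ) : mpow A N = A ^ N := by
  have hA' : IsSelfAdjoint A := hA
  unfold mpow
  have : (fun x : ℝ => x ^ (N : ℝ)) = fun x : ℝ => x ^ N := by
    ext x
    exact Real.rpow_natCast x N
  rw [this, cfc_pow_id A N]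

lemma sandwich_pow {A : Matrix n n ℂ} (hA : A.PosSemidef) {N : ℕ} (hN : N ≠ 0) :
    (mpow A ((1 - N) / (2 * N)) * A * mpow A ((1 - N) / (2 * N))) ^ N = A := by
  obtain ⟨U, d, hd, rfl⟩ := psd_decomp hA
  rw [mpow_decomp]
  have h2 : ∀ X : Matrix n n ℂ, (U : Matrix n n ℂ) * X * star (U : Matrix n n ℂ) =
    Unitary.conjStarAlgAut ℝ _ U X := fun X => rfl
  simp only [h2]
  rw [← map_mul, ← map_mul, ← map_pow, diagonal_mul_diagonal, diagonal_mul_diagonal, diagonal_pow]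
  congr 2
  ext i
  simp only [Pi.pow_apply]
  rw [← Complex.ofReal_mul, ← Complex.ofReal_mul, ← Complex.ofReal_pow]
  congr 1
  have hN' : (N : ℝ) ≠ 0 := by exact_mod_cast hN
  rcases (hd i).eq_or_lt with h | h
  · rw [← h]; simp [hN]
  · have e1 : d i ^ ((1 - N) / (2 * N) : ℝ) * d i * d i ^ ((1 - N) / (2 * N) : ℝ) =
        d i ^ ((N : ℝ)⁻¹) := by
      nth_rewrite 2 [← Real.rpow_one (d i)]
      rw [← Real.rpow_add h, ← Real.rpow_add h]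
      congr 1
      field_simp
      ring
    rw [e1, Real.rpow_inv_natCast_pow h.le hN]

lemma blk_pow (X Y : Matrix n n ℂ) (N : ℕ) : blk X Y ^ N = blk (X ^ N) (Y ^ N) := by
  induction N with
  | zero => rw [pow_zero, pow_zero, pow_zero, ← one_kron, one_kronecker_one]
  | succ k ih => rw [pow_succ, ih, blk_mul, pow_succ, pow_succ]

/-- The sandwiched operator. -/
noncomputable def sw (N : ℕ) (M X : Matrix n n ℂ) : Matrix n n ℂ :=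
  mpow M ((1 - N) / (2 * N)) * X * mpow M ((1 - N) / (2 * N))

lemma sw_add (N : ℕ) (M X Y : Matrix n n ℂ) : sw N M (X + Y) = sw N M X + sw N M Y := by
  unfold sw; rw [mul_add, add_mul]

lemma sw_sub (N : ℕ) (M X Y : Matrix n n ℂ) : sw N M (X - Y) = sw N M X - sw N M Y := by
  unfold sw; rw [mul_sub, sub_mul]

lemma sw_psd (N : ℕ) (M : Matrix n n ℂ) {X : Matrix n n ℂ} (hX : X.PosSemidef) :
    (sw N M X).PosSemidef :=
  psd_sandwich (mpow_isHermitian _ _) hX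

lemma sw_kron (N : ℕ) {M : Matrix n n ℂ} {M' : Matrix m m ℂ} (hM : M.PosSemidef)
    (hM' : M'.PosSemidef) (X : Matrix n n ℂ) (X' : Matrix m m ℂ) :
    sw N (M ⊗ₖ M') (X ⊗ₖ X') = sw N M X ⊗ₖ sw N M' X' := by
  unfold sw
  rw [mpow_kron hM hM', mul_kronecker_mul, mul_kronecker_mul]

lemma Hdown_blk_nat (N : ℕ) {X Y : Matrix n n ℂ} (hX : X.PosSemidef) (hY : Y.PosSemidef) :
    Hdown N (blk X Y) =
      Real.log (rt (sw N (X + Y) X ^ N) + rt (sw N (X + Y) Y ^ N)) / (1 - N) := by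
  unfold Hdown
  rw [margB_blk, one_kron, blk_mul, blk_mul]
  change Real.log (trace (mpow (blk (sw N (X + Y) X) (sw N (X + Y) Y)) N)).re / (1 - N) = _
  rw [mpow_nat (blk_isHermitian (sw_psd N _ hX).1 (sw_psd N _ hY).1), blk_pow, trace_blk,
    Complex.add_re]
  rfl

lemma sw_total {N : ℕ} (hN : N ≠ 0) {X Y : Matrix n n ℂ} (hX : X.PosSemidef) (hY : Y.PosSemidef)
    (h : trace (X + Y) = 1) : rt ((sw N (X + Y) X + sw N (X + Y) Y) ^ N) = 1 := by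
  rw [← sw_add]
  unfold sw rt
  rw [sandwich_pow (hX.add hY) hN, h, Complex.one_re]

omit [DecidableEq n] [DecidableEq m] in
lemma rt_kron {M : Matrix n n ℂ} (M' : Matrix m m ℂ) (h : trace Mᴴ = trace M) :
    rt (M ⊗ₖ M') = rt M * rt M' := by
  rw [trace_conjTranspose] at h
  have him : (trace M).im = 0 := Complex.conj_eq_iff_im.1 h
  unfold rt
  rw [trace_kronecker, Complex.mul_re, him, zero_mul, sub_zero]

/-- From the polynomial inequality to the entropy inequality. -/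
lemma entropy_glue {α L : ℝ} {ψ : ℝ → ℝ} (hα : 1 < α) (hL0 : 0 < L)
    (hL : Real.log L = (α - 1) * Real.log 2)
    (hc : Continuous ψ) (hm : StrictMonoOn ψ (Set.Icc 0 1)) (ψ0 : ψ 0 = 1) (ψ1 : ψ 1 = L)
    (hbin : ∀ p, binH α p = Real.log (ψ ((1 - 2 * p) ^ 2) / L) / (1 - α))
    {Φ₁ Φ₂ Φ : ℝ} (h₁ : Φ₁ ∈ Set.Icc 1 L) (h₂ : Φ₂ ∈ Set.Icc 1 L) (hΦ : 0 < Φ)
    (H : ∀ t₁ ∈ Set.Icc (0 : ℝ) 1, ∀ s₁ ∈ Set.Icc (0 : ℝ) 1, ∀ t₂ ∈ Set.Icc (0 : ℝ) 1,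
      ∀ s₂ ∈ Set.Icc (0 : ℝ) 1, ψ t₁ = Φ₁ → Φ₁ * ψ s₁ = L → ψ t₂ = Φ₂ → Φ₂ * ψ s₂ = L →
      (s₁ ≤ t₂ → s₂ ≤ t₁ → Φ ≤ ψ (t₁ * t₂)) ∧
      (t₁ ≤ s₂ → t₂ ≤ s₁ → L * Φ ≤ Φ₁ * Φ₂ * ψ (s₁ * s₂))) :
    Real.log (Φ₁ / L) / (1 - α) ∈ Set.Icc 0 (Real.log 2) ∧
    Real.log (Φ₂ / L) / (1 - α) ∈ Set.Icc 0 (Real.log 2) ∧
    bound α (Real.log (Φ₁ / L) / (1 - α)) (Real.log (Φ₂ / L) / (1 - α)) ≤
      Real.log (Φ / L) / (1 - α) := by
  have hneg : 1 - α < 0 := by linarith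
  have ψpos : ∀ t ∈ Set.Icc (0 : ℝ) 1, 0 < ψ t := by
    intro t ht
    have := hm.monotoneOn (Set.left_mem_Icc.2 zero_le_one) ht ht.1
    linarith
  have range : ∀ F ∈ Set.Icc 1 L, Real.log (F / L) / (1 - α) ∈ Set.Icc 0 (Real.log 2) := by
    intro F hF
    have F0 : 0 < F := by linarith [hF.1]
    have a1 : Real.log F ≤ Real.log L := Real.log_le_log F0 hF.2
    have a2 : 0 ≤ Real.log F := Real.log_nonneg hF.1
    rw [Real.log_div F0.ne' hL0.ne']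
    constructor
    · exact div_nonneg_of_nonpos (by linarith) hneg.le
    · rw [div_le_iff_of_neg hneg]
      linarith
  have spec : ∀ F ∈ Set.Icc 1 L, (1 - 2 * binG α (Real.log (F / L) / (1 - α))) ^ 2 ∈
      Set.Icc (0 : ℝ) 1 ∧ ψ ((1 - 2 * binG α (Real.log (F / L) / (1 - α))) ^ 2) = F := by
    intro F hF
    have F0 : 0 < F := by linarith [hF.1]
    obtain ⟨t, ht, hψ⟩ : F ∈ ψ '' Set.Icc 0 1 :=
      intermediate_value_Icc zero_le_one hc.continuousOn (by rwa [ψ0, ψ1])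
    have hs1 : Real.sqrt t ≤ 1 := Real.sqrt_le_one.2 ht.2
    have hs0 := Real.sqrt_nonneg t
    have hex : ∃ p ∈ Set.Icc (0 : ℝ) (1 / 2), binH α p = Real.log (F / L) / (1 - α) := by
      refine ⟨(1 - Real.sqrt t) / 2, ⟨by linarith, by linarith⟩, ?_⟩
      have : 1 - 2 * ((1 - Real.sqrt t) / 2) = Real.sqrt t := by ring
      rw [hbin, this, Real.sq_sqrt ht.1, hψ]
    have hmem := Function.invFunOn_mem hex
    have he := Function.invFunOn_eq hex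
    change binG α _ ∈ _ at hmem
    change binH α (binG α _) = _ at he
    set q := binG α (Real.log (F / L) / (1 - α))
    have hq : (1 - 2 * q) ^ 2 ∈ Set.Icc (0 : ℝ) 1 :=
      ⟨sq_nonneg _, by nlinarith [hmem.1, hmem.2]⟩
    refine ⟨hq, ?_⟩
    rw [hbin, div_left_inj' hneg.ne] at he
    have h2 := Real.log_injOn_pos (Set.mem_Ioi.2 (div_pos (ψpos _ hq) hL0))
      (Set.mem_Ioi.2 (div_pos F0 hL0)) he
    rwa [div_left_inj' hL0.ne'] at h2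
  have dualm : ∀ F ∈ Set.Icc 1 L, L / F ∈ Set.Icc 1 L := by
    intro F hF
    have F0 : 0 < F := by linarith [hF.1]
    exact ⟨(one_le_div F0).2 hF.2, div_le_self hL0.le hF.1⟩
  have duall : ∀ F ∈ Set.Icc 1 L, Real.log 2 - Real.log (F / L) / (1 - α) =
      Real.log (L / F / L) / (1 - α) := by
    intro F hF
    have F0 : 0 < F := by linarith [hF.1]
    rw [Real.log_div (div_pos hL0 F0).ne' hL0.ne', Real.log_div hL0.ne' F0.ne',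
      Real.log_div F0.ne' hL0.ne', hL]
    field_simp [hneg.ne]
    ring
  refine ⟨range _ h₁, range _ h₂, ?_⟩
  have F₁ : 0 < Φ₁ := by linarith [h₁.1]
  have F₂ : 0 < Φ₂ := by linarith [h₂.1]
  obtain ⟨mt₁, et₁⟩ := spec _ h₁
  obtain ⟨mt₂, et₂⟩ := spec _ h₂
  obtain ⟨ms₁, es₁⟩ := spec _ (dualm _ h₁)
  obtain ⟨ms₂, es₂⟩ := spec _ (dualm _ h₂)
  have econv : ∀ p q : ℝ, (1 - 2 * bconv p q) ^ 2 = (1 - 2 * p) ^ 2 * (1 - 2 * q) ^ 2 := by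
    intro p q
    unfold bconv
    ring
  have k₁ : Φ₁ * (L / Φ₁) = L := by field_simp
  have k₂ : Φ₂ * (L / Φ₂) = L := by field_simp
  obtain ⟨H1, H2⟩ := H _ mt₁ _ ms₁ _ mt₂ _ ms₂ et₁ (by rw [es₁, k₁]) et₂ (by rw [es₂, k₂])
  have hsum : Real.log (Φ₁ / L) / (1 - α) + Real.log (Φ₂ / L) / (1 - α) - Real.log 2 =
      (Real.log (Φ₁ * Φ₂) - Real.log L) / (1 - α) := by
    rw [Real.log_mul F₁.ne' F₂.ne', Real.log_div F₁.ne' hL0.ne', Real.log_div F₂.ne' hL0.ne', hL]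
    field_simp [hneg.ne]
    ring
  unfold bound
  split_ifs with h
  · have h' : (Real.log (Φ₁ * Φ₂) - Real.log L) / (1 - α) ≤ 0 := by rw [← hsum]; linarith
    rw [div_le_iff_of_neg hneg, zero_mul, sub_nonneg,
      Real.log_le_log_iff hL0 (mul_pos F₁ F₂)] at h'
    have r₁ := (hm.le_iff_le ms₁ mt₂).1 (by rw [es₁, et₂, div_le_iff₀ F₁]; linarith)
    have r₂ := (hm.le_iff_le ms₂ mt₁).1 (by rw [es₂, et₁, div_le_iff₀ F₂]; linarith)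
    have key := H1 r₁ r₂
    rw [hbin, econv]
    apply div_le_div_of_nonpos_of_le hneg.le
    exact Real.log_le_log (div_pos hΦ hL0) (div_le_div_of_nonneg_right key hL0.le)
  · have h' : 0 ≤ (Real.log (Φ₁ * Φ₂) - Real.log L) / (1 - α) := by rw [← hsum]; linarith
    rw [le_div_iff_of_neg hneg, zero_mul, sub_nonpos,
      Real.log_le_log_iff (mul_pos F₁ F₂) hL0] at h'
    have r₁ := (hm.le_iff_le mt₁ ms₂).1 (by rw [es₂, et₁, le_div_iff₀ F₂]; linarith)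
    have r₂ := (hm.le_iff_le mt₂ ms₁).1 (by rw [es₁, et₂, le_div_iff₀ F₁]; linarith)
    have key := H2 r₁ r₂
    rw [hsum, duall _ h₁, duall _ h₂, hbin, econv, ← add_div]
    apply div_le_div_of_nonpos_of_le hneg.le
    set x := ψ ((1 - 2 * binG α (Real.log (L / Φ₁ / L) / (1 - α))) ^ 2 *
      (1 - 2 * binG α (Real.log (L / Φ₂ / L) / (1 - α))) ^ 2) with hx
    have x0 : 0 < x := ψpos _ ⟨mul_nonneg ms₁.1 ms₂.1, mul_le_one₀ ms₁.2 ms₂.1 ms₂.2⟩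
    have := Real.log_le_log (mul_pos hL0 hΦ) key
    rw [Real.log_mul hL0.ne' hΦ.ne', Real.log_mul (mul_pos F₁ F₂).ne' x0.ne'] at this
    rw [Real.log_div hΦ.ne' hL0.ne', Real.log_div x0.ne' hL0.ne']
    linarith

end Pool.Agent.MP_560646_mp

end

section

namespace Pool.Agent.MP_560646_mp

open Matrix Kronecker
open scoped ComplexOrder

variable {n m : Type} [Fintype n] [DecidableEq n] [Fintype m] [DecidableEq m]

lemma core4_sys {N a b c a' b' c' : ℝ} (h : Core4 1 a b c) (h' : Core4 N a' b' c')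
    (eN : 8 * N = 1 + 4 * a + 2 * b + c) (ea : 8 * a' = 1 - c) (eb : 8 * b' = 1 - 2 * b + c)
    (ec : 8 * c' = 1 - 4 * a + 2 * b + c) :
    8 * N ∈ Set.Icc (1 : ℝ) 8 ∧ ∀ t ∈ Set.Icc (0 : ℝ) 1, ∀ s ∈ Set.Icc (0 : ℝ) 1,
      psi4 t = 8 * N → 8 * N * psi4 s = 8 →
      Half4 a b c t ∧ Half4 (a' / N) (b' / N) (c' / N) s ∧
        Link4 a b c t (a' / N) (b' / N) (c' / N) := by
  have c0 := h.hL 0 le_rfl
  have c0' := h'.hL 0 le_rfl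
  have hab := h.hab
  have hab' := h'.hab
  have hN1 : 1 ≤ 8 * N := by linarith
  have hN : 0 < N := by linarith
  refine ⟨⟨hN1, by linarith⟩, fun t ht s hs et es => ⟨⟨ht.1, ht.2, hab, ?_, ?_⟩,
    ⟨hs.1, hs.2, div_le_div_of_nonneg_right hab' hN.le, ?_, ?_⟩, ⟨?_, ?_, ?_⟩⟩⟩
  · have := h.hL t ht.1
    linarith
  · linarith
  · have := div_le_div_of_nonneg_right (h'.hL s hs.1) hN.le
    have e1 : s * (a' - b') / 2 / N = s * (a' / N - b' / N) / 2 := by ring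
    have e2 : (s ^ 2 * N - 2 * s * a' + c') / N = s ^ 2 - 2 * s * (a' / N) + c' / N := by
      field_simp
    rwa [e1, e2] at this
  · apply mul_left_cancel₀ hN.ne'
    field_simp
    linarith
  · rw [et]; field_simp; linarith
  · rw [et]; field_simp; linarith
  · rw [et]; field_simp; linarith

lemma core5_sys {N a b c a' b' c' : ℝ} (h : Core5 1 a b c) (h' : Core5 N a' b' c')
    (eN : 16 * N = 1 + 5 * a + 5 * b + 5 * c) (ea : 16 * a' = 1 + a + b - 3 * c)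
    (eb : 16 * b' = 1 + a - 3 * b + c) (ec : 16 * c' = 1 - 3 * a + b + c) :
    16 * N ∈ Set.Icc (1 : ℝ) 16 ∧ ∀ t ∈ Set.Icc (0 : ℝ) 1, ∀ s ∈ Set.Icc (0 : ℝ) 1,
      psi5 t = 16 * N → 16 * N * psi5 s = 16 →
      Half5 a b c t ∧ Half5 (a' / N) (b' / N) (c' / N) s ∧
        Link5 a b c t (a' / N) (b' / N) (c' / N) := by
  have c0 := h.hL 0
  have c0' := h'.hL 0
  have hab := h.hab
  have hab' := h'.hab
  have hN1 : 1 ≤ 16 * N := by linarith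
  have hN : 0 < N := by linarith
  refine ⟨⟨hN1, by linarith⟩, fun t ht s hs et es => ⟨⟨ht.1, ht.2, hab, ?_, ?_⟩,
    ⟨hs.1, hs.2, div_le_div_of_nonneg_right hab' hN.le, ?_, ?_⟩, ⟨?_, ?_, ?_⟩⟩⟩
  · have := h.hL t
    linarith
  · linarith
  · have := div_nonneg (h'.hL s) hN.le
    have e2 : (s ^ 2 * N - 2 * s * a' + c') / N = s ^ 2 - 2 * s * (a' / N) + c' / N := by
      field_simp
    rwa [e2] at this
  · apply mul_left_cancel₀ hN.ne'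
    field_simp
    linarith
  · rw [et]; field_simp; linarith
  · rw [et]; field_simp; linarith
  · rw [et]; field_simp; linarith

lemma pow4_eq (X : Matrix n n ℂ) : X ^ 4 = X * (X * (X * X)) := by
  simp only [pow_succ, pow_zero, one_mul, mul_assoc]

lemma pow5_eq (X : Matrix n n ℂ) : X ^ 5 = X * (X * (X * (X * X))) := by
  simp only [pow_succ, pow_zero, one_mul, mul_assoc]

lemma sys4 {P Q : Matrix n n ℂ} (hP : P.PosSemidef) (hQ : Q.PosSemidef)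
    (h : rt ((P + Q) ^ 4) = 1) :
    ∃ a' b' c' : ℝ, 8 * (rt (P ^ 4) + rt (Q ^ 4)) ∈ Set.Icc (1 : ℝ) 8 ∧
      ∀ t ∈ Set.Icc (0 : ℝ) 1, ∀ s ∈ Set.Icc (0 : ℝ) 1,
      psi4 t = 8 * (rt (P ^ 4) + rt (Q ^ 4)) → 8 * (rt (P ^ 4) + rt (Q ^ 4)) * psi4 s = 8 →
      Half4 (rt ((P + Q) * ((P + Q) * ((P - Q) * (P - Q)))))
        (rt ((P + Q) * ((P - Q) * ((P + Q) * (P - Q)))))
        (rt ((P - Q) * ((P - Q) * ((P - Q) * (P - Q))))) t ∧ Half4 a' b' c' s ∧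
      Link4 (rt ((P + Q) * ((P + Q) * ((P - Q) * (P - Q)))))
        (rt ((P + Q) * ((P - Q) * ((P + Q) * (P - Q)))))
        (rt ((P - Q) * ((P - Q) * ((P - Q) * (P - Q))))) t a' b' c' := by
  simp only [pow4_eq] at h ⊢
  have k := core4 (hP.add hQ) (hP.1.sub hQ.1)
  rw [h] at k
  obtain ⟨w0, w1, w2, w3⟩ := words4 P Q
  rw [h] at w0
  exact ⟨_, _, _, core4_sys k (dual4 hP hQ) (by linarith) (by linarith) (by linarith)
    (by linarith)⟩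

lemma sys5 {P Q : Matrix n n ℂ} (hP : P.PosSemidef) (hQ : Q.PosSemidef)
    (h : rt ((P + Q) ^ 5) = 1) :
    ∃ a' b' c' : ℝ, 16 * (rt (P ^ 5) + rt (Q ^ 5)) ∈ Set.Icc (1 : ℝ) 16 ∧
      ∀ t ∈ Set.Icc (0 : ℝ) 1, ∀ s ∈ Set.Icc (0 : ℝ) 1,
      psi5 t = 16 * (rt (P ^ 5) + rt (Q ^ 5)) → 16 * (rt (P ^ 5) + rt (Q ^ 5)) * psi5 s = 16 →
      Half5 (rt ((P + Q) * ((P + Q) * ((P + Q) * ((P - Q) * (P - Q))))))
        (rt ((P + Q) * ((P + Q) * ((P - Q) * ((P + Q) * (P - Q))))))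
        (rt ((P + Q) * ((P - Q) * ((P - Q) * ((P - Q) * (P - Q)))))) t ∧ Half5 a' b' c' s ∧
      Link5 (rt ((P + Q) * ((P + Q) * ((P + Q) * ((P - Q) * (P - Q))))))
        (rt ((P + Q) * ((P + Q) * ((P - Q) * ((P + Q) * (P - Q))))))
        (rt ((P + Q) * ((P - Q) * ((P - Q) * ((P - Q) * (P - Q)))))) t a' b' c' := by
  simp only [pow5_eq] at h ⊢
  have k := core5 (hP.add hQ) (hP.1.sub hQ.1)
  rw [h] at k
  obtain ⟨w0, w1, w2, w3⟩ := words5 P Q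
  rw [h] at w0
  exact ⟨_, _, _, core5_sys k (dual5 hP hQ) (by linarith) (by linarith) (by linarith)
    (by linarith)⟩

omit [Fintype n] [DecidableEq n] [Fintype m] [DecidableEq m] in
lemma kron_sum (X Y : Matrix n n ℂ) (Z W : Matrix m m ℂ) :
    X ⊗ₖ Z + Y ⊗ₖ W + (X ⊗ₖ W + Y ⊗ₖ Z) = (X + Y) ⊗ₖ (Z + W) := by
  simp only [add_kronecker, kronecker_add]
  abel

omit [Fintype n] [DecidableEq n] [Fintype m] [DecidableEq m] in
lemma kron_diff (X Y : Matrix n n ℂ) (Z W : Matrix m m ℂ) :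
    X ⊗ₖ Z + Y ⊗ₖ W - (X ⊗ₖ W + Y ⊗ₖ Z) = (X - Y) ⊗ₖ (Z - W) := by
  ext ⟨i, j⟩ ⟨k, l⟩
  simp only [Matrix.add_apply, Matrix.sub_apply, kroneckerMap_apply]
  ring

omit [DecidableEq n] in
lemma trot4 (x y z w : Matrix n n ℂ) :
    trace (x * (y * (z * w))) = trace (y * (z * (w * x))) := by
  rw [trace_mul_comm]; simp only [mul_assoc]

omit [DecidableEq n] in
lemma trot5 (x y z w v : Matrix n n ℂ) :
    trace (x * (y * (z * (w * v)))) = trace (y * (z * (w * (v * x)))) := by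
  rw [trace_mul_comm]; simp only [mul_assoc]

lemma comb4 {P Q : Matrix n n ℂ} {P' Q' : Matrix m m ℂ} (hP : P.IsHermitian) (hQ : Q.IsHermitian)
    (h : rt ((P + Q) ^ 4) = 1) (h' : rt ((P' + Q') ^ 4) = 1) :
    8 * (rt ((P ⊗ₖ P' + Q ⊗ₖ Q') ^ 4) + rt ((P ⊗ₖ Q' + Q ⊗ₖ P') ^ 4)) =
      1 + 4 * (rt ((P + Q) * ((P + Q) * ((P - Q) * (P - Q)))) *
          rt ((P' + Q') * ((P' + Q') * ((P' - Q') * (P' - Q'))))) +
        2 * (rt ((P + Q) * ((P - Q) * ((P + Q) * (P - Q)))) *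
          rt ((P' + Q') * ((P' - Q') * ((P' + Q') * (P' - Q'))))) +
        rt ((P - Q) * ((P - Q) * ((P - Q) * (P - Q)))) *
          rt ((P' - Q') * ((P' - Q') * ((P' - Q') * (P' - Q')))) := by
  simp only [pow4_eq] at h h' ⊢
  obtain ⟨w0, w1, w2, w3⟩ := words4 (P ⊗ₖ P' + Q ⊗ₖ Q') (P ⊗ₖ Q' + Q ⊗ₖ P')
  have hS := (hP.add hQ).eq
  have hD := (hP.sub hQ).eq
  simp only [kron_sum, kron_diff, ← mul_kronecker_mul] at w0 w1 w2 w3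
  generalize P + Q = S at *
  generalize P - Q = D at *
  rw [rt_kron _ (by simp only [conjTranspose_mul, hS, mul_assoc]), h, h'] at w0
  rw [rt_kron _ (by
    simp only [conjTranspose_mul, hS, hD, mul_assoc]
    exact (trot4 D D S S).trans (trot4 D S S D))] at w1
  rw [rt_kron _ (by
    simp only [conjTranspose_mul, hS, hD, mul_assoc]
    exact trot4 D S D S)] at w2
  rw [rt_kron _ (by simp only [conjTranspose_mul, hD, mul_assoc])] at w3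
  linarith

lemma comb5 {P Q : Matrix n n ℂ} {P' Q' : Matrix m m ℂ} (hP : P.IsHermitian) (hQ : Q.IsHermitian)
    (h : rt ((P + Q) ^ 5) = 1) (h' : rt ((P' + Q') ^ 5) = 1) :
    16 * (rt ((P ⊗ₖ P' + Q ⊗ₖ Q') ^ 5) + rt ((P ⊗ₖ Q' + Q ⊗ₖ P') ^ 5)) =
      1 + 5 * (rt ((P + Q) * ((P + Q) * ((P + Q) * ((P - Q) * (P - Q))))) *
          rt ((P' + Q') * ((P' + Q') * ((P' + Q') * ((P' - Q') * (P' - Q')))))) +
        5 * (rt ((P + Q) * ((P + Q) * ((P - Q) * ((P + Q) * (P - Q))))) *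
          rt ((P' + Q') * ((P' + Q') * ((P' - Q') * ((P' + Q') * (P' - Q')))))) +
        5 * (rt ((P + Q) * ((P - Q) * ((P - Q) * ((P - Q) * (P - Q))))) *
          rt ((P' + Q') * ((P' - Q') * ((P' - Q') * ((P' - Q') * (P' - Q')))))) := by
  simp only [pow5_eq] at h h' ⊢
  obtain ⟨w0, w1, w2, w3⟩ := words5 (P ⊗ₖ P' + Q ⊗ₖ Q') (P ⊗ₖ Q' + Q ⊗ₖ P')
  have hS := (hP.add hQ).eq
  have hD := (hP.sub hQ).eq
  simp only [kron_sum, kron_diff, ← mul_kronecker_mul] at w0 w1 w2 w3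
  generalize P + Q = S at *
  generalize P - Q = D at *
  rw [rt_kron _ (by simp only [conjTranspose_mul, hS, mul_assoc]), h, h'] at w0
  rw [rt_kron _ (by
    simp only [conjTranspose_mul, hS, hD, mul_assoc]
    exact (trot5 D D S S S).trans (trot5 D S S S D))] at w1
  rw [rt_kron _ (by
    simp only [conjTranspose_mul, hS, hD, mul_assoc]
    exact ((trot5 S S D S D).trans (trot5 S D S D S)).symm)] at w2
  rw [rt_kron _ (by
    simp only [conjTranspose_mul, hS, hD, mul_assoc]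
    exact (trot5 S D D D D).symm)] at w3
  linarith

lemma log_eight : Real.log 8 = (4 - 1) * Real.log 2 := by
  rw [show (8 : ℝ) = 2 ^ 3 by norm_num, Real.log_pow]
  norm_num

lemma log_sixteen : Real.log 16 = (5 - 1) * Real.log 2 := by
  rw [show (16 : ℝ) = 2 ^ 4 by norm_num, Real.log_pow]
  norm_num

lemma binH_four (p : ℝ) : binH 4 p = Real.log (psi4 ((1 - 2 * p) ^ 2) / 8) / (1 - 4) := by
  unfold binH psi4
  have h : ∀ x : ℝ, x ^ (4 : ℝ) = x ^ (4 : ℕ) := fun x => by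
    exact_mod_cast Real.rpow_natCast x 4
  rw [h, h]
  congr 2
  ring

lemma binH_five (p : ℝ) : binH 5 p = Real.log (psi5 ((1 - 2 * p) ^ 2) / 16) / (1 - 5) := by
  unfold binH psi5
  have h : ∀ x : ℝ, x ^ (5 : ℝ) = x ^ (5 : ℕ) := fun x => by
    exact_mod_cast Real.rpow_natCast x 5
  rw [h, h]
  congr 2
  ring

lemma psi4_mono : StrictMonoOn psi4 (Set.Icc 0 1) := by
  intro x hx y hy hxy
  unfold psi4
  nlinarith [hx.1, hy.1]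

lemma psi5_mono : StrictMonoOn psi5 (Set.Icc 0 1) := by
  intro x hx y hy hxy
  unfold psi5
  nlinarith [hx.1, hy.1]

/-- Reduction of the three entropies to sandwiched operators. -/
lemma reduce_states {N : ℕ} (hN : N ≠ 0) (σ : ZMod 2 → Matrix n n ℂ) (η : ZMod 2 → Matrix m m ℂ)
    (hσ : ∀ x, (σ x).PosSemidef ∧ trace (σ x) = 1)
    (hη : ∀ x, (η x).PosSemidef ∧ trace (η x) = 1) :
    ∃ (P Q : Matrix n n ℂ) (P' Q' : Matrix m m ℂ), P.PosSemidef ∧ Q.PosSemidef ∧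
      P'.PosSemidef ∧ Q'.PosSemidef ∧ rt ((P + Q) ^ N) = 1 ∧ rt ((P' + Q') ^ N) = 1 ∧
      Hdown N (cq σ) = Real.log (rt (P ^ N) + rt (Q ^ N)) / (1 - N) ∧
      Hdown N (cq η) = Real.log (rt (P' ^ N) + rt (Q' ^ N)) / (1 - N) ∧
      Hdown N (combine σ η) = Real.log (rt ((P ⊗ₖ P' + Q ⊗ₖ Q') ^ N) +
        rt ((P ⊗ₖ Q' + Q ⊗ₖ P') ^ N)) / (1 - N) := by
  have hh : (0 : ℂ) ≤ 1 / 2 := by
    rw [show (1 / 2 : ℂ) = ((1 / 2 : ℝ) : ℂ) by push_cast; ring]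
    exact Complex.zero_le_real.2 (by norm_num)
  have hX := (hσ 0).1.smul hh
  have hY := (hσ 1).1.smul hh
  have hZ := (hη 0).1.smul hh
  have hW := (hη 1).1.smul hh
  have t1 : trace ((1 / 2 : ℂ) • σ 0 + (1 / 2 : ℂ) • σ 1) = 1 := by
    rw [trace_add, trace_smul, trace_smul, (hσ 0).2, (hσ 1).2]
    norm_num
  have t2 : trace ((1 / 2 : ℂ) • η 0 + (1 / 2 : ℂ) • η 1) = 1 := by
    rw [trace_add, trace_smul, trace_smul, (hη 0).2, (hη 1).2]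
    norm_num
  rw [cq_eq, cq_eq, combine_eq]
  set X := (1 / 2 : ℂ) • σ 0
  set Y := (1 / 2 : ℂ) • σ 1
  set Z := (1 / 2 : ℂ) • η 0
  set W := (1 / 2 : ℂ) • η 1
  refine ⟨sw N (X + Y) X, sw N (X + Y) Y, sw N (Z + W) Z, sw N (Z + W) W, sw_psd N _ hX,
    sw_psd N _ hY, sw_psd N _ hZ, sw_psd N _ hW, sw_total hN hX hY t1, sw_total hN hZ hW t2,
    Hdown_blk_nat N hX hY, Hdown_blk_nat N hZ hW, ?_⟩
  rw [Hdown_blk_nat N ((hX.kronecker hZ).add (hY.kronecker hW))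
    ((hX.kronecker hW).add (hY.kronecker hZ)), kron_sum]
  simp only [sw_add, sw_kron N (hX.add hY) (hZ.add hW)]

theorem alpha_four (σ : ZMod 2 → Matrix n n ℂ) (η : ZMod 2 → Matrix m m ℂ)
    (hσ : ∀ x, (σ x).PosSemidef ∧ trace (σ x) = 1)
    (hη : ∀ x, (η x).PosSemidef ∧ trace (η x) = 1) :
    Hdown 4 (cq σ) ∈ Set.Icc 0 (Real.log 2) ∧ Hdown 4 (cq η) ∈ Set.Icc 0 (Real.log 2) ∧
    bound 4 (Hdown 4 (cq σ)) (Hdown 4 (cq η)) ≤ Hdown 4 (combine σ η) := by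
  obtain ⟨P, Q, P', Q', hP, hQ, hP', hQ', h, h', e₁, e₂, e₃⟩ :=
    reduce_states (N := 4) (by norm_num) σ η hσ hη
  rw [Nat.cast_ofNat] at e₁ e₂ e₃
  obtain ⟨a₁, b₁, c₁, r₁, s₁⟩ := sys4 hP hQ h
  obtain ⟨a₂, b₂, c₂, r₂, s₂⟩ := sys4 hP' hQ' h'
  have hc := comb4 (P' := P') (Q' := Q') hP.1 hQ.1 h h'
  have h12 : rt ((P ⊗ₖ P' + Q ⊗ₖ Q' + (P ⊗ₖ Q' + Q ⊗ₖ P')) ^ 4) = 1 := by
    rw [kron_sum, pow4_eq, ← mul_kronecker_mul, ← mul_kronecker_mul, ← mul_kronecker_mul,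
      rt_kron _ (by simp only [conjTranspose_mul, (hP.1.add hQ.1).eq, mul_assoc]),
      ← pow4_eq, ← pow4_eq, h, h', one_mul]
  obtain ⟨-, -, -, r₃, -⟩ := sys4 ((hP.kronecker hP').add (hQ.kronecker hQ'))
    ((hP.kronecker hQ').add (hQ.kronecker hP')) h12
  have key := entropy_glue (α := 4) (L := 8) (ψ := psi4) (by norm_num) (by norm_num) log_eight
    (by unfold psi4; fun_prop) psi4_mono (by norm_num [psi4]) (by norm_num [psi4]) binH_four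
    r₁ r₂ (zero_lt_one.trans_le r₃.1) (by
      intro t₁ ht₁ u₁ hu₁ t₂ ht₂ u₂ hu₂ f₁ g₁ f₂ g₂
      obtain ⟨x₁, y₁, z₁⟩ := s₁ t₁ ht₁ u₁ hu₁ f₁ g₁
      obtain ⟨x₂, y₂, z₂⟩ := s₂ t₂ ht₂ u₂ hu₂ f₂ g₂
      rw [hc, ← f₁, ← f₂]
      exact ⟨scalar4 x₁ y₁ z₁ x₂ y₂ z₂, scalar4' x₁ y₁ z₁ x₂ y₂ z₂⟩)
  simp only [mul_div_cancel_left₀ _ (show (8 : ℝ) ≠ 0 by norm_num)] at key
  rwa [e₁, e₂, e₃]

theorem alpha_five (σ : ZMod 2 → Matrix n n ℂ) (η : ZMod 2 → Matrix m m ℂ)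
    (hσ : ∀ x, (σ x).PosSemidef ∧ trace (σ x) = 1)
    (hη : ∀ x, (η x).PosSemidef ∧ trace (η x) = 1) :
    Hdown 5 (cq σ) ∈ Set.Icc 0 (Real.log 2) ∧ Hdown 5 (cq η) ∈ Set.Icc 0 (Real.log 2) ∧
    bound 5 (Hdown 5 (cq σ)) (Hdown 5 (cq η)) ≤ Hdown 5 (combine σ η) := by
  obtain ⟨P, Q, P', Q', hP, hQ, hP', hQ', h, h', e₁, e₂, e₃⟩ :=
    reduce_states (N := 5) (by norm_num) σ η hσ hη
  rw [Nat.cast_ofNat] at e₁ e₂ e₃
  obtain ⟨a₁, b₁, c₁, r₁, s₁⟩ := sys5 hP hQ h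
  obtain ⟨a₂, b₂, c₂, r₂, s₂⟩ := sys5 hP' hQ' h'
  have hc := comb5 (P' := P') (Q' := Q') hP.1 hQ.1 h h'
  have h12 : rt ((P ⊗ₖ P' + Q ⊗ₖ Q' + (P ⊗ₖ Q' + Q ⊗ₖ P')) ^ 5) = 1 := by
    rw [kron_sum, pow5_eq, ← mul_kronecker_mul, ← mul_kronecker_mul, ← mul_kronecker_mul,
      ← mul_kronecker_mul,
      rt_kron _ (by simp only [conjTranspose_mul, (hP.1.add hQ.1).eq, mul_assoc]),
      ← pow5_eq, ← pow5_eq, h, h', one_mul]
  obtain ⟨-, -, -, r₃, -⟩ := sys5 ((hP.kronecker hP').add (hQ.kronecker hQ'))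
    ((hP.kronecker hQ').add (hQ.kronecker hP')) h12
  have key := entropy_glue (α := 5) (L := 16) (ψ := psi5) (by norm_num) (by norm_num) log_sixteen
    (by unfold psi5; fun_prop) psi5_mono (by norm_num [psi5]) (by norm_num [psi5]) binH_five
    r₁ r₂ (zero_lt_one.trans_le r₃.1) (by
      intro t₁ ht₁ u₁ hu₁ t₂ ht₂ u₂ hu₂ f₁ g₁ f₂ g₂
      obtain ⟨x₁, y₁, z₁⟩ := s₁ t₁ ht₁ u₁ hu₁ f₁ g₁
      obtain ⟨x₂, y₂, z₂⟩ := s₂ t₂ ht₂ u₂ hu₂ f₂ g₂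
      rw [hc, ← f₁, ← f₂]
      exact ⟨scalar5 x₁ y₁ z₁ x₂ y₂ z₂, scalar5' x₁ y₁ z₁ x₂ y₂ z₂⟩)
  simp only [mul_div_cancel_left₀ _ (show (16 : ℝ) ≠ 0 by norm_num)] at key
  rwa [e₁, e₂, e₃]

end Pool.Agent.MP_560646_mp

end
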