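import Pool.Agent.Mg.F560646.Gb33330

section

namespace Pool.Agent.MP_560646_mp

open Matrix Kronecker
open scoped ComplexOrder MatrixOrder

variable {n m : Type} [Fintype n] [DecidableEq n] [Fintype m] [DecidableEq m]

/-- If both `T + D` and `T - D` are positive then `D` factors through `T`. -/
lemma exists_factor {T D : Matrix n n ℂ} (h₁ : (T + D).PosSemidef) (h₂ : (T - D).PosSemidef) :
    ∃ Y : Matrix n n ℂ, T * Y = D := by
  have hT : T.IsHermitian := by
    have := (h₁.1.add h₂.1).smul (show IsSelfAdjoint (1 / 2 : ℝ) from rfl)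
    convert this using 1
    module
  have hD : D.IsHermitian := by
    have := h₁.1.sub hT
    rwa [add_sub_cancel_left] at this
  set U := hT.eigenvectorUnitary
  set d := hT.eigenvalues
  have hTe : T = (U : Matrix n n ℂ) * diagonal (fun i => (d i : ℂ)) * star (U : Matrix n n ℂ) :=
    hT.spectral_theorem
  have h2 : ∀ X : Matrix n n ℂ, (U : Matrix n n ℂ) * X * star (U : Matrix n n ℂ) =
    Unitary.conjStarAlgAut ℝ _ U X := fun X => rfl
  set K : Matrix n n ℂ :=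
    (U : Matrix n n ℂ) * diagonal (fun i => (((d i)⁻¹ : ℝ) : ℂ)) * star (U : Matrix n n ℂ) with hK
  have hKh : K.IsHermitian := by
    have hd : (diagonal (fun i => (((d i)⁻¹ : ℝ) : ℂ)) : Matrix n n ℂ).IsHermitian := by
      rw [IsHermitian, diagonal_conjTranspose]
      congr 1
      ext i
      simp
    exact isHermitian_mul_mul_conjTranspose _ hd
  have hTKT : T * (K * T) = T := by
    rw [hK, hTe]
    simp only [h2]
    rw [← map_mul, ← map_mul, diagonal_mul_diagonal, diagonal_mul_diagonal]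
    congr 2
    ext i
    by_cases h : d i = 0
    · simp [h]
    · have : (d i : ℂ) ≠ 0 := by exact_mod_cast h
      push_cast
      field_simp
  set E : Matrix n n ℂ := 1 - K * T with hE
  have hTE : T * E = 0 := by rw [hE, mul_sub, mul_one, hTKT, sub_self]
  have p₁ := h₁.conjTranspose_mul_mul_same E
  have p₂ := h₂.conjTranspose_mul_mul_same E
  have z : Eᴴ * (T + D) * E = 0 := by
    apply le_antisymm _ p₁.nonneg
    rw [Matrix.le_iff]
    have : 0 - Eᴴ * (T + D) * E = Eᴴ * (T - D) * E := by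
      rw [mul_assoc, mul_assoc, add_mul, sub_mul, hTE, zero_add, zero_sub, zero_sub, mul_neg]
    rwa [this]
  obtain ⟨A, hA, hAA⟩ := exists_root h₁
  have z2 : A * E = 0 := by
    rw [← conjTranspose_mul_self_eq_zero, conjTranspose_mul, hA.eq, ← z, ← hAA]
    simp only [mul_assoc]
  have z3 : D * E = 0 := by
    have : (T + D) * E = 0 := by rw [← hAA, mul_assoc, z2, mul_zero]
    rwa [add_mul, hTE, zero_add] at this
  refine ⟨K * D, ?_⟩
  have z4 : D = D * (K * T) := by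
    rw [hE, mul_sub, mul_one, sub_eq_zero] at z3
    exact z3
  have := congrArg conjTranspose z4
  rw [conjTranspose_mul, conjTranspose_mul, hD.eq, hT.eq, hKh.eq] at this
  rw [← mul_assoc, ← this]

/-- The one-system data used in the operator inequality. -/
lemma exists_short {P Q R : Matrix n n ℂ} {δ : ℝ} (hδ : 0 ≤ δ) (hP : P.PosSemidef)
    (hQ : Q.PosSemidef) (hS : (R - (P + Q)).PosSemidef)
    (hPR : ((1 + δ) • R - (2 : ℝ) • P).PosSemidef) (hQR : ((1 + δ) • R - (2 : ℝ) • Q).PosSemidef) :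
    ∃ Y T G : Matrix n n ℂ, T = (1 + δ) • R - (P + Q) ∧ T.PosSemidef ∧ T * Y = P - Q ∧
      Yᴴ * T = P - Q ∧ Yᴴ * T * Y = G ∧ (T - G).PosSemidef ∧ (P + Q - δ • G).PosSemidef := by
  set T := (1 + δ) • R - (P + Q) with hT
  have h₁ : (T + (P - Q)).PosSemidef := by
    convert hQR using 1
    rw [hT]; module
  have h₂ : (T - (P - Q)).PosSemidef := by
    convert hPR using 1
    rw [hT]; module
  have hTp : T.PosSemidef := by
    have := (h₁.add h₂).smul (show (0 : ℝ) ≤ 1 / 2 by norm_num)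
    convert this using 1
    module
  have h₃ : (T - δ • (P + Q)).PosSemidef := by
    have := hS.smul (show (0 : ℝ) ≤ 1 + δ by linarith)
    convert this using 1
    rw [hT]; module
  obtain ⟨Y, hY⟩ := exists_factor h₁ h₂
  have hY' : Yᴴ * T = P - Q := by
    have := congrArg conjTranspose hY
    rwa [conjTranspose_mul, hTp.1.eq, (hP.1.sub hQ.1).eq] at this
  have hG : Yᴴ * (P - Q) = (P - Q) * Y := by
    rw [← hY, ← mul_assoc, hY', hY]
  refine ⟨Y, T, _, rfl, hTp, hY, hY', rfl, ?_, ?_⟩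
  · have := ((h₁.conjTranspose_mul_mul_same (1 - Y)).add
      (h₂.conjTranspose_mul_mul_same (1 + Y))).smul (show (0 : ℝ) ≤ 1 / 2 by norm_num)
    convert this using 1
    rw [conjTranspose_sub, conjTranspose_add, conjTranspose_one]
    generalize P - Q = D at *
    simp only [mul_add, add_mul, mul_sub, sub_mul, mul_one, one_mul, hY, hY', hG]
    module
  · have := (((hP.conjTranspose_mul_mul_same (1 - δ • Y)).add
      (hQ.conjTranspose_mul_mul_same (1 + δ • Y))).add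
      ((h₃.conjTranspose_mul_mul_same Y).smul hδ))
    convert this using 1
    rw [conjTranspose_sub, conjTranspose_add, conjTranspose_one, conjTranspose_smul, star_trivial]
    have e1 : Yᴴ * P = (P - Q) * Y + Yᴴ * Q := by rw [← hG, mul_sub, sub_add_cancel]
    simp only [mul_add, add_mul, mul_sub, sub_mul, mul_one, one_mul, hY', smul_mul_assoc,
      mul_smul_comm, e1]
    module

lemma kron_amgm {Y T G D : Matrix n n ℂ} {Y' T' G' D' : Matrix m m ℂ} (hT : T.PosSemidef)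
    (hT' : T'.PosSemidef) (h₁ : T * Y = D) (h₂ : Yᴴ * T = D) (h₃ : Yᴴ * T * Y = G)
    (h₁' : T' * Y' = D') (h₂' : Y'ᴴ * T' = D') (h₃' : Y'ᴴ * T' * Y' = G') :
    (G ⊗ₖ T' + T ⊗ₖ G' - (2 : ℝ) • D ⊗ₖ D').PosSemidef := by
  have := (hT.kronecker hT').conjTranspose_mul_mul_same
    (Y ⊗ₖ (1 : Matrix m m ℂ) - (1 : Matrix n n ℂ) ⊗ₖ Y')
  rw [conjTranspose_sub, conjTranspose_kronecker, conjTranspose_kronecker, conjTranspose_one,
    conjTranspose_one] at this
  simp only [mul_sub, sub_mul, ← mul_kronecker_mul, mul_one, one_mul] at this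
  rw [h₃, h₃', h₁, h₂, h₁', h₂'] at this
  have e : G ⊗ₖ T' + T ⊗ₖ G' - (2 : ℝ) • D ⊗ₖ D' =
      G ⊗ₖ T' - D ⊗ₖ D' - (D ⊗ₖ D' - T ⊗ₖ G') := by module
  rwa [e]

/-- The operator inequality behind the order infinity case. -/
theorem inf_ineq {P Q R : Matrix n n ℂ} {P' Q' R' : Matrix m m ℂ} {a b : ℝ}
    (ha : a ∈ Set.Icc (1 / 2 : ℝ) 1) (hb : b ∈ Set.Icc (1 / 2 : ℝ) 1)
    (hP : P.PosSemidef) (hQ : Q.PosSemidef) (hS : (R - (P + Q)).PosSemidef)
    (hPR : (a • R - P).PosSemidef) (hQR : (a • R - Q).PosSemidef)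
    (hP' : P'.PosSemidef) (hQ' : Q'.PosSemidef) (hS' : (R' - (P' + Q')).PosSemidef)
    (hPR' : (b • R' - P').PosSemidef) (hQR' : (b • R' - Q').PosSemidef) :
    ((a * b + (1 - a) * (1 - b)) • R ⊗ₖ R' - (P ⊗ₖ P' + Q ⊗ₖ Q')).PosSemidef := by
  obtain ⟨δ, rfl⟩ : ∃ δ : ℝ, a = (1 + δ) / 2 := ⟨2 * a - 1, by ring⟩
  obtain ⟨ε, rfl⟩ : ∃ ε : ℝ, b = (1 + ε) / 2 := ⟨2 * b - 1, by ring⟩
  have d0 : 0 ≤ δ := by linarith [ha.1]
  have d1 : 0 ≤ 1 - δ := by linarith [ha.2]
  have e0 : 0 ≤ ε := by linarith [hb.1]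
  have e1 : 0 ≤ 1 - ε := by linarith [hb.2]
  have two : (0 : ℝ) ≤ 2 := by norm_num
  have half : (0 : ℝ) ≤ 1 / 2 := by norm_num
  obtain ⟨Y, T, G, hT, hTp, h₁, h₂, h₃, k₁, k₂⟩ := exists_short d0 hP hQ hS
    (by convert hPR.smul two using 1; module) (by convert hQR.smul two using 1; module)
  obtain ⟨Y', T', G', hT', hTp', h₁', h₂', h₃', k₁', k₂'⟩ := exists_short e0 hP' hQ' hS'
    (by convert hPR'.smul two using 1; module) (by convert hQR'.smul two using 1; module)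
  have hR : R.PosSemidef := by
    convert hS.add (hP.add hQ) using 1
    abel
  have hR' : R'.PosSemidef := by
    convert hS'.add (hP'.add hQ') using 1
    abel
  have dp : 0 < 1 + δ := by linarith
  have ep : 0 < 1 + ε := by linarith
  have A := kron_amgm hTp hTp' h₁ h₂ h₃ h₁' h₂' h₃'
  have B := k₁.kronecker ((hR'.smul e0).add (hS'.smul (div_nonneg d1 dp.le)))
  have C := k₂.kronecker (hS'.smul (div_nonneg two dp.le))
  have B' := ((hR.smul d0).add (hS.smul (div_nonneg e1 ep.le))).kronecker k₁'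
  have C' := (hS.smul (div_nonneg two ep.le)).kronecker k₂'
  have := (((((A.add B).add C).add B').add C').smul half).smul half
  convert this using 1
  clear this A B C B' C' h₁ h₂ h₃ h₁' h₂' h₃' k₁ k₂ k₁' k₂' hTp hTp'
  subst hT hT'
  ext ⟨i, j⟩ ⟨k, l⟩
  have dp' : (1 + δ : ℂ) ≠ 0 := by exact_mod_cast dp.ne'
  have ep' : (1 + ε : ℂ) ≠ 0 := by exact_mod_cast ep.ne'
  simp only [Matrix.add_apply, Matrix.sub_apply, Matrix.smul_apply, kroneckerMap_apply,
    Complex.real_smul]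
  push_cast
  field_simp
  ring

end Pool.Agent.MP_560646_mp

end

section

namespace Pool.Agent.MP_560646_mp

open Matrix Kronecker
open scoped ComplexOrder MatrixOrder

variable {n m : Type} [Fintype n] [DecidableEq n] [Fintype m] [DecidableEq m]

open scoped Matrix.Norms.L2Operator in
lemma mpow_mono {A B : Matrix n n ℂ} (hA : A.PosSemidef) (h : (B - A).PosSemidef) {t : ℝ}
    (ht : t ∈ Set.Icc (0 : ℝ) 1) : (mpow B t - mpow A t).PosSemidef := by
  have hB : B.PosSemidef := by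
    have := h.add hA
    rwa [sub_add_cancel] at this
  have key : A ^ t ≤ B ^ t := CFC.rpow_le_rpow ht (Matrix.le_iff.2 h)
  rw [CFC.rpow_eq_cfc_real hA.nonneg, CFC.rpow_eq_cfc_real hB.nonneg] at key
  exact key

/-- A matrix given by an orthonormal basis and real eigenvalues. -/
noncomputable def ud (U : unitary (Matrix n n ℂ)) (d : n → ℝ) : Matrix n n ℂ :=
  (U : Matrix n n ℂ) * diagonal (fun i => (d i : ℂ)) * star (U : Matrix n n ℂ)

/-- Diagonal entries in an orthonormal basis. -/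
noncomputable def dg (U : unitary (Matrix n n ℂ)) (Y : Matrix n n ℂ) (i : n) : ℝ :=
  ((star (U : Matrix n n ℂ) * Y * (U : Matrix n n ℂ)) i i).re

lemma exists_ud {A : Matrix n n ℂ} (hA : A.PosSemidef) :
    ∃ (U : unitary (Matrix n n ℂ)) (d : n → ℝ), (∀ i, 0 ≤ d i) ∧ A = ud U d := psd_decomp hA

lemma mpow_ud (U : unitary (Matrix n n ℂ)) (d : n → ℝ) (t : ℝ) :
    mpow (ud U d) t = ud U (fun i => d i ^ t) := mpow_decomp U d t

lemma ud_mul (U : unitary (Matrix n n ℂ)) (d e : n → ℝ) :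
    ud U d * ud U e = ud U (fun i => d i * e i) := by
  have h2 : ∀ X : Matrix n n ℂ, (U : Matrix n n ℂ) * X * star (U : Matrix n n ℂ) =
    Unitary.conjStarAlgAut ℝ _ U X := fun X => rfl
  unfold ud
  simp only [h2]
  rw [← map_mul, diagonal_mul_diagonal]
  simp only [Complex.ofReal_mul]

lemma ud_smul (U : unitary (Matrix n n ℂ)) (d : n → ℝ) (c : ℝ) :
    c • ud U d = ud U (fun i => c * d i) := by
  unfold ud
  rw [← smul_mul_assoc, ← mul_smul_comm, ← diagonal_smul]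
  congr 3
  ext i
  simp

lemma ud_psd (U : unitary (Matrix n n ℂ)) {d : n → ℝ} (hd : ∀ i, 0 ≤ d i) :
    (ud U d).PosSemidef := by
  have : (diagonal (fun i => (d i : ℂ)) : Matrix n n ℂ).PosSemidef :=
    PosSemidef.diagonal fun i => Complex.zero_le_real.2 (hd i)
  exact this.mul_mul_conjTranspose_same _

lemma rt_ud_mul (U : unitary (Matrix n n ℂ)) (d : n → ℝ) (Y : Matrix n n ℂ) :
    rt (ud U d * Y) = ∑ i, d i * dg U Y i := by
  unfold ud dg rt
  rw [mul_assoc, mul_assoc, trace_mul_comm, mul_assoc, mul_assoc, ← mul_assoc (star _), trace,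
    Complex.re_sum]
  refine Finset.sum_congr rfl fun i _ => ?_
  rw [diag_apply, diagonal_mul, Complex.re_ofReal_mul]

lemma sum_dg (U : unitary (Matrix n n ℂ)) (Y : Matrix n n ℂ) : ∑ i, dg U Y i = rt Y := by
  have := rt_ud_mul U (fun _ => 1) Y
  have e : ud U (fun _ => 1) = 1 := by
    unfold ud
    simp
  rw [e, one_mul] at this
  simp [this]

lemma dg_nonneg (U : unitary (Matrix n n ℂ)) {Y : Matrix n n ℂ} (hY : Y.PosSemidef) (i : n) :
    0 ≤ dg U Y i :=
  (Complex.nonneg_iff.1 (hY.conjTranspose_mul_mul_same (U : Matrix n n ℂ)).diag_nonneg).1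

lemma dg_add (U : unitary (Matrix n n ℂ)) (X Y : Matrix n n ℂ) (i : n) :
    dg U (X + Y) i = dg U X i + dg U Y i := by
  unfold dg
  rw [mul_add, add_mul, Matrix.add_apply, Complex.add_re]

lemma dg_mono (U : unitary (Matrix n n ℂ)) {X Y : Matrix n n ℂ} (h : (Y - X).PosSemidef) (i : n) :
    dg U X i ≤ dg U Y i := by
  have := dg_add U (Y - X) X i
  rw [sub_add_cancel] at this
  linarith [dg_nonneg U h i]

lemma dg_ud (U V : unitary (Matrix n n ℂ)) (e : n → ℝ) (i : n) :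
    dg U (ud V e) i =
      ∑ k, Complex.normSq ((star (U : Matrix n n ℂ) * (V : Matrix n n ℂ)) i k) * e k := by
  unfold dg ud
  have : star (U : Matrix n n ℂ) * ((V : Matrix n n ℂ) * diagonal (fun i => (e i : ℂ)) *
      star (V : Matrix n n ℂ)) * (U : Matrix n n ℂ) =
      (star (U : Matrix n n ℂ) * (V : Matrix n n ℂ)) * diagonal (fun i => (e i : ℂ)) *
        star (star (U : Matrix n n ℂ) * (V : Matrix n n ℂ)) := by
    rw [star_mul, star_star]
    simp only [mul_assoc]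
  rw [this, Matrix.mul_apply, Complex.re_sum]
  refine Finset.sum_congr rfl fun k _ => ?_
  rw [mul_diagonal, star_apply, mul_right_comm, Complex.star_def, Complex.mul_conj,
    ← Complex.ofReal_mul, Complex.ofReal_re]

lemma ud_one (U : unitary (Matrix n n ℂ)) : ud U (fun _ => 1) = 1 := by
  unfold ud
  simp

lemma dg_one (U : unitary (Matrix n n ℂ)) (i : n) : dg U 1 i = 1 := by
  unfold dg
  simp

lemma dg_self (U : unitary (Matrix n n ℂ)) (d : n → ℝ) (i : n) : dg U (ud U d) i = d i := by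
  rw [dg_ud]
  simp only [Unitary.star_mul_self_of_mem U.2]
  rw [Finset.sum_eq_single i]
  · simp
  · intro k _ hk
    simp [Matrix.one_apply_ne hk.symm]
  · simp

lemma dg_jensen (U : unitary (Matrix n n ℂ)) {Y : Matrix n n ℂ} (hY : Y.PosSemidef) {t : ℝ}
    (ht : 1 ≤ t) (i : n) : dg U Y i ^ t ≤ dg U (mpow Y t) i := by
  obtain ⟨V, e, he, rfl⟩ := exists_ud hY
  have h1 := dg_ud U V (fun _ => 1) i
  rw [ud_one, dg_one] at h1
  rw [mpow_ud, dg_ud, dg_ud]
  exact Real.rpow_arith_mean_le_arith_mean_rpow _ _ _ (fun k _ => Complex.normSq_nonneg _)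
    (by simpa using h1.symm) (fun k _ => he k) ht

lemma mpow_psd {A : Matrix n n ℂ} (hA : A.PosSemidef) (t : ℝ) : (mpow A t).PosSemidef := by
  obtain ⟨U, d, hd, rfl⟩ := exists_ud hA
  rw [mpow_ud]
  exact ud_psd U fun i => Real.rpow_nonneg (hd i) t

lemma mpow_mpow {A : Matrix n n ℂ} (hA : A.PosSemidef) {s t : ℝ} (h : s * t = 1) :
    mpow (mpow A s) t = A := by
  obtain ⟨U, d, hd, rfl⟩ := exists_ud hA
  rw [mpow_ud, mpow_ud]
  congr 1
  ext i
  rw [← Real.rpow_mul (hd i), h, Real.rpow_one]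

lemma mpow_smul {A : Matrix n n ℂ} (hA : A.PosSemidef) {c : ℝ} (hc : 0 ≤ c) (t : ℝ) :
    mpow (c • A) t = c ^ t • mpow A t := by
  obtain ⟨U, d, hd, rfl⟩ := exists_ud hA
  rw [ud_smul, mpow_ud, mpow_ud, ud_smul]
  congr 1
  ext i
  rw [Real.mul_rpow hc (hd i)]

lemma mul_mpow {A : Matrix n n ℂ} (hA : A.PosSemidef) {t : ℝ} (ht : t ≠ 0) :
    A * mpow A (t - 1) = mpow A t := by
  obtain ⟨U, d, hd, rfl⟩ := exists_ud hA
  rw [mpow_ud, mpow_ud, ud_mul]
  congr 1
  ext i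
  rw [mul_comm, ← Real.rpow_add_one' (hd i) (by simpa using ht), sub_add_cancel]

/-- For `0 ≤ X ≤ Y` the trace of `X ^ α` is at most the trace of `X Y ^ (α - 1)`. -/
lemma rt_pow_le {X Y : Matrix n n ℂ} (hX : X.PosSemidef) (h : (Y - X).PosSemidef) {α : ℝ}
    (hα : 1 < α) : rt (mpow X α) ≤ rt (X * mpow Y (α - 1)) := by
  have hY : Y.PosSemidef := by
    have := h.add hX
    rwa [sub_add_cancel] at this
  rw [← mul_mpow hX (by linarith : α ≠ 0)]
  rcases le_total α 2 with h2 | h2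
  · have := rt_mul_nonneg hX (mpow_mono hX h (t := α - 1) ⟨by linarith, by linarith⟩)
    rw [mul_sub, rt_sub] at this
    linarith
  · obtain ⟨U, d, hd, rfl⟩ := exists_ud hX
    rw [rt_ud_mul, rt_ud_mul]
    refine Finset.sum_le_sum fun i _ => mul_le_mul_of_nonneg_left ?_ (hd i)
    rw [mpow_ud, dg_self]
    refine le_trans ?_ (dg_jensen U hY (by linarith) i)
    have := dg_mono U h i
    rw [dg_self] at this
    exact Real.rpow_le_rpow (hd i) this (by linarith)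

lemma rt_mul_pow_le {X Y : Matrix n n ℂ} (hX : X.PosSemidef) (h : (Y - X).PosSemidef) {α : ℝ}
    (hα : 1 < α) : rt (X * mpow Y (α - 1)) ≤ rt (mpow Y α) := by
  have hY : Y.PosSemidef := by
    have := h.add hX
    rwa [sub_add_cancel] at this
  have := rt_mul_nonneg h (mpow_psd hY (α - 1))
  rw [sub_mul, rt_sub, mul_mpow hY (by linarith : α ≠ 0)] at this
  linarith

/-- The two-sided range of the sum of the traces. -/
lemma rt_range {P Q : Matrix n n ℂ} (hP : P.PosSemidef) (hQ : Q.PosSemidef) {α : ℝ} (hα : 1 < α)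
    (h : rt (mpow (P + Q) α) = 1) :
    rt (mpow P α) + rt (mpow Q α) ∈ Set.Icc ((2 : ℝ) ^ (1 - α)) 1 := by
  constructor
  · obtain ⟨U, d, hd, hS⟩ := exists_ud (hP.add hQ)
    rw [← sum_dg U, ← sum_dg U, ← Finset.sum_add_distrib]
    rw [← sum_dg U, hS, mpow_ud] at h
    simp only [dg_self] at h
    have h' : (2 : ℝ) ^ (1 - α) = ∑ i, 2 ^ (1 - α) * d i ^ α := by
      rw [← Finset.mul_sum, h, mul_one]
    rw [h']
    refine Finset.sum_le_sum fun i _ => ?_
    refine le_trans ?_ (add_le_add (dg_jensen U hP hα.le i) (dg_jensen U hQ hα.le i))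
    have e : d i = dg U P i + dg U Q i := by rw [← dg_add, hS, dg_self]
    have := Real.rpow_arith_mean_le_arith_mean_rpow Finset.univ ![1 / 2, 1 / 2]
      ![dg U P i, dg U Q i] (by intro k _; fin_cases k <;> simp) (by simp; norm_num)
      (by intro k _; fin_cases k <;> simp [dg_nonneg U hP, dg_nonneg U hQ]) hα.le
    simp only [Fin.sum_univ_two, Matrix.cons_val_zero, Matrix.cons_val_one] at this
    have e2 : 1 / 2 * dg U P i + 1 / 2 * dg U Q i = d i / 2 := by rw [e]; ring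
    rw [e2, Real.div_rpow (hd i) (by norm_num)] at this
    rw [Real.rpow_sub (by norm_num), Real.rpow_one]
    have e3 : 2 / (2 : ℝ) ^ α * d i ^ α = 2 * (d i ^ α / 2 ^ α) := by ring
    linarith
  · have a := rt_pow_le (Y := P + Q) hP (by rwa [add_sub_cancel_left]) hα
    have b := rt_pow_le (Y := P + Q) hQ (by rwa [add_sub_cancel_right]) hα
    have c := rt_add (P * mpow (P + Q) (α - 1)) (Q * mpow (P + Q) (α - 1))
    rw [← add_mul, mul_mpow (hP.add hQ) (by linarith : α ≠ 0), h] at c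
    linarith

end Pool.Agent.MP_560646_mp

end

section

namespace Pool.Agent.MP_560646_mp

open Matrix Kronecker
open scoped ComplexOrder MatrixOrder

variable {n m : Type} [Fintype n] [DecidableEq n] [Fintype m] [DecidableEq m]

/-- A common upper bound with controlled trace. -/
lemma exists_dom {P Q : Matrix n n ℂ} (hP : P.PosSemidef) (hQ : Q.PosSemidef) {α a : ℝ}
    (hα : 1 < α) (ha : 0 < a) (h : rt (mpow (P + Q) α) = 1) :
    ∃ R : Matrix n n ℂ, R.PosSemidef ∧ (R - (P + Q)).PosSemidef ∧ (a • R - P).PosSemidef ∧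
      (a • R - Q).PosSemidef ∧
      rt (mpow R α) = 1 + (rt (mpow P α) + rt (mpow Q α)) / a ^ α := by
  have α0 : 0 < α := by linarith
  have hi : (0 : ℝ) ≤ a⁻¹ := inv_nonneg.2 ha.le
  have ht : α⁻¹ ∈ Set.Icc (0 : ℝ) 1 := ⟨inv_nonneg.2 α0.le, inv_le_one_of_one_le₀ hα.le⟩
  have hS := mpow_psd (hP.add hQ) α
  have hP' := mpow_psd (hP.smul hi) α
  have hQ' := mpow_psd (hQ.smul hi) α
  set N := mpow (P + Q) α + mpow (a⁻¹ • P) α + mpow (a⁻¹ • Q) α with hN
  have hNp : N.PosSemidef := (hS.add hP').add hQ'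
  have key : ∀ X : Matrix n n ℂ, X.PosSemidef → (N - mpow X α).PosSemidef →
      (mpow N α⁻¹ - X).PosSemidef := by
    intro X hX hXN
    have := mpow_mono (mpow_psd hX α) hXN ht
    rwa [mpow_mpow hX (mul_inv_cancel₀ α0.ne')] at this
  have sc : ∀ X : Matrix n n ℂ, a • mpow N α⁻¹ - X = a • (mpow N α⁻¹ - a⁻¹ • X) := by
    intro X
    rw [smul_sub, smul_smul, mul_inv_cancel₀ ha.ne', one_smul]
  refine ⟨mpow N α⁻¹, mpow_psd hNp _, key _ (hP.add hQ) ?_, ?_, ?_, ?_⟩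
  · have e : N - mpow (P + Q) α = mpow (a⁻¹ • P) α + mpow (a⁻¹ • Q) α := by rw [hN]; abel
    rw [e]
    exact hP'.add hQ'
  · rw [sc]
    refine (key _ (hP.smul hi) ?_).smul ha.le
    have e : N - mpow (a⁻¹ • P) α = mpow (P + Q) α + mpow (a⁻¹ • Q) α := by rw [hN]; abel
    rw [e]
    exact hS.add hQ'
  · rw [sc]
    refine (key _ (hQ.smul hi) ?_).smul ha.le
    have e : N - mpow (a⁻¹ • Q) α = mpow (P + Q) α + mpow (a⁻¹ • P) α := by rw [hN]; abel
    rw [e]
    exact hS.add hP'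
  · rw [mpow_mpow hNp (inv_mul_cancel₀ α0.ne'), hN, rt_add, rt_add, h, mpow_smul hP hi,
      mpow_smul hQ hi, rt_smul, rt_smul, Real.inv_rpow ha.le]
    ring

omit [DecidableEq n] [DecidableEq m] in
lemma rt_kron_mul {X Y : Matrix n n ℂ} {X' Y' : Matrix m m ℂ} (hX : X.IsHermitian)
    (hY : Y.IsHermitian) : rt ((X ⊗ₖ X') * (Y ⊗ₖ Y')) = rt (X * Y) * rt (X' * Y') := by
  have h : trace (X * Y)ᴴ = trace (X * Y) := by
    rw [conjTranspose_mul, hX.eq, hY.eq, trace_mul_comm]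
  rw [trace_conjTranspose] at h
  have him : (trace (X * Y)).im = 0 := Complex.conj_eq_iff_im.1 h
  unfold rt
  rw [← mul_kronecker_mul, trace_kronecker, Complex.mul_re, him, zero_mul, sub_zero]

omit [Fintype n] [DecidableEq n] [Fintype m] [DecidableEq m] in
lemma kron_total (X Y : Matrix n n ℂ) (Z W : Matrix m m ℂ) :
    X ⊗ₖ Z + Y ⊗ₖ W + (X ⊗ₖ W + Y ⊗ₖ Z) = (X + Y) ⊗ₖ (Z + W) := by
  simp only [add_kronecker, kronecker_add]
  abel

/-- The trace form of the bound, with two free parameters. -/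
lemma trace_bound {P Q : Matrix n n ℂ} {P' Q' : Matrix m m ℂ} (hP : P.PosSemidef)
    (hQ : Q.PosSemidef) (hP' : P'.PosSemidef) (hQ' : Q'.PosSemidef) {α a b : ℝ} (hα : 1 < α)
    (ha : a ∈ Set.Icc (1 / 2 : ℝ) 1) (hb : b ∈ Set.Icc (1 / 2 : ℝ) 1)
    (h : rt (mpow (P + Q) α) = 1) (h' : rt (mpow (P' + Q') α) = 1) :
    rt (mpow (P ⊗ₖ P' + Q ⊗ₖ Q') α) + rt (mpow (P ⊗ₖ Q' + Q ⊗ₖ P') α) ≤
      (a * b + (1 - a) * (1 - b)) ^ (α - 1) * ((1 + (rt (mpow P α) + rt (mpow Q α)) / a ^ α) *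
        (1 + (rt (mpow P' α) + rt (mpow Q' α)) / b ^ α)) := by
  obtain ⟨R, hR, hS, hPR, hQR, e⟩ := exists_dom hP hQ hα (by linarith [ha.1] : 0 < a) h
  obtain ⟨R', hR', hS', hPR', hQR', e'⟩ := exists_dom hP' hQ' hα (by linarith [hb.1] : 0 < b) h'
  have i₁ := inf_ineq ha hb hP hQ hS hPR hQR hP' hQ' hS' hPR' hQR'
  have i₂ := inf_ineq ha hb hP hQ hS hPR hQR hQ' hP' (by rwa [add_comm]) hQR' hPR'
  have c0 : 0 ≤ a * b + (1 - a) * (1 - b) := by nlinarith [ha.1, ha.2, hb.1, hb.2]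
  have j₁ := rt_pow_le ((hP.kronecker hP').add (hQ.kronecker hQ')) i₁ hα
  have j₂ := rt_pow_le ((hP.kronecker hQ').add (hQ.kronecker hP')) i₂ hα
  refine (add_le_add j₁ j₂).trans ?_
  rw [← rt_add, ← add_mul, kron_total, mpow_smul (hR.kronecker hR') c0, mul_smul_comm, rt_smul,
    mpow_kron hR hR', rt_kron_mul (hP.add hQ).1 (mpow_isHermitian _ _), ← e, ← e']
  refine mul_le_mul_of_nonneg_left ?_ (Real.rpow_nonneg c0 _)
  exact mul_le_mul (rt_mul_pow_le (hP.add hQ) hS hα) (rt_mul_pow_le (hP'.add hQ') hS' hα)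
    (rt_mul_nonneg (hP'.add hQ') (mpow_psd hR' _)) (rt_nonneg (mpow_psd hR _))

omit [Fintype n] [DecidableEq n] in
lemma blk_star (X Y : Matrix n n ℂ) : star (blk X Y) = blk (star X) (star Y) := by
  simp only [blk, star_eq_conjTranspose, conjTranspose_add, conjTranspose_kronecker]
  simp [conjTranspose_single]

lemma blk_ud (U V : unitary (Matrix n n ℂ)) :
    ∃ W : unitary (Matrix (ZMod 2 × n) (ZMod 2 × n) ℂ), ∀ d e : n → ℝ,
      blk (ud U d) (ud V e) = ud W (fun p => if p.1 = 0 then d p.2 else e p.2) := by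
  have one : blk (1 : Matrix n n ℂ) 1 = 1 := by rw [← one_kron, one_kronecker_one]
  refine ⟨⟨blk U V, ?_, ?_⟩, fun d e => ?_⟩
  · rw [blk_star, blk_mul, Unitary.star_mul_self_of_mem U.2, Unitary.star_mul_self_of_mem V.2, one]
  · rw [blk_star, blk_mul, Unitary.mul_star_self_of_mem U.2, Unitary.mul_star_self_of_mem V.2, one]
  · have : (diagonal (fun p : ZMod 2 × n => (((if p.1 = 0 then d p.2 else e p.2 : ℝ)) : ℂ))) =
        blk (diagonal fun i => (d i : ℂ)) (diagonal fun i => (e i : ℂ)) := by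
      ext ⟨x, i⟩ ⟨y, j⟩
      have h01 : (0 : ZMod 2) ≠ 1 := by decide
      have hx : x = 0 ∨ x = 1 := by revert x; decide
      have hy : y = 0 ∨ y = 1 := by revert y; decide
      rcases hx with rfl | rfl <;> rcases hy with rfl | rfl <;>
        simp [blk, diagonal_apply, h01, h01.symm]
    unfold ud
    rw [this]
    change _ = blk (U : Matrix n n ℂ) V * _ * star (blk (U : Matrix n n ℂ) V)
    rw [blk_star, blk_mul, blk_mul]

lemma mpow_blk {X Y : Matrix n n ℂ} (hX : X.PosSemidef) (hY : Y.PosSemidef) (t : ℝ) :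
    mpow (blk X Y) t = blk (mpow X t) (mpow Y t) := by
  obtain ⟨U, d, -, rfl⟩ := exists_ud hX
  obtain ⟨V, e, -, rfl⟩ := exists_ud hY
  obtain ⟨W, hW⟩ := blk_ud U V
  rw [mpow_ud, mpow_ud, hW, hW, mpow_ud]
  congr 1
  ext p
  split_ifs <;> rfl

/-- The sandwiched operator for a real order. -/
noncomputable def swr (α : ℝ) (M X : Matrix n n ℂ) : Matrix n n ℂ :=
  mpow M ((1 - α) / (2 * α)) * X * mpow M ((1 - α) / (2 * α))

lemma swr_add (α : ℝ) (M X Y : Matrix n n ℂ) : swr α M (X + Y) = swr α M X + swr α M Y := by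
  unfold swr; rw [mul_add, add_mul]

lemma swr_psd (α : ℝ) (M : Matrix n n ℂ) {X : Matrix n n ℂ} (hX : X.PosSemidef) :
    (swr α M X).PosSemidef :=
  psd_sandwich (mpow_isHermitian _ _) hX

lemma swr_kron (α : ℝ) {M : Matrix n n ℂ} {M' : Matrix m m ℂ} (hM : M.PosSemidef)
    (hM' : M'.PosSemidef) (X : Matrix n n ℂ) (X' : Matrix m m ℂ) :
    swr α (M ⊗ₖ M') (X ⊗ₖ X') = swr α M X ⊗ₖ swr α M' X' := by
  unfold swr
  rw [mpow_kron hM hM', mul_kronecker_mul, mul_kronecker_mul]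

lemma swr_self {α : ℝ} (hα : 0 < α) {M : Matrix n n ℂ} (hM : M.PosSemidef) :
    mpow (swr α M M) α = M := by
  obtain ⟨U, d, hd, rfl⟩ := exists_ud hM
  unfold swr
  rw [mpow_ud, ud_mul, ud_mul, mpow_ud]
  congr 1
  ext i
  rcases (hd i).eq_or_lt with h | h
  · rw [← h]; simp [hα.ne']
  · have e1 : d i ^ ((1 - α) / (2 * α)) * d i * d i ^ ((1 - α) / (2 * α)) = d i ^ α⁻¹ := by
      nth_rewrite 2 [← Real.rpow_one (d i)]
      rw [← Real.rpow_add h, ← Real.rpow_add h]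
      congr 1
      field_simp
      ring
    rw [e1, ← Real.rpow_mul h.le, inv_mul_cancel₀ hα.ne', Real.rpow_one]

lemma Hdown_blk_real (α : ℝ) {X Y : Matrix n n ℂ} (hX : X.PosSemidef) (hY : Y.PosSemidef) :
    Hdown α (blk X Y) =
      Real.log (rt (mpow (swr α (X + Y) X) α) + rt (mpow (swr α (X + Y) Y) α)) / (1 - α) := by
  unfold Hdown
  rw [margB_blk, one_kron, blk_mul, blk_mul]
  change Real.log (trace (mpow (blk (swr α (X + Y) X) (swr α (X + Y) Y)) α)).re / (1 - α) = _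
  rw [mpow_blk (swr_psd α _ hX) (swr_psd α _ hY), trace_blk, Complex.add_re]
  rfl

/-- Reduction of the three entropies to sandwiched operators, for a real order. -/
lemma reduce_real {α : ℝ} (hα : 0 < α) (σ : ZMod 2 → Matrix n n ℂ) (η : ZMod 2 → Matrix m m ℂ)
    (hσ : ∀ x, (σ x).PosSemidef ∧ trace (σ x) = 1)
    (hη : ∀ x, (η x).PosSemidef ∧ trace (η x) = 1) :
    ∃ (P Q : Matrix n n ℂ) (P' Q' : Matrix m m ℂ), P.PosSemidef ∧ Q.PosSemidef ∧
      P'.PosSemidef ∧ Q'.PosSemidef ∧ rt (mpow (P + Q) α) = 1 ∧ rt (mpow (P' + Q') α) = 1 ∧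
      Hdown α (cq σ) = Real.log (rt (mpow P α) + rt (mpow Q α)) / (1 - α) ∧
      Hdown α (cq η) = Real.log (rt (mpow P' α) + rt (mpow Q' α)) / (1 - α) ∧
      Hdown α (combine σ η) = Real.log (rt (mpow (P ⊗ₖ P' + Q ⊗ₖ Q') α) +
        rt (mpow (P ⊗ₖ Q' + Q ⊗ₖ P') α)) / (1 - α) := by
  have hh : (0 : ℂ) ≤ 1 / 2 := by
    rw [show (1 / 2 : ℂ) = ((1 / 2 : ℝ) : ℂ) by push_cast; ring]
    exact Complex.zero_le_real.2 (by norm_num)
  have hX := (hσ 0).1.smul hh
  have hY := (hσ 1).1.smul hh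
  have hZ := (hη 0).1.smul hh
  have hW := (hη 1).1.smul hh
  have t1 : trace ((1 / 2 : ℂ) • σ 0 + (1 / 2 : ℂ) • σ 1) = 1 := by
    rw [trace_add, trace_smul, trace_smul, (hσ 0).2, (hσ 1).2]
    norm_num
  have t2 : trace ((1 / 2 : ℂ) • η 0 + (1 / 2 : ℂ) • η 1) = 1 := by
    rw [trace_add, trace_smul, trace_smul, (hη 0).2, (hη 1).2]
    norm_num
  rw [cq_eq, cq_eq, combine_eq]
  set X := (1 / 2 : ℂ) • σ 0
  set Y := (1 / 2 : ℂ) • σ 1
  set Z := (1 / 2 : ℂ) • η 0
  set W := (1 / 2 : ℂ) • η 1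
  refine ⟨swr α (X + Y) X, swr α (X + Y) Y, swr α (Z + W) Z, swr α (Z + W) W, swr_psd α _ hX,
    swr_psd α _ hY, swr_psd α _ hZ, swr_psd α _ hW, ?_, ?_,
    Hdown_blk_real α hX hY, Hdown_blk_real α hZ hW, ?_⟩
  · rw [← swr_add, swr_self hα (hX.add hY), rt, t1, Complex.one_re]
  · rw [← swr_add, swr_self hα (hZ.add hW), rt, t2, Complex.one_re]
  · rw [Hdown_blk_real α ((hX.kronecker hZ).add (hY.kronecker hW))
      ((hX.kronecker hW).add (hY.kronecker hZ)), kron_total]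
    simp only [swr_add, swr_kron α (hX.add hY) (hZ.add hW)]

/-- The ratio form of the binary power sum. -/
lemma ratio_form {α x : ℝ} (hx : x ∈ Set.Icc (1 / 2 : ℝ) 1) :
    (1 - x) ^ α + x ^ α = x ^ α * (1 + ((1 - x) / x) ^ α) := by
  have x0 : 0 < x := by linarith [hx.1]
  have := Real.rpow_pos_of_pos x0 α
  rw [Real.div_rpow (by linarith [hx.2]) x0.le]
  field_simp
  ring

lemma ratio_mono {α x y : ℝ} (hα : 0 ≤ α) (hx : x ∈ Set.Icc (1 / 2 : ℝ) 1)
    (hy : 1 / 2 ≤ y) (h : y ≤ x) : ((1 - x) / x) ^ α ≤ ((1 - y) / y) ^ α := by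
  have x0 : 0 < x := by linarith [hx.1]
  have y0 : 0 < y := by linarith
  refine Real.rpow_le_rpow (div_nonneg (by linarith [hx.2]) x0.le) ?_ hα
  rw [div_le_div_iff₀ x0 y0]
  linarith

lemma ratio_range {α x : ℝ} (hα : 0 ≤ α) (hx : x ∈ Set.Icc (1 / 2 : ℝ) 1) :
    ((1 - x) / x) ^ α ∈ Set.Icc (0 : ℝ) 1 := by
  have x0 : 0 < x := by linarith [hx.1]
  have h0 : 0 ≤ (1 - x) / x := div_nonneg (by linarith [hx.2]) x0.le
  exact ⟨Real.rpow_nonneg h0 _,
    Real.rpow_le_one h0 (by rw [div_le_one x0]; linarith [hx.1]) hα⟩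

lemma conv_range {a b : ℝ} (ha : a ∈ Set.Icc (1 / 2 : ℝ) 1) (hb : b ∈ Set.Icc (1 / 2 : ℝ) 1) :
    a * b + (1 - a) * (1 - b) ∈ Set.Icc (1 / 2 : ℝ) 1 ∧ a * b + (1 - a) * (1 - b) ≤ a ∧
      a * b + (1 - a) * (1 - b) ≤ b := by
  refine ⟨⟨?_, ?_⟩, ?_, ?_⟩ <;> nlinarith [ha.1, ha.2, hb.1, hb.2]

lemma scalar_one {α a b : ℝ} (hα : 1 < α) (ha : a ∈ Set.Icc (1 / 2 : ℝ) 1)
    (hb : b ∈ Set.Icc (1 / 2 : ℝ) 1) :
    (a * b + (1 - a) * (1 - b)) ^ (α - 1) * ((1 + ((1 - a) ^ α + a ^ α) / a ^ α) *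
        (1 + ((1 - b) ^ α + b ^ α) / b ^ α)) ≤
      9 * ((1 - (a * b + (1 - a) * (1 - b))) ^ α + (a * b + (1 - a) * (1 - b)) ^ α) := by
  obtain ⟨hc, ca, cb⟩ := conv_range ha hb
  set c := a * b + (1 - a) * (1 - b)
  have α0 : 0 ≤ α := by linarith
  have c0 : 0 < c := by linarith [hc.1]
  have pa := Real.rpow_pos_of_pos (by linarith [ha.1] : 0 < a) α
  have pb := Real.rpow_pos_of_pos (by linarith [hb.1] : 0 < b) α
  have pc := Real.rpow_pos_of_pos c0 (α - 1)
  have ec : c ^ α = c ^ (α - 1) * c := by rw [← Real.rpow_add_one c0.ne', sub_add_cancel]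
  rw [ratio_form ha, ratio_form hb, ratio_form hc, mul_div_cancel_left₀ _ pa.ne',
    mul_div_cancel_left₀ _ pb.ne', ec]
  have r₁ := ratio_mono α0 ha hc.1 ca
  have r₂ := ratio_mono α0 hb hc.1 cb
  have s₁ := ratio_range α0 ha
  have s₂ := ratio_range α0 hb
  have s₃ := ratio_range α0 hc
  generalize ((1 - a) / a) ^ α = r at *
  generalize ((1 - b) / b) ^ α = s at *
  generalize ((1 - c) / c) ^ α = t at *
  have k : (1 + (1 + r)) * (1 + (1 + s)) ≤ 9 * (c * (1 + t)) := by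
    have k₁ : (1 + (1 + r)) * (1 + (1 + s)) ≤ (2 + t) * (2 + t) :=
      mul_le_mul (by linarith) (by linarith) (by linarith [s₂.1]) (by linarith [s₃.1])
    have k₂ : 1 / 2 * (1 + t) ≤ c * (1 + t) :=
      mul_le_mul_of_nonneg_right hc.1 (by linarith [s₃.1])
    nlinarith [s₃.1, s₃.2]
  calc _ ≤ c ^ (α - 1) * (9 * (c * (1 + t))) := mul_le_mul_of_nonneg_left k pc.le
    _ = _ := by ring

lemma scalar_two {α a b F G : ℝ} (hα : 1 < α) (ha : a ∈ Set.Icc (1 / 2 : ℝ) 1)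
    (hb : b ∈ Set.Icc (1 / 2 : ℝ) 1) (hF : F * ((1 - a) ^ α + a ^ α) = 2 ^ (1 - α))
    (hG : G * ((1 - b) ^ α + b ^ α) = 2 ^ (1 - α)) :
    ((2 * a)⁻¹ * (2 * b)⁻¹ + (1 - (2 * a)⁻¹) * (1 - (2 * b)⁻¹)) ^ (α - 1) *
        ((1 + F / (2 * a)⁻¹ ^ α) * (1 + G / (2 * b)⁻¹ ^ α)) ≤
      9 * (F * G / 2 ^ (1 - α) *
        ((1 - (a * b + (1 - a) * (1 - b))) ^ α + (a * b + (1 - a) * (1 - b)) ^ α)) := by
  obtain ⟨hc, ca, cb⟩ := conv_range ha hb
  have a0 : 0 < a := by linarith [ha.1]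
  have b0 : 0 < b := by linarith [hb.1]
  have e : (2 * a)⁻¹ * (2 * b)⁻¹ + (1 - (2 * a)⁻¹) * (1 - (2 * b)⁻¹) =
      (a * b + (1 - a) * (1 - b)) / (2 * (a * b)) := by
    field_simp
    ring
  have half : a * b ≤ a * b + (1 - a) * (1 - b) := by nlinarith [ha.2, hb.2]
  rw [e]
  set c := a * b + (1 - a) * (1 - b)
  have α0 : 0 ≤ α := by linarith
  have c0 : 0 < c := by linarith [hc.1]
  have pa := Real.rpow_pos_of_pos a0 α
  have pb := Real.rpow_pos_of_pos b0 α
  have pc := Real.rpow_pos_of_pos c0 α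
  have p2 := Real.rpow_pos_of_pos (by norm_num : (0 : ℝ) < 2) α
  have r₁ := ratio_mono α0 ha hc.1 ca
  have r₂ := ratio_mono α0 hb hc.1 cb
  have s₁ := ratio_range α0 ha
  have s₂ := ratio_range α0 hb
  have s₃ := ratio_range α0 hc
  rw [ratio_form ha] at hF
  rw [ratio_form hb] at hG
  rw [ratio_form hc, Real.rpow_sub_one (by positivity), Real.div_rpow c0.le (by positivity),
    Real.inv_rpow (by positivity), Real.inv_rpow (by positivity),
    Real.mul_rpow zero_le_two (mul_pos a0 b0).le, Real.mul_rpow zero_le_two a0.le,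
    Real.mul_rpow zero_le_two b0.le, Real.mul_rpow a0.le b0.le]
  rw [Real.rpow_sub (by norm_num), Real.rpow_one] at hF hG ⊢
  generalize ((1 - a) / a) ^ α = r at *
  generalize ((1 - b) / b) ^ α = s at *
  generalize ((1 - c) / c) ^ α = t at *
  generalize a ^ α = A at *
  generalize b ^ α = B at *
  generalize c ^ α = C at *
  generalize (2 : ℝ) ^ α = L at *
  have r0 : 0 < 1 + r := by linarith [s₁.1]
  have s0 : 0 < 1 + s := by linarith [s₂.1]
  have eF : F = 2 / (L * A * (1 + r)) := by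
    field_simp at hF ⊢
    linarith
  have eG : G = 2 / (L * B * (1 + s)) := by
    field_simp at hG ⊢
    linarith
  have k : (3 + r) * (3 + s) * (a * b) ≤ 9 * ((1 + t) * c) := by
    have k₁ : (3 + r) * (3 + s) ≤ (3 + t) * (3 + t) :=
      mul_le_mul (by linarith) (by linarith) (by linarith [s₂.1]) (by linarith [s₃.1])
    have k₂ : (3 + r) * (3 + s) ≤ 9 * (1 + t) := by nlinarith [s₃.1, s₃.2]
    calc _ ≤ 9 * (1 + t) * c :=
          mul_le_mul k₂ half (by positivity) (by linarith [s₃.1])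
      _ = _ := by ring
  have w : 0 ≤ 2 * C / (L * A * B * c * (1 + r) * (1 + s)) := by positivity
  have := mul_le_mul_of_nonneg_left k w
  rw [eF, eG]
  refine le_of_eq_of_le ?_ (le_of_le_of_eq this ?_)
  · field_simp
    ring
  · field_simp

lemma binG_spec {α F : ℝ} (hα : 1 < α) (hF : F ∈ Set.Icc ((2 : ℝ) ^ (1 - α)) 1) :
    1 - binG α (Real.log F / (1 - α)) ∈ Set.Icc (1 / 2 : ℝ) 1 ∧
      binG α (Real.log F / (1 - α)) ^ α + (1 - binG α (Real.log F / (1 - α))) ^ α = F := by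
  have α0 : 0 < α := by linarith
  have hneg : 1 - α < 0 := by linarith
  have F0 : 0 < F := (Real.rpow_pos_of_pos (by norm_num) _).trans_le hF.1
  have hc : Continuous fun p : ℝ => p ^ α + (1 - p) ^ α :=
    (Real.continuous_rpow_const α0.le).add
      ((Real.continuous_rpow_const α0.le).comp (continuous_const.sub continuous_id))
  obtain ⟨p, hp, e⟩ : F ∈ (fun p : ℝ => p ^ α + (1 - p) ^ α) '' Set.Icc 0 (1 / 2) := by
    apply intermediate_value_Icc' (by norm_num) hc.continuousOn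
    have e1 : ((1 : ℝ) / 2) ^ α + (1 - 1 / 2) ^ α = 2 ^ (1 - α) := by
      rw [show (1 : ℝ) - 1 / 2 = 1 / 2 by norm_num, Real.div_rpow (by norm_num) (by norm_num),
        Real.one_rpow, Real.rpow_sub (by norm_num), Real.rpow_one]
      ring
    simp only [e1, Real.zero_rpow α0.ne', sub_zero, Real.one_rpow, zero_add]
    exact hF
  have hex : ∃ p ∈ Set.Icc (0 : ℝ) (1 / 2), binH α p = Real.log F / (1 - α) :=
    ⟨p, hp, by rw [← e]; rfl⟩
  have hmem := Function.invFunOn_mem hex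
  have he := Function.invFunOn_eq hex
  change binG α _ ∈ _ at hmem
  change binH α (binG α _) = _ at he
  set q := binG α (Real.log F / (1 - α))
  refine ⟨⟨by linarith [hmem.2], by linarith [hmem.1]⟩, ?_⟩
  rw [binH, div_left_inj' hneg.ne] at he
  refine Real.log_injOn_pos (Set.mem_Ioi.2 ?_) (Set.mem_Ioi.2 F0) he
  exact add_pos_of_nonneg_of_pos (Real.rpow_nonneg hmem.1 _)
    (Real.rpow_pos_of_pos (by linarith [hmem.2]) _)

lemma entropy_range {α F : ℝ} (hα : 1 < α) (hF : F ∈ Set.Icc ((2 : ℝ) ^ (1 - α)) 1) :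
    Real.log F / (1 - α) ∈ Set.Icc 0 (Real.log 2) := by
  have hneg : 1 - α < 0 := by linarith
  have p2 := Real.rpow_pos_of_pos (by norm_num : (0 : ℝ) < 2) (1 - α)
  constructor
  · exact div_nonneg_of_nonpos (Real.log_nonpos (p2.le.trans hF.1) hF.2) hneg.le
  · rw [div_le_iff_of_neg hneg, mul_comm, ← Real.log_rpow (by norm_num)]
    exact Real.log_le_log p2 hF.1

lemma large_glue {α F G Φ : ℝ} (hα : 1 < α) (hF : F ∈ Set.Icc ((2 : ℝ) ^ (1 - α)) 1)
    (hG : G ∈ Set.Icc ((2 : ℝ) ^ (1 - α)) 1) (hΦ : 0 < Φ)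
    (H : ∀ a ∈ Set.Icc (1 / 2 : ℝ) 1, ∀ b ∈ Set.Icc (1 / 2 : ℝ) 1,
      Φ ≤ (a * b + (1 - a) * (1 - b)) ^ (α - 1) * ((1 + F / a ^ α) * (1 + G / b ^ α))) :
    bound α (Real.log F / (1 - α)) (Real.log G / (1 - α)) - Real.log 9 / (α - 1) ≤
      Real.log Φ / (1 - α) := by
  have hneg : 1 - α < 0 := by linarith
  have p2 := Real.rpow_pos_of_pos (by norm_num : (0 : ℝ) < 2) (1 - α)
  have F0 : 0 < F := p2.trans_le hF.1
  have G0 : 0 < G := p2.trans_le hG.1
  have fin : ∀ x : ℝ, Φ ≤ 9 * x →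
      Real.log x / (1 - α) - Real.log 9 / (α - 1) ≤ Real.log Φ / (1 - α) := by
    intro x hx
    have x0 : 0 < x := by linarith
    have := Real.log_le_log hΦ hx
    rw [Real.log_mul (by norm_num) x0.ne'] at this
    have e : Real.log x / (1 - α) - Real.log 9 / (α - 1) = (Real.log 9 + Real.log x) / (1 - α) := by
      rw [show α - 1 = -(1 - α) by ring, div_neg]
      ring
    rw [e]
    exact div_le_div_of_nonpos_of_le hneg.le this
  have conv : ∀ p q : ℝ, bconv p q ^ α + (1 - bconv p q) ^ α =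
      (1 - ((1 - p) * (1 - q) + (1 - (1 - p)) * (1 - (1 - q)))) ^ α +
        ((1 - p) * (1 - q) + (1 - (1 - p)) * (1 - (1 - q))) ^ α := by
    intro p q
    unfold bconv
    congr 2 <;> ring
  unfold bound
  split_ifs with h
  · obtain ⟨ma, ea⟩ := binG_spec hα hF
    obtain ⟨mb, eb⟩ := binG_spec hα hG
    apply fin
    have k := scalar_one hα ma mb
    rw [conv]
    refine (H _ ma _ mb).trans (le_of_eq_of_le ?_ k)
    simp only [sub_sub_cancel, ea, eb]
  · have dual : ∀ x ∈ Set.Icc ((2 : ℝ) ^ (1 - α)) 1, 2 ^ (1 - α) / x ∈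
        Set.Icc ((2 : ℝ) ^ (1 - α)) 1 ∧
        Real.log 2 - Real.log x / (1 - α) = Real.log (2 ^ (1 - α) / x) / (1 - α) := by
      intro x hx
      have x0 : 0 < x := p2.trans_le hx.1
      refine ⟨⟨le_div_self p2.le x0 hx.2, (div_le_one x0).2 hx.1⟩, ?_⟩
      rw [Real.log_div p2.ne' x0.ne', Real.log_rpow (by norm_num)]
      field_simp [hneg.ne]
    obtain ⟨dF, eF⟩ := dual F hF
    obtain ⟨dG, eG⟩ := dual G hG
    rw [eF, eG]
    obtain ⟨ma, ea⟩ := binG_spec hα dF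
    obtain ⟨mb, eb⟩ := binG_spec hα dG
    set p := binG α (Real.log (2 ^ (1 - α) / F) / (1 - α))
    set q := binG α (Real.log (2 ^ (1 - α) / G) / (1 - α))
    have k := scalar_two (F := F) (G := G) hα ma mb
      (by rw [sub_sub_cancel, ea]; field_simp) (by rw [sub_sub_cancel, eb]; field_simp)
    have inv : ∀ x ∈ Set.Icc (1 / 2 : ℝ) 1, (2 * x)⁻¹ ∈ Set.Icc (1 / 2 : ℝ) 1 := by
      intro x hx
      have x0 : 0 < 2 * x := by linarith [hx.1]
      exact ⟨by rw [one_div, inv_le_inv₀ (by norm_num) x0]; linarith [hx.2],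
        inv_le_one_of_one_le₀ (by linarith [hx.1])⟩
    have k' := (H _ (inv _ ma) _ (inv _ mb)).trans k
    rw [← conv] at k'
    have y0 : 0 < bconv p q ^ α + (1 - bconv p q) ^ α := by
      by_contra hy
      have : F * G / 2 ^ (1 - α) * (bconv p q ^ α + (1 - bconv p q) ^ α) ≤ 0 :=
        mul_nonpos_of_nonneg_of_nonpos (by positivity) (not_lt.1 hy)
      linarith
    have := fin _ k'
    rw [Real.log_mul (by positivity) y0.ne', Real.log_div (by positivity) p2.ne',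
      Real.log_mul F0.ne' G0.ne', Real.log_rpow (by norm_num)] at this
    refine le_of_eq_of_le ?_ this
    unfold binH
    field_simp [hneg.ne]

theorem large_alpha {α : ℝ} (hα : 1 < α) (σ : ZMod 2 → Matrix n n ℂ) (η : ZMod 2 → Matrix m m ℂ)
    (hσ : ∀ x, (σ x).PosSemidef ∧ trace (σ x) = 1)
    (hη : ∀ x, (η x).PosSemidef ∧ trace (η x) = 1) :
    Hdown α (cq σ) ∈ Set.Icc 0 (Real.log 2) ∧ Hdown α (cq η) ∈ Set.Icc 0 (Real.log 2) ∧
    bound α (Hdown α (cq σ)) (Hdown α (cq η)) - Real.log 9 / (α - 1) ≤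
      Hdown α (combine σ η) := by
  obtain ⟨P, Q, P', Q', hP, hQ, hP', hQ', h, h', e₁, e₂, e₃⟩ :=
    reduce_real (by linarith : 0 < α) σ η hσ hη
  have r₁ := rt_range hP hQ hα h
  have r₂ := rt_range hP' hQ' hα h'
  have h12 : rt (mpow (P ⊗ₖ P' + Q ⊗ₖ Q' + (P ⊗ₖ Q' + Q ⊗ₖ P')) α) = 1 := by
    have := rt_kron_mul (X' := mpow (P' + Q') α) (Y' := 1) (mpow_isHermitian (P + Q) α)
      isHermitian_one
    rw [one_kronecker_one, mul_one, mul_one, mul_one, h, h', mul_one] at this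
    rw [kron_total, mpow_kron (hP.add hQ) (hP'.add hQ'), this]
  have r₃ := rt_range ((hP.kronecker hP').add (hQ.kronecker hQ'))
    ((hP.kronecker hQ').add (hQ.kronecker hP')) hα h12
  rw [e₁, e₂, e₃]
  exact ⟨entropy_range hα r₁, entropy_range hα r₂, large_glue hα r₁ r₂
    ((Real.rpow_pos_of_pos (by norm_num) _).trans_le r₃.1)
    fun a ha b hb => trace_bound hP hQ hP' hQ' hα ha hb h h'⟩

end Pool.Agent.MP_560646_mp

end
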