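import Pool.Agent.MP_560646_mp.VnDefs
import Pool.Agent.Mg.F560646.Gb40ce4

section

namespace Pool.Agent.MP_560646_mp

open Real Set

/-- Twice the inverse hyperbolic tangent. -/
noncomputable def LL (x : ℝ) : ℝ := log (1 + x) - log (1 - x)

lemma LL_zero : LL 0 = 0 := by simp [LL]

lemma LL_deriv {x : ℝ} (h₁ : -1 < x) (h₂ : x < 1) : HasDerivAt LL (2 / (1 - x ^ 2)) x := by
  have a : (1 + x) ≠ 0 := by linarith
  have b : (1 - x) ≠ 0 := by linarith
  have d₁ := ((hasDerivAt_id x).const_add 1).log a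
  have d₂ := ((hasDerivAt_id x).const_sub 1).log b
  have := d₁.sub d₂
  refine this.congr_deriv ?_
  have : 1 - x ^ 2 = (1 + x) * (1 - x) := by ring
  rw [this]
  simp only [id]
  field_simp
  ring

lemma LL_mono {x y : ℝ} (hx : 0 ≤ x) (h : x ≤ y) (hy : y < 1) : LL x ≤ LL y :=
  sub_le_sub (log_le_log (by linarith) (by linarith)) (log_le_log (by linarith) (by linarith))

lemma LL_nonneg {x : ℝ} (hx : 0 ≤ x) (h : x < 1) : 0 ≤ LL x := by
  simpa [LL_zero] using LL_mono le_rfl hx h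

lemma LL_pos {x : ℝ} (hx : 0 < x) (h : x < 1) : 0 < LL x :=
  sub_pos.2 (log_lt_log (by linarith) (by linarith))

lemma LL_ratio {u v y : ℝ} (hu : 0 ≤ u) (huv : u ≤ v) (hv : v < 1) (hy : y ∈ Icc (0 : ℝ) 1) :
    LL (v * y) * LL u ≤ LL (u * y) * LL v := by
  have hv0 : 0 ≤ v := hu.trans huv
  set G : ℝ → ℝ := fun y => LL (u * y) * LL v - LL (v * y) * LL u with hG
  set w : ℝ → ℝ := fun y => u * LL v * (1 - (v * y) ^ 2) - v * LL u * (1 - (u * y) ^ 2) with hw
  have pos : ∀ t ∈ Icc (0 : ℝ) 1, ∀ z, 0 ≤ z → z ≤ v → 0 ≤ z * t ∧ z * t < 1 := fun t ht z a b =>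
    ⟨mul_nonneg a ht.1, by nlinarith [ht.1, ht.2]⟩
  have hd : ∀ t ∈ Icc (0 : ℝ) 1,
      HasDerivAt G (2 * w t / ((1 - (u * t) ^ 2) * (1 - (v * t) ^ 2))) t := by
    intro t ht
    obtain ⟨a₁, a₂⟩ := pos t ht u hu huv
    obtain ⟨b₁, b₂⟩ := pos t ht v hv0 le_rfl
    have d₁ := ((LL_deriv (by linarith) a₂).comp t ((hasDerivAt_id t).const_mul u)).mul_const (LL v)
    have d₂ := ((LL_deriv (by linarith) b₂).comp t ((hasDerivAt_id t).const_mul v)).mul_const (LL u)
    refine (d₁.sub d₂).congr_deriv ?_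
    have a : 1 - (u * t) ^ 2 ≠ 0 := by nlinarith
    have b : 1 - (v * t) ^ 2 ≠ 0 := by nlinarith
    simp only [hw]
    generalize 1 - (u * t) ^ 2 = A at *
    generalize 1 - (v * t) ^ 2 = B at *
    field_simp
  have den : ∀ t ∈ Icc (0 : ℝ) 1, 0 < (1 - (u * t) ^ 2) * (1 - (v * t) ^ 2) := by
    intro t ht
    obtain ⟨a₁, a₂⟩ := pos t ht u hu huv
    obtain ⟨b₁, b₂⟩ := pos t ht v hv0 le_rfl
    exact mul_pos (by nlinarith) (by nlinarith)
  have hB : 0 ≤ u * v * (v * LL v - u * LL u) :=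
    mul_nonneg (mul_nonneg hu hv0) (sub_nonneg.2
      (mul_le_mul huv (LL_mono hu huv hv) (LL_nonneg hu (huv.trans_lt hv)) hv0))
  have anti : ∀ s t : ℝ, 0 ≤ s → s ≤ t → w t ≤ w s := by
    intro s t hs hst
    have : 0 ≤ t ^ 2 - s ^ 2 := by nlinarith
    have := mul_nonneg hB this
    simp only [hw]
    nlinarith
  have goal : 0 ≤ G y := by
    rcases le_total 0 (w y) with h | h
    · have sub : Icc 0 y ⊆ Icc (0 : ℝ) 1 := Icc_subset_Icc_right hy.2
      have := monotoneOn_of_hasDerivWithinAt_nonneg (convex_Icc 0 y)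
        (fun t ht => (hd t (sub ht)).continuousAt.continuousWithinAt)
        (fun t ht => (hd t (sub (interior_subset ht))).hasDerivWithinAt)
        (fun t ht => div_nonneg (by
          have := anti t y (interior_subset ht).1 (interior_subset ht).2
          linarith) (den t (sub (interior_subset ht))).le)
        (left_mem_Icc.2 hy.1) (right_mem_Icc.2 hy.1) hy.1
      simpa [hG, LL_zero] using this
    · have sub : Icc y 1 ⊆ Icc (0 : ℝ) 1 := Icc_subset_Icc_left hy.1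
      have := antitoneOn_of_hasDerivWithinAt_nonpos (convex_Icc y 1)
        (fun t ht => (hd t (sub ht)).continuousAt.continuousWithinAt)
        (fun t ht => (hd t (sub (interior_subset ht))).hasDerivWithinAt)
        (fun t ht => div_nonpos_of_nonpos_of_nonneg (by
          have := anti y t hy.1 (interior_subset ht).1
          linarith) (den t (sub (interior_subset ht))).le)
        (left_mem_Icc.2 hy.2) (right_mem_Icc.2 hy.2) hy.2
      have e : G 1 = 0 := by simp [hG, mul_comm]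
      rwa [e] at this
  exact sub_nonneg.1 goal

/-- Binary entropy as a function of the bias. -/
noncomputable def hb (x : ℝ) : ℝ := binEntropy ((1 - x) / 2)

lemma hb_cont : Continuous hb := by
  unfold hb
  fun_prop

lemma hb_abs (x : ℝ) : hb |x| = hb x := by
  rcases abs_choice x with h | h <;> rw [h]
  unfold hb
  rw [← binEntropy_one_sub]
  congr 1
  ring

lemma hb_deriv {x : ℝ} (h₁ : -1 < x) (h₂ : x < 1) : HasDerivAt hb (-(LL x / 2)) x := by
  have d := (hasDerivAt_binEntropy (p := (1 - x) / 2) (by linarith) (by linarith)).comp x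
    (((hasDerivAt_id x).const_sub 1).div_const 2)
  refine d.congr_deriv ?_
  have e : 1 - (1 - x) / 2 = (1 + x) / 2 := by ring
  rw [e, log_div (by linarith) (by norm_num), log_div (by linarith) (by norm_num), LL]
  ring

lemma mgl_core {x₀ y x : ℝ} (h₀ : x₀ ∈ Ioo (0 : ℝ) 1) (hy : y ∈ Icc (0 : ℝ) 1)
    (hx : x ∈ Icc (0 : ℝ) 1) :
    hb (x₀ * y) - y * LL (x₀ * y) / LL x₀ * hb x₀ ≤ hb (x * y) - y * LL (x₀ * y) / LL x₀ * hb x := by
  have L0 := LL_pos h₀.1 h₀.2
  set μ := y * LL (x₀ * y) / LL x₀ with hμ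
  set φ : ℝ → ℝ := fun x => hb (x * y) - μ * hb x with hφ
  have hc : Continuous φ := (hb_cont.comp (continuous_mul_const y)).sub (hb_cont.const_mul μ)
  have hd : ∀ t ∈ Ioo (0 : ℝ) 1,
      HasDerivAt φ (y * (LL (x₀ * y) * LL t - LL (t * y) * LL x₀) / (2 * LL x₀)) t := by
    intro t ht
    have a₁ : 0 ≤ t * y := mul_nonneg ht.1.le hy.1
    have a₂ : t * y < 1 := by nlinarith [ht.1, ht.2, hy.1, hy.2]
    have d₁ := (hb_deriv (by linarith) a₂).comp t ((hasDerivAt_id t).mul_const y)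
    have d₂ := (hb_deriv (by linarith [ht.1]) ht.2).const_mul μ
    refine (d₁.sub d₂).congr_deriv ?_
    rw [hμ]
    field_simp
    ring
  change φ x₀ ≤ φ x
  rcases le_total x x₀ with h | h
  · have sub : interior (Icc x x₀) ⊆ Ioo (0 : ℝ) 1 := by
      rw [interior_Icc]
      exact Ioo_subset_Ioo hx.1 h₀.2.le
    exact antitoneOn_of_hasDerivWithinAt_nonpos (convex_Icc x x₀) hc.continuousOn
      (fun t ht => (hd t (sub ht)).hasDerivWithinAt)
      (fun t ht => div_nonpos_of_nonpos_of_nonneg (mul_nonpos_of_nonneg_of_nonpos hy.1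
        (sub_nonpos.2 (LL_ratio (sub ht).1.le (interior_subset ht).2 h₀.2 hy))) (by linarith))
      (left_mem_Icc.2 h) (right_mem_Icc.2 h) h
  · have sub : interior (Icc x₀ x) ⊆ Ioo (0 : ℝ) 1 := by
      rw [interior_Icc]
      exact Ioo_subset_Ioo h₀.1.le hx.2
    exact monotoneOn_of_hasDerivWithinAt_nonneg (convex_Icc x₀ x) hc.continuousOn
      (fun t ht => (hd t (sub ht)).hasDerivWithinAt)
      (fun t ht => div_nonneg (mul_nonneg hy.1 (sub_nonneg.2 (by
        have := LL_ratio h₀.1.le (interior_subset ht).1 (sub ht).2 hy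
        linarith))) (by linarith))
      (left_mem_Icc.2 h) (right_mem_Icc.2 h) h

/-- The entropy of one bit given the sum of two independent bits. -/
noncomputable def Psi (p q : ℝ) : ℝ := binEntropy p + binEntropy q - binEntropy (bconv p q)

lemma Psi_comm (p q : ℝ) : Psi p q = Psi q p := by
  unfold Psi bconv
  rw [add_comm (binEntropy p)]
  congr 2
  ring

lemma Psi_hb (p q : ℝ) :
    Psi p q = hb |1 - 2 * p| + hb |1 - 2 * q| - hb (|1 - 2 * p| * |1 - 2 * q|) := by
  rw [← abs_mul, hb_abs, hb_abs, hb_abs]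
  unfold Psi hb bconv
  congr 2
  · congr 1; ring
  · congr 1; ring
  · ring

lemma ent_hb (p : ℝ) : binEntropy p = hb |1 - 2 * p| := by
  rw [hb_abs]
  unfold hb
  congr 1
  ring

lemma bias_mem {p : ℝ} (hp : p ∈ Icc (0 : ℝ) 1) : |1 - 2 * p| ∈ Icc (0 : ℝ) 1 :=
  ⟨abs_nonneg _, abs_le.2 ⟨by linarith [hp.2], by linarith [hp.1]⟩⟩

lemma Psi_le {p q : ℝ} (hp : p ∈ Icc (0 : ℝ) 1) (hq : q ∈ Icc (0 : ℝ) 1) :
    Psi p q ≤ binEntropy p := by
  have := strictConcave_binEntropy.concaveOn.2 hq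
    (show 1 - q ∈ Icc (0 : ℝ) 1 from ⟨by linarith [hq.2], by linarith [hq.1]⟩)
    (show 0 ≤ 1 - p by linarith [hp.2]) hp.1 (by ring)
  simp only [smul_eq_mul, binEntropy_one_sub] at this
  have e : (1 - p) * q + p * (1 - q) = bconv p q := by unfold bconv; ring
  rw [e] at this
  unfold Psi
  linarith

lemma Psi_zero (q : ℝ) : Psi 0 q = 0 := by simp [Psi, bconv]

/-- Mrs. Gerber's lemma in tangent form. -/
lemma mgl {q₀ q : ℝ} (h₀ : q₀ ∈ Ioo (0 : ℝ) (1 / 2)) (hq : q ∈ Icc (0 : ℝ) 1) :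
    ∃ μ : ℝ, 0 ≤ μ ∧ ∀ p ∈ Icc (0 : ℝ) 1,
      Psi p q ≤ Psi q₀ q + μ * (binEntropy p - binEntropy q₀) := by
  have e₀ : |1 - 2 * q₀| ∈ Ioo (0 : ℝ) 1 := by
    rw [abs_of_pos (by linarith [h₀.2])]
    exact ⟨by linarith [h₀.2], by linarith [h₀.1]⟩
  have hy := bias_mem hq
  set x₀ := |1 - 2 * q₀|
  set y := |1 - 2 * q|
  refine ⟨1 - y * LL (x₀ * y) / LL x₀, ?_, fun p hp => ?_⟩
  · have a₁ : 0 ≤ x₀ * y := mul_nonneg e₀.1.le hy.1
    have a₂ : x₀ * y ≤ x₀ := mul_le_of_le_one_right e₀.1.le hy.2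
    rw [sub_nonneg, div_le_one (LL_pos e₀.1 e₀.2)]
    exact (mul_le_of_le_one_left (LL_nonneg a₁ (a₂.trans_lt e₀.2)) hy.2).trans
      (LL_mono a₁ a₂ e₀.2)
  · have := mgl_core e₀ hy (bias_mem hp)
    rw [Psi_hb, Psi_hb, ent_hb p, ent_hb q₀]
    linarith

/-- Mrs. Gerber's lemma in averaged form. -/
lemma mgl_sum {ι : Type} (s : Finset ι) (m p : ι → ℝ) {q₀ q l : ℝ} (h₀ : q₀ ∈ Ico (0 : ℝ) (1 / 2))
    (hq : q ∈ Icc (0 : ℝ) 1) (hm : ∀ i, 0 ≤ m i) (hp : ∀ i, p i ∈ Icc (0 : ℝ) 1)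
    (h1 : ∑ i ∈ s, m i ≤ 1) (hl : 1 ≤ l)
    (hh : ∑ i ∈ s, m i * binEntropy (p i) ≤ l * binEntropy q₀) :
    ∑ i ∈ s, m i * Psi (p i) q ≤ l * Psi q₀ q := by
  rcases h₀.1.eq_or_lt with rfl | h
  · rw [Psi_zero]
    rw [binEntropy_zero] at hh
    exact (Finset.sum_le_sum fun i _ => mul_le_mul_of_nonneg_left (Psi_le (hp i) hq) (hm i)).trans hh
  · obtain ⟨μ, μ0, H⟩ := mgl ⟨h, h₀.2⟩ hq
    have z := H 0 (left_mem_Icc.2 zero_le_one)
    rw [Psi_zero, binEntropy_zero] at z
    have k : ∑ i ∈ s, m i * Psi (p i) q ≤ ∑ i ∈ s, ((Psi q₀ q - μ * binEntropy q₀) * m i +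
        μ * (m i * binEntropy (p i))) := Finset.sum_le_sum fun i _ => by
      have := mul_le_mul_of_nonneg_left (H _ (hp i)) (hm i)
      linarith
    rw [Finset.sum_add_distrib, ← Finset.mul_sum, ← Finset.mul_sum] at k
    have a := mul_le_mul_of_nonneg_left (h1.trans hl)
      (show 0 ≤ Psi q₀ q - μ * binEntropy q₀ by linarith)
    have b := mul_le_mul_of_nonneg_left hh μ0
    linarith

end Pool.Agent.MP_560646_mp

end

section

namespace Pool.Agent.MP_560646_mp

open Real Set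

/-- The reciprocal of the logarithmic mean. -/
noncomputable def lg (x y : ℝ) : ℝ := if x = y then x⁻¹ else (log x - log y) / (x - y)

/-- The second order kernel on a normalised pair. -/
noncomputable def cc (p : ℝ) : ℝ := p * (1 - p) * lg (1 - p) p

/-- The entropy of splitting a mass in two parts. -/
noncomputable def be (x y : ℝ) : ℝ := negMulLog x + negMulLog y - negMulLog (x + y)

lemma lg_comm (x y : ℝ) : lg x y = lg y x := by
  unfold lg
  by_cases h : x = y
  · simp [h]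
  · rw [if_neg h, if_neg (Ne.symm h), ← neg_sub (log y), ← neg_sub y, neg_div_neg_eq]

lemma cc_symm (p : ℝ) : cc (1 - p) = cc p := by
  unfold cc
  rw [sub_sub_cancel, lg_comm]
  ring

lemma lg_pair {x y : ℝ} (hx : 0 ≤ x) (hy : 0 ≤ y) :
    x * y * lg x y = (x + y) * cc (y / (x + y)) := by
  rcases hx.eq_or_lt with rfl | hx
  · by_cases h : y = 0 <;> simp [cc, h]
  rcases hy.eq_or_lt with rfl | hy
  · simp [cc]
  have hs : 0 < x + y := by linarith
  have e : 1 - y / (x + y) = x / (x + y) := by field_simp; ring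
  unfold cc lg
  rw [e]
  by_cases h : x = y
  · subst h
    simp only [if_true]
    field_simp
  · have h' : x / (x + y) ≠ y / (x + y) := by rwa [Ne, div_left_inj' hs.ne']
    have h'' : x - y ≠ 0 := sub_ne_zero.2 h
    rw [if_neg h, if_neg h', log_div hx.ne' hs.ne', log_div hy.ne' hs.ne', ← sub_div]
    field_simp
    ring

lemma LL_ge {x : ℝ} (hx : 0 ≤ x) (h : x < 1) : 2 * x ≤ LL x := by
  have hd : ∀ t ∈ Icc 0 x, HasDerivAt (fun t => LL t - 2 * t) (2 / (1 - t ^ 2) - 2 * 1) t :=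
    fun t ht => (LL_deriv (by linarith [ht.1]) (by linarith [ht.2])).sub
      ((hasDerivAt_id t).const_mul 2)
  have := monotoneOn_of_hasDerivWithinAt_nonneg (convex_Icc 0 x)
    (fun t ht => (hd t ht).continuousAt.continuousWithinAt)
    (fun t ht => (hd t (interior_subset ht)).hasDerivWithinAt)
    (fun t ht => by
      have a := (interior_subset ht).1
      have b := (interior_subset ht).2
      rw [sub_nonneg, le_div_iff₀ (by nlinarith)]
      nlinarith)
    (left_mem_Icc.2 hx) (right_mem_Icc.2 hx) hx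
  simp only [LL_zero] at this
  linarith

lemma ent_le {q : ℝ} (h₀ : 0 ≤ q) (h₁ : q ≤ 1 / 2) :
    binEntropy q ≤ q * (log (1 - q) - log q) + 2 * q := by
  have a : 0 < 1 - q := by linarith
  have b := log_le_sub_one_of_pos (inv_pos.2 a)
  have c : (1 - q)⁻¹ - 1 ≤ 2 * q := by
    rw [sub_le_iff_le_add, inv_le_iff_one_le_mul₀ a]
    nlinarith
  unfold binEntropy
  rw [log_inv q]
  rw [log_inv] at b ⊢
  linarith

lemma cc_half {q : ℝ} (h₀ : 0 ≤ q) (h₁ : q ≤ 1 / 2) :
    q ≤ cc q ∧ q * (log (1 - q) - log q) ≤ cc q := by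
  rcases h₀.eq_or_lt with rfl | h₀
  · simp [cc]
  rcases h₁.eq_or_lt with rfl | h₁
  · unfold cc lg
    norm_num
  have e : log (1 - q) - log q = LL (1 - 2 * q) := by
    rw [LL, show 1 + (1 - 2 * q) = 2 * (1 - q) by ring, show 1 - (1 - 2 * q) = 2 * q by ring,
      log_mul (by norm_num) (by linarith), log_mul (by norm_num) h₀.ne']
    ring
  have k := LL_ge (x := 1 - 2 * q) (by linarith) (by linarith)
  have d : 0 < 1 - q - q := by linarith
  unfold cc lg
  rw [if_neg (by linarith), e, ← mul_div_assoc, le_div_iff₀ d, le_div_iff₀ d]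
  have hq : 0 ≤ q * (1 - q) := by nlinarith
  constructor
  · nlinarith [mul_le_mul_of_nonneg_left k hq, mul_pos h₀ d, mul_pos d d]
  · nlinarith [mul_nonneg (mul_pos h₀ h₀).le (show 0 ≤ LL (1 - 2 * q) by linarith)]

lemma cc_wlog {P : ℝ → ℝ → Prop}
    (h : ∀ q, 0 ≤ q → q ≤ 1 / 2 → P (binEntropy q) (cc q)) {p : ℝ} (hp : p ∈ Icc (0 : ℝ) 1) :
    P (binEntropy p) (cc p) := by
  rcases le_total p (1 / 2) with k | k
  · exact h p hp.1 k
  · rw [← binEntropy_one_sub, ← cc_symm]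
    exact h _ (by linarith [hp.2]) (by linarith)

lemma cc_global {p : ℝ} (hp : p ∈ Icc (0 : ℝ) 1) : 0 ≤ cc p ∧ binEntropy p ≤ 3 * cc p :=
  cc_wlog (P := fun h c => 0 ≤ c ∧ h ≤ 3 * c) (fun q h₀ h₁ => by
    obtain ⟨a, b⟩ := cc_half h₀ h₁
    exact ⟨by linarith, by linarith [ent_le h₀ h₁]⟩) hp

lemma cc_small {l : ℝ} (hl : 1 < l) :
    ∃ c₀ : ℝ, 0 < c₀ ∧ ∀ p ∈ Icc (0 : ℝ) 1, cc p < c₀ → binEntropy p ≤ l * cc p := by
  refine ⟨exp (-(2 / (l - 1))) / 2, by positivity, fun p hp => ?_⟩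
  refine cc_wlog (P := fun h c => c < exp (-(2 / (l - 1))) / 2 → h ≤ l * c) (fun q h₀ h₁ h => ?_) hp
  obtain ⟨a, b⟩ := cc_half h₀ h₁
  have c := ent_le h₀ h₁
  rcases h₀.eq_or_lt with rfl | h₀
  · simp [cc]
  have d : log (2 * q) ≤ -(2 / (l - 1)) := by
    rw [log_le_iff_le_exp (by linarith)]
    linarith
  have e : log 2⁻¹ ≤ log (1 - q) := log_le_log (by norm_num) (by linarith)
  rw [log_mul (by norm_num) h₀.ne'] at d
  rw [log_inv] at e
  have f : 2 / (l - 1) ≤ log (1 - q) - log q := by linarith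
  rw [div_le_iff₀ (by linarith)] at f
  nlinarith [mul_le_mul_of_nonneg_left f h₀.le,
    mul_le_mul_of_nonneg_left b (show 0 ≤ l - 1 by linarith)]

lemma be_pair {x y z w : ℝ} (hx : 0 ≤ x) (hy : 0 ≤ y) (hz : 0 ≤ z) (hw : 0 ≤ w) :
    be (x * z) (y * w) + be (x * w) (y * z) =
      (x + y) * (z + w) * Psi (y / (x + y)) (w / (z + w)) := by
  rcases (add_nonneg hx hy).eq_or_lt with h | hs
  · obtain rfl : x = 0 := by linarith
    obtain rfl : y = 0 := by linarith
    simp [be]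
  rcases (add_nonneg hz hw).eq_or_lt with h | ht
  · obtain rfl : z = 0 := by linarith
    obtain rfl : w = 0 := by linarith
    simp [be]
  obtain ⟨p, hp⟩ : ∃ p, p = y / (x + y) := ⟨_, rfl⟩
  obtain ⟨r, hr⟩ : ∃ r, r = w / (z + w) := ⟨_, rfl⟩
  obtain ⟨s, hs'⟩ : ∃ s, s = x + y := ⟨_, rfl⟩
  obtain ⟨t, ht'⟩ : ∃ t, t = z + w := ⟨_, rfl⟩
  have ey : y = s * p := by rw [hp, hs']; field_simp
  have ew : w = t * r := by rw [hr, ht']; field_simp
  have ex : x = s * (1 - p) := by linarith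
  have ez : z = t * (1 - r) := by linarith
  rw [← hp, ← hr, ← hs', ← ht']
  clear hp hr hs' ht'
  subst ex ey ez ew
  unfold be Psi
  have e₁ : s * (1 - p) * (t * (1 - r)) + s * p * (t * r) = s * t * (1 - bconv p r) := by
    unfold bconv; ring
  have e₂ : s * (1 - p) * (t * r) + s * p * (t * (1 - r)) = s * t * bconv p r := by
    unfold bconv; ring
  rw [e₁, e₂]
  simp only [negMulLog_mul, binEntropy_eq_negMulLog_add_negMulLog_one_sub]
  ring

lemma be_nonneg {x y : ℝ} (hx : 0 ≤ x) (hy : 0 ≤ y) : 0 ≤ be x y := by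
  have key : ∀ u v : ℝ, 0 ≤ u → 0 ≤ v → u * log u ≤ u * log (u + v) := by
    intro u v hu hv
    rcases hu.eq_or_lt with rfl | hu
    · simp
    · exact mul_le_mul_of_nonneg_left (log_le_log hu (by linarith)) hu.le
  have a := key x y hx hy
  have b := key y x hy hx
  rw [add_comm y] at b
  unfold be negMulLog
  linarith

lemma Psi_nonneg {p q : ℝ} (hp : p ∈ Icc (0 : ℝ) 1) (hq : q ∈ Icc (0 : ℝ) 1) : 0 ≤ Psi p q := by
  have a : 0 ≤ 1 - p := by linarith [hp.2]
  have b : 0 ≤ 1 - q := by linarith [hq.2]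
  have := be_pair a hp.1 b hq.1
  simp only [sub_add_cancel, div_one, one_mul] at this
  rw [← this]
  exact add_nonneg (be_nonneg (mul_nonneg a b) (mul_nonneg hp.1 hq.1))
    (be_nonneg (mul_nonneg a hq.1) (mul_nonneg hp.1 b))

lemma Psi_diag {a : ℝ} (h₀ : 0 ≤ a) (h₁ : a ≤ 1 / 2) : a / 2 ≤ Psi a a := by
  have b : 0 ≤ 1 - a := by linarith
  have := be_pair b h₀ b h₀
  simp only [sub_add_cancel, div_one, one_mul] at this
  have c := be_nonneg (mul_nonneg b b) (mul_nonneg h₀ h₀)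
  have d : be ((1 - a) * a) (a * (1 - a)) = 2 * log 2 * (a * (1 - a)) := by
    rw [mul_comm (1 - a), be, ← two_mul (a * (1 - a)), negMulLog_mul 2]
    simp only [negMulLog]
    ring
  have e := log_two_gt_d9
  have f : a / 2 ≤ a * (1 - a) := by nlinarith
  nlinarith

lemma ent_pow {b : ℝ} (h₀ : 0 < b) (h₁ : b ≤ 1 / 2) : binEntropy (b ^ 4) ≤ 6 * b ^ 3 := by
  have p : 0 < b ^ 4 := by positivity
  have b3 : 0 < b ^ 3 := by positivity
  have q : b ^ 4 ≤ 1 / 16 := by
    have := pow_le_pow_left₀ h₀.le h₁ 4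
    linarith
  have a := ent_le p.le (by linarith)
  have c : log (1 - b ^ 4) ≤ 0 := log_nonpos (by linarith) (by linarith)
  have d := log_le_sub_one_of_pos (inv_pos.2 h₀)
  rw [log_inv] at d
  rw [log_pow] at a
  have e : b ^ 4 * b⁻¹ = b ^ 3 := by field_simp
  have f : b ^ 4 ≤ b ^ 3 := by nlinarith
  push_cast at a
  nlinarith [mul_le_mul_of_nonneg_left d p.le, mul_nonneg p.le (neg_nonneg.2 c)]

lemma Psi_lower {C : ℝ} (hC : 0 < C) : ∃ δ : ℝ, 0 < δ ∧ δ < log 2 / 2 ∧
    ∀ q ∈ Ico (0 : ℝ) (1 / 2), ∀ r ∈ Ico (0 : ℝ) (1 / 2), binEntropy q ≤ δ → binEntropy r ≤ δ →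
      C * (binEntropy q * binEntropy r) ≤ Psi q r := by
  obtain ⟨b, b0, b1, b2⟩ : ∃ b : ℝ, 0 < b ∧ b ≤ 1 / 4 ∧ 72 * C * b ≤ 1 :=
    ⟨min (1 / 4) (72 * C)⁻¹, by positivity, min_le_left _ _, by
      have := mul_le_mul_of_nonneg_left (min_le_right (1 / 4) (72 * C)⁻¹)
        (show 0 ≤ 72 * C by positivity)
      rwa [mul_inv_cancel₀ (by positivity)] at this⟩
  have p : 0 < b ^ 4 := by positivity
  have q3 : b ^ 3 ≤ 1 / 64 := by
    have := pow_le_pow_left₀ b0.le b1 3
    linarith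
  have q4 : b ^ 4 ≤ 1 / 256 := by
    have := pow_le_pow_left₀ b0.le b1 4
    linarith
  have u := ent_pow b0 (by linarith)
  have v := Psi_diag p.le (by linarith)
  have w : 0 < binEntropy (b ^ 4) := binEntropy_pos p (by linarith)
  have ma : b ^ 4 ∈ Icc (0 : ℝ) 1 := ⟨p.le, by linarith⟩
  have x : C * binEntropy (b ^ 4) ^ 2 ≤ Psi (b ^ 4) (b ^ 4) := by
    have y : binEntropy (b ^ 4) ^ 2 ≤ (6 * b ^ 3) ^ 2 := pow_le_pow_left₀ w.le u 2
    have z : C * (6 * b ^ 3) ^ 2 = 72 * C * b * (b ^ 4 / 2 * b) := by ring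
    have z' : b ^ 4 / 2 * b ≤ b ^ 4 / 2 := by nlinarith
    have z'' : 72 * C * b * (b ^ 4 / 2 * b) ≤ 1 * (b ^ 4 / 2) :=
      mul_le_mul b2 z' (by positivity) zero_le_one
    nlinarith [mul_le_mul_of_nonneg_left y hC.le]
  set a := b ^ 4
  refine ⟨binEntropy a, w, by linarith [log_two_gt_d9], fun q hq r hr kq kr => ?_⟩
  have one : ∀ q ∈ Ico (0 : ℝ) (1 / 2), binEntropy q ≤ binEntropy a → ∀ r ∈ Icc (0 : ℝ) 1,
      binEntropy q / binEntropy a * Psi a r ≤ Psi q r := by
    intro q hq kq r hr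
    have := mgl_sum (Finset.univ : Finset Unit) (fun _ => binEntropy q / binEntropy a)
      (fun _ => a) (l := 1) hq hr
      (fun _ => div_nonneg (binEntropy_nonneg hq.1 (by linarith [hq.2])) w.le) (fun _ => ma)
      (by simpa using (div_le_one w).2 kq) le_rfl (by simp [div_mul_cancel₀ _ w.ne'])
    simpa using this
  have s₁ := one q hq kq r ⟨hr.1, by linarith [hr.2]⟩
  have s₂ := one r hr kr a ma
  rw [Psi_comm r] at s₂
  have nq := div_nonneg (binEntropy_nonneg hq.1 (by linarith [hq.2])) w.le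
  have nr := div_nonneg (binEntropy_nonneg hr.1 (by linarith [hr.2])) w.le
  calc _ = binEntropy q / binEntropy a * (binEntropy r / binEntropy a *
        (C * binEntropy a ^ 2)) := by field_simp
    _ ≤ binEntropy q / binEntropy a * (binEntropy r / binEntropy a * Psi a a) := by gcongr
    _ ≤ binEntropy q / binEntropy a * Psi a r := by gcongr
    _ ≤ _ := s₁

lemma high_mass {ι : Type} [Fintype ι] {m p : ι → ℝ} {c₀ l I : ℝ} (c0 : 0 < c₀)
    (H : ∀ p ∈ Icc (0 : ℝ) 1, cc p < c₀ → binEntropy p ≤ l * cc p) (hl : 1 ≤ l)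
    (hm : ∀ i, 0 ≤ m i) (hp : ∀ i, p i ∈ Icc (0 : ℝ) 1) (hI : ∑ i, m i * cc (p i) ≤ I) :
    ∑ i with cc (p i) < c₀, m i * binEntropy (p i) ≤ l * I ∧
      ∑ i with ¬ cc (p i) < c₀, m i ≤ I / c₀ ∧ ∑ i, m i * binEntropy (p i) ≤ 3 * I := by
  have nn : ∀ i, 0 ≤ m i * cc (p i) := fun i => mul_nonneg (hm i) (cc_global (hp i)).1
  have sub : ∀ s : Finset ι, ∑ i ∈ s, m i * cc (p i) ≤ I := fun s =>
    (Finset.sum_le_sum_of_subset_of_nonneg (Finset.subset_univ s) fun i _ _ => nn i).trans hI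
  refine ⟨?_, ?_, ?_⟩
  · refine le_trans ?_ (mul_le_mul_of_nonneg_left (sub (Finset.univ.filter fun i => cc (p i) < c₀))
      (by linarith))
    rw [Finset.mul_sum]
    refine Finset.sum_le_sum fun i hi => ?_
    have := mul_le_mul_of_nonneg_left (H _ (hp i) (Finset.mem_filter.1 hi).2) (hm i)
    linarith
  · rw [le_div_iff₀ c0, Finset.sum_mul]
    refine le_trans (Finset.sum_le_sum fun i hi => ?_)
      (sub (Finset.univ.filter fun i => ¬ cc (p i) < c₀))
    exact mul_le_mul_of_nonneg_left (not_lt.1 (Finset.mem_filter.1 hi).2) (hm i)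
  · refine le_trans ?_ (mul_le_mul_of_nonneg_left hI (by norm_num))
    rw [Finset.mul_sum]
    refine Finset.sum_le_sum fun i _ => ?_
    have := mul_le_mul_of_nonneg_left (cc_global (hp i)).2 (hm i)
    linarith

lemma scalar_core {ε : ℝ} (hε : 0 < ε) : ∃ δ : ℝ, 0 < δ ∧ δ < log 2 / 2 ∧
    ∀ (ι κ : Type) [Fintype ι] [Fintype κ] (m p : ι → ℝ) (m' p' : κ → ℝ) (q r : ℝ),
      (∀ i, 0 ≤ m i) → (∀ i, p i ∈ Icc (0 : ℝ) 1) → (∀ i, 0 ≤ m' i) →
      (∀ i, p' i ∈ Icc (0 : ℝ) 1) → ∑ i, m i ≤ 1 → ∑ i, m' i ≤ 1 →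
      q ∈ Icc (0 : ℝ) (1 / 2) → r ∈ Icc (0 : ℝ) (1 / 2) → binEntropy q ≤ δ → binEntropy r ≤ δ →
      ∑ i, m i * cc (p i) ≤ binEntropy q → ∑ i, m' i * cc (p' i) ≤ binEntropy r →
      ∑ i, ∑ k, m i * m' k * Psi (p i) (p' k) ≤ (1 + ε) * Psi q r := by
  obtain ⟨l, l1, l2⟩ : ∃ l : ℝ, 1 < l ∧ l * l ≤ 1 + ε / 2 := by
    refine ⟨1 + min ε 1 / 6, by have : 0 < min ε 1 := by positivity
                                linarith, ?_⟩
    have a := min_le_left ε 1
    have b := min_le_right ε 1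
    have c : 0 < min ε 1 := by positivity
    nlinarith
  obtain ⟨c₀, c0, H⟩ := cc_small l1
  obtain ⟨δ, δ0, δ1, K⟩ := Psi_lower (C := 12 / (c₀ * ε)) (by positivity)
  refine ⟨δ, δ0, δ1, fun ι κ _ _ m p m' p' q r hm hp hm' hp' s s' hq hr kq kr cq cr => ?_⟩
  have half : ∀ q ∈ Icc (0 : ℝ) (1 / 2), binEntropy q ≤ δ → q ∈ Ico (0 : ℝ) (1 / 2) := by
    intro q hq kq
    refine ⟨hq.1, hq.2.lt_of_ne ?_⟩
    rintro rfl
    rw [one_div, binEntropy_two_inv] at kq
    linarith [log_two_gt_d9]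
  have hq' := half q hq kq
  have hr' := half r hr kr
  have mq : q ∈ Icc (0 : ℝ) 1 := ⟨hq.1, by linarith [hq.2]⟩
  have mr : r ∈ Icc (0 : ℝ) 1 := ⟨hr.1, by linarith [hr.2]⟩
  obtain ⟨a₁, a₂, a₃⟩ := high_mass c0 H l1.le hm hp cq
  obtain ⟨b₁, b₂, b₃⟩ := high_mass c0 H l1.le hm' hp' cr
  have sub : ∀ t : Finset ι, ∑ i ∈ t, m i ≤ 1 := fun t =>
    (Finset.sum_le_sum_of_subset_of_nonneg (Finset.subset_univ t) fun i _ _ => hm i).trans s
  have sub' : ∀ t : Finset κ, ∑ i ∈ t, m' i ≤ 1 := fun t =>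
    (Finset.sum_le_sum_of_subset_of_nonneg (Finset.subset_univ t) fun i _ _ => hm' i).trans s'
  have nq := binEntropy_nonneg mq.1 mq.2
  have nr := binEntropy_nonneg mr.1 mr.2
  have inner : ∀ i, ∑ k, m' k * Psi (p i) (p' k) ≤
      l * Psi (p i) r + binEntropy r / c₀ * binEntropy (p i) := by
    intro i
    rw [← Finset.sum_filter_add_sum_filter_not Finset.univ fun k => cc (p' k) < c₀]
    refine add_le_add ?_ ?_
    · simp only [Psi_comm (p i)]
      exact mgl_sum _ m' p' hr' (hp i) hm' hp' (sub' _) l1.le b₁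
    · refine le_trans ?_ (mul_le_mul_of_nonneg_right b₂ (binEntropy_nonneg (hp i).1 (hp i).2))
      rw [Finset.sum_mul]
      exact Finset.sum_le_sum fun k _ => mul_le_mul_of_nonneg_left (Psi_le (hp i) (hp' k)) (hm' k)
  have low := mgl_sum (Finset.univ.filter fun i => cc (p i) < c₀) m p hq' mr hm hp (sub _) l1.le a₁
  have step : ∑ i, ∑ k, m i * m' k * Psi (p i) (p' k) ≤
      (l * (l * Psi q r) + binEntropy r / c₀ * (3 * binEntropy q)) +
        binEntropy q / c₀ * (3 * binEntropy r) := by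
    rw [← Finset.sum_filter_add_sum_filter_not Finset.univ fun i => cc (p i) < c₀]
    refine add_le_add ?_ ?_
    · calc _ ≤ ∑ i with cc (p i) < c₀, (l * (m i * Psi (p i) r) +
            binEntropy r / c₀ * (m i * binEntropy (p i))) := Finset.sum_le_sum fun i _ => by
            have := mul_le_mul_of_nonneg_left (inner i) (hm i)
            simp only [mul_assoc, ← Finset.mul_sum]
            linarith
        _ ≤ _ := by
            rw [Finset.sum_add_distrib, ← Finset.mul_sum, ← Finset.mul_sum]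
            refine add_le_add (mul_le_mul_of_nonneg_left low (by linarith))
              (mul_le_mul_of_nonneg_left (le_trans ?_ a₃) (by positivity))
            exact Finset.sum_le_sum_of_subset_of_nonneg (Finset.subset_univ _) fun i _ _ =>
              mul_nonneg (hm i) (binEntropy_nonneg (hp i).1 (hp i).2)
    · refine le_trans ?_ (mul_le_mul_of_nonneg_right a₂ (by positivity))
      rw [Finset.sum_mul]
      refine Finset.sum_le_sum fun i _ => ?_
      simp only [mul_assoc, ← Finset.mul_sum]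
      refine mul_le_mul_of_nonneg_left (le_trans (Finset.sum_le_sum fun k _ => ?_) b₃) (hm i)
      rw [Psi_comm]
      exact mul_le_mul_of_nonneg_left (Psi_le (hp' k) (hp i)) (hm' k)
  have k := mul_le_mul_of_nonneg_left (K q hq' r hr' kq kr) (show 0 ≤ ε / 2 by positivity)
  have e : ε / 2 * (12 / (c₀ * ε) * (binEntropy q * binEntropy r)) =
      binEntropy r / c₀ * (3 * binEntropy q) + binEntropy q / c₀ * (3 * binEntropy r) := by
    field_simp
    ring
  have := mul_le_mul_of_nonneg_right l2 (Psi_nonneg mq mr)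
  nlinarith

end Pool.Agent.MP_560646_mp

end

section

namespace Pool.Agent.MP_560646_mp

open Matrix Real Set Filter Topology
open scoped ComplexOrder MatrixOrder

variable {n m : Type} [Fintype n] [DecidableEq n] [Fintype m] [DecidableEq m]

/-- A function on the half line with given derivative and limit zero. -/
structure Ray (f f' : ℝ → ℝ) : Prop where
  cont : ContinuousOn f (Ici 0)
  der : ∀ t, 0 < t → HasDerivAt f (f' t) t
  lim : Tendsto f atTop (𝓝 0)

lemma Ray.nonneg {f f' : ℝ → ℝ} (h : Ray f f') (hn : ∀ t, 0 < t → f' t ≤ 0) : 0 ≤ f 0 := by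
  have a : AntitoneOn f (Ici 0) := antitoneOn_of_hasDerivWithinAt_nonpos (convex_Ici 0) h.cont
    (fun t ht => (h.der t (by simpa using ht)).hasDerivWithinAt) fun t ht => hn t (by simpa using ht)
  exact le_of_tendsto h.lim ((eventually_ge_atTop 0).mono fun t ht => a (mem_Ici.2 le_rfl) ht ht)

lemma Ray.add {f f' g g' : ℝ → ℝ} (h : Ray f f') (k : Ray g g') :
    Ray (fun t => f t + g t) (fun t => f' t + g' t) :=
  ⟨h.cont.add k.cont, fun t ht => (h.der t ht).add (k.der t ht), by simpa using h.lim.add k.lim⟩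

lemma Ray.sub {f f' g g' : ℝ → ℝ} (h : Ray f f') (k : Ray g g') :
    Ray (fun t => f t - g t) (fun t => f' t - g' t) :=
  ⟨h.cont.sub k.cont, fun t ht => (h.der t ht).sub (k.der t ht), by simpa using h.lim.sub k.lim⟩

lemma Ray.mul {f f' : ℝ → ℝ} (c : ℝ) (h : Ray f f') :
    Ray (fun t => c * f t) (fun t => c * f' t) :=
  ⟨continuousOn_const.mul h.cont, fun t ht => (h.der t ht).const_mul c,
    by simpa using h.lim.const_mul c⟩

lemma Ray.sum {ι : Type} [Fintype ι] {f f' : ι → ℝ → ℝ} (h : ∀ i, Ray (f i) (f' i)) :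
    Ray (fun t => ∑ i, f i t) (fun t => ∑ i, f' i t) :=
  ⟨continuousOn_finsetSum _ fun i _ => (h i).cont,
    fun t ht => HasDerivAt.fun_sum fun i _ => (h i).der t ht,
    by simpa using tendsto_finsetSum Finset.univ fun i _ => (h i).lim⟩

lemma Ray.congr {f f' g g' : ℝ → ℝ} (h : Ray f f') (e : f = g) (e' : ∀ t, 0 < t → f' t = g' t) :
    Ray g g' := e ▸ ⟨h.cont, fun t ht => e' t ht ▸ h.der t ht, h.lim⟩

lemma ray_zero : Ray (fun _ => 0) (fun _ => 0) :=
  ⟨continuousOn_const, fun t _ => hasDerivAt_const t 0, tendsto_const_nhds⟩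

lemma ray_log {x y : ℝ} (hx : 0 < x) (hy : 0 < y) :
    Ray (fun t => log (x + t) - log (y + t)) (fun t => (x + t)⁻¹ - (y + t)⁻¹) := by
  have c : ∀ z : ℝ, 0 < z → ContinuousOn (fun t => log (z + t)) (Ici 0) := fun z hz =>
    ContinuousOn.log (by fun_prop) fun t (ht : 0 ≤ t) => by positivity
  have d : ∀ z : ℝ, 0 < z → ∀ t, 0 < t → HasDerivAt (fun t => log (z + t)) (z + t)⁻¹ t :=
    fun z hz t ht => by
      simpa using ((hasDerivAt_id t).const_add z).log (show z + t ≠ 0 by positivity)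
  refine ⟨(c x hx).sub (c y hy), fun t ht => (d x hx t ht).sub (d y hy t ht), ?_⟩
  have a := (tendsto_log_comp_add_sub_log x).sub (tendsto_log_comp_add_sub_log y)
  simp only [sub_sub_sub_cancel_right, sub_self] at a
  simpa only [add_comm] using a

lemma ray_inv {x : ℝ} (hx : 0 < x) : Ray (fun t => (x + t)⁻¹) (fun t => -((x + t)⁻¹ * (x + t)⁻¹)) := by
  refine ⟨ContinuousOn.inv₀ (by fun_prop) fun t (ht : 0 ≤ t) => by positivity, fun t ht => ?_,
    tendsto_inv_atTop_zero.comp (tendsto_atTop_add_const_left _ x tendsto_id)⟩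
  refine (((hasDerivAt_id t).const_add x).inv (show x + t ≠ 0 by positivity)).congr_deriv ?_
  simp only [id]
  field_simp

lemma ray_lg {x y : ℝ} (hx : 0 < x) (hy : 0 < y) :
    Ray (fun t => lg (x + t) (y + t)) (fun t => -((x + t)⁻¹ * (y + t)⁻¹)) := by
  by_cases h : x = y
  · subst h
    simpa [lg] using ray_inv hx
  · have h' : x - y ≠ 0 := sub_ne_zero.2 h
    refine ((ray_log hx hy).mul (x - y)⁻¹).congr ?_ fun t ht => ?_
    · ext t
      rw [lg, if_neg (by simpa using h), add_sub_add_right_eq_sub, div_eq_inv_mul]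
    · field_simp
      ring

/-- The regularised function `x log x`. -/
noncomputable def uu (x t : ℝ) : ℝ := x * (log (x + t) - log (1 + t))

lemma uu_zero (x : ℝ) : uu x 0 = -negMulLog x := by simp [uu, negMulLog]

lemma ray_uu {x : ℝ} (hx : 0 ≤ x) :
    Ray (uu x) (fun t => 1 - t * (x + t)⁻¹ - x * (1 + t)⁻¹) := by
  rcases hx.eq_or_lt with rfl | hx
  · refine ray_zero.congr (by ext t; simp [uu]) fun t ht => ?_
    simp [ht.ne']
  · refine ((ray_log hx one_pos).mul x).congr rfl fun t ht => ?_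
    field_simp
    ring

/-- The regularised second order kernel. -/
noncomputable def gam (x y t : ℝ) : ℝ :=
  x * y * (t * ((x + t)⁻¹ * (y + t)⁻¹) + lg (x + t) (y + t))

lemma gam_zero (x y : ℝ) : gam x y 0 = x * y * lg x y := by simp [gam]

lemma ray_gam {x y : ℝ} (hx : 0 ≤ x) (hy : 0 ≤ y) : Ray (gam x y) (fun t =>
    -(t * (x * y * ((x + t)⁻¹ * (x + t)⁻¹ * (y + t)⁻¹ + (y + t)⁻¹ * (y + t)⁻¹ * (x + t)⁻¹)))) := by
  rcases hx.eq_or_lt with rfl | hx
  · exact ray_zero.congr (by ext t; simp [gam]) fun t ht => by simp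
  rcases hy.eq_or_lt with rfl | hy
  · exact ray_zero.congr (by ext t; simp [gam]) fun t ht => by simp
  have a : Ray (fun t => t * ((x + t)⁻¹ * (y + t)⁻¹)) (fun t => 1 * ((x + t)⁻¹ * (y + t)⁻¹) +
      t * (-((x + t)⁻¹ * (x + t)⁻¹) * (y + t)⁻¹ + (x + t)⁻¹ * -((y + t)⁻¹ * (y + t)⁻¹))) := by
    refine ⟨continuousOn_id.mul ((ray_inv hx).cont.mul (ray_inv hy).cont), fun t ht =>
      (hasDerivAt_id t).mul (((ray_inv hx).der t ht).mul ((ray_inv hy).der t ht)), ?_⟩
    refine squeeze_zero' ((eventually_ge_atTop 0).mono fun t ht => by positivity)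
      ((eventually_ge_atTop 0).mono fun t ht => ?_) (ray_inv hy).lim
    rw [← mul_assoc]
    refine mul_le_of_le_one_left (by positivity) ?_
    rw [← div_eq_mul_inv, div_le_one (by positivity)]
    linarith
  exact ((a.add (ray_lg hx hy)).mul (x * y)).congr rfl fun t ht => by ring

lemma rt_ud (U : unitary (Matrix n n ℂ)) (d : n → ℝ) : rt (ud U d) = ∑ i, d i := by
  simp only [← sum_dg U, dg_self]

lemma vn_ud (U : unitary (Matrix n n ℂ)) (d : n → ℝ) : vn (ud U d) = ∑ i, negMulLog (d i) := by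
  rw [← rt_ud U]
  unfold vn ud
  rw [cfc_unitary_diag]
  rfl

lemma ud_add (U : unitary (Matrix n n ℂ)) (d e : n → ℝ) :
    ud U d + ud U e = ud U (fun i => d i + e i) := by
  unfold ud
  rw [← add_mul, ← mul_add, diagonal_add]
  simp only [Complex.ofReal_add]

lemma ud_herm (U : unitary (Matrix n n ℂ)) (d : n → ℝ) : (ud U d).IsHermitian := by
  have hd : (diagonal (fun i => (d i : ℂ)) : Matrix n n ℂ).IsHermitian := by
    rw [IsHermitian, diagonal_conjTranspose]
    congr 1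
    ext i
    simp
  exact isHermitian_mul_mul_conjTranspose _ hd

lemma ud_res (U : unitary (Matrix n n ℂ)) {d : n → ℝ} (hd : ∀ i, 0 ≤ d i) {t : ℝ} (ht : 0 < t) :
    (ud U d + t • 1) * ud U (fun i => (d i + t)⁻¹) = 1 ∧
      ud U (fun i => (d i + t)⁻¹) * (ud U d + t • 1) = 1 := by
  have h : ∀ i, d i + t ≠ 0 := fun i => by have := hd i; positivity
  rw [← ud_one U, ud_smul, ud_add, ud_mul, ud_mul]
  simp only [mul_one, mul_inv_cancel₀ (h _), inv_mul_cancel₀ (h _), and_self]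

omit [Fintype n] [DecidableEq n] [DecidableEq m] in
lemma row_normSq (M : Matrix n m ℂ) (k : n) :
    ((M * Mᴴ) k k).re = ∑ l, Complex.normSq (M k l) := by
  rw [Matrix.mul_apply, Complex.re_sum]
  refine Finset.sum_congr rfl fun l _ => ?_
  rw [conjTranspose_apply, Complex.star_def, Complex.mul_conj, Complex.ofReal_re]

omit [Fintype m] [DecidableEq n] [DecidableEq m] in
lemma col_normSq (M : Matrix n m ℂ) (l : m) :
    ((Mᴴ * M) l l).re = ∑ k, Complex.normSq (M k l) := by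
  have := row_normSq Mᴴ l
  rw [conjTranspose_conjTranspose] at this
  rw [this]
  simp

/-- A matrix written between two orthonormal bases. -/
noncomputable def tw (U : unitary (Matrix n n ℂ)) (V : unitary (Matrix m m ℂ))
    (Y : Matrix n m ℂ) : Matrix n m ℂ :=
  star (U : Matrix n n ℂ) * Y * (V : Matrix m m ℂ)

lemma tw_star (U : unitary (Matrix n n ℂ)) (V : unitary (Matrix m m ℂ)) (Y : Matrix n m ℂ) :
    (tw U V Y)ᴴ = tw V U Yᴴ := by
  simp only [tw, conjTranspose_mul, star_eq_conjTranspose, conjTranspose_conjTranspose,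
    Matrix.mul_assoc]

lemma tw_mul {k : Type} [Fintype k] [DecidableEq k] (U : unitary (Matrix n n ℂ))
    (V : unitary (Matrix m m ℂ)) (W : unitary (Matrix k k ℂ)) (X : Matrix n m ℂ)
    (Y : Matrix m k ℂ) : tw U V X * tw V W Y = tw U W (X * Y) := by
  simp only [tw, Matrix.mul_assoc]
  rw [← Matrix.mul_assoc (V : Matrix m m ℂ), Unitary.mul_star_self_of_mem V.2, Matrix.one_mul]

lemma tw_ud (U : unitary (Matrix n n ℂ)) (d : n → ℝ) :
    tw U U (ud U d) = diagonal fun i => (d i : ℂ) := by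
  simp only [tw, ud, mul_assoc]
  rw [← mul_assoc, Unitary.star_mul_self_of_mem U.2, one_mul, mul_one]

/-- Overlap weights of a matrix between two orthonormal bases. -/
noncomputable def ov (U V : unitary (Matrix n n ℂ)) (Y : Matrix n n ℂ) (k l : n) : ℝ :=
  Complex.normSq (tw U V Y k l)

lemma ov_row (U V : unitary (Matrix n n ℂ)) {Y : Matrix n n ℂ} (hY : Y.IsHermitian) (k : n) :
    ∑ l, ov U V Y k l = dg U (Y * Y) k := by
  unfold ov
  rw [← row_normSq, tw_star, tw_mul, hY.eq]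
  rfl

lemma ov_symm (U V : unitary (Matrix n n ℂ)) {Y : Matrix n n ℂ} (hY : Y.IsHermitian) (k l : n) :
    ov U V Y k l = ov V U Y l k := by
  unfold ov
  rw [← Complex.normSq_conj, ← Complex.star_def, ← conjTranspose_apply, tw_star, hY.eq]

lemma res_upper (U V W : unitary (Matrix n n ℂ)) {a b c : n → ℝ} (ha : ∀ i, 0 ≤ a i)
    (hb : ∀ i, 0 ≤ b i) (hc : ∀ i, 0 ≤ c i) (h : ud U a + ud V b = ud W c) {t : ℝ} (ht : 0 < t) :
    ∑ i, (c i + t)⁻¹ ≤ ∑ k, ∑ l, ov U V 1 k l * (a k + b l + t)⁻¹ := by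
  set Y := ud W (fun i => (c i + t)⁻¹) with hY
  have hYh : Y.IsHermitian := ud_herm _ _
  have e₀ : rt Y = ∑ i, (c i + t)⁻¹ := rt_ud _ _
  have e₁ : rt Y = ∑ k, ∑ l, (a k + b l + t) * ov U V Y k l := by
    have x : (ud U a + ud V b + t • 1) * (Y * Y) = Y := by
      rw [h, ← mul_assoc, (ud_res W hc ht).1, one_mul]
    have y := congrArg rt x
    rw [add_mul, add_mul, rt_add, rt_add, smul_mul_assoc, one_mul, rt_smul, rt_ud_mul, rt_ud_mul,
      ← sum_dg U] at y
    simp only [add_mul, Finset.sum_add_distrib, ← Finset.mul_sum, ov_row U V hYh]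
    rw [Finset.sum_comm]
    simp only [ov_symm U V hYh, ← Finset.mul_sum, ov_row V U hYh]
    exact y.symm
  have e₂ : rt Y = ∑ k, ∑ l, (tw U V Y k l * star (tw U V 1 k l)).re := by
    rw [← sum_dg U]
    refine Finset.sum_congr rfl fun k _ => ?_
    rw [← Complex.re_sum]
    simp only [← conjTranspose_apply]
    rw [← Matrix.mul_apply, tw_star, tw_mul, conjTranspose_one, mul_one]
    rfl
  have key : 2 * rt Y ≤ ∑ k, ∑ l, ov U V 1 k l * (a k + b l + t)⁻¹ + rt Y := by
    nth_rewrite 2 [e₁]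
    rw [e₂, Finset.mul_sum, ← Finset.sum_add_distrib]
    refine Finset.sum_le_sum fun k _ => ?_
    rw [Finset.mul_sum, ← Finset.sum_add_distrib]
    refine Finset.sum_le_sum fun l _ => ?_
    unfold ov
    generalize tw U V Y k l = y
    generalize tw U V 1 k l = w
    have p : 0 < a k + b l + t := by have := ha k; have := hb l; positivity
    generalize a k + b l + t = s at p
    rw [← sub_nonneg]
    have : Complex.normSq w * s⁻¹ + s * Complex.normSq y - 2 * (y * star w).re =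
        ((w.re - s * y.re) ^ 2 + (w.im - s * y.im) ^ 2) * s⁻¹ := by
      simp only [Complex.normSq_apply, Complex.mul_re, Complex.star_def, Complex.conj_re,
        Complex.conj_im]
      field_simp
      ring
    rw [this]
    positivity
  linarith

lemma ov_one_row (U V : unitary (Matrix n n ℂ)) (k : n) : ∑ l, ov U V 1 k l = 1 := by
  rw [ov_row U V isHermitian_one, mul_one, dg_one]

lemma ov_one_col (U V : unitary (Matrix n n ℂ)) (l : n) : ∑ k, ov U V 1 k l = 1 := by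
  simp only [ov_symm U V isHermitian_one, ov_one_row]

/-- A Golden-Thompson type bound for the entropy of a sum. -/
lemma vn_sum_ge (U V : unitary (Matrix n n ℂ)) {a b : n → ℝ} (ha : ∀ i, 0 ≤ a i)
    (hb : ∀ i, 0 ≤ b i) :
    ∑ k, ∑ l, ov U V 1 k l * negMulLog (a k + b l) ≤ vn (ud U a + ud V b) := by
  obtain ⟨W, c, hc, h⟩ := exists_ud ((ud_psd U ha).add (ud_psd V hb))
  have R := (Ray.sum fun k => Ray.sum fun l =>
    (ray_uu (add_nonneg (ha k) (hb l))).mul (ov U V 1 k l)).sub (Ray.sum fun i => ray_uu (hc i))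
  have tr : ∑ i, c i = ∑ k, ∑ l, ov U V 1 k l * (a k + b l) := by
    rw [← rt_ud W, ← h, rt_add, rt_ud, rt_ud]
    simp only [mul_add, Finset.sum_add_distrib, ← Finset.sum_mul, ov_one_row, one_mul]
    rw [Finset.sum_comm]
    simp only [← Finset.sum_mul, ov_one_col, one_mul]
  have := R.nonneg fun t ht => by
    have x := mul_le_mul_of_nonneg_left (res_upper U V W ha hb hc h ht) ht.le
    have y : ∑ k, ∑ l, ov U V 1 k l * (1 - t * (a k + b l + t)⁻¹ - (a k + b l) * (1 + t)⁻¹) =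
        ∑ k, ∑ l, ov U V 1 k l - t * ∑ k, ∑ l, ov U V 1 k l * (a k + b l + t)⁻¹ -
          (∑ k, ∑ l, ov U V 1 k l * (a k + b l)) * (1 + t)⁻¹ := by
      simp only [Finset.mul_sum, Finset.sum_mul, ← Finset.sum_sub_distrib]
      exact Finset.sum_congr rfl fun k _ => Finset.sum_congr rfl fun l _ => by ring
    rw [y, ← tr]
    simp only [ov_one_row, Finset.sum_sub_distrib, ← Finset.mul_sum, ← Finset.sum_mul]
    linarith
  rw [h, vn_ud]
  simp only [uu_zero, mul_neg, Finset.sum_neg_distrib] at this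
  linarith

lemma res_var (W : unitary (Matrix n n ℂ)) {b : n → ℝ} (hb : ∀ i, 0 ≤ b i) {t : ℝ} (ht : 0 < t)
    {Y : Matrix n n ℂ} (hY : Y.IsHermitian) :
    2 * rt Y - rt (Y * (ud W b + t • 1) * Y) ≤ ∑ i, (b i + t)⁻¹ := by
  obtain ⟨r₁, r₂⟩ := ud_res W hb ht
  rw [← rt_ud W]
  set G := ud W (fun i => (b i + t)⁻¹)
  have hG : G.IsHermitian := ud_herm _ _
  have hT : (ud W b + t • 1).PosSemidef := (ud_psd W hb).add (PosSemidef.one.smul ht.le)
  set T := ud W b + t • 1
  have := rt_nonneg (psd_sandwich (hY.sub hG) hT)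
  have e : (Y - G) * T * (Y - G) = Y * T * Y - Y - Y + G := by
    simp only [sub_mul, mul_sub, r₂, one_mul, mul_assoc, r₁, mul_one]
    abel
  rw [e, rt_add, rt_sub, rt_sub] at this
  linarith

lemma rt_ud_two (V : unitary (Matrix n n ℂ)) (r r' : n → ℝ) {D : Matrix n n ℂ}
    (hD : D.IsHermitian) :
    rt (ud V r * (D * ud V r' * D)) = ∑ i, ∑ j, ov V V D i j * (r i * r' j) := by
  rw [rt_ud_mul]
  refine Finset.sum_congr rfl fun i _ => ?_
  have : dg V (D * ud V r' * D) i = ∑ j, ov V V D i j * r' j := by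
    change (tw V V (D * ud V r' * D) i i).re = _
    have e : tw V V D = (tw V V D)ᴴ := by rw [tw_star, hD.eq]
    rw [← tw_mul V V V, ← tw_mul V V V, tw_ud]
    nth_rewrite 2 [e]
    rw [Matrix.mul_apply, Complex.re_sum]
    refine Finset.sum_congr rfl fun k _ => ?_
    rw [mul_diagonal, conjTranspose_apply, mul_right_comm, Complex.star_def, Complex.mul_conj,
      ← Complex.ofReal_mul, Complex.ofReal_re, ov]
  rw [this, Finset.mul_sum]
  exact Finset.sum_congr rfl fun j _ => by ring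

lemma res_lower (V W W' : unitary (Matrix n n ℂ)) {s b b' : n → ℝ} (hs : ∀ i, 0 ≤ s i)
    (hb : ∀ i, 0 ≤ b i) (hb' : ∀ i, 0 ≤ b' i) {D : Matrix n n ℂ} (hD : D.IsHermitian)
    (h : ud V s + D = ud W b) (h' : ud V s - D = ud W' b') {t : ℝ} (ht : 0 < t) :
    2 * ∑ i, (s i + t)⁻¹ + 2 * ∑ i, ∑ j, ov V V D i j * ((s i + t)⁻¹ * (s i + t)⁻¹ * (s j + t)⁻¹) ≤
      ∑ i, (b i + t)⁻¹ + ∑ i, (b' i + t)⁻¹ := by
  obtain ⟨r₁, r₂⟩ := ud_res V hs ht
  rw [← rt_ud V, ← rt_ud_two V _ _ hD, ← ud_mul]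
  set R := ud V (fun i => (s i + t)⁻¹)
  have hR : R.IsHermitian := ud_herm _ _
  have hX : (R * D * R).IsHermitian := by
    have := isHermitian_mul_mul_conjTranspose R hD
    rwa [hR.eq] at this
  have a := res_var W hb ht (hR.sub hX)
  have a' := res_var W' hb' ht (hR.add hX)
  rw [← h, add_right_comm] at a
  rw [← h', sub_add_eq_add_sub] at a'
  set T := ud V s + t • 1
  have r₃ : ∀ X : Matrix n n ℂ, T * (R * X) = X := fun X => by rw [← mul_assoc, r₁, one_mul]
  have c : rt (R * R * (D * R * D)) = rt (R * (D * (R * (D * R)))) := by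
    rw [mul_assoc R R, rt_comm]
    simp only [mul_assoc]
  simp only [sub_mul, mul_sub, add_mul, mul_add, mul_assoc, r₁, r₃, mul_one, rt_add, rt_sub] at a a'
  linarith

/-- The second order lower bound. -/
lemma vn_second (V W W' : unitary (Matrix n n ℂ)) {s b b' : n → ℝ} (hs : ∀ i, 0 ≤ s i)
    (hb : ∀ i, 0 ≤ b i) (hb' : ∀ i, 0 ≤ b' i) {D : Matrix n n ℂ} (hD : D.IsHermitian)
    (h : ud V s + D = ud W b) (h' : ud V s - D = ud W' b') {w : n → n → ℝ}
    (hw : ∀ i j, ov V V D i j = w i j * (s i * s j)) (hsym : ∀ i j, w i j = w j i) :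
    ∑ i, ∑ j, w i j * (s i * s j * lg (s i) (s j)) ≤
      2 * ∑ i, negMulLog (s i) - ∑ i, negMulLog (b i) - ∑ i, negMulLog (b' i) := by
  have R := (((Ray.sum fun i => ray_uu (hb i)).add (Ray.sum fun i => ray_uu (hb' i))).sub
    ((Ray.sum fun i => ray_uu (hs i)).mul 2)).sub
    (Ray.sum fun i => Ray.sum fun j => (ray_gam (hs i) (hs j)).mul (w i j))
  have tr : ∑ i, b i + ∑ i, b' i = 2 * ∑ i, s i := by
    rw [← rt_ud W, ← rt_ud W', ← rt_ud V, ← h, ← h', rt_add, rt_sub]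
    ring
  have := R.nonneg fun t ht => by
    have x := mul_le_mul_of_nonneg_left (res_lower V W W' hs hb hb' hD h h' ht) ht.le
    have y : ∑ i, ∑ j, w i j * -(t * (s i * s j * ((s i + t)⁻¹ * (s i + t)⁻¹ * (s j + t)⁻¹ +
        (s j + t)⁻¹ * (s j + t)⁻¹ * (s i + t)⁻¹))) =
        -(t * (2 * ∑ i, ∑ j, ov V V D i j * ((s i + t)⁻¹ * (s i + t)⁻¹ * (s j + t)⁻¹))) := by
      rw [two_mul]
      nth_rewrite 3 [Finset.sum_comm]
      simp only [Finset.mul_sum, ← Finset.sum_add_distrib, ← Finset.sum_neg_distrib]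
      refine Finset.sum_congr rfl fun i _ => Finset.sum_congr rfl fun j _ => ?_
      rw [hw, hw, hsym j i]
      ring
    rw [y]
    simp only [Finset.sum_sub_distrib, ← Finset.mul_sum, ← Finset.sum_mul]
    have z : (∑ i, b i) * (1 + t)⁻¹ + (∑ i, b' i) * (1 + t)⁻¹ = 2 * ((∑ i, s i) * (1 + t)⁻¹) := by
      rw [← add_mul, tr, mul_assoc]
    linarith
  simp only [uu_zero, gam_zero, Finset.sum_neg_distrib] at this
  linarith

end Pool.Agent.MP_560646_mp

end

section

namespace Pool.Agent.MP_560646_mp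

open Matrix Real Kronecker
open scoped ComplexOrder MatrixOrder

variable {n m : Type} [Fintype n] [DecidableEq n] [Fintype m] [DecidableEq m]

lemma vn_comm (M : Matrix m n ℂ) : vn (M * Mᴴ) = vn (Mᴴ * M) := by
  obtain ⟨U, a, -, ha⟩ := exists_ud (posSemidef_self_mul_conjTranspose M)
  obtain ⟨V, s, -, hs⟩ := exists_ud (posSemidef_conjTranspose_mul_self M)
  have r : ∀ k, a k = ∑ l, Complex.normSq (tw U V M k l) := fun k => by
    rw [← row_normSq, tw_star, tw_mul, ha, tw_ud, diagonal_apply_eq, Complex.ofReal_re]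
  have c : ∀ l, s l = ∑ k, Complex.normSq (tw U V M k l) := fun l => by
    rw [← col_normSq, tw_star, tw_mul, hs, tw_ud, diagonal_apply_eq, Complex.ofReal_re]
  have i : diagonal (fun k => (a k : ℂ)) * tw U V M = tw U V M * diagonal fun l => (s l : ℂ) := by
    rw [← tw_ud U, ← tw_ud V, tw_mul, tw_mul, ← ha, ← hs, Matrix.mul_assoc]
  have j : ∀ k l, Complex.normSq (tw U V M k l) * log (a k) =
      Complex.normSq (tw U V M k l) * log (s l) := by
    intro k l
    have := congrFun (congrFun i k) l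
    rw [diagonal_mul, mul_diagonal, mul_comm, mul_eq_mul_left_iff] at this
    rcases this with h | h
    · rw [Complex.ofReal_injective h]
    · simp [h]
  rw [ha, hs, vn_ud, vn_ud]
  calc ∑ k, negMulLog (a k) = -∑ k, ∑ l, Complex.normSq (tw U V M k l) * log (a k) := by
        simp only [← Finset.sum_mul, ← r, negMulLog, neg_mul, Finset.sum_neg_distrib]
    _ = -∑ l, ∑ k, Complex.normSq (tw U V M k l) * log (s l) := by
        simp only [j]
        rw [Finset.sum_comm]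
    _ = _ := by simp only [← Finset.sum_mul, ← c, negMulLog, neg_mul, Finset.sum_neg_distrib]

/-- The direct sum of two unitaries. -/
noncomputable def usum (U : unitary (Matrix n n ℂ)) (V : unitary (Matrix m m ℂ)) :
    unitary (Matrix (n ⊕ m) (n ⊕ m) ℂ) :=
  ⟨fromBlocks U 0 0 V, by
    have a := Unitary.star_mul_self_of_mem U.2
    have b := Unitary.star_mul_self_of_mem V.2
    have c := Unitary.mul_star_self_of_mem U.2
    have d := Unitary.mul_star_self_of_mem V.2
    rw [star_eq_conjTranspose] at a b c d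
    constructor <;>
      simp [star_eq_conjTranspose, fromBlocks_conjTranspose, fromBlocks_multiply, a, b, c, d]⟩

lemma usum_coe (U : unitary (Matrix n n ℂ)) (V : unitary (Matrix m m ℂ)) :
    (usum U V : Matrix (n ⊕ m) (n ⊕ m) ℂ) = fromBlocks U 0 0 V := rfl

lemma ud_usum (U : unitary (Matrix n n ℂ)) (V : unitary (Matrix m m ℂ)) (d : n → ℝ) (e : m → ℝ) :
    ud (usum U V) (Sum.elim d e) = fromBlocks (ud U d) 0 0 (ud V e) := by
  have : (diagonal fun i => ((Sum.elim d e i : ℝ) : ℂ)) =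
      fromBlocks (diagonal fun i => (d i : ℂ)) 0 0 (diagonal fun i => (e i : ℂ)) := by
    rw [fromBlocks_diagonal]
    congr 1
    ext i
    cases i <;> rfl
  unfold ud
  rw [this, usum_coe, star_eq_conjTranspose, fromBlocks_conjTranspose, fromBlocks_multiply,
    fromBlocks_multiply]
  simp [star_eq_conjTranspose]

lemma vn_blocks {X : Matrix n n ℂ} {Y : Matrix m m ℂ} (hX : X.PosSemidef) (hY : Y.PosSemidef) :
    vn (fromBlocks X 0 0 Y) = vn X + vn Y := by
  obtain ⟨U, d, -, rfl⟩ := exists_ud hX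
  obtain ⟨V, e, -, rfl⟩ := exists_ud hY
  rw [← ud_usum, vn_ud, vn_ud, vn_ud, Fintype.sum_sum_type]
  rfl

lemma vn_blk {X Y : Matrix n n ℂ} (hX : X.PosSemidef) (hY : Y.PosSemidef) :
    vn (blk X Y) = vn X + vn Y := by
  obtain ⟨U, d, -, rfl⟩ := exists_ud hX
  obtain ⟨V, e, -, rfl⟩ := exists_ud hY
  obtain ⟨W, hW⟩ := blk_ud U V
  rw [hW, vn_ud, vn_ud, vn_ud, Fintype.sum_prod_type, sum_zmod2]
  simp

lemma vn_pair {M M' : Matrix m n ℂ} {P Q : Matrix n n ℂ} (hP : P.PosSemidef) (hQ : Q.PosSemidef)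
    (h₁ : Mᴴ * M = P + Q) (h₂ : M'ᴴ * M' = P + Q) (h₃ : Mᴴ * M' = P - Q) (h₄ : M'ᴴ * M = P - Q) :
    vn ((1 / 2 : ℝ) • (M * Mᴴ) + (1 / 2 : ℝ) • (M' * M'ᴴ)) = vn P + vn Q := by
  have := vn_comm (fromCols ((1 / 2 : ℝ) • (M + M')) ((1 / 2 : ℝ) • (M - M')))
  rw [conjTranspose_fromCols_eq_fromRows_conjTranspose, fromCols_mul_fromRows,
    fromRows_mul_fromCols] at this
  simp only [conjTranspose_smul, star_trivial, conjTranspose_add, conjTranspose_sub,
    Matrix.smul_mul, Matrix.mul_smul, Matrix.add_mul, Matrix.mul_add, Matrix.sub_mul,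
    Matrix.mul_sub, h₁, h₂, h₃, h₄] at this
  rw [← vn_blocks hP hQ]
  convert this using 2
  · module
  · congr 1 <;> module

lemma vn_smul {A : Matrix n n ℂ} (hA : A.PosSemidef) (r : ℝ) :
    vn (r • A) = r * vn A + negMulLog r * rt A := by
  obtain ⟨U, d, -, rfl⟩ := exists_ud hA
  rw [ud_smul, vn_ud, vn_ud, rt_ud, Finset.mul_sum, Finset.mul_sum, ← Finset.sum_add_distrib]
  exact Finset.sum_congr rfl fun i _ => by rw [negMulLog_mul]; ring

/-- The tensor product of two unitaries. -/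
noncomputable def uten (U : unitary (Matrix n n ℂ)) (V : unitary (Matrix m m ℂ)) :
    unitary (Matrix (n × m) (n × m) ℂ) :=
  ⟨(U : Matrix n n ℂ) ⊗ₖ (V : Matrix m m ℂ), kronecker_mem_unitary U.2 V.2⟩

lemma uten_coe (U : unitary (Matrix n n ℂ)) (V : unitary (Matrix m m ℂ)) :
    (uten U V : Matrix (n × m) (n × m) ℂ) = (U : Matrix n n ℂ) ⊗ₖ (V : Matrix m m ℂ) := rfl

lemma ud_uten (U : unitary (Matrix n n ℂ)) (V : unitary (Matrix m m ℂ)) (d : n → ℝ) (e : m → ℝ) :
    ud U d ⊗ₖ ud V e = ud (uten U V) fun i => d i.1 * e i.2 := by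
  unfold ud
  rw [mul_kronecker_mul, mul_kronecker_mul, diagonal_kronecker_diagonal, uten_coe]
  simp only [star_eq_conjTranspose, conjTranspose_kronecker, Complex.ofReal_mul]

lemma ov_uten (U : unitary (Matrix n n ℂ)) (V : unitary (Matrix m m ℂ)) (K : Matrix n n ℂ)
    (L : Matrix m m ℂ) (i j : n × m) :
    ov (uten U V) (uten U V) (K ⊗ₖ L) i j = ov U U K i.1 j.1 * ov V V L i.2 j.2 := by
  unfold ov tw
  rw [uten_coe, star_eq_conjTranspose, conjTranspose_kronecker, ← mul_kronecker_mul,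
    ← mul_kronecker_mul, kroneckerMap_apply, map_mul]
  rfl

lemma vn_kron {A : Matrix n n ℂ} {B : Matrix m m ℂ} (hA : A.PosSemidef) (hB : B.PosSemidef) :
    vn (A ⊗ₖ B) = rt B * vn A + rt A * vn B := by
  obtain ⟨U, d, -, rfl⟩ := exists_ud hA
  obtain ⟨V, e, -, rfl⟩ := exists_ud hB
  rw [ud_uten, vn_ud, vn_ud, vn_ud, rt_ud, rt_ud, Fintype.sum_prod_type]
  simp only [negMulLog_mul, Finset.sum_add_distrib, ← Finset.sum_mul, ← Finset.mul_sum]

lemma exists_contr {P Q : Matrix n n ℂ} (hP : P.PosSemidef) (hQ : Q.PosSemidef)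
    {V : unitary (Matrix n n ℂ)} {s : n → ℝ} (hs : ∀ i, 0 ≤ s i) (h : P + Q = ud V s) :
    ∃ K : Matrix n n ℂ, K.IsHermitian ∧ (1 - K * K).PosSemidef ∧
      ud V (fun i => √(s i)) * K * ud V (fun i => √(s i)) = P - Q := by
  set J := ud V (fun i => (√(s i))⁻¹) with hJ
  have hJh : J.IsHermitian := ud_herm _ _
  set e : n → ℝ := fun i => if s i = 0 then 0 else 1 with he
  have sq : ∀ i, s i ≠ 0 → √(s i) ≠ 0 := fun i hi => (sqrt_ne_zero (hs i)).2 hi
  have e₁ : J * (P + Q) * J = ud V e := by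
    rw [h, hJ, ud_mul, ud_mul]
    congr 1
    ext i
    by_cases hi : s i = 0
    · simp [he, hi]
    · have := sq i hi
      simp only [he, if_neg hi]
      field_simp
      exact (sq_sqrt (hs i)).symm
  have e₂ : ud V (fun i => √(s i)) * J = ud V e := by
    rw [hJ, ud_mul]
    congr 1
    ext i
    by_cases hi : s i = 0
    · simp [he, hi]
    · simp [he, hi, sq i hi]
  have e₃ : J * ud V (fun i => √(s i)) = ud V e := by
    have := congrArg conjTranspose e₂
    rwa [conjTranspose_mul, hJh.eq, (ud_herm _ _).eq, (ud_herm _ _).eq] at this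
  have e₄ : ud V e * (P + Q) = P + Q := by
    rw [h, ud_mul]
    congr 1
    ext i
    by_cases hi : s i = 0 <;> simp [he, hi]
  have two : (0 : ℝ) ≤ 2 := by norm_num
  have p₁ : (P + Q + (P - Q)).PosSemidef := by
    convert hP.smul two using 1
    module
  have p₂ : (P + Q - (P - Q)).PosSemidef := by
    convert hQ.smul two using 1
    module
  obtain ⟨Y, hY⟩ := exists_factor p₁ p₂
  have e₅ : ud V e * (P - Q) = P - Q := by rw [← hY, ← mul_assoc, e₄]
  have e₆ : (P - Q) * ud V e = P - Q := by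
    have := congrArg conjTranspose e₅
    rwa [conjTranspose_mul, (hP.1.sub hQ.1).eq, (ud_herm _ _).eq] at this
  have p₀ : (1 - ud V e).PosSemidef := by
    have : 1 - ud V e = ud V fun i => 1 - e i := by
      rw [sub_eq_iff_eq_add, ud_add, ← ud_one V]
      simp
    rw [this]
    exact ud_psd V fun i => by by_cases hi : s i = 0 <;> simp [he, hi]
  set K := J * (P - Q) * J with hK
  have q₁ : (1 + K).PosSemidef := by
    have := p₀.add (psd_sandwich hJh p₁)
    rwa [mul_add J (P + Q), add_mul, e₁, ← hK, ← add_assoc, sub_add_cancel] at this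
  have q₂ : (1 - K).PosSemidef := by
    have := p₀.add (psd_sandwich hJh p₂)
    rwa [mul_sub J (P + Q), sub_mul, e₁, ← hK, sub_add_sub_cancel] at this
  refine ⟨K, ?_, ?_, ?_⟩
  · have := isHermitian_mul_mul_conjTranspose J (hP.1.sub hQ.1)
    rwa [hJh.eq] at this
  · have := ((psd_sandwich q₂.1 q₁).add (psd_sandwich q₁.1 q₂)).smul
      (show (0 : ℝ) ≤ 1 / 2 by norm_num)
    have e : 1 - K * K = (1 / 2 : ℝ) • ((1 - K) * (1 + K) * (1 - K) + (1 + K) * (1 - K) * (1 + K)) := by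
      simp only [mul_add, add_mul, mul_sub, sub_mul, mul_one, one_mul]
      module
    rwa [e]
  · rw [hK, ← mul_assoc, ← mul_assoc, e₂, e₅, mul_assoc, e₃, e₆]

lemma exists_dil {K : Matrix n n ℂ} (hK : K.IsHermitian) (h : (1 - K * K).PosSemidef) :
    ∃ T : Matrix n n ℂ, fromBlocks K T T (-K) ∈ unitary (Matrix (n ⊕ n) (n ⊕ n) ℂ) := by
  set U := hK.eigenvectorUnitary
  set k := hK.eigenvalues
  have e : K = ud U k := hK.spectral_theorem
  have b : ∀ i, 0 ≤ 1 - k i * k i := by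
    intro i
    have x := dg_mono U h i
    rw [dg_one, e, ud_mul, dg_self] at x
    linarith
  set T := ud U (fun i => √(1 - k i * k i)) with hT
  have hTh : T.IsHermitian := ud_herm _ _
  have c₁ : K * K + T * T = 1 := by
    rw [hT, e, ud_mul, ud_mul, ud_add, ← ud_one U]
    congr 1
    ext i
    rw [mul_self_sqrt (b i)]
    ring
  have c₂ : K * T = T * K := by
    rw [hT, e, ud_mul, ud_mul]
    simp only [mul_comm]
  have c₃ : fromBlocks K T T (-K) * fromBlocks K T T (-K) = 1 := by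
    rw [fromBlocks_multiply, c₁, neg_mul_neg, add_comm (T * T), c₁, mul_neg, neg_mul, c₂,
      add_neg_cancel, fromBlocks_one]
  have c₄ : star (fromBlocks K T T (-K)) = fromBlocks K T T (-K) := by
    rw [star_eq_conjTranspose, fromBlocks_conjTranspose, conjTranspose_neg, hK.eq, hTh.eq]
  exact ⟨T, by rw [c₄]; exact c₃, by rw [c₄]; exact c₃⟩

/-- The upper bound on the information in terms of the pair kernel. -/
lemma info_upper {P Q K : Matrix n n ℂ} (hP : P.PosSemidef) (hQ : Q.PosSemidef)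
    {V : unitary (Matrix n n ℂ)} {s : n → ℝ} (hs : ∀ i, 0 ≤ s i) (h : P + Q = ud V s)
    (hK : K.IsHermitian) (h1 : (1 - K * K).PosSemidef)
    (hD : ud V (fun i => √(s i)) * K * ud V (fun i => √(s i)) = P - Q) :
    log 2 * ∑ i, s i - (vn P + vn Q - vn (P + Q)) ≤
      1 / 2 * ∑ i, ∑ j, ov V V K i j * be (s i) (s j) := by
  obtain ⟨T, hT⟩ := exists_dil hK h1
  set Ω : unitary (Matrix (n ⊕ n) (n ⊕ n) ℂ) := ⟨_, hT⟩ with hΩ
  set R := ud V (fun i => √(s i)) with hR
  have hRh : R.IsHermitian := ud_herm _ _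
  have hRR : R * R = P + Q := by
    rw [hR, ud_mul, h]
    simp only [mul_self_sqrt (hs _)]
  set M : Matrix (n ⊕ n) n ℂ := fromRows R 0 with hM
  set a : n ⊕ n → ℝ := Sum.elim s 0 with ha
  have a0 : ∀ k, 0 ≤ a k := fun k => by cases k <;> simp [ha, hs]
  have m₁ : Mᴴ * M = P + Q := by
    simp [hM, conjTranspose_fromRows_eq_fromCols_conjTranspose, fromCols_mul_fromRows, hRh.eq, hRR]
  have m₂ : M * Mᴴ = ud (usum V V) a := by
    have z : ud V 0 = 0 := by simp [ud]
    rw [ha, ud_usum, z, ← h, hM, conjTranspose_fromRows_eq_fromCols_conjTranspose,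
      fromRows_mul_fromCols]
    simp [hRh.eq, hRR]
  have m₃ : Mᴴ * ((Ω : Matrix (n ⊕ n) (n ⊕ n) ℂ) * M) = P - Q := by
    rw [← hD]
    simp [hM, hΩ, conjTranspose_fromRows_eq_fromCols_conjTranspose, fromBlocks_mul_fromRows,
      fromCols_mul_fromRows, hRh.eq, mul_assoc]
  have m₄ : ((Ω : Matrix (n ⊕ n) (n ⊕ n) ℂ) * M)ᴴ * M = P - Q := by
    have := congrArg conjTranspose m₃
    rwa [conjTranspose_mul, conjTranspose_conjTranspose, (hP.1.sub hQ.1).eq] at this
  have m₅ : ((Ω : Matrix (n ⊕ n) (n ⊕ n) ℂ) * M)ᴴ * ((Ω : Matrix (n ⊕ n) (n ⊕ n) ℂ) * M) =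
      P + Q := by
    rw [conjTranspose_mul, Matrix.mul_assoc, ← Matrix.mul_assoc _ _ M, ← star_eq_conjTranspose,
      Unitary.star_mul_self_of_mem Ω.2, Matrix.one_mul, m₁]
  have m₆ : (Ω : Matrix (n ⊕ n) (n ⊕ n) ℂ) * M * ((Ω : Matrix (n ⊕ n) (n ⊕ n) ℂ) * M)ᴴ =
      ud (Ω * usum V V) a := by
    rw [conjTranspose_mul, Matrix.mul_assoc, ← Matrix.mul_assoc M, m₂]
    simp only [ud, Submonoid.coe_mul, star_mul, mul_assoc, star_eq_conjTranspose]
  have key := vn_pair hP hQ m₁ m₅ m₃ m₄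
  rw [m₂, m₆, ud_smul, ud_smul] at key
  have g := vn_sum_ge (usum V V) (Ω * usum V V) (a := fun k => 1 / 2 * a k)
    (b := fun k => 1 / 2 * a k) (fun k => by have := a0 k; positivity)
    (fun k => by have := a0 k; positivity)
  rw [key] at g
  have w : ∀ i j, ov (usum V V) (Ω * usum V V) 1 (Sum.inl i) (Sum.inl j) = ov V V K i j := by
    intro i j
    simp [ov, tw, usum_coe, hΩ, star_eq_conjTranspose, fromBlocks_conjTranspose,
      fromBlocks_multiply, mul_assoc]
  have row := ov_one_row (usum V V) (Ω * usum V V)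
  have col := ov_one_col (usum V V) (Ω * usum V V)
  set o := ov (usum V V) (Ω * usum V V) 1
  have x : ∀ k l, o k l * negMulLog (1 / 2 * a k + 1 / 2 * a l) =
      o k l * ((negMulLog (a k) + log 2 * a k) / 2) + o k l * ((negMulLog (a l) + log 2 * a l) / 2) -
        1 / 2 * (o k l * be (a k) (a l)) := by
    intro k l
    rw [← mul_add, negMulLog_mul, be]
    simp only [negMulLog, one_div, log_inv]
    ring
  simp only [x, Finset.sum_sub_distrib, Finset.sum_add_distrib, ← Finset.sum_mul, row,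
    ← Finset.mul_sum] at g
  rw [Finset.sum_comm] at g
  simp only [← Finset.sum_mul, col] at g
  have z₁ : ∀ y, be 0 y = 0 := fun y => by simp [be]
  have z₂ : ∀ y, be y 0 = 0 := fun y => by simp [be]
  simp only [Fintype.sum_sum_type, ha, Sum.elim_inl, Sum.elim_inr, Pi.zero_apply, z₁, z₂, w,
    mul_zero, Finset.sum_const_zero, add_zero, negMulLog_zero, one_mul,
    ← Finset.sum_div, Finset.sum_add_distrib, ← Finset.mul_sum] at g
  rw [h, vn_ud]
  linarith

/-- The lower bound on the information in terms of the second order kernel. -/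
lemma info_lower {P Q K : Matrix n n ℂ} (hP : P.PosSemidef) (hQ : Q.PosSemidef)
    {V : unitary (Matrix n n ℂ)} {s : n → ℝ} (hs : ∀ i, 0 ≤ s i) (h : P + Q = ud V s)
    (hK : K.IsHermitian) (hD : ud V (fun i => √(s i)) * K * ud V (fun i => √(s i)) = P - Q) :
    1 / 2 * ∑ i, ∑ j, ov V V K i j * (s i * s j * lg (s i) (s j)) ≤
      log 2 * ∑ i, s i - (vn P + vn Q - vn (P + Q)) := by
  have two : (0 : ℝ) ≤ 2 := by norm_num
  obtain ⟨W, b, hb, e⟩ := exists_ud (hP.smul two)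
  obtain ⟨W', b', hb', e'⟩ := exists_ud (hQ.smul two)
  have k := vn_second V W W' hs hb hb' (hP.1.sub hQ.1) (by rw [← h, ← e]; module)
    (by rw [← h, ← e']; module) (w := ov V V K) (fun i j => by
      unfold ov
      rw [← hD, ← tw_mul V V V, ← tw_mul V V V, tw_ud, mul_diagonal, diagonal_mul, map_mul,
        map_mul, Complex.normSq_ofReal, Complex.normSq_ofReal, mul_self_sqrt (hs i),
        mul_self_sqrt (hs j)]
      ring) (ov_symm V V hK)
  rw [← vn_ud W b, ← vn_ud W' b', ← e, ← e', vn_smul hP, vn_smul hQ, ← vn_ud V s, ← h] at k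
  have t : rt P + rt Q = ∑ i, s i := by rw [← rt_add, h, rt_ud]
  have l : negMulLog 2 = -(2 * log 2) := by simp [negMulLog]
  rw [l] at k
  rw [← t]
  linarith

end Pool.Agent.MP_560646_mp

end

section

namespace Pool.Agent.MP_560646_mp

open Matrix Real Kronecker Set
open scoped ComplexOrder MatrixOrder

variable {n m : Type} [Fintype n] [DecidableEq n] [Fintype m] [DecidableEq m]

/-- The conditional entropy of a pair of blocks. -/
noncomputable def ce (P Q : Matrix n n ℂ) : ℝ := vn P + vn Q - vn (P + Q)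

omit [Fintype n] [DecidableEq n] [Fintype m] [DecidableEq m] in
lemma kron_minus (X Y : Matrix n n ℂ) (Z W : Matrix m m ℂ) :
    (X - Y) ⊗ₖ (Z - W) = X ⊗ₖ Z + Y ⊗ₖ W - (X ⊗ₖ W + Y ⊗ₖ Z) := by
  ext ⟨i, j⟩ ⟨k, l⟩
  simp only [Matrix.add_apply, Matrix.sub_apply, kroneckerMap_apply]
  ring

lemma ratio_mem {x y : ℝ} (hx : 0 ≤ x) (hy : 0 ≤ y) : y / (x + y) ∈ Icc (0 : ℝ) 1 :=
  ⟨by positivity, div_le_one_of_le₀ (by linarith) (by positivity)⟩

lemma sys_data {P Q : Matrix n n ℂ} (hP : P.PosSemidef) (hQ : Q.PosSemidef)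
    (ht : rt (P + Q) = 1) :
    ∃ (V : unitary (Matrix n n ℂ)) (s : n → ℝ) (K : Matrix n n ℂ), (∀ i, 0 ≤ s i) ∧
      P + Q = ud V s ∧ ∑ i, s i = 1 ∧ K.IsHermitian ∧ (1 - K * K).PosSemidef ∧
      ud V (fun i => √(s i)) * K * ud V (fun i => √(s i)) = P - Q ∧
      ∑ i : n × n, ov V V K i.1 i.2 * (s i.1 + s i.2) / 2 ≤ 1 ∧
      ∑ i : n × n, ov V V K i.1 i.2 * (s i.1 + s i.2) / 2 * cc (s i.2 / (s i.1 + s i.2)) ≤
        log 2 - ce P Q := by
  obtain ⟨V, s, hs, h⟩ := exists_ud (hP.add hQ)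
  obtain ⟨K, hK, h1, hD⟩ := exists_contr hP hQ hs h
  have t : ∑ i, s i = 1 := by rw [← rt_ud V, ← h, ht]
  refine ⟨V, s, K, hs, h, t, hK, h1, hD, ?_, ?_⟩
  · have row : ∀ i, ∑ j, ov V V K i j ≤ 1 := fun i => by
      rw [ov_row V V hK, ← dg_one V i]
      exact dg_mono V h1 i
    have a : ∑ i, ∑ j, ov V V K i j * s i ≤ 1 := by
      rw [← t]
      refine Finset.sum_le_sum fun i _ => ?_
      rw [← Finset.sum_mul]
      exact mul_le_of_le_one_left (hs i) (row i)
    have b : ∑ i, ∑ j, ov V V K i j * s j = ∑ i, ∑ j, ov V V K i j * s i := by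
      rw [Finset.sum_comm]
      exact Finset.sum_congr rfl fun i _ => Finset.sum_congr rfl fun j _ => by
        rw [ov_symm V V hK]
    simp only [Fintype.sum_prod_type, mul_add, ← Finset.sum_div, Finset.sum_add_distrib]
    linarith
  · have := info_lower hP hQ hs h hK hD
    rw [t, mul_one, Finset.mul_sum] at this
    refine le_of_eq_of_le ?_ this
    rw [Fintype.sum_prod_type]
    refine Finset.sum_congr rfl fun i _ => ?_
    rw [Finset.mul_sum]
    refine Finset.sum_congr rfl fun j _ => ?_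
    rw [lg_pair (hs i) (hs j)]
    ring

lemma ov_nonneg (U V : unitary (Matrix n n ℂ)) (K : Matrix n n ℂ) (i j : n) : 0 ≤ ov U V K i j :=
  Complex.normSq_nonneg _

lemma ce_le {P Q : Matrix n n ℂ} (hP : P.PosSemidef) (hQ : Q.PosSemidef) (ht : rt (P + Q) = 1) :
    ce P Q ≤ log 2 := by
  obtain ⟨V, s, K, hs, -, -, -, -, -, -, h⟩ := sys_data hP hQ ht
  refine sub_nonneg.1 (le_trans (Finset.sum_nonneg fun i _ => mul_nonneg ?_ ?_) h)
  · have := ov_nonneg V V K i.1 i.2
    have := hs i.1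
    have := hs i.2
    positivity
  · exact (cc_global (ratio_mem (hs _) (hs _))).1

lemma vn_core {ε : ℝ} (hε : 0 < ε) : ∃ δ : ℝ, 0 < δ ∧ δ < log 2 / 2 ∧
    ∀ (n m : Type) [Fintype n] [DecidableEq n] [Fintype m] [DecidableEq m]
      (P Q : Matrix n n ℂ) (P' Q' : Matrix m m ℂ) (q r : ℝ), P.PosSemidef → Q.PosSemidef →
      P'.PosSemidef → Q'.PosSemidef → rt (P + Q) = 1 → rt (P' + Q') = 1 →
      q ∈ Icc (0 : ℝ) (1 / 2) → r ∈ Icc (0 : ℝ) (1 / 2) → binEntropy q = log 2 - ce P Q →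
      binEntropy r = log 2 - ce P' Q' → binEntropy q ≤ δ → binEntropy r ≤ δ →
      log 2 - ce (P ⊗ₖ P' + Q ⊗ₖ Q') (P ⊗ₖ Q' + Q ⊗ₖ P') ≤ (1 + ε) * Psi q r := by
  obtain ⟨δ, δ0, δ1, H⟩ := scalar_core hε
  refine ⟨δ, δ0, δ1, fun n m _ _ _ _ P Q P' Q' q r hP hQ hP' hQ' ht ht' hq hr eq er kq kr => ?_⟩
  obtain ⟨V, s, K, hs, h, t, hK, h1, hD, a, b⟩ := sys_data hP hQ ht
  obtain ⟨W, u, L, hu, h', t', hL, h1', hD', a', b'⟩ := sys_data hP' hQ' ht'
  have nn : ∀ {k : Type} [Fintype k] [DecidableEq k] (V : unitary (Matrix k k ℂ)) (s : k → ℝ)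
      (K : Matrix k k ℂ), (∀ i, 0 ≤ s i) → ∀ i : k × k,
      0 ≤ ov V V K i.1 i.2 * (s i.1 + s i.2) / 2 := fun V s K hs i => by
    have := ov_nonneg V V K i.1 i.2
    have := hs i.1
    have := hs i.2
    positivity
  refine le_trans ?_ (H (n × n) (m × m) _ _ _ _ q r (nn V s K hs)
    (fun i => ratio_mem (hs i.1) (hs i.2)) (nn W u L hu) (fun i => ratio_mem (hu i.1) (hu i.2))
    a a' hq hr kq kr (eq ▸ b) (er ▸ b'))
  have hKL : (K ⊗ₖ L).IsHermitian := by
    rw [IsHermitian, conjTranspose_kronecker, hK.eq, hL.eq]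
  have hKK : (K * K).PosSemidef := by
    have := posSemidef_conjTranspose_mul_self K
    rwa [hK.eq] at this
  have c : (1 - K ⊗ₖ L * K ⊗ₖ L).PosSemidef := by
    have := (h1.kronecker (PosSemidef.one (n := m))).add (hKK.kronecker h1')
    have e : 1 - K ⊗ₖ L * K ⊗ₖ L = (1 - K * K) ⊗ₖ (1 : Matrix m m ℂ) + (K * K) ⊗ₖ (1 - L * L) := by
      rw [← mul_kronecker_mul, ← one_kronecker_one]
      ext ⟨i, j⟩ ⟨k, l⟩
      simp only [Matrix.add_apply, Matrix.sub_apply, kroneckerMap_apply]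
      ring
    rwa [e]
  have up := info_upper ((hP.kronecker hP').add (hQ.kronecker hQ'))
    ((hP.kronecker hQ').add (hQ.kronecker hP')) (V := uten V W) (s := fun i => s i.1 * u i.2)
    (fun i => mul_nonneg (hs _) (hu _)) (by rw [kron_total, h, h', ud_uten]) hKL c (by
      simp only [sqrt_mul (hs _)]
      rw [← ud_uten V W (fun i => √(s i)) (fun i => √(u i)), ← mul_kronecker_mul,
        ← mul_kronecker_mul, hD, hD', kron_minus])
  have t₂ : ∑ i : n × m, s i.1 * u i.2 = 1 := by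
    simp only [Fintype.sum_prod_type, ← Finset.mul_sum, t', mul_one, t]
  rw [t₂, mul_one] at up
  refine up.trans_eq ?_
  simp only [ov_uten, Fintype.sum_prod_type]
  have x : ∀ i, ∑ k, ∑ j, ∑ l, ov V V K i j * ov W W L k l * be (s i * u k) (s j * u l) =
      ∑ j, ∑ k, ∑ l, ov V V K i j * ov W W L k l * be (s i * u k) (s j * u l) :=
    fun i => Finset.sum_comm
  simp only [x, Finset.mul_sum]
  refine Finset.sum_congr rfl fun i _ => Finset.sum_congr rfl fun j _ => ?_
  have y : ∑ k, ∑ l, 1 / 2 * (ov V V K i j * ov W W L k l * be (s i * u k) (s j * u l)) =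
      ∑ k, ∑ l, 1 / 2 * (ov V V K i j * ov W W L k l * be (s i * u l) (s j * u k)) := by
    rw [Finset.sum_comm]
    exact Finset.sum_congr rfl fun k _ => Finset.sum_congr rfl fun l _ => by rw [ov_symm W W hL]
  apply mul_left_cancel₀ (two_ne_zero (α := ℝ))
  rw [two_mul]
  nth_rewrite 2 [y]
  simp only [← Finset.sum_add_distrib, Finset.mul_sum]
  refine Finset.sum_congr rfl fun k _ => Finset.sum_congr rfl fun l _ => ?_
  have := be_pair (hs i) (hs j) (hu k) (hu l)
  linear_combination (1 / 2 * (ov V V K i j * ov W W L k l)) * this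

lemma exists_dual {P Q : Matrix n n ℂ} (hP : P.PosSemidef) (hQ : Q.PosSemidef) :
    ∃ M M' : Matrix (n ⊕ n) n ℂ, Mᴴ * M = P + Q ∧ M'ᴴ * M' = P + Q ∧ Mᴴ * M' = P - Q ∧
      M'ᴴ * M = P - Q := by
  obtain ⟨A, hA, rfl⟩ := exists_root hP
  obtain ⟨B, hB, rfl⟩ := exists_root hQ
  refine ⟨fromRows A B, fromRows A (-B), ?_, ?_, ?_, ?_⟩ <;>
    rw [conjTranspose_fromRows_eq_fromCols_conjTranspose, fromCols_mul_fromRows] <;>
    simp [hA.eq, hB.eq, sub_eq_add_neg]

omit [DecidableEq n] [DecidableEq m] in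
lemma rt_rect (M : Matrix m n ℂ) : rt (M * Mᴴ) = rt (Mᴴ * M) := by
  rw [rt, trace_mul_comm, rt]

lemma nml_half : negMulLog (1 / 2) = log 2 / 2 := by
  rw [negMulLog, one_div, log_inv]
  ring

lemma dual_one {P Q : Matrix n n ℂ} (hP : P.PosSemidef) (hQ : Q.PosSemidef) (ht : rt (P + Q) = 1)
    {M M' : Matrix m n ℂ} (h₁ : Mᴴ * M = P + Q) (h₂ : M'ᴴ * M' = P + Q) (h₃ : Mᴴ * M' = P - Q)
    (h₄ : M'ᴴ * M = P - Q) :
    rt ((1 / 2 : ℝ) • (M * Mᴴ) + (1 / 2 : ℝ) • (M' * M'ᴴ)) = 1 ∧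
      ce ((1 / 2 : ℝ) • (M * Mᴴ)) ((1 / 2 : ℝ) • (M' * M'ᴴ)) = log 2 - ce P Q := by
  constructor
  · rw [rt_add, rt_smul, rt_smul, rt_rect, rt_rect, h₁, h₂, ht]
    norm_num
  · rw [ce, vn_pair hP hQ h₁ h₂ h₃ h₄, vn_smul (posSemidef_self_mul_conjTranspose _),
      vn_smul (posSemidef_self_mul_conjTranspose _), vn_comm, vn_comm, rt_rect, rt_rect, h₁, h₂, ht,
      nml_half, ce]
    ring

lemma exists_dual_pair {P Q : Matrix n n ℂ} {P' Q' : Matrix m m ℂ} (hP : P.PosSemidef)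
    (hQ : Q.PosSemidef) (hP' : P'.PosSemidef) (hQ' : Q'.PosSemidef) (ht : rt (P + Q) = 1)
    (ht' : rt (P' + Q') = 1) :
    ∃ (A B : Matrix (n ⊕ n) (n ⊕ n) ℂ) (A' B' : Matrix (m ⊕ m) (m ⊕ m) ℂ), A.PosSemidef ∧
      B.PosSemidef ∧ A'.PosSemidef ∧ B'.PosSemidef ∧ rt (A + B) = 1 ∧ rt (A' + B') = 1 ∧
      ce A B = log 2 - ce P Q ∧ ce A' B' = log 2 - ce P' Q' ∧
      log 2 - ce (A ⊗ₖ A' + B ⊗ₖ B') (A ⊗ₖ B' + B ⊗ₖ A') =
        ce P Q + ce P' Q' - ce (P ⊗ₖ P' + Q ⊗ₖ Q') (P ⊗ₖ Q' + Q ⊗ₖ P') := by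
  obtain ⟨M, M', h₁, h₂, h₃, h₄⟩ := exists_dual hP hQ
  obtain ⟨N, N', k₁, k₂, k₃, k₄⟩ := exists_dual hP' hQ'
  have half : (0 : ℝ) ≤ 1 / 2 := by norm_num
  have ps : ∀ {k l : Type} [Fintype k] [Fintype l] (M : Matrix k l ℂ),
      ((1 / 2 : ℝ) • (M * Mᴴ)).PosSemidef := fun M =>
    (posSemidef_self_mul_conjTranspose M).smul half
  obtain ⟨a₁, a₂⟩ := dual_one hP hQ ht h₁ h₂ h₃ h₄
  obtain ⟨b₁, b₂⟩ := dual_one hP' hQ' ht' k₁ k₂ k₃ k₄
  refine ⟨_, _, _, _, ps M, ps M', ps N, ps N', a₁, b₁, a₂, b₂, ?_⟩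
  have hX := (hP.kronecker hP').add (hQ.kronecker hQ')
  have hY := (hP.kronecker hQ').add (hQ.kronecker hP')
  have t : rt (P ⊗ₖ P' + Q ⊗ₖ Q' + (P ⊗ₖ Q' + Q ⊗ₖ P')) = 1 := by
    have := rt_kron_mul (X' := P' + Q') (Y' := 1) (hP.add hQ).1 isHermitian_one
    rw [one_kronecker_one, mul_one, mul_one, mul_one, ht, ht', mul_one] at this
    rw [kron_total, this]
  have blk : ∀ {N N' : Matrix (m ⊕ m) m ℂ}, Nᴴ * N = P' + Q' → N'ᴴ * N' = P' + Q' →
      Nᴴ * N' = P' - Q' → N'ᴴ * N = P' - Q' →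
      vn (((1 / 2 : ℝ) • (M * Mᴴ)) ⊗ₖ ((1 / 2 : ℝ) • (N * Nᴴ)) +
        ((1 / 2 : ℝ) • (M' * M'ᴴ)) ⊗ₖ ((1 / 2 : ℝ) • (N' * N'ᴴ))) =
      1 / 2 * (vn (P ⊗ₖ P' + Q ⊗ₖ Q') + vn (P ⊗ₖ Q' + Q ⊗ₖ P')) + log 2 / 2 := by
    intro N N' k₁ k₂ k₃ k₄
    have c₁ : (M ⊗ₖ N)ᴴ * (M ⊗ₖ N) =
        P ⊗ₖ P' + Q ⊗ₖ Q' + (P ⊗ₖ Q' + Q ⊗ₖ P') := by
      rw [conjTranspose_kronecker, ← mul_kronecker_mul, h₁, k₁, ← kron_total]
    have c₂ : (M' ⊗ₖ N')ᴴ * (M' ⊗ₖ N') =
        P ⊗ₖ P' + Q ⊗ₖ Q' + (P ⊗ₖ Q' + Q ⊗ₖ P') := by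
      rw [conjTranspose_kronecker, ← mul_kronecker_mul, h₂, k₂, ← kron_total]
    have c₃ : (M ⊗ₖ N)ᴴ * (M' ⊗ₖ N') =
        P ⊗ₖ P' + Q ⊗ₖ Q' - (P ⊗ₖ Q' + Q ⊗ₖ P') := by
      rw [conjTranspose_kronecker, ← mul_kronecker_mul, h₃, k₃, kron_minus]
    have c₄ : (M' ⊗ₖ N')ᴴ * (M ⊗ₖ N) =
        P ⊗ₖ P' + Q ⊗ₖ Q' - (P ⊗ₖ Q' + Q ⊗ₖ P') := by
      rw [conjTranspose_kronecker, ← mul_kronecker_mul, h₄, k₄, kron_minus]
    have v := vn_smul ((ps (M ⊗ₖ N)).add (ps (M' ⊗ₖ N'))) (1 / 2)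
    rw [(dual_one hX hY t c₁ c₂ c₃ c₄).1, vn_pair hX hY c₁ c₂ c₃ c₄, nml_half, mul_one] at v
    rw [← v]
    congr 1
    simp only [conjTranspose_kronecker, ← mul_kronecker_mul, smul_kronecker, kronecker_smul,
      smul_add]
  rw [ce, blk k₁ k₂ k₃ k₄, blk k₂ k₁ k₄ k₃, kron_total, vn_kron ((ps _).add (ps _)) ((ps _).add (ps _)),
    a₁, b₁, vn_pair hP hQ h₁ h₂ h₃ h₄, vn_pair hP' hQ' k₁ k₂ k₃ k₄, ce, ce, ce, kron_total,
    vn_kron (hP.add hQ) (hP'.add hQ'), ht, ht']
  ring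

lemma binG1_spec {x : ℝ} (h₀ : 0 ≤ x) (h₁ : x ≤ log 2) :
    binG1 x ∈ Icc (0 : ℝ) (1 / 2) ∧ binEntropy (binG1 x) = x := by
  have hex : ∃ p ∈ Icc (0 : ℝ) (1 / 2), binEntropy p = x :=
    intermediate_value_Icc (by norm_num) binEntropy_continuous.continuousOn
      (by rw [binEntropy_zero, one_div, binEntropy_two_inv]; exact ⟨h₀, h₁⟩)
  exact ⟨Function.invFunOn_mem hex, Function.invFunOn_eq hex⟩

lemma Hvn_blk {X Y : Matrix n n ℂ} (hX : X.PosSemidef) (hY : Y.PosSemidef) :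
    Hvn (blk X Y) = ce X Y := by
  rw [Hvn, margB_blk, vn_blk hX hY, ce]

theorem vn_corner {ε : ℝ} (hε : 0 < ε) : ∃ δ : ℝ, 0 < δ ∧
    ∀ (n m : Type) [Fintype n] [DecidableEq n] [Fintype m] [DecidableEq m]
      (σ : ZMod 2 → Matrix n n ℂ) (η : ZMod 2 → Matrix m m ℂ),
      (∀ x, (σ x).PosSemidef ∧ trace (σ x) = 1) → (∀ x, (η x).PosSemidef ∧ trace (η x) = 1) →
      (Hvn (cq σ) ≤ δ ∧ Hvn (cq η) ≤ δ) ∨
        (log 2 - δ ≤ Hvn (cq σ) ∧ log 2 - δ ≤ Hvn (cq η)) →
      min (log 2) (Hvn (cq σ) + Hvn (cq η)) - Hvn (combine σ η) ≤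
        (1 + ε) * (min (log 2) (Hvn (cq σ) + Hvn (cq η)) - bound1 (Hvn (cq σ)) (Hvn (cq η))) := by
  obtain ⟨δ, δ0, δ1, H⟩ := vn_core hε
  refine ⟨δ, δ0, fun n m _ _ _ _ σ η hσ hη => ?_⟩
  have hh : (0 : ℂ) ≤ 1 / 2 := by
    rw [show (1 / 2 : ℂ) = ((1 / 2 : ℝ) : ℂ) by push_cast; ring]
    exact Complex.zero_le_real.2 (by norm_num)
  have hX := (hσ 0).1.smul hh
  have hY := (hσ 1).1.smul hh
  have hZ := (hη 0).1.smul hh
  have hW := (hη 1).1.smul hh
  have t1 : rt ((1 / 2 : ℂ) • σ 0 + (1 / 2 : ℂ) • σ 1) = 1 := by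
    rw [rt, trace_add, trace_smul, trace_smul, (hσ 0).2, (hσ 1).2]
    norm_num
  have t2 : rt ((1 / 2 : ℂ) • η 0 + (1 / 2 : ℂ) • η 1) = 1 := by
    rw [rt, trace_add, trace_smul, trace_smul, (hη 0).2, (hη 1).2]
    norm_num
  rw [cq_eq, cq_eq, combine_eq, Hvn_blk hX hY, Hvn_blk hZ hW,
    Hvn_blk ((hX.kronecker hZ).add (hY.kronecker hW)) ((hX.kronecker hW).add (hY.kronecker hZ))]
  set X := (1 / 2 : ℂ) • σ 0
  set Y := (1 / 2 : ℂ) • σ 1
  set Z := (1 / 2 : ℂ) • η 0
  set W := (1 / 2 : ℂ) • η 1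
  rintro (⟨a, b⟩ | ⟨a, b⟩)
  · obtain ⟨A, B, A', B', hA, hB, hA', hB', u, u', e, e', f⟩ := exists_dual_pair hX hY hZ hW t1 t2
    have c := ce_le hA hB u
    have c' := ce_le hA' hB' u'
    obtain ⟨mq, eq⟩ := binG1_spec (x := ce X Y) (by linarith) (by linarith)
    obtain ⟨mr, er⟩ := binG1_spec (x := ce Z W) (by linarith) (by linarith)
    have := H _ _ A B A' B' _ _ hA hB hA' hB' u u' mq mr (by linarith) (by linarith) (by linarith)
      (by linarith)
    rw [min_eq_right (by linarith), bound1, if_pos (by linarith)]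
    rwa [f, Psi, eq, er] at this
  · have c := ce_le hX hY t1
    have c' := ce_le hZ hW t2
    obtain ⟨mq, eq⟩ := binG1_spec (x := log 2 - ce X Y) (by linarith) (by linarith)
    obtain ⟨mr, er⟩ := binG1_spec (x := log 2 - ce Z W) (by linarith) (by linarith)
    have := H _ _ X Y Z W _ _ hX hY hZ hW t1 t2 mq mr eq er (by linarith) (by linarith)
    rw [min_eq_left (by linarith), bound1, if_neg (by linarith)]
    rw [Psi, eq, er] at this
    linarith

end Pool.Agent.MP_560646_mp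

end

section

namespace Pool.Agent.MP_560646_mp

open Matrix Real Kronecker Set Filter Topology
open scoped ComplexOrder MatrixOrder

variable {n m : Type} [Fintype n] [DecidableEq n] [Fintype m] [DecidableEq m]

/-- The logarithm of the modulus of the determinant. -/
noncomputable def ld (X : Matrix n n ℂ) : ℝ := log ‖det X‖

lemma det_ud (U : unitary (Matrix n n ℂ)) (d : n → ℝ) : det (ud U d) = ((∏ i, d i : ℝ) : ℂ) := by
  unfold ud
  rw [det_mul_comm, ← mul_assoc, Unitary.star_mul_self_of_mem U.2, one_mul, det_diagonal,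
    Complex.ofReal_prod]

lemma ld_ud (U : unitary (Matrix n n ℂ)) {d : n → ℝ} (hd : ∀ i, d i ≠ 0) :
    ld (ud U d) = ∑ i, log (d i) := by
  rw [ld, det_ud, Complex.norm_real, norm_eq_abs, log_abs, log_prod fun i _ => hd i]

lemma ld_mul {X Y : Matrix n n ℂ} (hX : det X ≠ 0) (hY : det Y ≠ 0) : ld (X * Y) = ld X + ld Y := by
  rw [ld, det_mul, norm_mul, log_mul (norm_ne_zero_iff.2 hX) (norm_ne_zero_iff.2 hY), ld, ld]

lemma ud_shift (U : unitary (Matrix n n ℂ)) (d : n → ℝ) (t : ℝ) :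
    ud U d + t • (1 : Matrix n n ℂ) = ud U fun i => d i + t := by
  rw [← ud_one U, ud_smul, ud_add]
  simp only [mul_one]

/-- The regularised entropy function. -/
noncomputable def ww (x t : ℝ) : ℝ := negMulLog (x + t) - negMulLog t + x * (log (1 + t) + 1)

lemma ray_ww {x : ℝ} (hx : 0 ≤ x) :
    Ray (ww x) (fun t => -log (x + t) + log t + x * (1 + t)⁻¹) := by
  refine ⟨?_, fun t ht => ?_, ?_⟩
  · refine ((continuous_negMulLog.comp (continuous_const.add continuous_id)).sub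
      continuous_negMulLog).continuousOn.add (continuousOn_const.mul (ContinuousOn.add ?_
        continuousOn_const))
    exact ContinuousOn.log (by fun_prop) fun t (ht : 0 ≤ t) => by positivity
  · have a := (hasDerivAt_negMulLog (show x + t ≠ 0 by positivity)).comp t
      ((hasDerivAt_id t).const_add x)
    have b := hasDerivAt_negMulLog ht.ne'
    have c := ((((hasDerivAt_id t).const_add 1).log (show 1 + t ≠ 0 by positivity)).add_const
      1).const_mul x
    refine ((a.sub b).add c).congr_deriv ?_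
    simp only [id]
    ring
  · have b := tendsto_mul_log_one_add_div_atTop x
    have c := (tendsto_log_comp_add_sub_log 1).sub (tendsto_log_comp_add_sub_log x)
    have d := ((c.const_mul x).sub b).add_const x
    simp only [sub_self, mul_zero, zero_sub, neg_add_cancel] at d
    refine d.congr' ((eventually_gt_atTop 0).mono fun t ht => ?_)
    have e : 1 + x / t = (x + t) / t := by field_simp; ring
    simp only [ww, negMulLog]
    rw [e, log_div (by positivity) ht.ne', add_comm t 1, add_comm t x]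
    ring

lemma ray_mat {X : Matrix n n ℂ} (hX : X.PosSemidef) : ∃ f : ℝ → ℝ, f 0 = vn X + rt X ∧
    Ray f fun t => -ld (X + t • 1) + Fintype.card n * log t + rt X * (1 + t)⁻¹ := by
  obtain ⟨U, d, hd, rfl⟩ := exists_ud hX
  refine ⟨fun t => ∑ i, ww (d i) t, ?_, (Ray.sum fun i => ray_ww (hd i)).congr rfl fun t ht => ?_⟩
  · simp [ww, vn_ud, rt_ud, Finset.sum_add_distrib]
  · rw [ud_shift, ld_ud U fun i => by have := hd i; positivity, rt_ud]
    simp [Finset.sum_add_distrib, Finset.sum_mul]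

lemma ud_pd (U : unitary (Matrix n n ℂ)) {d : n → ℝ} (hd : ∀ i, 0 < d i) : (ud U d).PosDef := by
  refine (ud_psd U fun i => (hd i).le).posDef_iff_det_ne_zero.2 ?_
  rw [det_ud, Complex.ofReal_ne_zero]
  exact (Finset.prod_pos fun i _ => hd i).ne'

lemma exists_ud_pos {A : Matrix n n ℂ} (hA : A.PosDef) :
    ∃ (U : unitary (Matrix n n ℂ)) (d : n → ℝ), (∀ i, 0 < d i) ∧ A = ud U d :=
  ⟨hA.1.eigenvectorUnitary, hA.1.eigenvalues, hA.eigenvalues_pos, hA.1.spectral_theorem⟩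

lemma ld_sum_ge (U V : unitary (Matrix n n ℂ)) {a b : n → ℝ} (ha : ∀ i, 0 ≤ a i)
    (hb : ∀ i, 0 < b i) : ∑ k, ∑ l, ov U V 1 k l * log (a k + b l) ≤ ld (ud U a + ud V b) := by
  obtain ⟨W, c, hc, h⟩ := exists_ud_pos (PosDef.posSemidef_add (ud_psd U ha) (ud_pd V hb))
  have R := (Ray.sum fun i => ray_log (hc i) one_pos).sub (Ray.sum fun k => Ray.sum fun l =>
    (ray_log (add_pos_of_nonneg_of_pos (ha k) (hb l)) one_pos).mul (ov U V 1 k l))
  have := R.nonneg fun t ht => by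
    have x := res_upper U V W ha (fun i => (hb i).le) (fun i => (hc i).le) h ht
    simp only [mul_sub, Finset.sum_sub_distrib, ← Finset.sum_mul, ov_one_row, one_mul]
    linarith
  rw [h, ld_ud W fun i => (hc i).ne']
  simpa using this

lemma ld_add {C G B Y : Matrix n n ℂ} (h : C * G = 1) (h' : det (1 + B * G * B * Y) ≠ 0) :
    ld (C + B * Y * B) = ld C + ld (1 + B * G * B * Y) := by
  have c : det C ≠ 0 := left_ne_zero_of_mul_eq_one (by rw [← det_mul, h, det_one])
  have e : det (1 + G * B * Y * B) = det (1 + B * G * B * Y) := by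
    rw [det_one_add_mul_comm]
    simp only [mul_assoc]
  have f : C + B * Y * B = C * (1 + G * B * Y * B) := by
    rw [mul_add, mul_one, ← mul_assoc, ← mul_assoc, ← mul_assoc, h, one_mul]
  rw [f, ld_mul c (e ▸ h'), ld, ld, ld, e]

/-- A block diagonal unitary. -/
noncomputable def ubl (W : m → unitary (Matrix n n ℂ)) : unitary (Matrix (n × m) (n × m) ℂ) :=
  ⟨blockDiagonal fun k => (W k : Matrix n n ℂ), by
    constructor <;>
      rw [star_eq_conjTranspose, blockDiagonal_conjTranspose, ← blockDiagonal_mul,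
        ← blockDiagonal_one] <;> congr 1 <;> ext1 k
    · exact Unitary.star_mul_self_of_mem (W k).2
    · exact Unitary.mul_star_self_of_mem (W k).2⟩

lemma ubl_coe (W : m → unitary (Matrix n n ℂ)) :
    (ubl W : Matrix (n × m) (n × m) ℂ) = blockDiagonal fun k => (W k : Matrix n n ℂ) := rfl

lemma ud_ubl (W : m → unitary (Matrix n n ℂ)) (d : m → n → ℝ) :
    ud (ubl W) (fun i => d i.2 i.1) = blockDiagonal fun k => ud (W k) (d k) := by
  unfold ud
  rw [ubl_coe, star_eq_conjTranspose, blockDiagonal_conjTranspose, blockDiagonal_mul,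
    blockDiagonal_mul, blockDiagonal_diagonal]
  rfl

lemma ov_ubl (W : m → unitary (Matrix n n ℂ)) (V : unitary (Matrix m m ℂ)) (j i : n) (k l : m) :
    ov (ubl W) (uten 1 V) 1 (j, k) (i, l) = ov (W k) 1 1 j i * ov 1 V 1 k l := by
  unfold ov tw
  rw [← map_mul]
  congr 1
  simp [ubl_coe, uten_coe, star_eq_conjTranspose, blockDiagonal_conjTranspose, Matrix.mul_apply,
    Fintype.sum_prod_type, blockDiagonal_apply, one_apply]

lemma ld_kron_diag {P Q : Matrix n n ℂ} (hP : P.PosSemidef) (hQ : Q.PosSemidef)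
    (V : unitary (Matrix m m ℂ)) {a b : m → ℝ} (ha : ∀ i, 0 ≤ a i) (hb : ∀ i, 0 < b i) {t : ℝ}
    (ht : 0 < t) : ∑ k, ∑ l, ov 1 V 1 k l * ld (a k • P + b l • Q + t • 1) ≤
      ld (P ⊗ₖ (diagonal fun i => (a i : ℂ)) + Q ⊗ₖ ud V b + t • 1) := by
  obtain ⟨B, hB, rfl⟩ := exists_root hQ
  have x : ∀ k, ∃ G : Matrix n n ℂ, G.PosSemidef ∧ (a k • P + t • 1) * G = 1 := fun k => by
    obtain ⟨U, d, hd, e⟩ := exists_ud (hP.smul (ha k))
    exact ⟨_, ud_psd U fun i => by have := hd i; positivity, e ▸ (ud_res U hd ht).1⟩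
  choose G hG hG' using x
  choose W r hr e using fun k => exists_ud (psd_sandwich hB (hG k))
  have pos : ∀ k l j, 0 < r k j + (b l)⁻¹ := fun k l j => by
    have := hr k j; have := hb l; positivity
  have small : ∀ k l, ld (a k • P + b l • (B * B) + t • 1) =
      ld (a k • P + t • 1) + (∑ j, log (r k j + (b l)⁻¹) + Fintype.card n * log (b l)) := by
    intro k l
    have f : 1 + B * G k * B * (b l • 1) = ud (W k) fun j => (r k j + (b l)⁻¹) * b l := by
      rw [e, mul_smul_comm, mul_one, ud_smul, add_comm, ← one_smul ℝ (1 : Matrix n n ℂ), ud_shift]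
      congr 1
      ext j
      have := (hb l).ne'
      field_simp
    have nz : ∀ j, (r k j + (b l)⁻¹) * b l ≠ 0 := fun j => mul_ne_zero (pos k l j).ne' (hb l).ne'
    have g := ld_add (B := B) (Y := b l • 1) (hG' k) (by
      rw [f, det_ud, Complex.ofReal_ne_zero]
      exact Finset.prod_ne_zero_iff.2 fun j _ => nz j)
    rw [f, ld_ud _ nz, mul_smul_comm, mul_one, smul_mul_assoc] at g
    rw [add_right_comm, g]
    simp [log_mul (pos k l _).ne' (hb l).ne', Finset.sum_add_distrib]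
  have c₁ : P ⊗ₖ (diagonal fun i => (a i : ℂ)) + (B * B) ⊗ₖ ud V b + t • 1 =
      blockDiagonal (fun k => a k • P + t • 1) +
        blockDiagonal (fun _ => B) * ud (uten 1 V) (fun i => b i.2) * blockDiagonal fun _ => B := by
    have y := ud_uten (1 : unitary (Matrix n n ℂ)) V (fun _ => 1) b
    simp only [one_mul, ud_one] at y
    rw [← y, ← kronecker_one, ← mul_kronecker_mul, ← mul_kronecker_mul, mul_one, one_mul, mul_one,
      add_right_comm]
    congr 1
    ext ⟨i, k⟩ ⟨j, l⟩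
    by_cases h : k = l <;>
      simp [blockDiagonal_apply, one_apply, h, mul_comm]
  have c₂ : (blockDiagonal fun k => a k • P + t • (1 : Matrix n n ℂ)) * blockDiagonal G = 1 := by
    rw [← blockDiagonal_mul, ← blockDiagonal_one]
    congr 1
    ext1 k
    exact hG' k
  have c₃ : (1 : Matrix (n × m) (n × m) ℂ) + blockDiagonal (fun _ => B) * blockDiagonal G *
      blockDiagonal (fun _ => B) * ud (uten 1 V) (fun i => b i.2) =
      (ud (ubl W) (fun i => r i.2 i.1) + ud (uten 1 V) fun i => (b i.2)⁻¹) *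
        ud (uten 1 V) fun i => b i.2 := by
    rw [add_mul, ud_mul, ud_ubl, ← blockDiagonal_mul, ← blockDiagonal_mul, add_comm]
    simp only [e, inv_mul_cancel₀ (hb _).ne', ud_one]
  have d₁ := (PosDef.posSemidef_add (ud_psd (ubl W) fun i => hr i.2 i.1)
    (ud_pd (uten (1 : unitary (Matrix n n ℂ)) V) fun i => inv_pos.2 (hb i.2))).det_pos.ne'
  have d₂ := (ud_pd (uten (1 : unitary (Matrix n n ℂ)) V) fun i => hb i.2).det_pos.ne'
  have c₄ : ld (blockDiagonal fun k => a k • P + t • (1 : Matrix n n ℂ)) =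
      ∑ k, ld (a k • P + t • 1) := by
    rw [ld, det_blockDiagonal, norm_prod, log_prod fun k _ => norm_ne_zero_iff.2
      (left_ne_zero_of_mul_eq_one (by rw [← det_mul, hG', det_one]))]
    rfl
  have g := ld_sum_ge (ubl W) (uten 1 V) (a := fun i => r i.2 i.1) (b := fun i => (b i.2)⁻¹)
    (fun i => hr _ _) fun i => inv_pos.2 (hb _)
  rw [c₁, ld_add c₂ (by rw [c₃, det_mul]; exact mul_ne_zero d₁ d₂), c₃, ld_mul d₁ d₂, c₄,
    ld_ud _ fun i => (hb _).ne']
  refine le_of_eq_of_le ?_ (add_le_add le_rfl (add_le_add g le_rfl))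
  simp only [small, mul_add, Finset.sum_add_distrib, ← Finset.sum_mul, ov_one_row, one_mul,
    Fintype.sum_prod_type, ov_ubl]
  congr 2
  · simp only [Finset.mul_sum]
    conv_rhs => rw [Finset.sum_comm]
    refine Finset.sum_congr rfl fun k _ => ?_
    rw [Finset.sum_comm]
    refine Finset.sum_congr rfl fun j _ => ?_
    rw [Finset.sum_comm]
    simp only [mul_assoc, ← Finset.sum_mul, ov_one_row, one_mul]
  · rw [Finset.sum_comm]
    simp [← Finset.sum_mul, ov_one_col, Finset.mul_sum]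

lemma ld_cont {X Y : Matrix n n ℂ} (h : det X ≠ 0) :
    Tendsto (fun e : ℝ => ld (X + e • Y)) (𝓝[>] 0) (𝓝 (ld X)) := by
  have c : Continuous fun e : ℝ => ‖det (X + e • Y)‖ :=
    (continuous_const.add (continuous_id.smul continuous_const)).matrix_det.norm
  have := (c.continuousAt (x := 0)).log (by simpa using h)
  simpa [ld] using this.tendsto.mono_left nhdsWithin_le_nhds

lemma shift_pd {X : Matrix n n ℂ} (hX : X.PosSemidef) {t : ℝ} (ht : 0 < t) :
    (X + t • 1).PosDef := by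
  obtain ⟨U, d, hd, rfl⟩ := exists_ud hX
  rw [ud_shift]
  exact ud_pd U fun i => by have := hd i; positivity

lemma ld_tw (U : unitary (Matrix n n ℂ)) (X : Matrix n n ℂ) : ld (tw U U X) = ld X := by
  rw [ld, tw, det_mul_comm, ← mul_assoc, Unitary.mul_star_self_of_mem U.2, one_mul, ld]

lemma ld_kron {P Q : Matrix n n ℂ} (hP : P.PosSemidef) (hQ : Q.PosSemidef)
    (U V : unitary (Matrix m m ℂ)) {a b : m → ℝ} (ha : ∀ i, 0 ≤ a i) (hb : ∀ i, 0 ≤ b i) {t : ℝ}
    (ht : 0 < t) : ∑ k, ∑ l, ov U V 1 k l * ld (a k • P + b l • Q + t • 1) ≤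
      ld (P ⊗ₖ ud U a + Q ⊗ₖ ud V b + t • 1) := by
  have l₁ := tendsto_finsetSum Finset.univ fun k _ => tendsto_finsetSum Finset.univ fun l _ =>
    (ld_cont (Y := Q) (shift_pd ((hP.smul (ha k)).add (hQ.smul (hb l))) ht).det_pos.ne').const_mul
      (ov U V 1 k l)
  have l₂ := ld_cont (Y := Q ⊗ₖ (1 : Matrix m m ℂ)) (shift_pd ((hP.kronecker (ud_psd U ha)).add
    (hQ.kronecker (ud_psd V hb))) ht).det_pos.ne'
  refine le_of_tendsto_of_tendsto l₁ l₂ (eventually_mem_nhdsWithin.mono fun e (he : 0 < e) => ?_)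
  have k := ld_kron_diag hP hQ (star U * V) ha (b := fun i => b i + e)
    (fun i => by have := hb i; positivity) ht
  have o : ∀ k l, ov 1 (star U * V) 1 k l = ov U V 1 k l := fun k l => by simp [ov, tw]
  have u := Unitary.star_mul_self_of_mem U.2
  have w : P ⊗ₖ (diagonal fun i => (a i : ℂ)) + Q ⊗ₖ ud (star U * V) (fun i => b i + e) + t • 1 =
      tw (uten 1 U) (uten 1 U) (P ⊗ₖ ud U a + Q ⊗ₖ ud V b + t • 1 + e • Q ⊗ₖ 1) := by
    have z : ud (star U * V) (fun i => b i + e) = tw U U (ud V b + e • 1) := by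
      rw [ud_shift]
      simp [ud, tw, mul_assoc]
    rw [z, ← tw_ud U, add_right_comm _ (t • 1), add_assoc (P ⊗ₖ ud U a), ← kronecker_smul,
      ← kronecker_add]
    simp only [tw, uten_coe, star_eq_conjTranspose, conjTranspose_kronecker, mul_add, add_mul,
      mul_smul_comm, smul_mul_assoc, ← mul_kronecker_mul, OneMemClass.coe_one, conjTranspose_one,
      one_mul, mul_one]
    rw [← star_eq_conjTranspose, u, one_kronecker_one]
  rw [w, ld_tw] at k
  refine le_of_eq_of_le ?_ k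
  simp only [o, add_smul]
  exact Finset.sum_congr rfl fun k _ => Finset.sum_congr rfl fun l _ => by
    congr 2
    abel

/-- A one-sided Golden-Thompson type bound for the entropy of a sum of two products. -/
lemma vn_kron_ge {P Q : Matrix n n ℂ} (hP : P.PosSemidef) (hQ : Q.PosSemidef)
    (U V : unitary (Matrix m m ℂ)) {a b : m → ℝ} (ha : ∀ i, 0 ≤ a i) (hb : ∀ i, 0 ≤ b i) :
    ∑ k, ∑ l, ov U V 1 k l * vn (a k • P + b l • Q) ≤ vn (P ⊗ₖ ud U a + Q ⊗ₖ ud V b) := by
  obtain ⟨f, f0, hf⟩ := ray_mat ((hP.kronecker (ud_psd U ha)).add (hQ.kronecker (ud_psd V hb)))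
  choose g g0 hg using fun k l => ray_mat ((hP.smul (ha k)).add (hQ.smul (hb l)))
  have kr : ∀ (X : Matrix n n ℂ) (Y : Matrix m m ℂ), X.IsHermitian → rt (X ⊗ₖ Y) = rt X * rt Y :=
    fun X Y hX => by
      simpa using rt_kron_mul (X' := Y) (Y' := 1) hX isHermitian_one
  have tr : rt (P ⊗ₖ ud U a + Q ⊗ₖ ud V b) = ∑ k, ∑ l, ov U V 1 k l * rt (a k • P + b l • Q) := by
    rw [rt_add, kr _ _ hP.1, kr _ _ hQ.1, rt_ud, rt_ud]
    simp only [rt_add, rt_smul, mul_add, Finset.sum_add_distrib, ← Finset.sum_mul, ov_one_row]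
    rw [Finset.sum_comm]
    simp only [← Finset.sum_mul, ov_one_col, one_mul, mul_comm]
  have := (hf.sub (Ray.sum fun k => Ray.sum fun l => (hg k l).mul (ov U V 1 k l))).nonneg
    fun t ht => by
      have x := ld_kron hP hQ U V ha hb ht
      simp only [mul_add, Finset.sum_add_distrib, ← Finset.sum_mul, ov_one_row, mul_neg,
        Finset.sum_neg_distrib, ← mul_assoc, ← tr]
      simp only [Finset.sum_const, Finset.card_univ, nsmul_eq_mul, Fintype.card_prod, Nat.cast_mul,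
        mul_one]
      linarith
  simp only [f0, g0, mul_add, Finset.sum_add_distrib, ← tr] at this
  linarith

lemma ce_kron_le {P Q : Matrix n n ℂ} (hP : P.PosSemidef) (hQ : Q.PosSemidef)
    (U V : unitary (Matrix m m ℂ)) {a b : m → ℝ} (ha : ∀ i, 0 ≤ a i) (hb : ∀ i, 0 ≤ b i) :
    ce (P ⊗ₖ ud U a) (Q ⊗ₖ ud V b) ≤ ∑ k, ∑ l, ov U V 1 k l * ce (a k • P) (b l • Q) := by
  have := vn_kron_ge hP hQ U V ha hb
  have one : ∀ {X : Matrix n n ℂ} (W : unitary (Matrix m m ℂ)) {c : m → ℝ}, X.PosSemidef →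
      (∀ i, 0 ≤ c i) → vn (X ⊗ₖ ud W c) = ∑ k, vn (c k • X) := fun W c hX hc => by
    rw [vn_kron hX (ud_psd W hc), rt_ud, vn_ud]
    simp only [vn_smul hX, Finset.sum_add_distrib, ← Finset.sum_mul, mul_comm]
  simp only [ce, mul_sub, mul_add, Finset.sum_sub_distrib, Finset.sum_add_distrib,
    ← Finset.sum_mul, ov_one_row, one_mul]
  rw [Finset.sum_comm]
  simp only [← Finset.sum_mul, ov_one_col, one_mul]
  rw [one U hP ha, one V hQ hb]
  linarith

/-- The second order lower bound on the conditional entropy of a pair. -/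
lemma ce_lower (U V : unitary (Matrix m m ℂ)) {a b : m → ℝ} (ha : ∀ i, 0 ≤ a i)
    (hb : ∀ i, 0 ≤ b i) :
    ∑ k, ∑ l, ov U V 1 k l * (a k * b l * lg (a k) (b l)) ≤ ce (ud U a) (ud V b) := by
  set A := ud U fun i => √(a i) with hA
  set B := ud V fun i => √(b i) with hB
  have hAh : A.IsHermitian := ud_herm _ _
  have hBh : B.IsHermitian := ud_herm _ _
  have aa : A * A = ud U a := by
    rw [hA, ud_mul]
    simp only [mul_self_sqrt (ha _)]
  have bb : B * B = ud V b := by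
    rw [hB, ud_mul]
    simp only [mul_self_sqrt (hb _)]
  have hD : (fromBlocks 0 (A * B) (B * A) 0).IsHermitian := by
    rw [IsHermitian, fromBlocks_conjTranspose, conjTranspose_mul, conjTranspose_mul, hAh.eq,
      hBh.eq, conjTranspose_zero]
  obtain ⟨W, c, hc, e⟩ := exists_ud (posSemidef_self_mul_conjTranspose (fromRows A B))
  obtain ⟨W', c', hc', e'⟩ := exists_ud (posSemidef_self_mul_conjTranspose (fromRows A (-B)))
  have v := vn_comm (fromRows A B)
  have v' := vn_comm (fromRows A (-B))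
  rw [e, vn_ud] at v
  rw [e', vn_ud] at v'
  rw [conjTranspose_fromRows_eq_fromCols_conjTranspose] at e e' v v'
  rw [fromRows_mul_fromCols] at e e'
  rw [fromCols_mul_fromRows] at v v'
  simp only [conjTranspose_neg, hAh.eq, hBh.eq, aa, bb, mul_neg, neg_mul, neg_neg] at e e' v v'
  have x : ∀ k l, Complex.normSq (tw U V (A * B) k l) = ov U V 1 k l * (a k * b l) := by
    intro k l
    rw [← mul_one A, ← tw_mul U V V, ← tw_mul U U V, tw_ud, tw_ud, mul_diagonal, diagonal_mul,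
      map_mul, map_mul, Complex.normSq_ofReal, Complex.normSq_ofReal, mul_self_sqrt (ha _),
      mul_self_sqrt (hb _), ov]
    ring
  have y : ∀ k l, Complex.normSq (tw V U (B * A) l k) = ov U V 1 k l * (b l * a k) := by
    intro k l
    rw [mul_comm (b l), ← x, ← Complex.normSq_conj, ← Complex.star_def, ← conjTranspose_apply,
      tw_star, conjTranspose_mul, hAh.eq, hBh.eq]
  have z : tw (usum U V) (usum U V) (fromBlocks 0 (A * B) (B * A) 0) =
      fromBlocks 0 (tw U V (A * B)) (tw V U (B * A)) 0 := by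
    simp [tw, usum_coe, star_eq_conjTranspose, fromBlocks_conjTranspose, fromBlocks_multiply]
  have k := vn_second (usum U V) W W' (s := Sum.elim a b) (fun i => by cases i <;> simp [ha, hb])
    hc hc' hD (by rw [ud_usum, ← e, fromBlocks_add]; simp)
    (by rw [ud_usum, ← e', sub_eq_add_neg, fromBlocks_neg, fromBlocks_add]; simp)
    (w := Sum.elim (fun k => Sum.elim (fun _ => 0) fun l => ov U V 1 k l)
      fun l => Sum.elim (fun k => ov U V 1 k l) fun _ => 0)
    (fun i j => by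
      rw [ov, z]
      cases i <;> cases j <;> simp [x, y])
    (fun i j => by cases i <;> cases j <;> simp)
  rw [v, v'] at k
  simp only [Fintype.sum_sum_type, Sum.elim_inl, Sum.elim_inr, zero_mul, Finset.sum_const_zero,
    zero_add, add_zero] at k
  rw [Finset.sum_comm (f := fun l k => ov U V 1 k l * (b l * a k * lg (b l) (a k)))] at k
  simp only [lg_comm (b _), mul_comm (b _)] at k
  rw [ce, vn_ud, vn_ud]
  linarith

end Pool.Agent.MP_560646_mp

end

section

namespace Pool.Agent.MP_560646_mp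

open Matrix Real Set Filter Topology
open scoped ComplexOrder MatrixOrder

variable {n : Type} [Fintype n] [DecidableEq n]

/-- The trace of the positive part. -/
noncomputable def pp (X : Matrix n n ℂ) : ℝ := rt (cfc (fun x : ℝ => max x 0) X)

lemma pp_ud (U : unitary (Matrix n n ℂ)) (d : n → ℝ) : pp (ud U d) = ∑ i, max (d i) 0 := by
  rw [← rt_ud U]
  unfold pp ud
  rw [cfc_unitary_diag]

lemma herm_ud {X : Matrix n n ℂ} (hX : X.IsHermitian) :
    ∃ (U : unitary (Matrix n n ℂ)) (d : n → ℝ), X = ud U d :=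
  ⟨hX.eigenvectorUnitary, hX.eigenvalues, hX.spectral_theorem⟩

lemma pp_nonneg {X : Matrix n n ℂ} (hX : X.IsHermitian) : 0 ≤ pp X := by
  obtain ⟨U, d, rfl⟩ := herm_ud hX
  rw [pp_ud]
  exact Finset.sum_nonneg fun i _ => le_max_right _ _

lemma le_pp {X T : Matrix n n ℂ} (hX : X.IsHermitian) (h₀ : T.PosSemidef)
    (h₁ : (1 - T).PosSemidef) : rt (X * T) ≤ pp X := by
  obtain ⟨U, d, rfl⟩ := herm_ud hX
  rw [pp_ud, rt_ud_mul]
  refine Finset.sum_le_sum fun i _ => ?_
  have a := dg_nonneg U h₀ i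
  have b := dg_mono U h₁ i
  rw [dg_one] at b
  nlinarith [le_max_left (d i) 0, le_max_right (d i) 0]

lemma exists_pp {X : Matrix n n ℂ} (hX : X.IsHermitian) :
    ∃ T : Matrix n n ℂ, T.PosSemidef ∧ (1 - T).PosSemidef ∧ rt (X * T) = pp X := by
  obtain ⟨U, d, rfl⟩ := herm_ud hX
  refine ⟨ud U fun i => if 0 ≤ d i then 1 else 0, ud_psd U fun i => by positivity, ?_, ?_⟩
  · have : 1 - ud U (fun i => if 0 ≤ d i then 1 else 0) =
        ud U fun i => 1 - if 0 ≤ d i then 1 else 0 := by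
      rw [sub_eq_iff_eq_add, ud_add, ← ud_one U]
      simp
    rw [this]
    exact ud_psd U fun i => by split_ifs <;> norm_num
  · rw [ud_mul, rt_ud, pp_ud]
    refine Finset.sum_congr rfl fun i _ => ?_
    split_ifs with h
    · rw [mul_one, max_eq_left h]
    · rw [mul_zero, max_eq_right (not_le.1 h).le]

lemma pp_conv {X Y Z : Matrix n n ℂ} (hX : X.IsHermitian) (hY : Y.IsHermitian)
    (hZ : Z.IsHermitian) {a b : ℝ} (ha : 0 ≤ a) (hb : 0 ≤ b)
    (h : (a • X + b • Y - Z).PosSemidef) : pp Z ≤ a * pp X + b * pp Y := by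
  obtain ⟨T, h₀, h₁, e⟩ := exists_pp hZ
  have c := rt_mul_nonneg h h₀
  rw [sub_mul, add_mul, smul_mul_assoc, smul_mul_assoc, rt_sub, rt_add, rt_smul, rt_smul] at c
  nlinarith [mul_le_mul_of_nonneg_left (le_pp hX h₀ h₁) ha,
    mul_le_mul_of_nonneg_left (le_pp hY h₀ h₁) hb]

lemma pp_neg {X : Matrix n n ℂ} (hX : X.IsHermitian) : pp (-X) = pp X - rt X := by
  obtain ⟨U, d, rfl⟩ := herm_ud hX
  rw [← neg_one_smul ℝ, ud_smul, pp_ud, pp_ud, rt_ud, ← Finset.sum_sub_distrib]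
  refine Finset.sum_congr rfl fun i _ => ?_
  rcases le_total (d i) 0 with h | h
  · rw [max_eq_left (by linarith), max_eq_right h]
    ring
  · rw [max_eq_right (by linarith), max_eq_left h]
    ring

lemma pp_le_rt {X S : Matrix n n ℂ} (hX : X.IsHermitian) (hS : S.PosSemidef)
    (h : (S - X).PosSemidef) : pp X ≤ rt S := by
  obtain ⟨T, h₀, h₁, e⟩ := exists_pp hX
  have a := rt_mul_nonneg h h₀
  have b := rt_mul_nonneg hS h₁
  rw [sub_mul, rt_sub] at a
  rw [mul_sub, mul_one, rt_sub] at b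
  linarith

omit [Fintype n] [DecidableEq n] in
lemma herm_smul {S : Matrix n n ℂ} (hS : S.IsHermitian) (r : ℝ) : (r • S).IsHermitian :=
  hS.smul (show IsSelfAdjoint r from rfl)

/-- The symmetrised hockey stick function of a pair. -/
noncomputable def hk (S D : Matrix n n ℂ) (r : ℝ) : ℝ := pp (D - r • S) + pp (-D - r • S)

lemma hk_nonneg {S D : Matrix n n ℂ} (hS : S.IsHermitian) (hD : D.IsHermitian) (r : ℝ) :
    0 ≤ hk S D r :=
  add_nonneg (pp_nonneg (hD.sub (herm_smul hS r))) (pp_nonneg (hD.neg.sub (herm_smul hS r)))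

lemma pp_mono {X Y : Matrix n n ℂ} (hX : X.IsHermitian) (hY : Y.IsHermitian)
    (h : (Y - X).PosSemidef) : pp X ≤ pp Y := by
  simpa using pp_conv hY hY hX zero_le_one le_rfl (by simpa using h)

lemma hk_anti {S D : Matrix n n ℂ} (hS : S.PosSemidef) (hD : D.IsHermitian) :
    Antitone (hk S D) := by
  intro r s h
  have one : ∀ D : Matrix n n ℂ, D.IsHermitian → pp (D - s • S) ≤ pp (D - r • S) := fun D hD =>
    pp_mono (hD.sub (herm_smul hS.1 s)) (hD.sub (herm_smul hS.1 r)) (by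
      rw [sub_sub_sub_cancel_left, ← sub_smul]
      exact hS.smul (sub_nonneg.2 h))
  exact add_le_add (one D hD) (one _ hD.neg)

lemma hk_lip {S D : Matrix n n ℂ} (hS : S.IsHermitian) (hD : D.IsHermitian) {r s : ℝ}
    (hr : 0 ≤ r) (h : r ≤ s) : hk S D r + r * rt S ≤ hk S D s + s * rt S := by
  rcases h.eq_or_lt with rfl | h
  · rfl
  have s0 : 0 < s := hr.trans_lt h
  have ha : 0 ≤ (s + r) / (2 * s) := by positivity
  have hb : 0 ≤ (s - r) / (2 * s) := div_nonneg (by linarith) (by positivity)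
  have one : ∀ D : Matrix n n ℂ, D.IsHermitian → pp (D - r • S) ≤
      (s + r) / (2 * s) * pp (D - s • S) +
        (s - r) / (2 * s) * (pp (-D - s • S) + (rt D + s * rt S)) := fun D hD => by
    have e := pp_neg (hD.neg.sub (herm_smul hS s))
    have := pp_conv (hD.sub (herm_smul hS s)) (hD.neg.sub (herm_smul hS s)).neg
      (hD.sub (herm_smul hS r)) ha hb (by
        have : ((s + r) / (2 * s)) • (D - s • S) + ((s - r) / (2 * s)) • (-(-D - s • S)) -
            (D - r • S) = 0 := by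
          match_scalars <;> field_simp <;> ring
        rw [this]
        exact PosSemidef.zero)
    rw [e, rt_sub, rt_smul, ← neg_one_smul ℝ D, rt_smul, neg_one_smul] at this
    linarith
  have a := one D hD
  have b := one _ hD.neg
  rw [neg_neg, ← neg_one_smul ℝ D, rt_smul, neg_one_smul] at b
  have c : (s + r) / (2 * s) = 1 - (s - r) / (2 * s) := by field_simp; ring
  have d : (s - r) / (2 * s) * (s * rt S) = (s * rt S - r * rt S) / 2 := by field_simp
  rw [c] at a b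
  unfold hk
  nlinarith

lemma hk_one {S D : Matrix n n ℂ} (h₁ : (S + D).PosSemidef) (h₂ : (S - D).PosSemidef)
    (hS : S.IsHermitian) (hD : D.IsHermitian) {r : ℝ} (h₀ : 0 ≤ r) (hr : r ≤ 1) :
    hk S D r ≤ (1 - r) * rt S := by
  have a := hk_lip hS hD h₀ hr
  have b := pp_le_rt (hD.sub (herm_smul hS 1)) PosSemidef.zero (by simpa using h₂)
  have c := pp_le_rt (hD.neg.sub (herm_smul hS 1)) PosSemidef.zero (by
    simpa [sub_eq_add_neg] using h₁)
  have z : rt (0 : Matrix n n ℂ) = 0 := by simp [rt]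
  unfold hk at a ⊢
  linarith

lemma count_le (U V : unitary (Matrix n n ℂ)) {d e : n → ℝ} {Y : Matrix n n ℂ}
    (h : ud U d = Yᴴ * ud V e * Y) :
    Fintype.card {i // 0 < d i} ≤ Fintype.card {i // 0 < e i} := by
  set L := tw V U Y
  have k : diagonal (fun i => (d i : ℂ)) = Lᴴ * diagonal (fun i => (e i : ℂ)) * L := by
    rw [← tw_ud U, ← tw_ud V, tw_star, tw_mul, tw_mul, h]
  have inj : Function.Injective (L.submatrix (Subtype.val : {i // 0 < e i} → n)
      (Subtype.val : {i // 0 < d i} → n)).mulVecLin := by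
    rw [injective_iff_map_eq_zero]
    intro x hx
    set y : n → ℂ := fun i => if h : 0 < d i then x ⟨i, h⟩ else 0 with hy
    have a : ∀ j, 0 < e j → (L *ᵥ y) j = 0 := fun j hj => by
      refine Eq.trans ?_ (congrFun hx ⟨j, hj⟩)
      simp only [mulVecLin_apply, mulVec, dotProduct, submatrix_apply]
      rw [← Fintype.sum_subtype_add_sum_subtype fun i => 0 < d i]
      have y₁ : ∀ i : {i // 0 < d i}, y i = x i := fun i => dif_pos i.2
      have y₂ : ∀ i : {i // ¬ 0 < d i}, y i = 0 := fun i => dif_neg i.2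
      simp only [y₁, y₂, mul_zero, Finset.sum_const_zero, add_zero]
    have q : ∀ (c : n → ℝ) (z : n → ℂ), (star z ⬝ᵥ (diagonal (fun i => (c i : ℂ)) *ᵥ z)).re =
        ∑ i, c i * Complex.normSq (z i) := fun c z => by
      simp only [dotProduct, mulVec_diagonal, Complex.re_sum]
      refine Finset.sum_congr rfl fun i _ => ?_
      rw [Pi.star_apply, mul_left_comm, Complex.star_def, ← Complex.normSq_eq_conj_mul_self,
        ← Complex.ofReal_mul, Complex.ofReal_re]
    have b := q d y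
    rw [k, ← mulVec_mulVec, ← mulVec_mulVec, dotProduct_mulVec, ← star_mulVec, q] at b
    have c : ∑ i, e i * Complex.normSq ((L *ᵥ y) i) ≤ 0 := Finset.sum_nonpos fun j _ => by
      by_cases hj : 0 < e j
      · simp [a j hj]
      · exact mul_nonpos_of_nonpos_of_nonneg (not_lt.1 hj) (Complex.normSq_nonneg _)
    have nn : ∀ i, 0 ≤ d i * Complex.normSq (y i) := fun i => by
      by_cases hi : 0 < d i
      · exact mul_nonneg hi.le (Complex.normSq_nonneg _)
      · simp [hy, hi]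
    have z := (Finset.sum_eq_zero_iff_of_nonneg fun i _ => nn i).1
      (le_antisymm (b ▸ c) (Finset.sum_nonneg fun i _ => nn i))
    ext ⟨i, hi⟩
    simpa [hy, hi, hi.ne'] using z i (Finset.mem_univ i)
  simpa using LinearMap.finrank_le_finrank_of_injective inj

lemma pp_deriv (U V : unitary (Matrix n n ℂ)) {d e : n → ℝ} {Y Z : Matrix n n ℂ} {r t : ℝ}
    (hY : Y.IsHermitian) (hZ : Z.IsHermitian) (hYZ : Y * Z = 1)
    (h : ud U (fun i => d i - r * t) = Y * ud V e * Y) (he : ∀ i, e i ≠ 0) :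
    HasDerivAt (fun s => ∑ i, max (d i - r * s) 0) (∑ i, if 0 < e i then -r else 0) t := by
  have c₁ := count_le U V (Y := Y) (by rw [hY.eq]; exact h)
  have c₂ := count_le V U (Y := Z) (d := e) (e := fun i => d i - r * t) (by
    rw [hZ.eq, h, ← mul_assoc, ← mul_assoc, mul_eq_one_comm.1 hYZ, one_mul, mul_assoc, hYZ,
      mul_one])
  have nz : ∀ i, d i - r * t ≠ 0 := by
    have y : det Y ≠ 0 := left_ne_zero_of_mul_eq_one (by rw [← det_mul, hYZ, det_one])
    have := congrArg det h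
    rw [det_mul, det_mul, det_ud, det_ud] at this
    have z : ∏ i, (d i - r * t) ≠ 0 := by
      rw [← Complex.ofReal_ne_zero, this]
      exact mul_ne_zero (mul_ne_zero y (Complex.ofReal_ne_zero.2
        (Finset.prod_ne_zero_iff.2 fun i _ => he i))) y
    exact fun i => Finset.prod_ne_zero_iff.1 z i (Finset.mem_univ i)
  have one : ∀ i, HasDerivAt (fun s => max (d i - r * s) 0)
      (if 0 < d i - r * t then -r else 0) t := by
    intro i
    have c : Continuous fun s => d i - r * s := by fun_prop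
    split_ifs with hi
    · have := ((hasDerivAt_id t).const_mul r).const_sub (d i)
      rw [mul_one] at this
      exact this.congr_of_eventuallyEq ((c.continuousAt.eventually (lt_mem_nhds hi)).mono
        fun s hs => max_eq_left hs.le)
    · exact (hasDerivAt_const t 0).congr_of_eventuallyEq ((c.continuousAt.eventually
        (gt_mem_nhds ((not_lt.1 hi).lt_of_ne (nz i)))).mono fun s hs => max_eq_right hs.le)
  refine (HasDerivAt.fun_sum fun i _ => one i).congr_deriv ?_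
  simp only [← Finset.sum_filter, Finset.sum_const, ← Fintype.card_subtype, le_antisymm c₁ c₂]

end Pool.Agent.MP_560646_mp

end

section

namespace Pool.Agent.MP_560646_mp

open Matrix Real Set Filter Topology MeasureTheory
open scoped ComplexOrder MatrixOrder

variable {n : Type} [Fintype n] [DecidableEq n]

/-- The weight in the integral formula. -/
noncomputable def wt (t r : ℝ) : ℝ := t ^ 2 / (1 - t ^ 2 * r ^ 2)

lemma wt_den {t r : ℝ} (ht : t ∈ Icc (0 : ℝ) 1) (h₀ : 0 ≤ r) (h₁ : r < 1) :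
    0 < 1 - t ^ 2 * r ^ 2 := by
  have a : t ^ 2 ≤ 1 := by nlinarith [ht.1, ht.2]
  have b : r ^ 2 < 1 := by nlinarith
  nlinarith [sq_nonneg r]

lemma wt_bd {t r : ℝ} (ht : t ∈ Icc (0 : ℝ) 1) (hr : r ∈ Ioo (0 : ℝ) 1) :
    0 ≤ wt t r ∧ wt t r * (1 - r) ≤ 1 := by
  have d := wt_den ht hr.1.le hr.2
  refine ⟨div_nonneg (sq_nonneg t) d.le, ?_⟩
  have a : t ^ 2 ≤ 1 := by nlinarith [ht.1, ht.2]
  rw [wt, div_mul_eq_mul_div, div_le_one d]
  nlinarith [mul_nonneg (sq_nonneg t) (mul_nonneg hr.1.le (sub_nonneg.2 hr.2.le))]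

lemma wt_meas (t : ℝ) : Measurable (wt t) := by
  unfold wt
  fun_prop

lemma wt_int {t c : ℝ} (ht : t ∈ Icc (0 : ℝ) 1) (h₀ : 0 ≤ c) (h₁ : c < 1) :
    IntegrableOn ((Iio c).indicator fun r => -(wt t r * r)) (Ioo 0 1) ∧
      ∫ r in Ioo (0 : ℝ) 1, (Iio c).indicator (fun r => -(wt t r * r)) r =
        log (1 - t ^ 2 * c ^ 2) / 2 := by
  have den : ∀ r ∈ Icc 0 c, 1 - t ^ 2 * r ^ 2 ≠ 0 := fun r hr =>
    (wt_den ht hr.1 (hr.2.trans_lt h₁)).ne'
  have cont : ContinuousOn (fun r => -(wt t r * r)) (Icc 0 c) :=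
    ((continuousOn_const.div (by fun_prop) den).mul continuousOn_id).neg
  have e : Iio c ∩ Ioo 0 1 = Ioo 0 c := by
    ext r
    exact ⟨fun h => ⟨h.2.1, h.1⟩, fun h => ⟨h.2, h.1, h.2.trans h₁⟩⟩
  constructor
  · rw [IntegrableOn, integrable_indicator_iff measurableSet_Iio, IntegrableOn,
      Measure.restrict_restrict measurableSet_Iio, e]
    exact cont.integrableOn_Icc.mono_set Ioo_subset_Icc_self
  · rw [integral_indicator measurableSet_Iio, Measure.restrict_restrict measurableSet_Iio, e,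
      ← integral_Ioc_eq_integral_Ioo, ← intervalIntegral.integral_of_le h₀,
      intervalIntegral.integral_eq_sub_of_hasDerivAt (f := fun r => log (1 - t ^ 2 * r ^ 2) / 2)
        (fun r hr => ?_) (by rw [← uIcc_of_le h₀] at cont; exact cont.intervalIntegrable)]
    · simp
    · rw [uIcc_of_le h₀] at hr
      have := den r hr
      refine (((((hasDerivAt_pow 2 r).const_mul (t ^ 2)).const_sub 1).log this).div_const
        2).congr_deriv ?_
      unfold wt
      field_simp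
      norm_num
      ring

lemma shift_form {S D : Matrix n n ℂ} (hS : S.IsHermitian) (hD : D.IsHermitian) (r : ℝ) :
    ∃ (U : unitary (Matrix n n ℂ)) (d : n → ℝ), ∀ s : ℝ,
      D - r • (S + s • 1) = ud U fun i => d i - r * s := by
  obtain ⟨U, d, h⟩ := herm_ud (hD.sub (herm_smul hS r))
  refine ⟨U, d, fun s => ?_⟩
  simp only [sub_eq_add_neg (d _)]
  rw [← ud_shift, ← h]
  module

lemma max_lip {d r a s u : ℝ} (hr : 0 ≤ r) (ha : 0 < a) (hs : a ≤ s) (hu : a ≤ u) :
    |max (d - r * s) 0 - max (d - r * u) 0| ≤ max d 0 / a * |s - u| := by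
  rcases le_total d (r * a) with h | h
  · rw [max_eq_right (by nlinarith), max_eq_right (by nlinarith), sub_self, abs_zero]
    positivity
  · refine (abs_max_sub_max_le_abs _ _ _).trans ?_
    rw [sub_sub_sub_cancel_left, ← mul_sub, abs_mul, abs_sub_comm, abs_of_nonneg hr]
    refine mul_le_mul_of_nonneg_right ?_ (abs_nonneg _)
    rw [le_div_iff₀ ha]
    exact h.trans (le_max_left _ _)

lemma hk_shift {S D : Matrix n n ℂ} (hS : S.IsHermitian) (hD : D.IsHermitian) {r s : ℝ}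
    (hr : 0 ≤ r) (hs : 0 ≤ s) : hk (S + s • 1) D r ≤ hk S D r := by
  have one : ∀ D : Matrix n n ℂ, D.IsHermitian → pp (D - r • (S + s • 1)) ≤ pp (D - r • S) :=
    fun D hD => pp_mono (hD.sub (herm_smul (hS.add (herm_smul isHermitian_one s)) r))
      (hD.sub (herm_smul hS r)) (by
        rw [sub_sub_sub_cancel_left, ← smul_sub, add_sub_cancel_left]
        exact (PosSemidef.one.smul hs).smul hr)
  exact add_le_add (one D hD) (one _ hD.neg)

lemma whk_bd {S D : Matrix n n ℂ} (hS : S.PosSemidef) (hD : D.IsHermitian)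
    (h₁ : (S + D).PosSemidef) (h₂ : (S - D).PosSemidef) {t r : ℝ} (ht : t ∈ Icc (0 : ℝ) 1)
    (hr : r ∈ Ioo (0 : ℝ) 1) : wt t r * hk S D r ≤ rt S := by
  obtain ⟨a, b⟩ := wt_bd ht hr
  have c := mul_le_mul_of_nonneg_left (hk_one h₁ h₂ hS.1 hD hr.1.le hr.2.le) a
  nlinarith [rt_nonneg hS]

lemma whk_meas {S D : Matrix n n ℂ} (hS : S.PosSemidef) (hD : D.IsHermitian) (t : ℝ) :
    AEStronglyMeasurable (fun r => wt t r * hk S D r) (volume.restrict (Ioo 0 1)) :=
  ((wt_meas t).mul (hk_anti hS hD).measurable).aestronglyMeasurable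

lemma whk_norm {S D : Matrix n n ℂ} (hS : S.PosSemidef) (hD : D.IsHermitian)
    (h₁ : (S + D).PosSemidef) (h₂ : (S - D).PosSemidef) {t s : ℝ} (ht : t ∈ Icc (0 : ℝ) 1)
    (hs : 0 ≤ s) : ∀ᵐ r ∂(volume.restrict (Ioo (0 : ℝ) 1)),
      ‖wt t r * hk (S + s • 1) D r‖ ≤ rt S := by
  refine (ae_restrict_mem measurableSet_Ioo).mono fun r hr => ?_
  have a := (wt_bd ht hr).1
  rw [norm_of_nonneg (mul_nonneg a (hk_nonneg (hS.add (PosSemidef.one.smul hs)).1 hD r))]
  exact (mul_le_mul_of_nonneg_left (hk_shift hS.1 hD hr.1.le hs) a).trans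
    (whk_bd hS hD h₁ h₂ ht hr)

lemma whk_int {S D : Matrix n n ℂ} (hS : S.PosSemidef) (hD : D.IsHermitian)
    (h₁ : (S + D).PosSemidef) (h₂ : (S - D).PosSemidef) {t s : ℝ} (ht : t ∈ Icc (0 : ℝ) 1)
    (hs : 0 ≤ s) : IntegrableOn (fun r => wt t r * hk (S + s • 1) D r) (Ioo 0 1) :=
  (integrable_const (rt S)).mono' (whk_meas (hS.add (PosSemidef.one.smul hs)) hD t)
    (whk_norm hS hD h₁ h₂ ht hs)

lemma whk_deriv {S D : Matrix n n ℂ} (hS : S.PosSemidef) (hD : D.IsHermitian)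
    (h₁ : (S + D).PosSemidef) (h₂ : (S - D).PosSemidef) {t s : ℝ} (ht : t ∈ Icc (0 : ℝ) 1)
    (hs : 0 < s) : HasDerivAt (fun s : ℝ => ∫ r in Ioo (0 : ℝ) 1, wt t r * hk (S + s • 1) D r)
      (ld (S + t • D + s • 1) / 2 + ld (S - t • D + s • 1) / 2 - ld (S + s • 1)) s := by
  obtain ⟨V, a, ha, e⟩ := exists_ud_pos (shift_pd hS hs)
  set Y := ud V fun i => √(a i) with hY
  set Z := ud V fun i => (√(a i))⁻¹ with hZ
  have hYh : Y.IsHermitian := ud_herm _ _
  have hZh : Z.IsHermitian := ud_herm _ _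
  have yz : Y * Z = 1 := by
    rw [hY, hZ, ud_mul, ← ud_one V]
    simp only [mul_inv_cancel₀ (sqrt_pos.2 (ha _)).ne']
  have yy : Y * Y = S + s • 1 := by
    rw [hY, ud_mul, e]
    simp only [mul_self_sqrt (ha _).le]
  have y0 : det Y ≠ 0 := left_ne_zero_of_mul_eq_one (by rw [← det_mul, yz, det_one])
  obtain ⟨W, μ, hμ⟩ := herm_ud (X := Z * D * Z) (by
    have := isHermitian_mul_mul_conjTranspose Z hD
    rwa [hZh.eq] at this)
  have key : ∀ x c : ℝ, x • (S + s • 1) + c • D = Y * ud W (fun i => c * μ i + x) * Y := by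
    intro x c
    rw [← ud_shift, ← ud_smul, ← hμ, mul_add, add_mul, mul_smul_comm, smul_mul_assoc,
      mul_smul_comm, smul_mul_assoc, mul_one, yy, ← mul_assoc, ← mul_assoc, yz, one_mul, mul_assoc,
      mul_eq_one_comm.1 yz, mul_one, add_comm]
  have pos : ∀ c : ℝ, (S + c • D).PosSemidef → ∀ i, 0 < c * μ i + 1 := by
    intro c hc i
    have p := shift_pd hc hs
    rw [add_right_comm, ← one_smul ℝ (S + s • 1), key] at p
    have q := psd_sandwich hZh p.posSemidef
    rw [← mul_assoc, ← mul_assoc, mul_eq_one_comm.1 yz, one_mul, mul_assoc, yz, mul_one] at q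
    have r := dg_nonneg W q i
    rw [dg_self] at r
    refine r.lt_of_ne' fun h => p.det_pos.ne' ?_
    rw [det_mul, det_mul, det_ud W, Finset.prod_eq_zero (Finset.mem_univ i) h]
    simp
  have lt : ∀ i, |μ i| < 1 := fun i => by
    have a := pos 1 (by simpa using h₁) i
    have b := pos (-1) (by simpa [sub_eq_add_neg] using h₂) i
    exact abs_lt.2 ⟨by linarith, by linarith⟩
  have lds : ∀ c : ℝ, |c| ≤ 1 → ld (S + c • D + s • 1) = 2 * ld Y + ∑ i, log (c * μ i + 1) := by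
    intro c hc
    have nz : ∀ i, c * μ i + 1 ≠ 0 := fun i => by
      have : |c * μ i| < 1 := by
        rw [abs_mul]
        nlinarith [lt i, abs_nonneg c, abs_nonneg (μ i)]
      linarith [(abs_lt.1 this).1]
    have dz : det (ud W fun i => c * μ i + 1) ≠ 0 := by
      rw [det_ud, Complex.ofReal_ne_zero]
      exact Finset.prod_ne_zero_iff.2 fun i _ => nz i
    rw [add_right_comm, ← one_smul ℝ (S + s • 1), key, ld_mul (by rw [det_mul]; exact mul_ne_zero y0 dz) y0,
      ld_mul y0 dz, ld_ud W nz]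
    ring
  have main := (hasDerivAt_integral_of_dominated_loc_of_lip (μ := volume.restrict (Ioo (0 : ℝ) 1))
    (F := fun s r => wt t r * hk (S + s • 1) D r) (x₀ := s) (s := Ioi (s / 2))
    (bound := fun _ => rt S / (s / 2))
    (F' := fun r => ∑ i, (Iio |μ i|).indicator (fun r => -(wt t r * r)) r)
    (Ioi_mem_nhds (by linarith))
    ((eventually_gt_nhds hs).mono fun x hx => whk_meas (hS.add (PosSemidef.one.smul hx.le)) hD t)
    (whk_int hS hD h₁ h₂ ht hs.le)
    (Finset.measurable_sum _ fun i _ => ((wt_meas t).mul measurable_id).neg.indicator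
      measurableSet_Iio).aestronglyMeasurable
    ((ae_restrict_mem measurableSet_Ioo).mono fun r hr => ?_) (integrable_const _)
    (((ae_restrict_mem measurableSet_Ioo).and (ae_restrict_of_ae
      ((Set.countable_range fun i => |μ i|).ae_notMem volume))).mono fun r hr => ?_)).2
  · refine main.congr_deriv ?_
    have t1 : |t| ≤ 1 := abs_le.2 ⟨by linarith [ht.1], ht.2⟩
    have z := lds 0 (by simp)
    rw [zero_smul, add_zero] at z
    rw [integral_finsetSum _ fun i _ => (wt_int ht (abs_nonneg _) (lt i)).1, sub_eq_add_neg S,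
      ← neg_smul, lds t t1, lds (-t) (by rwa [abs_neg]), z]
    simp only [fun i => (wt_int ht (abs_nonneg _) (lt i)).2, zero_mul, zero_add, log_one,
      Finset.sum_const_zero, sq_abs]
    have x : ∀ i, log (1 - t ^ 2 * μ i ^ 2) / 2 =
        log (t * μ i + 1) / 2 + log (-t * μ i + 1) / 2 := fun i => by
      have : |t * μ i| < 1 := by
        rw [abs_mul]
        nlinarith [lt i, abs_nonneg t, abs_nonneg (μ i)]
      rw [← add_div, ← log_mul (by linarith [(abs_lt.1 this).1]) (by linarith [(abs_lt.1 this).2])]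
      congr 2
      ring
    simp only [x, Finset.sum_add_distrib, ← Finset.sum_div]
    ring
  · refine LipschitzOnWith.of_dist_le_mul fun u (hu : s / 2 < u) v (hv : s / 2 < v) => ?_
    obtain ⟨U, d, hd⟩ := shift_form hS.1 hD r
    obtain ⟨U', d', hd'⟩ := shift_form hS.1 hD.neg r
    have z : hk S D r = ∑ i, max (d i) 0 + ∑ i, max (d' i) 0 := by
      have a := hd 0
      have b := hd' 0
      simp only [zero_smul, add_zero, mul_zero, sub_zero] at a b
      rw [hk, a, b, pp_ud, pp_ud]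
    have one : ∀ d : n → ℝ, |∑ i, max (d i - r * u) 0 - ∑ i, max (d i - r * v) 0| ≤
        (∑ i, max (d i) 0) / (s / 2) * |u - v| := fun d => by
      rw [← Finset.sum_sub_distrib, Finset.sum_div, Finset.sum_mul]
      exact (Finset.abs_sum_le_sum_abs _ _).trans (Finset.sum_le_sum fun i _ =>
        max_lip hr.1.le (by linarith) hu.le hv.le)
    have b := whk_bd hS hD h₁ h₂ ht hr
    have w := (wt_bd ht hr).1
    rw [Real.dist_eq, Real.dist_eq, ← mul_sub, abs_mul, abs_of_nonneg w, hk, hk, hd, hd, hd', hd',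
      pp_ud, pp_ud, pp_ud, pp_ud, add_sub_add_comm, coe_nnabs,
      abs_of_nonneg (div_nonneg (rt_nonneg hS) (by linarith))]
    refine (mul_le_mul_of_nonneg_left ((abs_add_le _ _).trans (add_le_add (one d) (one d')))
      w).trans ?_
    rw [← add_mul, ← add_div, ← z, ← mul_assoc, ← mul_div_assoc]
    exact mul_le_mul_of_nonneg_right (div_le_div_of_nonneg_right b (by linarith)) (abs_nonneg _)
  · obtain ⟨U, d, hd⟩ := shift_form hS.1 hD r
    obtain ⟨U', d', hd'⟩ := shift_form hS.1 hD.neg r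
    have ne : ∀ i, |μ i| ≠ r := fun i h => hr.2 ⟨i, h⟩
    have r0 := hr.1.1
    have a := pp_deriv U W hYh hZh yz (e := fun i => 1 * μ i + -r) (r := r) (t := s) (d := d)
      (by rw [← hd, ← key]; module) fun i h => ne i (by
        rw [show μ i = r by linarith, abs_of_pos r0])
    have b := pp_deriv U' W hYh hZh yz (e := fun i => -1 * μ i + -r) (r := r) (t := s) (d := d')
      (by rw [← hd', ← key]; module) fun i h => ne i (by
        rw [show μ i = -r by linarith, abs_neg, abs_of_pos r0])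
    have c := (a.add b).const_mul (wt t r)
    simp only [hk, hd, hd', pp_ud]
    refine c.congr_deriv ?_
    rw [← Finset.sum_add_distrib, Finset.mul_sum]
    refine Finset.sum_congr rfl fun i _ => ?_
    simp only [indicator_apply, mem_Iio, lt_abs]
    by_cases x : r < μ i
    · rw [if_pos (by linarith), if_neg (by linarith), if_pos (Or.inl x)]
      ring
    · by_cases y : r < -μ i
      · rw [if_neg (by linarith), if_pos (by linarith), if_pos (Or.inr y)]
        ring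
      · rw [if_neg (by linarith), if_neg (by linarith), if_neg (not_or.2 ⟨x, y⟩)]
        ring

lemma ray_hk {S D : Matrix n n ℂ} (hS : S.PosSemidef) (hD : D.IsHermitian)
    (h₁ : (S + D).PosSemidef) (h₂ : (S - D).PosSemidef) {t : ℝ} (ht : t ∈ Icc (0 : ℝ) 1) :
    Ray (fun s : ℝ => ∫ r in Ioo (0 : ℝ) 1, wt t r * hk (S + s • 1) D r) fun s =>
      ld (S + t • D + s • 1) / 2 + ld (S - t • D + s • 1) / 2 - ld (S + s • 1) := by
  have form : ∀ r, ∃ d d' : n → ℝ, ∀ s : ℝ, hk (S + s • 1) D r =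
      ∑ i, max (d i - r * s) 0 + ∑ i, max (d' i - r * s) 0 := fun r => by
    obtain ⟨U, d, hd⟩ := shift_form hS.1 hD r
    obtain ⟨U', d', hd'⟩ := shift_form hS.1 hD.neg r
    exact ⟨d, d', fun s => by rw [hk, hd, hd', pp_ud, pp_ud]⟩
  refine ⟨continuousOn_of_dominated (bound := fun _ => rt S)
    (fun s hs => whk_meas (hS.add (PosSemidef.one.smul hs)) hD t)
    (fun s hs => whk_norm hS hD h₁ h₂ ht hs) (integrable_const _) (ae_of_all _ fun r => ?_),
    fun s hs => whk_deriv hS hD h₁ h₂ ht hs, ?_⟩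
  · obtain ⟨d, d', h⟩ := form r
    simp only [h]
    fun_prop
  · have := tendsto_integral_filter_of_dominated_convergence (l := atTop)
      (μ := volume.restrict (Ioo (0 : ℝ) 1)) (F := fun s r => wt t r * hk (S + s • 1) D r)
      (f := fun _ => 0) (fun _ => rt S)
      ((eventually_ge_atTop 0).mono fun s hs => whk_meas (hS.add (PosSemidef.one.smul hs)) hD t)
      ((eventually_ge_atTop 0).mono fun s hs => whk_norm hS hD h₁ h₂ ht hs) (integrable_const _)
      ((ae_restrict_mem measurableSet_Ioo).mono fun r hr => ?_)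
    · simpa using this
    · obtain ⟨d, d', h⟩ := form r
      have one : ∀ d : n → ℝ, Tendsto (fun s => ∑ i, max (d i - r * s) 0) atTop (𝓝 0) := fun d => by
        have := tendsto_finsetSum Finset.univ fun i _ => (tendsto_const_nhds (x := (0 : ℝ))).congr'
          (f₂ := fun s => max (d i - r * s) 0) ((eventually_ge_atTop (d i / r)).mono fun s hs =>
            (max_eq_right (by rw [div_le_iff₀ hr.1] at hs; linarith)).symm)
        simpa using this
      simpa [h] using ((one d).add (one d')).const_mul (wt t r)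

/-- The integral formula for the symmetrised entropy defect. -/
lemma vn_formula {S D : Matrix n n ℂ} (hS : S.PosSemidef) (hD : D.IsHermitian)
    (h₁ : (S + D).PosSemidef) (h₂ : (S - D).PosSemidef) {t : ℝ} (ht : t ∈ Icc (0 : ℝ) 1) :
    vn S - vn (S + t • D) / 2 - vn (S - t • D) / 2 = ∫ r in Ioo (0 : ℝ) 1, wt t r * hk S D r := by
  have p₁ : (S + t • D).PosSemidef := by
    convert (hS.smul (sub_nonneg.2 ht.2)).add (h₁.smul ht.1) using 1
    module
  have p₂ : (S - t • D).PosSemidef := by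
    convert (hS.smul (sub_nonneg.2 ht.2)).add (h₂.smul ht.1) using 1
    module
  obtain ⟨f, f0, hf⟩ := ray_mat hS
  obtain ⟨g, g0, hg⟩ := ray_mat p₁
  obtain ⟨k, k0, hk'⟩ := ray_mat p₂
  have R := ((hf.sub (hg.mul (1 / 2))).sub (hk'.mul (1 / 2))).sub (ray_hk hS hD h₁ h₂ ht)
  have a := R.nonneg fun s _ => by
    simp only [rt_add, rt_sub]
    linarith
  have b := (R.mul (-1)).nonneg fun s _ => by
    simp only [rt_add, rt_sub]
    linarith
  simp only [f0, g0, k0, rt_add, rt_sub, zero_smul, add_zero] at a b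
  linarith

end Pool.Agent.MP_560646_mp

end

section

namespace Pool.Agent.MP_560646_mp

open Matrix Real Set MeasureTheory
open scoped ComplexOrder MatrixOrder

variable {n : Type} [Fintype n] [DecidableEq n]

lemma unit_ud (x : ℝ) : x • (1 : Matrix Unit Unit ℂ) = ud 1 fun _ => x := by
  rw [← ud_one 1, ud_smul]
  simp only [mul_one]

lemma hb_eq (x : ℝ) : hb x = negMulLog (1 + x) / 2 + negMulLog (1 - x) / 2 + log 2 := by
  have e : 1 - (1 - x) / 2 = 1 / 2 * (1 + x) := by ring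
  rw [hb, binEntropy_eq_negMulLog_add_negMulLog_one_sub, e, div_eq_inv_mul, ← one_div,
    negMulLog_mul, negMulLog_mul, nml_half]
  ring

lemma unit_formula {d t : ℝ} (hd : d ∈ Icc (0 : ℝ) 1) (ht : t ∈ Icc (0 : ℝ) 1) :
    IntegrableOn (fun r => wt t r * max (d - r) 0) (Ioo 0 1) ∧
      ∫ r in Ioo (0 : ℝ) 1, wt t r * max (d - r) 0 = log 2 - hb (d * t) := by
  have v : ∀ x : ℝ, vn (x • (1 : Matrix Unit Unit ℂ)) = negMulLog x := fun x => by
    simp [unit_ud, vn_ud]
  have p : ∀ x : ℝ, pp (x • (1 : Matrix Unit Unit ℂ)) = max x 0 := fun x => by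
    simp [unit_ud, pp_ud]
  have hD := herm_smul (isHermitian_one (n := Unit) (α := ℂ)) d
  have h₁ : ((1 : Matrix Unit Unit ℂ) + d • 1).PosSemidef :=
    PosSemidef.one.add (PosSemidef.one.smul hd.1)
  have h₂ : ((1 : Matrix Unit Unit ℂ) - d • 1).PosSemidef := by
    convert (PosSemidef.one (n := Unit) (R := ℂ)).smul (sub_nonneg.2 hd.2) using 1
    module
  have e : EqOn (fun r => wt t r * hk (1 : Matrix Unit Unit ℂ) (d • 1) r)
      (fun r => wt t r * max (d - r) 0) (Ioo 0 1) := fun r hr => by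
    simp only [hk, ← neg_smul, ← sub_smul, p]
    rw [max_eq_right (show -d - r ≤ 0 by linarith [hd.1, hr.1]), add_zero]
  have a := whk_int PosSemidef.one hD h₁ h₂ ht le_rfl
  rw [zero_smul, add_zero] at a
  refine ⟨a.congr_fun e measurableSet_Ioo, ?_⟩
  have b := v 1
  have c := v (1 + d * t)
  have c' := v (1 - d * t)
  rw [one_smul] at b
  rw [add_smul, one_smul, mul_comm, mul_smul] at c
  rw [sub_smul, one_smul, mul_comm, mul_smul] at c'
  rw [← setIntegral_congr_fun measurableSet_Ioo e, ← vn_formula PosSemidef.one hD h₁ h₂ ht, b, c,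
    c', hb_eq, mul_comm d, negMulLog_one]
  ring

lemma key_tangent {S D : Matrix n n ℂ} (hS : S.PosSemidef) (hD : D.IsHermitian)
    (h₁ : (S + D).PosSemidef) (h₂ : (S - D).PosSemidef) (tr : rt S = 1) {t μ : ℝ}
    (ht : t ∈ Icc (0 : ℝ) 1) (hμ : μ ∈ Icc (0 : ℝ) 1) : ∃ d ∈ Icc (0 : ℝ) 1,
      vn S - vn (S + t • D) / 2 - vn (S - t • D) / 2 -
        μ * (vn S - vn (S + D) / 2 - vn (S - D) / 2) ≤ log 2 - hb (d * t) - μ * (log 2 - hb d) := by
  have o : (1 : ℝ) ∈ Icc (0 : ℝ) 1 := right_mem_Icc.2 zero_le_one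
  obtain ⟨c, c0, c1, hc⟩ : ∃ c : ℝ, 0 ≤ c ∧ c ≤ 1 ∧ ∀ r ∈ Ioo (0 : ℝ) 1,
      (r ≤ c → 0 ≤ wt t r - μ * wt 1 r) ∧ (c ≤ r → wt t r - μ * wt 1 r ≤ 0) := by
    have t2 : t ^ 2 ≤ 1 := by nlinarith [ht.1, ht.2]
    have e : ∀ r ∈ Ioo (0 : ℝ) 1, wt t r - μ * wt 1 r = (t ^ 2 - μ - r ^ 2 * (t ^ 2 * (1 - μ))) /
        ((1 - t ^ 2 * r ^ 2) * (1 - 1 ^ 2 * r ^ 2)) := fun r hr => by
      have a := (wt_den ht hr.1.le hr.2).ne'
      have b := (wt_den o hr.1.le hr.2).ne'
      unfold wt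
      generalize hA : 1 - t ^ 2 * r ^ 2 = A at *
      generalize hB : 1 - 1 ^ 2 * r ^ 2 = B at *
      field_simp
      rw [← hA, ← hB]
      ring
    have den : ∀ r ∈ Ioo (0 : ℝ) 1, 0 ≤ (1 - t ^ 2 * r ^ 2) * (1 - 1 ^ 2 * r ^ 2) := fun r hr =>
      (mul_pos (wt_den ht hr.1.le hr.2) (wt_den o hr.1.le hr.2)).le
    have nn : 0 ≤ t ^ 2 * (1 - μ) := mul_nonneg (sq_nonneg t) (sub_nonneg.2 hμ.2)
    rcases le_or_gt (t ^ 2) μ with h | h
    · refine ⟨0, le_rfl, zero_le_one, fun r hr => ⟨fun k => absurd hr.1 (not_lt.2 k), fun _ => ?_⟩⟩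
      rw [e r hr]
      exact div_nonpos_of_nonpos_of_nonneg (by nlinarith [sq_nonneg r]) (den r hr)
    · have le : t ^ 2 - μ ≤ t ^ 2 * (1 - μ) := by nlinarith [hμ.1]
      have ps : 0 < t ^ 2 * (1 - μ) := by linarith
      have q : 0 ≤ (t ^ 2 - μ) / (t ^ 2 * (1 - μ)) := div_nonneg (by linarith) nn
      refine ⟨√((t ^ 2 - μ) / (t ^ 2 * (1 - μ))), sqrt_nonneg _,
        sqrt_le_one.2 ((div_le_one ps).2 le), fun r hr => ⟨fun k => ?_, fun k => ?_⟩⟩ <;> rw [e r hr]
      · rw [le_sqrt hr.1.le q, le_div_iff₀ ps] at k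
        exact div_nonneg (by linarith) (den r hr)
      · rw [sqrt_le_left hr.1.le, div_le_iff₀ ps] at k
        exact div_nonpos_of_nonpos_of_nonneg (by linarith) (den r hr)
  have k0 := hk_nonneg hS.1 hD c
  have k1 := hk_one h₁ h₂ hS.1 hD c0 c1
  rw [tr] at k1
  have hd : hk S D c + c ∈ Icc (0 : ℝ) 1 := ⟨by linarith, by linarith⟩
  refine ⟨_, hd, ?_⟩
  have f := vn_formula hS hD h₁ h₂ o
  have i₁ := whk_int hS hD h₁ h₂ ht le_rfl
  have i₂ := whk_int hS hD h₁ h₂ o le_rfl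
  obtain ⟨j₁, e₁⟩ := unit_formula hd ht
  obtain ⟨j₂, e₂⟩ := unit_formula hd o
  rw [one_smul] at f
  rw [mul_one] at e₂
  rw [zero_smul, add_zero] at i₁ i₂
  rw [f, vn_formula hS hD h₁ h₂ ht, ← e₁, ← e₂, ← integral_const_mul, ← integral_const_mul,
    ← integral_sub i₁ (i₂.const_mul μ), ← integral_sub j₁ (j₂.const_mul μ)]
  refine setIntegral_mono_on (i₁.sub (i₂.const_mul μ)) (j₁.sub (j₂.const_mul μ)) measurableSet_Ioo
    fun r hr => ?_
  rw [← mul_assoc, ← mul_assoc, ← sub_mul, ← sub_mul]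
  rcases le_total r c with h | h
  · have := hk_lip hS.1 hD hr.1.le h
    rw [tr] at this
    exact mul_le_mul_of_nonneg_left (le_max_of_le_left (by linarith)) ((hc r hr).1 h)
  · have := hk_lip hS.1 hD c0 h
    rw [tr] at this
    exact mul_le_mul_of_nonpos_left (max_le (by linarith) (hk_nonneg hS.1 hD r)) ((hc r hr).2 h)

lemma hb_anti {x y : ℝ} (hx : 0 ≤ x) (h : x ≤ y) (hy : y ≤ 1) : hb y ≤ hb x :=
  binEntropy_strictMonoOn.monotoneOn ⟨by linarith, by rw [← one_div]; linarith⟩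
    ⟨by linarith, by rw [← one_div]; linarith⟩ (by linarith)

/-- Mrs. Gerber's lemma for a quantum pair followed by a binary symmetric channel. -/
lemma noisy_pair {S D : Matrix n n ℂ} (hS : S.PosSemidef) (hD : D.IsHermitian)
    (h₁ : (S + D).PosSemidef) (h₂ : (S - D).PosSemidef) (tr : rt S = 1) {t x : ℝ}
    (ht : t ∈ Icc (0 : ℝ) 1) (hx : x ∈ Icc (0 : ℝ) 1)
    (e : vn S - vn (S + D) / 2 - vn (S - D) / 2 = log 2 - hb x) :
    vn S - vn (S + t • D) / 2 - vn (S - t • D) / 2 ≤ log 2 - hb (x * t) := by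
  rcases hx.1.eq_or_lt with rfl | x0
  · obtain ⟨d, hd, k⟩ := key_tangent hS hD h₁ h₂ tr ht (right_mem_Icc.2 zero_le_one)
    have := hb_anti (mul_nonneg hd.1 ht.1) (mul_le_of_le_one_right hd.1 ht.2) hd.2
    rw [zero_mul]
    linarith
  rcases hx.2.eq_or_lt with rfl | x1
  · obtain ⟨d, hd, k⟩ := key_tangent hS hD h₁ h₂ tr ht (left_mem_Icc.2 zero_le_one)
    have := hb_anti (mul_nonneg hd.1 ht.1) (mul_le_of_le_one_left ht.1 hd.2) ht.2
    rw [one_mul]
    linarith
  have a₁ : 0 ≤ x * t := mul_nonneg x0.le ht.1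
  have a₂ : x * t ≤ x := mul_le_of_le_one_right x0.le ht.2
  have a₃ := LL_nonneg a₁ (a₂.trans_lt x1)
  obtain ⟨d, hd, k⟩ := key_tangent hS hD h₁ h₂ tr ht (μ := t * LL (x * t) / LL x)
    ⟨div_nonneg (mul_nonneg ht.1 a₃) (LL_pos x0 x1).le, (div_le_one (LL_pos x0 x1)).2
      ((mul_le_of_le_one_left a₃ ht.2).trans (LL_mono a₁ a₂ x1))⟩
  have := mgl_core ⟨x0, x1⟩ ht hd
  rw [e] at k
  linarith

lemma ce_prior {P Q : Matrix n n ℂ} (hP : P.PosSemidef) (hQ : Q.PosSemidef)
    (tr : rt (P + Q) = 1) {q : ℝ} (hq : q ∈ Icc (0 : ℝ) 1) (e : binEntropy q = ce P Q) {a b : ℝ}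
    (ha : 0 ≤ a) (hb' : 0 ≤ b) :
    ce (a • P) (b • Q) + ce (b • P) (a • Q) ≤ (a + b) * Psi (b / (a + b)) q := by
  rcases (add_nonneg ha hb').eq_or_lt with h | h
  · obtain rfl : a = 0 := by linarith
    obtain rfl : b = 0 := by linarith
    have z : vn (0 : Matrix n n ℂ) = 0 := by simpa using vn_smul hP 0
    simp [ce, z]
  have two : (0 : ℝ) ≤ 2 := by norm_num
  have p₁ : (P + Q + (P - Q)) = (2 : ℝ) • P := by module
  have p₂ : (P + Q - (P - Q)) = (2 : ℝ) • Q := by module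
  have l : negMulLog 2 = -(2 * log 2) := by simp [negMulLog]
  have hp := ratio_mem ha hb'
  obtain ⟨p, hp'⟩ : ∃ p, p = b / (a + b) := ⟨_, rfl⟩
  obtain ⟨s, hs⟩ : ∃ s, s = a + b := ⟨_, rfl⟩
  have eb : b = s * p := by rw [hp', hs]; field_simp
  have ea : a = s * (1 - p) := by linarith
  rw [← hp'] at hp
  rw [← hp', ← hs]
  rw [← hs] at h
  clear hp' hs
  subst ea eb
  have t := rt_add P Q
  have k := noisy_pair (hP.add hQ) (hP.1.sub hQ.1) (p₁ ▸ hP.smul two) (p₂ ▸ hQ.smul two) tr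
    (bias_mem hp) (bias_mem hq) (by
      rw [p₁, p₂, vn_smul hP, vn_smul hQ, ← ent_hb, e, ce, l]
      linear_combination log 2 * (tr - t))
  have w : ∀ c : ℝ, c ∈ Icc (0 : ℝ) 1 → vn ((s * (1 - c)) • P + (s * c) • Q) =
      s / 2 * vn (P + Q + (1 - 2 * c) • (P - Q)) +
        negMulLog (s / 2) * (1 + (1 - 2 * c) * (rt P - rt Q)) := fun c hc => by
    have x : P + Q + (1 - 2 * c) • (P - Q) = (2 * (1 - c)) • P + (2 * c) • Q := by module
    have v := vn_smul (A := P + Q + (1 - 2 * c) • (P - Q)) (x ▸ (hP.smul (by linarith [hc.2])).add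
      (hQ.smul (by linarith [hc.1]))) (s / 2)
    rw [rt_add, tr, rt_smul, rt_sub] at v
    rw [← v]
    congr 1
    module
  have w₁ := w p hp
  have w₂ := w (1 - p) ⟨by linarith [hp.2], by linarith [hp.1]⟩
  rw [sub_sub_cancel, show 1 - 2 * (1 - p) = -(1 - 2 * p) by ring, neg_smul,
    ← sub_eq_add_neg] at w₂
  have sym : vn (P + Q + |1 - 2 * p| • (P - Q)) + vn (P + Q - |1 - 2 * p| • (P - Q)) =
      vn (P + Q + (1 - 2 * p) • (P - Q)) + vn (P + Q - (1 - 2 * p) • (P - Q)) := by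
    rcases abs_choice (1 - 2 * p) with y | y <;> rw [y]
    rw [neg_smul, sub_neg_eq_add, ← sub_eq_add_neg, add_comm]
  have y : negMulLog (s / 2) = negMulLog s / 2 + s * log 2 / 2 := by
    rw [div_eq_mul_one_div, negMulLog_mul, nml_half]
    ring
  have z := mul_le_mul_of_nonneg_left k h.le
  rw [ce, ce, w₁, w₂, vn_smul hP, vn_smul hP, vn_smul hQ, vn_smul hQ, Psi_hb, ← ent_hb, ← ent_hb, e,
    ce, binEntropy_eq_negMulLog_add_negMulLog_one_sub, negMulLog_mul, negMulLog_mul, y,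
    mul_comm |1 - 2 * p|]
  rw [tr] at t
  linear_combination z + s / 2 * sym -
    (negMulLog s + s * negMulLog p + s * negMulLog (1 - p)) * t

end Pool.Agent.MP_560646_mp

end
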